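import Pool.Agent.Ppr.Sys

/-!
# The local valuations of the differences

From `X_i^2 - X_j^2 = D (X_(σi) - X_(σj))`. Odd `p ∣ D`: `X_i ≡ ± X_(i0)` mod `p`
(`p ∣ X_i^2 - X_(i0)^2`), so two points with the same letter have
`p ∤ X_i + X_j` (it is `± 2 X_(i0)`); induction on `n`: `p^(k(n+1)) ∣ (X_i - X_j)(X_i + X_j)`.
`p = 2 ∣ D`: the `X_i` are odd, same letter means `X_i ≡ X_j` mod `4`, so `X_i + X_j` is `2` times
an odd number; `2^k · 2^((k-1)n+1) ∣ (X_i - X_j)(X_i + X_j)`.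
`ari_size`: let `B = max |X_i|`: `B^2 ≤ A + D B` (if `X_i = ±B` then
`B^2 = A + D X_(σi)`), so `B ≤ (D + sqrt(D^2+4A))/2`; if `A ≤ 16 D^2` then `B ≤ 5 D`, and if
`A > 16 D^2`: `D < sqrt A / 4`, `B ≤ (5/4) sqrt A`.
`ari_real`: `A > 16 D^2`: `X_i^2 ≥ A - D B ≥ A/4`, same sign (`0 ≤ X`): `|X_i + X_j| ≥ sqrt A`,
so `|X_i - X_j| ≤ (D/sqrt A) |X_(σi) - X_(σj)|`; induction on `n`, start `|X_i - X_j| ≤ 2B`.
-/

namespace Pool.Agent.Ppr

open Sys

variable {ι : Type} [Fintype ι] (S : Sys ι) (i0 : ι)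

/-- the largest point -/
private theorem ariA2_max (i : ι) : ∃ B : ℝ, 0 ≤ B ∧ (∀ j, |(S.X j : ℝ)| ≤ B) ∧
    B ^ 2 ≤ S.A + S.D * B := by
  classical
  have : Nonempty ι := ⟨i⟩
  obtain ⟨i₁, hi₁⟩ := Finite.exists_max fun j => |(S.X j : ℝ)|
  refine ⟨|(S.X i₁ : ℝ)|, abs_nonneg _, hi₁, ?_⟩
  have h1 : ((S.X i₁ : ℝ)) ^ 2 = S.A + S.D * S.X (S.σ i₁) := by exact_mod_cast S.hX i₁
  have h2 := (le_abs_self (S.X (S.σ i₁) : ℝ)).trans (hi₁ (S.σ i₁))
  have h3 : (0 : ℝ) ≤ S.D := Nat.cast_nonneg _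
  rw [sq_abs, h1]
  have := mul_le_mul_of_nonneg_left h2 h3
  linarith

theorem ari_size (i : ι) : |(S.X i : ℝ)| ≤ 5 * Real.exp S.HH := by
  obtain ⟨B, hB, hmax, hB2⟩ := ariA2_max S i
  have hD : (0 : ℝ) < S.D := by exact_mod_cast S.hD
  obtain ⟨hE, hA⟩ : (S.D : ℝ) ≤ Real.exp S.HH ∧ (S.A : ℝ) ≤ 16 * Real.exp S.HH ^ 2 := by
    unfold HH hh
    by_cases h : 16 * (S.D : ℤ) ^ 2 < S.A
    · have hA : 16 * (S.D : ℝ) ^ 2 < S.A := by exact_mod_cast h
      have hA0 : (0 : ℝ) < S.A := lt_trans (by positivity) hA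
      have hs : 0 < Real.sqrt S.A := Real.sqrt_pos.2 hA0
      have hss := Real.sq_sqrt hA0.le
      simp only [if_pos h]
      rw [Real.exp_add, Real.exp_log hD, Real.exp_log (div_pos hs hD),
        mul_div_cancel₀ _ hD.ne']
      constructor
      · refine Real.le_sqrt_of_sq_le ?_
        nlinarith
      · rw [hss]
        linarith
    · have hA : (S.A : ℝ) ≤ 16 * (S.D : ℝ) ^ 2 := by exact_mod_cast not_lt.1 h
      simp only [if_neg h]
      rw [add_zero, Real.exp_log hD]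
      exact ⟨le_rfl, hA⟩
  have hE0 : 0 < Real.exp S.HH := Real.exp_pos _
  refine (hmax i).trans ?_
  by_contra hcon
  push Not at hcon
  have h1 : (S.D : ℝ) * B ≤ Real.exp S.HH * B := mul_le_mul_of_nonneg_right hE hB
  nlinarith

/-- the sharp size at a large real place -/
private theorem ariA2_size (hA : 16 * (S.D : ℤ) ^ 2 < S.A) (i : ι) :
    |(S.X i : ℝ)| ≤ 5 / 4 * Real.sqrt S.A := by
  obtain ⟨B, hB, hmax, hB2⟩ := ariA2_max S i
  have hD : (0 : ℝ) < S.D := by exact_mod_cast S.hD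
  have hA' : 16 * (S.D : ℝ) ^ 2 < S.A := by exact_mod_cast hA
  have hA0 : (0 : ℝ) < S.A := lt_trans (by positivity) hA'
  have hs : 0 < Real.sqrt S.A := Real.sqrt_pos.2 hA0
  have hss := Real.sq_sqrt hA0.le
  have hDs : (S.D : ℝ) ≤ Real.sqrt S.A / 4 := by
    rw [le_div_iff₀ (by norm_num)]
    refine Real.le_sqrt_of_sq_le ?_
    nlinarith
  refine (hmax i).trans ?_
  by_contra hcon
  push Not at hcon
  have h1 : (S.D : ℝ) * B ≤ Real.sqrt S.A / 4 * B := mul_le_mul_of_nonneg_right hDs hB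
  nlinarith

/-- the points are large at a large real place -/
private theorem ariA2_low (hA : 16 * (S.D : ℤ) ^ 2 < S.A) (i : ι) :
    Real.sqrt S.A / 2 ≤ |(S.X i : ℝ)| := by
  have hD : (0 : ℝ) < S.D := by exact_mod_cast S.hD
  have hA' : 16 * (S.D : ℝ) ^ 2 < S.A := by exact_mod_cast hA
  have hA0 : (0 : ℝ) < S.A := lt_trans (by positivity) hA'
  have hs : 0 < Real.sqrt S.A := Real.sqrt_pos.2 hA0
  have hss := Real.sq_sqrt hA0.le
  have hDs : (S.D : ℝ) ≤ Real.sqrt S.A / 4 := by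
    rw [le_div_iff₀ (by norm_num)]
    refine Real.le_sqrt_of_sq_le ?_
    nlinarith
  have h1 : ((S.X i : ℝ)) ^ 2 = S.A + S.D * S.X (S.σ i) := by exact_mod_cast S.hX i
  have h2 := (neg_le_neg (ariA2_size S hA (S.σ i))).trans (neg_abs_le (S.X (S.σ i) : ℝ))
  have h3 : -((S.D : ℝ) * (5 / 4 * Real.sqrt S.A)) ≤ S.D * S.X (S.σ i) := by
    have := mul_le_mul_of_nonneg_left h2 hD.le
    linarith
  have h4 : (S.D : ℝ) * (5 / 4 * Real.sqrt S.A) ≤
      Real.sqrt S.A / 4 * (5 / 4 * Real.sqrt S.A) :=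
    mul_le_mul_of_nonneg_right hDs (by positivity)
  refine abs_le_of_sq_le_sq' ?_ (abs_nonneg _) |>.2
  rw [sq_abs, h1]
  nlinarith

theorem ari_real (hA : 16 * (S.D : ℤ) ^ 2 < S.A) {n : ℕ} {i j : ι}
    (h : agr S.σ (S.wd i0 none) n i j) :
    |(S.X i - S.X j : ℝ)| ≤ 3 * Real.sqrt S.A * (S.D / Real.sqrt S.A) ^ n := by
  have hD : (0 : ℝ) < S.D := by exact_mod_cast S.hD
  have hA' : 16 * (S.D : ℝ) ^ 2 < S.A := by exact_mod_cast hA
  have hA0 : (0 : ℝ) < S.A := lt_trans (by positivity) hA'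
  have hs : 0 < Real.sqrt S.A := Real.sqrt_pos.2 hA0
  induction n generalizing i j with
  | zero =>
    rw [pow_zero, mul_one]
    have h1 := ariA2_size S hA i
    have h2 := ariA2_size S hA j
    have h3 := abs_sub (S.X i : ℝ) (S.X j)
    linarith
  | succ n ih =>
    have h1 : agr S.σ (S.wd i0 none) n (S.σ i) (S.σ j) := by
      intro k hk
      have := h (k + 1) (Nat.succ_lt_succ hk)
      rwa [Function.iterate_succ_apply, Function.iterate_succ_apply] at this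
    have h2 := ih h1
    have h0 : (0 ≤ S.X i) ↔ (0 ≤ S.X j) := by
      have h3 := h 0 (Nat.succ_pos n)
      simpa [wd] using h3
    have e1 : ((S.X i : ℝ) - S.X j) * (S.X i + S.X j) =
        S.D * (S.X (S.σ i) - S.X (S.σ j)) := by
      have e2 : ((S.X i : ℝ)) ^ 2 = S.A + S.D * S.X (S.σ i) := by exact_mod_cast S.hX i
      have e3 : ((S.X j : ℝ)) ^ 2 = S.A + S.D * S.X (S.σ j) := by exact_mod_cast S.hX j
      linear_combination e2 - e3
    have hlow : Real.sqrt S.A ≤ |(S.X i : ℝ) + S.X j| := by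
      have l1 := ariA2_low S hA i
      have l2 := ariA2_low S hA j
      by_cases hi : 0 ≤ S.X i
      · have hj := h0.1 hi
        have hi' : (0 : ℝ) ≤ S.X i := by exact_mod_cast hi
        have hj' : (0 : ℝ) ≤ S.X j := by exact_mod_cast hj
        rw [abs_of_nonneg hi'] at l1
        rw [abs_of_nonneg hj'] at l2
        rw [abs_of_nonneg (add_nonneg hi' hj')]
        linarith
      · have hj : ¬ 0 ≤ S.X j := fun hj => hi (h0.2 hj)
        have hi' : (S.X i : ℝ) < 0 := by exact_mod_cast not_le.1 hi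
        have hj' : (S.X j : ℝ) < 0 := by exact_mod_cast not_le.1 hj
        rw [abs_of_neg hi'] at l1
        rw [abs_of_neg hj'] at l2
        rw [abs_of_neg (add_neg hi' hj')]
        linarith
    have e2 : |(S.X i : ℝ) - S.X j| * |(S.X i : ℝ) + S.X j| =
        S.D * |(S.X (S.σ i) : ℝ) - S.X (S.σ j)| := by
      rw [← abs_mul, e1, abs_mul, abs_of_pos hD]
    have h3 : |(S.X i : ℝ) - S.X j| * Real.sqrt S.A ≤
        S.D * (3 * Real.sqrt S.A * (S.D / Real.sqrt S.A) ^ n) :=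
      (mul_le_mul_of_nonneg_left hlow (abs_nonneg _)).trans
        (e2.le.trans (mul_le_mul_of_nonneg_left h2 hD.le))
    have e3 : (3 * Real.sqrt S.A * (S.D / Real.sqrt S.A) ^ (n + 1)) * Real.sqrt S.A =
        S.D * (3 * Real.sqrt S.A * (S.D / Real.sqrt S.A) ^ n) := by
      rw [pow_succ]
      field_simp
    rw [← e3] at h3
    exact le_of_mul_le_mul_right h3 hs

end Pool.Agent.Ppr
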