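import Pool.Agent.Ppr.Sys

/-!
# The local valuations of the differences

From `X_i^2 - X_j^2 = D (X_(σi) - X_(σj))`. Odd `p ∣ D`: `X_i ≡ ± X_(i0)` mod `p`
(`p ∣ X_i^2 - X_(i0)^2`), so two points with the same letter have
`p ∤ X_i + X_j` (it is `± 2 X_(i0)`); induction on `n`: `p^(k(n+1)) ∣ (X_i - X_j)(X_i + X_j)`.
`p = 2 ∣ D`: the `X_i` are odd, same letter means `X_i ≡ X_j` mod `4`, so `X_i + X_j` is `2` times
an odd number; `2^k · 2^((k-1)n+1) ∣ (X_i - X_j)(X_i + X_j)`.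
`ari_size`: let `B = max |X_i|`: `B^2 ≤ A + D B` (if `X_i = ±B` then
`B^2 = A + D X_(σi)`), so `B ≤ (D + sqrt(D^2+4A))/2`; if `A ≤ 16 D^2` then `B ≤ 5 D`, and if
`A > 16 D^2`: `D < sqrt A / 4`, `B ≤ (5/4) sqrt A`.
`ari_real`: `A > 16 D^2`: `X_i^2 ≥ A - D B ≥ A/4`, same sign (`0 ≤ X`): `|X_i + X_j| ≥ sqrt A`,
so `|X_i - X_j| ≤ (D/sqrt A) |X_(σi) - X_(σj)|`; induction on `n`, start `|X_i - X_j| ≤ 2B`.
-/

namespace Pool.Agent.Ppr

open Sys

variable {ι : Type} [Fintype ι] (S : Sys ι) (i0 : ι)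

omit [Fintype ι] in
theorem agr_tail_AriA1 {w : ι → Bool} {σ : ι → ι} {n : ℕ} {i j : ι} (h : agr σ w (n + 1) i j) :
    w i = w j ∧ agr σ w n (σ i) (σ j) := by
  refine ⟨h 0 (Nat.succ_pos n), fun k hk => ?_⟩
  have h1 := h (k + 1) (Nat.succ_lt_succ hk)
  rw [Function.iterate_succ_apply, Function.iterate_succ_apply] at h1
  exact h1

theorem diff_AriA1 (i j : ι) :
    (S.X i + S.X j) * (S.X i - S.X j) = S.D * (S.X (S.σ i) - S.X (S.σ j)) := by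
  have h1 := S.hX i
  have h2 := S.hX j
  linear_combination h1 - h2

theorem odd_dvd_AriA1 {p : ℕ} (hp : p.Prime) (hpD : p ∣ S.D) (i j : ι) :
    (p : ℤ) ∣ S.X i - S.X j ∨ (p : ℤ) ∣ S.X i + S.X j := by
  have hD : (p : ℤ) ∣ (S.D : ℤ) := Int.natCast_dvd_natCast.2 hpD
  have h1 : (p : ℤ) ∣ (S.X i + S.X j) * (S.X i - S.X j) := by
    rw [diff_AriA1]
    exact Dvd.dvd.mul_right hD _
  rcases (Nat.prime_iff_prime_int.1 hp).dvd_or_dvd h1 with h | h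
  · exact Or.inr h
  · exact Or.inl h

theorem odd_sum_AriA1 {p : ℕ} (hp : p.Prime) (hp2 : p ≠ 2) (hpD : p ∣ S.D) {i j : ι}
    (h : S.wd i0 (some p) i = S.wd i0 (some p) j) : ¬ (p : ℤ) ∣ S.X i + S.X j := by
  intro hs
  have hpi := Nat.prime_iff_prime_int.1 hp
  have key : ∀ a : ℤ, (p : ℤ) ∣ 2 * a → (p : ℤ) ∣ a := by
    intro a ha
    rcases hpi.dvd_or_dvd ha with h2 | h2
    · exfalso
      have h3 : p ∣ 2 := by exact_mod_cast h2
      exact hp2 ((Nat.prime_dvd_prime_iff_eq hp Nat.prime_two).1 h3)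
    · exact h2
  simp only [Sys.wd, hp2, if_false, decide_eq_decide] at h
  refine S.cop p hp hpD i (key _ ?_)
  by_cases hi : (p : ℤ) ∣ S.X i - S.X i0
  · have hj := h.1 hi
    have h1 : 2 * S.X i = (S.X i + S.X j) + (S.X i - S.X i0) - (S.X j - S.X i0) := by ring
    rw [h1]
    exact dvd_sub (dvd_add hs hi) hj
  · have hj : ¬ (p : ℤ) ∣ S.X j - S.X i0 := fun h' => hi (h.2 h')
    have hi' := (odd_dvd_AriA1 S hp hpD i i0).resolve_left hi
    have hj' := (odd_dvd_AriA1 S hp hpD j i0).resolve_left hj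
    have h1 : 2 * S.X i = (S.X i + S.X j) + (S.X i + S.X i0) - (S.X j + S.X i0) := by ring
    rw [h1]
    exact dvd_sub (dvd_add hs hi') hj'

theorem ari_odd {p : ℕ} (hp : p.Prime) (hp2 : p ≠ 2) (hpD : p ∣ S.D) {n : ℕ} {i j : ι}
    (h : agr S.σ (S.wd i0 (some p)) n i j) :
    (p : ℤ) ^ (S.D.factorization p * n) ∣ S.X i - S.X j := by
  induction n generalizing i j with
  | zero => rw [Nat.mul_zero, pow_zero]; exact one_dvd _
  | succ n ih =>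
    obtain ⟨h1, h2⟩ := agr_tail_AriA1 h
    have h3 := ih h2
    have h4 := odd_sum_AriA1 S i0 hp hp2 hpD h1
    have hD : (p : ℤ) ^ (S.D.factorization p) ∣ (S.D : ℤ) := by
      have := Nat.ordProj_dvd S.D p
      exact_mod_cast this
    have h5 : (p : ℤ) ^ (S.D.factorization p * (n + 1)) ∣
        (S.X i + S.X j) * (S.X i - S.X j) := by
      rw [diff_AriA1, Nat.mul_succ, Nat.add_comm, pow_add]
      exact mul_dvd_mul hD h3
    have h6 : IsCoprime ((p : ℤ) ^ (S.D.factorization p * (n + 1))) (S.X i + S.X j) := by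
      refine IsCoprime.pow_left ?_
      exact (Prime.coprime_iff_not_dvd (Nat.prime_iff_prime_int.1 hp)).2 h4
    exact h6.dvd_of_dvd_mul_left h5

theorem two_sum_AriA1 (hD : 2 ∣ S.D) {i j : ι}
    (h : S.wd i0 (some 2) i = S.wd i0 (some 2) j) : ∃ m : ℤ, S.X i + S.X j = 2 * (2 * m + 1) := by
  simp only [Sys.wd, if_true, decide_eq_decide] at h
  have hi : ¬ (2 : ℤ) ∣ S.X i := S.cop 2 Nat.prime_two hD i
  have hj : ¬ (2 : ℤ) ∣ S.X j := S.cop 2 Nat.prime_two hD j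
  by_cases h4 : (4 : ℤ) ∣ S.X i - 1
  · have h5 := h.1 h4
    refine ⟨(S.X i + S.X j - 2) / 4, ?_⟩
    omega
  · have h5 : ¬ (4 : ℤ) ∣ S.X j - 1 := fun h' => h4 (h.2 h')
    refine ⟨(S.X i + S.X j - 2) / 4, ?_⟩
    omega

theorem ari_two (hD : 2 ∣ S.D) {n : ℕ} {i j : ι} (h : agr S.σ (S.wd i0 (some 2)) n i j) :
    (2 : ℤ) ^ ((S.D.factorization 2 - 1) * n + 1) ∣ S.X i - S.X j := by
  have hk : 1 ≤ S.D.factorization 2 :=
    (Nat.Prime.dvd_iff_one_le_factorization Nat.prime_two S.hD.ne').1 hD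
  obtain ⟨k, hk'⟩ : ∃ k, S.D.factorization 2 = k + 1 := ⟨_, (Nat.sub_add_cancel hk).symm⟩
  have hD' : (2 : ℤ) ^ (k + 1) ∣ (S.D : ℤ) := by
    have := Nat.ordProj_dvd S.D 2
    rw [hk'] at this
    exact_mod_cast this
  rw [hk', Nat.add_sub_cancel]
  induction n generalizing i j with
  | zero =>
    rw [Nat.mul_zero, Nat.zero_add, pow_one]
    have hi : ¬ (2 : ℤ) ∣ S.X i := S.cop 2 Nat.prime_two hD i
    have hj : ¬ (2 : ℤ) ∣ S.X j := S.cop 2 Nat.prime_two hD j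
    omega
  | succ n ih =>
    obtain ⟨h1, h2⟩ := agr_tail_AriA1 h
    have h3 := ih h2
    obtain ⟨m, hm⟩ := two_sum_AriA1 S i0 hD h1
    have h5 : (2 : ℤ) * 2 ^ (k * (n + 1) + 1) ∣ 2 * ((2 * m + 1) * (S.X i - S.X j)) := by
      have h6 : 2 * ((2 * m + 1) * (S.X i - S.X j)) = (S.X i + S.X j) * (S.X i - S.X j) := by
        rw [hm]; ring
      rw [h6, diff_AriA1]
      have h7 : (2 : ℤ) * 2 ^ (k * (n + 1) + 1) = 2 ^ (k + 1) * 2 ^ (k * n + 1) := by ring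
      rw [h7]
      exact mul_dvd_mul hD' h3
    have h6 : (2 : ℤ) ^ (k * (n + 1) + 1) ∣ (2 * m + 1) * (S.X i - S.X j) :=
      (mul_dvd_mul_iff_left (by norm_num)).1 h5
    have h7 : IsCoprime ((2 : ℤ) ^ (k * (n + 1) + 1)) (2 * m + 1) :=
      IsCoprime.pow_left ⟨-m, 1, by ring⟩
    exact h7.dvd_of_dvd_mul_left h6

end Pool.Agent.Ppr
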