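import Pool.Agent.Ppr.AriA

/-!
# Lemma 1: the product formula for the differences

`ari_energy`. Let `i ≠ j` and `L v` = the number of `n ∈ [1, n0]` with `agr … n i j`
(`agr` is antitone in `n`, so `agr … (L v) i j`). For every `p ∣ D`, `p^(e_p) ∣ X_i - X_j` with
`e_p log p ≥ hh (some p) · L (some p)` (`ari_odd`, `ari_two`); the prime powers are coprime, so
their product is `≤ |X_i - X_j|` (not zero, `inj`). If `A ≤ 16 D^2` then `hh none = 0` and
`|X_i - X_j| ≤ 10 D`. If `A > 16 D^2` then (`ari_real`)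
`log |X_i - X_j| ≤ log 3 + log D + hh none - L none · hh none`. So the sum is at most
`HH + log 10`.
`sum_hh`: `log D = ∑ (factorization p) log p`, the place `2` loses at most `log 2`.
`log_D_ge`: `D ≥ ` the product of `s` different primes `≥ (s+1)! ` (the `k`-th prime is
`≥ k + 1`); `(s+1)! ≥ (s/e)^s`, so `log D ≥ s log s - s`.
-/

namespace Pool.Agent.Ppr

open Sys

variable {ι : Type} [Fintype ι] (S : Sys ι) (i0 : ι)

theorem hh_none : S.hh none =
    if 16 * (S.D : ℤ) ^ 2 < S.A then Real.log (Real.sqrt S.A / S.D) else 0 := by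
  unfold Sys.hh
  rfl

theorem hh_some (p : ℕ) : S.hh (some p) =
    if p = 2 then ((S.D.factorization 2 - 1 : ℕ) : ℝ) * Real.log 2 else
      (S.D.factorization p : ℝ) * Real.log p := by
  unfold Sys.hh
  rfl

theorem hh_nonneg (v : Option ℕ) : 0 ≤ S.hh v := by
  cases v with
  | none =>
    rw [hh_none]
    split_ifs with h
    · have hD : (0 : ℝ) < S.D := by exact_mod_cast S.hD
      apply Real.log_nonneg
      rw [le_div_iff₀ hD, one_mul]
      apply Real.le_sqrt_of_sq_le
      have h2 : (16 * (S.D : ℝ) ^ 2) < (S.A : ℝ) := by exact_mod_cast h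
      nlinarith [sq_nonneg (S.D : ℝ)]
    · exact le_rfl
  | some p =>
    rw [hh_some]
    split_ifs with h
    · exact mul_nonneg (Nat.cast_nonneg _) (Real.log_nonneg (by norm_num))
    · exact mul_nonneg (Nat.cast_nonneg _) (Real.log_natCast_nonneg p)

theorem log_D_eq : Real.log S.D = ∑ p ∈ S.D.primeFactors,
    (S.D.factorization p : ℝ) * Real.log p := by
  rw [Real.log_nat_eq_sum_factorization, Finsupp.sum, Nat.support_factorization]

theorem sum_pl : ∑ v ∈ S.pl, S.hh v = S.hh none + ∑ p ∈ S.D.primeFactors, S.hh (some p) := by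
  unfold Sys.pl
  rw [Finset.sum_insertNone]

theorem hh_some_le (p : ℕ) : S.hh (some p) ≤ (S.D.factorization p : ℝ) * Real.log p := by
  rw [hh_some]
  split_ifs with h
  · subst h
    have h2 : ((S.D.factorization 2 - 1 : ℕ) : ℝ) ≤ (S.D.factorization 2 : ℝ) := by
      exact_mod_cast Nat.sub_le _ _
    exact mul_le_mul_of_nonneg_right h2 (Real.log_nonneg (by norm_num))
  · exact le_rfl

theorem sum_hh : S.HH - Real.log 2 ≤ ∑ v ∈ S.pl, S.hh v := by
  rw [sum_pl]
  unfold Sys.HH
  rw [log_D_eq]
  have hl2 : 0 ≤ Real.log 2 := Real.log_nonneg (by norm_num)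
  have key : ∑ p ∈ S.D.primeFactors, (S.D.factorization p : ℝ) * Real.log p
      ≤ ∑ p ∈ S.D.primeFactors, S.hh (some p) + Real.log 2 := by
    have h1 : ∀ p ∈ S.D.primeFactors, (S.D.factorization p : ℝ) * Real.log p
        ≤ S.hh (some p) + (if p = 2 then Real.log 2 else 0) := by
      intro p _
      rw [hh_some]
      split_ifs with h
      · subst h
        have h3 : (S.D.factorization 2 : ℝ) ≤ ((S.D.factorization 2 - 1 : ℕ) : ℝ) + 1 := by
          have : S.D.factorization 2 ≤ (S.D.factorization 2 - 1) + 1 := by omega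
          exact_mod_cast this
        have h4 := mul_le_mul_of_nonneg_right h3 hl2
        push_cast at h4 ⊢
        linarith
      · linarith
    refine le_trans (Finset.sum_le_sum h1) ?_
    rw [Finset.sum_add_distrib]
    have h5 : ∑ p ∈ S.D.primeFactors, (if p = 2 then Real.log 2 else 0) ≤ Real.log 2 := by
      rw [Finset.sum_ite_eq']
      split_ifs
      · exact le_rfl
      · exact hl2
    linarith
  linarith

theorem sum_hh_le : ∑ v ∈ S.pl, S.hh v ≤ S.HH := by
  rw [sum_pl]
  unfold Sys.HH
  rw [log_D_eq]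
  have := Finset.sum_le_sum (fun p (_ : p ∈ S.D.primeFactors) => hh_some_le S p)
  linarith

theorem factorial_le_prod (s : ℕ) : ∀ (P : Finset ℕ), (∀ p ∈ P, 0 < p) → P.card = s →
    s.factorial ≤ ∏ p ∈ P, p := by
  induction s with
  | zero =>
    intro P _ h
    rw [Finset.card_eq_zero] at h
    subst h
    simp
  | succ s ih =>
    intro P hP h
    have hne : P.Nonempty := by
      rw [← Finset.card_pos, h]; omega
    have hmem := Finset.max'_mem P hne
    set m := P.max' hne with hm
    have hsub : P ⊆ Finset.Icc 1 m := by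
      intro p hp
      rw [Finset.mem_Icc]
      exact ⟨hP p hp, Finset.le_max' P p hp⟩
    have hcard : s + 1 ≤ m := by
      have := Finset.card_le_card hsub
      rw [h, Nat.card_Icc] at this
      omega
    have h2 := ih (P.erase m) (fun p hp => hP p (Finset.mem_of_mem_erase hp))
      (by rw [Finset.card_erase_of_mem hmem, h]; rfl)
    rw [← Finset.mul_prod_erase P (fun p => p) hmem, Nat.factorial_succ]
    exact Nat.mul_le_mul hcard h2

theorem log_D_ge (s : ℕ) (hs : s = S.D.primeFactors.card) (h1 : 1 ≤ s) :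
    s * Real.log s - s ≤ Real.log S.D := by
  have hD := S.hD
  have h2 : s.factorial ≤ S.D := by
    refine le_trans (factorial_le_prod s S.D.primeFactors
      (fun p hp => (Nat.prime_of_mem_primeFactors hp).pos) hs.symm) ?_
    exact Nat.le_of_dvd hD (Nat.prod_primeFactors_dvd S.D)
  have h3 : (s.factorial : ℝ) ≤ S.D := by exact_mod_cast h2
  have h4 : (0 : ℝ) < s.factorial := by exact_mod_cast Nat.factorial_pos s
  have hs0 : (0 : ℝ) < s := by exact_mod_cast h1
  have h5 := Real.pow_div_factorial_le_exp (s : ℝ) hs0.le s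
  rw [div_le_iff₀ h4] at h5
  have h6 : (s : ℝ) ^ s ≤ Real.exp s * S.D :=
    le_trans h5 (mul_le_mul_of_nonneg_left h3 (Real.exp_pos _).le)
  have h7 := Real.log_le_log (pow_pos hs0 s) h6
  have hD' : (S.D : ℝ) ≠ 0 := by exact_mod_cast hD.ne'
  rw [Real.log_pow, Real.log_mul (Real.exp_pos _).ne' hD', Real.log_exp] at h7
  linarith

theorem HH_nonneg : 0 ≤ S.HH := by
  unfold Sys.HH
  exact add_nonneg (Real.log_natCast_nonneg _) (hh_nonneg S none)

/-- a trivial bound of the number of points -/
theorem card_le : (Fintype.card ι : ℝ) ≤ 11 * Real.exp S.HH := by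
  classical
  have h1 : 1 ≤ Real.exp S.HH := Real.one_le_exp (HH_nonneg S)
  set B : ℕ := ⌊5 * Real.exp S.HH⌋₊ with hB
  have hBle : (B : ℝ) ≤ 5 * Real.exp S.HH := Nat.floor_le (by positivity)
  have hsub : Finset.univ.image S.X ⊆ Finset.Icc (-(B : ℤ)) B := by
    intro x hx
    rw [Finset.mem_image] at hx
    obtain ⟨i, _, rfl⟩ := hx
    have h2 := ari_size S i
    have h3 : ((S.X i).natAbs : ℝ) ≤ 5 * Real.exp S.HH := by
      rw [Nat.cast_natAbs, Int.cast_abs]
      exact h2
    have h4 : (S.X i).natAbs ≤ B := Nat.le_floor h3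
    rw [Finset.mem_Icc]
    omega
  have hc := Finset.card_le_card hsub
  rw [Finset.card_image_of_injective _ S.inj, Finset.card_univ, Int.card_Icc] at hc
  have hc2 : Fintype.card ι ≤ 2 * B + 1 := by omega
  have hc3 : (Fintype.card ι : ℝ) ≤ 2 * B + 1 := by exact_mod_cast hc2
  linarith

end Pool.Agent.Ppr
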