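import Pool.Agent.Ppr.AriB1

/-!
# Lemma 1: the product formula for the differences

`ari_energy`. Let `i ≠ j` and `L v` = the number of `n ∈ [1, n0]` with `agr … n i j`
(`agr` is antitone in `n`, so `agr … (L v) i j`). For every `p ∣ D`, `p^(e_p) ∣ X_i - X_j` with
`e_p log p ≥ hh (some p) · L (some p)` (`ari_odd`, `ari_two`); the prime powers are coprime, so
their product is `≤ |X_i - X_j|` (not zero, `inj`). If `A ≤ 16 D^2` then `hh none = 0` and
`|X_i - X_j| ≤ 10 D`. If `A > 16 D^2` then (`ari_real`)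
`log |X_i - X_j| ≤ log 3 + log D + hh none - L none · hh none`. So the sum is at most
`HH + log 10`.
`sum_hh`: `log D = ∑ (factorization p) log p`, the place `2` loses at most `log 2`.
`log_D_ge`: `D ≥ ` the product of `s` different primes `≥ (s+1)! ` (the `k`-th prime is
`≥ k + 1`); `(s+1)! ≥ (s/e)^s`, so `log D ≥ s log s - s`.
-/

namespace Pool.Agent.Ppr

open Sys

variable {ι : Type} [Fintype ι] (S : Sys ι) (i0 : ι)

/-- an initial segment -/
private theorem seg_AriB2 {Q : ℕ → Prop} [DecidablePred Q] (h0 : Q 0)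
    (hQ : ∀ m n, m ≤ n → Q n → Q m) (n0 : ℕ) :
    Q ((Finset.Icc 1 n0).filter Q).card := by
  by_contra hcon
  have h1 : (Finset.Icc 1 n0).filter Q ⊆
      Finset.Icc 1 (((Finset.Icc 1 n0).filter Q).card - 1) := by
    intro n hn
    rw [Finset.mem_filter, Finset.mem_Icc] at hn
    rw [Finset.mem_Icc]
    refine ⟨hn.1.1, ?_⟩
    by_contra h
    exact hcon (hQ _ n (by omega) hn.2)
  have h2 := Finset.card_le_card h1
  rw [Nat.card_Icc] at h2
  have h3 : ((Finset.Icc 1 n0).filter Q).card = 0 := by omega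
  rw [h3] at hcon
  exact hcon h0

private theorem agr_anti_AriB2 {ι : Type} (σ : ι → ι) (w : ι → Bool) (i j : ι) (m n : ℕ)
    (hmn : m ≤ n) (h : agr σ w n i j) : agr σ w m i j :=
  fun k hk => h k (lt_of_lt_of_le hk hmn)

private theorem hh_some_AriB2 (p : ℕ) : S.hh (some p) = if p = 2 then
    ((S.D.factorization 2 - 1 : ℕ) : ℝ) * Real.log 2 else
      (S.D.factorization p : ℝ) * Real.log p := rfl

/-- the finite places -/
private theorem fin_AriB2 {i j : ι} (hij : i ≠ j) (L : ℕ → ℕ)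
    (hL : ∀ p ∈ S.D.primeFactors, agr S.σ (S.wd i0 (some p)) (L p) i j) :
    ∑ p ∈ S.D.primeFactors, S.hh (some p) * L p ≤ Real.log |(S.X i - S.X j : ℝ)| := by
  have hne : S.X i - S.X j ≠ 0 := sub_ne_zero.2 fun h => hij (S.inj h)
  obtain ⟨e, he⟩ : ∃ e : ℕ → ℕ, ∀ p, e p = if p = 2 then
      (S.D.factorization 2 - 1) * L 2 + 1 else S.D.factorization p * L p :=
    ⟨_, fun _ => rfl⟩
  have hdvd : (∏ p ∈ S.D.primeFactors, ((p : ℤ)) ^ e p) ∣ S.X i - S.X j := by
    refine Finset.prod_dvd_of_coprime ?_ ?_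
    · intro p hp q hq hpq
      have hp' := Nat.prime_of_mem_primeFactors (Finset.mem_coe.1 hp)
      have hq' := Nat.prime_of_mem_primeFactors (Finset.mem_coe.1 hq)
      exact IsCoprime.pow (Nat.isCoprime_iff_coprime.2 ((Nat.coprime_primes hp' hq').2 hpq))
    · intro p hp
      have hp' := Nat.prime_of_mem_primeFactors hp
      have hpD := Nat.dvd_of_mem_primeFactors hp
      rw [he]
      by_cases h2 : p = 2
      · subst h2
        rw [if_pos rfl]
        exact ari_two S i0 hpD (hL 2 hp)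
      · rw [if_neg h2]
        exact ari_odd S i0 hp' h2 hpD (hL p hp)
  have hpos : (0 : ℤ) < ∏ p ∈ S.D.primeFactors, ((p : ℤ)) ^ e p := by
    refine Finset.prod_pos fun p hp => ?_
    have hp' := (Nat.prime_of_mem_primeFactors hp).pos
    positivity
  have hle : (∏ p ∈ S.D.primeFactors, ((p : ℤ)) ^ e p) ≤ |S.X i - S.X j| :=
    Int.le_of_dvd (abs_pos.2 hne) ((dvd_abs _ _).2 hdvd)
  have hle' : (∏ p ∈ S.D.primeFactors, ((p : ℝ)) ^ e p) ≤ |(S.X i - S.X j : ℝ)| := by
    have h3 : ((∏ p ∈ S.D.primeFactors, ((p : ℤ)) ^ e p : ℤ) : ℝ) ≤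
        ((|S.X i - S.X j| : ℤ) : ℝ) := Int.cast_le.2 hle
    push_cast at h3
    exact h3
  have hlog : Real.log (∏ p ∈ S.D.primeFactors, ((p : ℝ)) ^ e p) =
      ∑ p ∈ S.D.primeFactors, e p * Real.log p := by
    rw [Real.log_prod fun p hp => by
      have hp' := (Nat.prime_of_mem_primeFactors hp).pos
      positivity]
    exact Finset.sum_congr rfl fun p _ => Real.log_pow _ _
  have hpos' : (0 : ℝ) < ∏ p ∈ S.D.primeFactors, ((p : ℝ)) ^ e p := by
    refine Finset.prod_pos fun p hp => ?_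
    have hp' := (Nat.prime_of_mem_primeFactors hp).pos
    positivity
  refine le_trans ?_ (Real.log_le_log hpos' hle')
  rw [hlog]
  refine Finset.sum_le_sum fun p hp => ?_
  have hp1 : (1 : ℝ) ≤ p := by
    exact_mod_cast (Nat.prime_of_mem_primeFactors hp).one_le
  have hlp : 0 ≤ Real.log p := Real.log_nonneg hp1
  rw [he, hh_some_AriB2]
  by_cases h2 : p = 2
  · subst h2
    rw [if_pos rfl, if_pos rfl, Nat.cast_add, Nat.cast_mul, Nat.cast_one]
    have h3 : Real.log ((2 : ℕ) : ℝ) = Real.log 2 := by norm_num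
    rw [h3] at hlp ⊢
    nlinarith
  · rw [if_neg h2, if_neg h2, Nat.cast_mul]
    have h3 : (S.D.factorization p : ℝ) * Real.log p * L p =
        S.D.factorization p * L p * Real.log p := by ring
    exact h3.le

open Classical in
theorem ari_energy (n0 : ℕ) {i j : ι} (hij : i ≠ j) :
    ∑ n ∈ Finset.Icc 1 n0, ∑ v ∈ S.pl,
      S.hh v * (if agr S.σ (S.wd i0 v) n i j then (1 : ℝ) else 0) ≤ S.HH + Real.log 10 := by
  classical
  obtain ⟨L, hLd⟩ : ∃ L : Option ℕ → ℕ, ∀ v, L v =
      ((Finset.Icc 1 n0).filter fun n => agr S.σ (S.wd i0 v) n i j).card := ⟨_, fun _ => rfl⟩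
  have hL : ∀ v, agr S.σ (S.wd i0 v) (L v) i j := by
    intro v
    rw [hLd]
    exact seg_AriB2 (Q := fun n => agr S.σ (S.wd i0 v) n i j) (fun k hk => absurd hk (by omega))
      (fun m n => agr_anti_AriB2 S.σ (S.wd i0 v) i j m n) n0
  have hsum : ∑ n ∈ Finset.Icc 1 n0, ∑ v ∈ S.pl,
      S.hh v * (if agr S.σ (S.wd i0 v) n i j then (1 : ℝ) else 0) =
      S.hh none * L none + ∑ p ∈ S.D.primeFactors, S.hh (some p) * L (some p) := by
    rw [Finset.sum_comm]
    unfold Sys.pl
    have h1 : ∀ v, ∑ n ∈ Finset.Icc 1 n0,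
        S.hh v * (if agr S.σ (S.wd i0 v) n i j then (1 : ℝ) else 0) = S.hh v * L v := by
      intro v
      rw [← Finset.mul_sum, Finset.sum_boole, hLd]
    rw [Finset.sum_congr rfl fun v _ => h1 v, Finset.sum_insertNone]
  have hfin := fin_AriB2 S i0 hij (fun p => L (some p)) fun p _ => hL (some p)
  have hne : (S.X i - S.X j : ℝ) ≠ 0 := by
    have h1 : S.X i - S.X j ≠ 0 := sub_ne_zero.2 fun h => hij (S.inj h)
    exact_mod_cast h1
  have habs : 0 < |(S.X i - S.X j : ℝ)| := abs_pos.2 hne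
  rw [hsum]
  have hD0 : (0 : ℝ) < S.D := by exact_mod_cast S.hD
  by_cases hA : 16 * (S.D : ℤ) ^ 2 < S.A
  · have hA0 : (0 : ℝ) < S.A := by
      have h1 : (0 : ℤ) < S.A := lt_of_le_of_lt (by positivity) hA
      exact_mod_cast h1
    have hs0 : 0 < Real.sqrt S.A := Real.sqrt_pos.2 hA0
    have h1 := ari_real S i0 hA (hL none)
    have h2 := Real.log_le_log habs h1
    rw [Real.log_mul (by positivity) (by positivity), Real.log_mul (by norm_num) hs0.ne',
      Real.log_pow, Real.log_div hD0.ne' hs0.ne'] at h2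
    have h3 : S.hh none = Real.log (Real.sqrt S.A) - Real.log S.D := by
      unfold Sys.hh
      rw [if_pos hA, Real.log_div hs0.ne' hD0.ne']
    have h4 : Real.log 3 ≤ Real.log 10 := Real.log_le_log (by norm_num) (by norm_num)
    unfold Sys.HH
    rw [h3]
    have h5 : (L none : ℝ) * (Real.log S.D - Real.log (Real.sqrt S.A)) =
        -((Real.log (Real.sqrt S.A) - Real.log S.D) * L none) := by ring
    linarith
  · have h3 : S.hh none = 0 := by
      unfold Sys.hh
      rw [if_neg hA]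
    have h1 := ari_size S i
    have h2 := ari_size S j
    have h4 : |(S.X i - S.X j : ℝ)| ≤ 10 * Real.exp S.HH := by
      have h5 := abs_sub (S.X i : ℝ) (S.X j : ℝ)
      linarith
    have h5 := Real.log_le_log habs h4
    rw [Real.log_mul (by norm_num) (Real.exp_pos _).ne', Real.log_exp] at h5
    rw [h3, zero_mul]
    linarith

end Pool.Agent.Ppr
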