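import Pool.Agent.Ppr.Sys
import Pool.Agent.Ppr.Ser

/-!
# The expansion of monomials at an odd prime `p ∣ D`

`R = ZMod (p^K)`, `K = k M`, `k = D.factorization p`. `X_(i0)` is a unit, `A = X_(i0)^2 u` with
`u = 1` mod `p`, so `u^(p^(K-1)) = 1` and `u = r^2` with `r = u^((p^(K-1)+1)/2)`, `r = 1` mod `p`
(if `K = 0` everything is trivial). `a = X_(i0) r`, `a^2 = A` in `R`, `a = X_(i0)` mod `p`.
`τ = D/(4a)`, `τ^M = 0` (`p^k ∣ D`). `ξ_i = X_i / a`: `ξ_i^2 = 1 + 4 τ ξ_(σi)`, and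
`ξ_i - sg (w i)` is nilpotent (`p ∣ X_i ∓ X_(i0)`). `ζ_i = ∑_{j<M} Z j (ow σ w i) τ^j` satisfies
the same equations (`Y_sq`, `τ^M = 0`). `ξ_i + ζ_i` is a unit (`2 sg` + nilpotent), so
`ξ_i - ζ_i = 4 τ (ξ_(σi) - ζ_(σi))/(ξ_i + ζ_i)`, iterate `M` times: `ξ_i = ζ_i`. Hence
`∏ X_i^(e i) = a^d ∏ ζ_i^(e i) = ∑_{j<M} a^d τ^j tc σ w j e` (the evaluation `X ↦ τ` of power
series mod `X^M` is a ring homomorphism). `lm j` = an integer representing `a^d τ^j`.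
-/

namespace Pool.Agent.Ppr

open Sys

/-- square roots mod prime powers -/
theorem exists_sqrt {p : ℕ} (hp : p.Prime) (hp2 : p ≠ 2) (K : ℕ) {x a : ℤ}
    (hx : ¬ (p : ℤ) ∣ x) (h : (p : ℤ) ∣ a - x ^ 2) :
    ∃ r : ℤ, (p : ℤ) ^ K ∣ r ^ 2 - a ∧ (p : ℤ) ∣ r - x := by
  have hpp : Prime (p : ℤ) := Nat.prime_iff_prime_int.mp hp
  have h1 : ∀ K : ℕ, ∃ r : ℤ, (p : ℤ) ^ (K + 1) ∣ r ^ 2 - a ∧ (p : ℤ) ∣ r - x := by
    intro K
    induction K with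
    | zero =>
      refine ⟨x, ?_, by simp⟩
      rw [zero_add, pow_one, ← neg_sub]
      exact (dvd_neg).2 h
    | succ K ih =>
      obtain ⟨r, ⟨t, ht⟩, hrx⟩ := ih
      have hr : ¬ (p : ℤ) ∣ 2 * r := by
        intro hd
        rcases hpp.dvd_or_dvd hd with h2 | h2
        · have h3 : p ∣ 2 := by exact_mod_cast h2
          exact hp2 ((Nat.prime_dvd_prime_iff_eq hp Nat.prime_two).1 h3)
        · exact hx ((dvd_sub_right h2).1 hrx)
      have hcop : IsCoprime (2 * r) (p : ℤ) :=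
        ((hpp.coprime_iff_not_dvd).2 hr).symm
      obtain ⟨u, v, huv⟩ := hcop
      refine ⟨r + p ^ (K + 1) * (-(t * u)), ?_, ?_⟩
      · refine ⟨t * v + p ^ K * (t * u) ^ 2, ?_⟩
        have h4 : (p : ℤ) ^ (K + 1) = p ^ K * p := pow_succ _ _
        have h5 : (p : ℤ) ^ (K + 1 + 1) = p ^ K * p * p := by rw [pow_succ, pow_succ]
        rw [h4] at ht
        rw [h4, h5]
        linear_combination ht - (p : ℤ) ^ K * p * t * huv
      · have h6 : r + (p : ℤ) ^ (K + 1) * (-(t * u)) - x =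
            (r - x) + p * (p ^ K * (-(t * u))) := by rw [pow_succ]; ring
        rw [h6]
        exact dvd_add hrx (dvd_mul_right _ _)
  obtain ⟨r, hr, hrx⟩ := h1 K
  exact ⟨r, (pow_dvd_pow _ (Nat.le_succ K)).trans hr, hrx⟩

end Pool.Agent.Ppr
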