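import Pool.Agent.Ppr.Defs

/-!
# Finite sets closed under `x ↦ x^2 + c` in integral coordinates

`x_i = X_i / D`, `c = -A / D^2`: `X_i^2 = A + D X_(σ i)`. The places are `none` (the real place)
and `some p`, `p ∣ D`. `wd`: their words. `hh`: their weights. `HH = log D + hh none`.
-/

namespace Pool.Agent.Ppr

/-- a finite set closed under `x ↦ x^2 + c`, in integral coordinates -/
structure Sys (ι : Type) [Fintype ι] where
  /-- the map -/
  σ : ι → ι
  /-- the numerators -/
  X : ι → ℤ
  /-- minus the numerator of `c` -/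
  A : ℤ
  /-- the common denominator -/
  D : ℕ
  hD : 0 < D
  hX : ∀ i, X i ^ 2 = A + D * X (σ i)
  inj : Function.Injective X
  cop : ∀ p : ℕ, p.Prime → p ∣ D → ∀ i, ¬ (p : ℤ) ∣ X i

namespace Sys

variable {ι : Type} [Fintype ι] (S : Sys ι) (i0 : ι)

/-- the words of the places; `i0` is the reference point -/
noncomputable def wd : Option ℕ → ι → Bool
  | none => fun i => decide (0 ≤ S.X i)
  | some p => fun i => if p = 2 then decide ((4 : ℤ) ∣ S.X i - 1) else
      decide ((p : ℤ) ∣ S.X i - S.X i0)

/-- the weights of the places -/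
noncomputable def hh : Option ℕ → ℝ
  | none => if 16 * (S.D : ℤ) ^ 2 < S.A then Real.log (Real.sqrt S.A / S.D) else 0
  | some p => if p = 2 then ((S.D.factorization 2 - 1 : ℕ) : ℝ) * Real.log 2 else
      (S.D.factorization p : ℝ) * Real.log p

/-- the places -/
noncomputable def pl : Finset (Option ℕ) := Finset.insertNone S.D.primeFactors

/-- the height -/
noncomputable def HH : ℝ := Real.log S.D + S.hh none

/-- the value of the monomial `e` -/
def ev (e : ι → ℕ) : ℤ := ∏ i, S.X i ^ e i

end Sys

/-- the jet of order `j` of the monomial `e` at the cusp `w` -/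
noncomputable def tc {ι : Type} [Fintype ι] (σ : ι → ι) (w : ι → Bool) (j : ℕ) (e : ι → ℕ) : ℤ :=
  PowerSeries.coeff j (∏ i, Y (ow σ w i) ^ e i)

end Pool.Agent.Ppr
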