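import Pool.Agent.Ppr.AriC1
import Pool.Agent.Ppr.Sys
import Pool.Agent.Ppr.Ser

/-!
# The expansion of monomials at an odd prime `p ∣ D`

`R = ZMod (p^K)`, `K = k M`, `k = D.factorization p`. `X_(i0)` is a unit, `A = X_(i0)^2 u` with
`u = 1` mod `p`, so `u^(p^(K-1)) = 1` and `u = r^2` with `r = u^((p^(K-1)+1)/2)`, `r = 1` mod `p`
(if `K = 0` everything is trivial). `a = X_(i0) r`, `a^2 = A` in `R`, `a = X_(i0)` mod `p`.
`τ = D/(4a)`, `τ^M = 0` (`p^k ∣ D`). `ξ_i = X_i / a`: `ξ_i^2 = 1 + 4 τ ξ_(σi)`, and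
`ξ_i - sg (w i)` is nilpotent (`p ∣ X_i ∓ X_(i0)`). `ζ_i = ∑_{j<M} Z j (ow σ w i) τ^j` satisfies
the same equations (`Y_sq`, `τ^M = 0`). `ξ_i + ζ_i` is a unit (`2 sg` + nilpotent), so
`ξ_i - ζ_i = 4 τ (ξ_(σi) - ζ_(σi))/(ξ_i + ζ_i)`, iterate `M` times: `ξ_i = ζ_i`. Hence
`∏ X_i^(e i) = a^d ∏ ζ_i^(e i) = ∑_{j<M} a^d τ^j tc σ w j e` (the evaluation `X ↦ τ` of power
series mod `X^M` is a ring homomorphism). `lm j` = an integer representing `a^d τ^j`.
-/

namespace Pool.Agent.Ppr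

open Sys

variable {ι : Type} [Fintype ι] (S : Sys ι) (i0 : ι)

/-- the evaluation `X ↦ t` of power series, when `t ^ M = 0` -/
private noncomputable def AriC2_ph {R : Type} [CommRing R] (M : ℕ) (t : R)
    (f : PowerSeries ℤ) : R :=
  ∑ j ∈ Finset.range M, ((PowerSeries.coeff j f : ℤ) : R) * t ^ j

private theorem AriC2_ph_eq {R : Type} [CommRing R] (M : ℕ) (t : R) (f : PowerSeries ℤ) :
    AriC2_ph M t f = Polynomial.eval₂ (Int.castRingHom R) t (PowerSeries.trunc M f) := by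
  rw [PowerSeries.eval₂_trunc_eq_sum_range]
  rfl

private theorem AriC2_eval_zero {R : Type} [CommRing R] {M : ℕ} {t : R} (ht : t ^ M = 0)
    (q : Polynomial ℤ) (hq : ∀ d < M, q.coeff d = 0) :
    Polynomial.eval₂ (Int.castRingHom R) t q = 0 := by
  obtain ⟨r, rfl⟩ := Polynomial.X_pow_dvd_iff.2 hq
  rw [Polynomial.eval₂_mul, Polynomial.eval₂_X_pow, ht, zero_mul]

private theorem AriC2_ph_mul {R : Type} [CommRing R] {M : ℕ} {t : R} (ht : t ^ M = 0)
    (f g : PowerSeries ℤ) : AriC2_ph M t (f * g) = AriC2_ph M t f * AriC2_ph M t g := by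
  rw [AriC2_ph_eq, AriC2_ph_eq, AriC2_ph_eq, ← Polynomial.eval₂_mul, ← sub_eq_zero,
    ← Polynomial.eval₂_sub]
  refine AriC2_eval_zero ht _ ?_
  intro d hd
  rw [Polynomial.coeff_sub, PowerSeries.coeff_trunc, if_pos hd,
    PowerSeries.coeff_mul_eq_coeff_trunc_mul_trunc f g hd, ← Polynomial.coe_mul,
    Polynomial.coeff_coe, sub_self]

private theorem AriC2_ph_one {R : Type} [CommRing R] {M : ℕ} {t : R} (ht : t ^ M = 0) :
    AriC2_ph M t 1 = 1 := by
  rw [AriC2_ph_eq]
  have h1 : Polynomial.eval₂ (Int.castRingHom R) t (PowerSeries.trunc M 1 - 1) = 0 := by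
    refine AriC2_eval_zero ht _ ?_
    intro d hd
    rw [Polynomial.coeff_sub, PowerSeries.coeff_trunc, if_pos hd, PowerSeries.coeff_one,
      Polynomial.coeff_one, sub_self]
  rw [Polynomial.eval₂_sub, Polynomial.eval₂_one, sub_eq_zero] at h1
  exact h1

private theorem AriC2_ph_add {R : Type} [CommRing R] {M : ℕ} {t : R}
    (f g : PowerSeries ℤ) : AriC2_ph M t (f + g) = AriC2_ph M t f + AriC2_ph M t g := by
  rw [AriC2_ph, AriC2_ph, AriC2_ph, ← Finset.sum_add_distrib]
  refine Finset.sum_congr rfl fun j _ => ?_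
  rw [map_add]
  push_cast
  ring

/-- the evaluation as a monoid homomorphism -/
private noncomputable def AriC2_hom {R : Type} [CommRing R] {M : ℕ} {t : R} (ht : t ^ M = 0) :
    PowerSeries ℤ →* R where
  toFun := AriC2_ph M t
  map_one' := AriC2_ph_one ht
  map_mul' := AriC2_ph_mul ht

private theorem AriC2_ph_X {R : Type} [CommRing R] {M : ℕ} {t : R} (ht : t ^ M = 0) :
    AriC2_ph M t PowerSeries.X = t := by
  rw [AriC2_ph_eq]
  have h1 : Polynomial.eval₂ (Int.castRingHom R) t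
      (PowerSeries.trunc M PowerSeries.X - Polynomial.X) = 0 := by
    refine AriC2_eval_zero ht _ ?_
    intro d hd
    rw [Polynomial.coeff_sub, PowerSeries.coeff_trunc, if_pos hd, PowerSeries.coeff_X,
      Polynomial.coeff_X]
    by_cases h : d = 1
    · rw [if_pos h, if_pos h.symm, sub_self]
    · rw [if_neg h, if_neg (fun h' => h h'.symm), sub_self]
  rw [Polynomial.eval₂_sub, Polynomial.eval₂_X, sub_eq_zero] at h1
  exact h1

private theorem AriC2_ph_four {R : Type} [CommRing R] {M : ℕ} {t : R} (ht : t ^ M = 0) :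
    AriC2_ph M t 4 = 4 := by
  have h1 : (4 : PowerSeries ℤ) = 1 + 1 + (1 + 1) := by norm_num
  rw [h1, AriC2_ph_add, AriC2_ph_add, AriC2_ph_one ht]
  norm_num

private theorem AriC2_sh {κ : Type} (σ : κ → κ) (w : κ → Bool) (i : κ) :
    sh (ow σ w i) = ow σ w (σ i) := rfl

/-- the equation of the evaluated series -/
private theorem AriC2_zeta {R : Type} [CommRing R] {M : ℕ} {t : R} (ht : t ^ M = 0)
    {κ : Type} (σ : κ → κ) (w : κ → Bool) (i : κ) :
    AriC2_ph M t (Y (ow σ w i)) ^ 2 = 1 + 4 * t * AriC2_ph M t (Y (ow σ w (σ i))) := by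
  have h1 := congrArg (AriC2_ph M t) (Y_sq (ow σ w i))
  rw [pow_two, AriC2_ph_mul ht, AriC2_ph_add, AriC2_ph_mul ht, AriC2_ph_mul ht,
    AriC2_ph_one ht, AriC2_ph_four ht, AriC2_ph_X ht, AriC2_sh] at h1
  rw [pow_two]
  exact h1

private theorem AriC2_phY {R : Type} [CommRing R] (M : ℕ) (t : R) (v : ℕ → Bool) :
    AriC2_ph M t (Y v) = ∑ j ∈ Finset.range M, ((Z j v : ℤ) : R) * t ^ j := by
  rw [AriC2_ph]
  refine Finset.sum_congr rfl fun j _ => ?_
  rw [Y, PowerSeries.coeff_mk]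

/-- the constant term -/
private theorem AriC2_phY0 {R : Type} [CommRing R] {M : ℕ} (t : R) (hM : 0 < M)
    (v : ℕ → Bool) : ∃ s : R, AriC2_ph M t (Y v) = (sg (v 0) : R) + t * s := by
  obtain ⟨m, rfl⟩ := Nat.exists_eq_succ_of_ne_zero hM.ne'
  refine ⟨∑ j ∈ Finset.range m, ((Z (j + 1) v : ℤ) : R) * t ^ j, ?_⟩
  rw [AriC2_phY, Finset.sum_range_succ', Finset.mul_sum, add_comm, pow_zero, mul_one]
  congr 1
  refine Finset.sum_congr rfl fun j _ => ?_
  rw [pow_succ]
  ring

private theorem AriC2_unit {p : ℕ} (hp : p.Prime) (K : ℕ) {x : ℤ} (hx : ¬ (p : ℤ) ∣ x) :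
    IsUnit (x : ZMod (p ^ K)) := by
  rw [ZMod.coe_int_isUnit_iff_isCoprime]
  push_cast
  refine IsCoprime.pow_left ?_
  exact (Irreducible.coprime_iff_not_dvd (Nat.prime_iff_prime_int.1 hp).irreducible).2 hx

/-- the sign of a point -/
private theorem AriC2_sign {p : ℕ} (hp : p.Prime) (hp2 : p ≠ 2) (hpD : p ∣ S.D) (i : ι) :
    (p : ℤ) ∣ S.X i - sg (S.wd i0 (some p) i) * S.X i0 := by
  have hpr := Nat.prime_iff_prime_int.1 hp
  have hD : (p : ℤ) ∣ (S.D : ℤ) := Int.natCast_dvd_natCast.2 hpD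
  have h1 : (p : ℤ) ∣ (S.X i - S.X i0) * (S.X i + S.X i0) := by
    have h2 : (S.X i - S.X i0) * (S.X i + S.X i0) = S.D * (S.X (S.σ i) - S.X (S.σ i0)) := by
      have h3 := S.hX i
      have h4 := S.hX i0
      linear_combination h3 - h4
    rw [h2]
    exact Dvd.dvd.mul_right hD _
  simp only [Sys.wd, if_neg hp2]
  by_cases h : (p : ℤ) ∣ S.X i - S.X i0
  · simp only [h, decide_true, sg, if_true, one_mul]
  · have h5 := (hpr.dvd_or_dvd h1).resolve_left h
    have h6 : S.X i - -1 * S.X i0 = S.X i + S.X i0 := by ring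
    simp only [h, decide_false, sg, Bool.false_eq_true, if_false]
    rw [h6]
    exact h5

/-- the expansion of the points -/
theorem expand_point {p : ℕ} (hp : p.Prime) (hp2 : p ≠ 2) (hpD : p ∣ S.D) (M : ℕ) :
    ∃ a t : ZMod (p ^ (S.D.factorization p * M)), t ^ M = 0 ∧
      ∀ i, (S.X i : ZMod (p ^ (S.D.factorization p * M))) =
        a * ∑ j ∈ Finset.range M,
          ((Z j (ow S.σ (S.wd i0 (some p)) i) : ℤ) : ZMod (p ^ (S.D.factorization p * M))) *
            t ^ j := by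
  have hpr := Nat.prime_iff_prime_int.1 hp
  have hD : (p : ℤ) ∣ (S.D : ℤ) := Int.natCast_dvd_natCast.2 hpD
  obtain ⟨a, ha, hax⟩ := exists_sqrt hp hp2 (S.D.factorization p * M) (x := S.X i0) (a := S.A)
    (S.cop p hp hpD i0) (by
      have h1 : S.A - S.X i0 ^ 2 = S.D * (-S.X (S.σ i0)) := by rw [S.hX i0]; ring
      rw [h1]
      exact Dvd.dvd.mul_right hD _)
  have hpa : ¬ (p : ℤ) ∣ a := by
    intro h
    refine S.cop p hp hpD i0 ?_
    have h1 := dvd_sub h hax
    rwa [sub_sub_cancel] at h1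
  have hp2' : ¬ (p : ℤ) ∣ 2 := by
    intro h
    have h1 : p ∣ 2 := by exact_mod_cast h
    exact hp2 ((Nat.prime_dvd_prime_iff_eq hp Nat.prime_two).1 h1)
  have hp4 : ¬ (p : ℤ) ∣ 4 := by
    intro h
    have h1 : (4 : ℤ) = 2 * 2 := by norm_num
    rw [h1] at h
    rcases hpr.dvd_or_dvd h with h | h
    · exact hp2' h
    · exact hp2' h
  generalize hK : S.D.factorization p * M = K at *
  have hua : IsUnit (a : ZMod (p ^ K)) := AriC2_unit hp K hpa
  have hu4 : IsUnit (4 : ZMod (p ^ K)) := by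
    have h1 := AriC2_unit hp K hp4
    push_cast at h1
    exact h1
  have hu2 : IsUnit (2 : ZMod (p ^ K)) := by
    have h1 := AriC2_unit hp K hp2'
    push_cast at h1
    exact h1
  have hpK : (p : ZMod (p ^ K)) ^ K = 0 := by
    have h1 := ZMod.natCast_self (p ^ K)
    push_cast at h1
    exact h1
  have hDM : (S.D : ZMod (p ^ K)) ^ M = 0 := by
    have h1 : p ^ K ∣ S.D ^ M := by
      rw [← hK, pow_mul]
      exact pow_dvd_pow_of_dvd (Nat.ordProj_dvd S.D p) M
    have h2 := (ZMod.natCast_eq_zero_iff (S.D ^ M) (p ^ K)).2 h1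
    push_cast at h2
    exact h2
  have haA : (a : ZMod (p ^ K)) ^ 2 = S.A := by
    have h1 : ((a ^ 2 - S.A : ℤ) : ZMod (p ^ K)) = 0 := by
      rw [ZMod.intCast_zmod_eq_zero_iff_dvd]
      push_cast
      exact ha
    push_cast at h1
    exact sub_eq_zero.1 h1
  obtain ⟨u, hu⟩ := hua.mul hu4
  obtain ⟨t, ht⟩ : ∃ t : ZMod (p ^ K), t = S.D * ((u⁻¹ : (ZMod (p ^ K))ˣ) : ZMod (p ^ K)) :=
    ⟨_, rfl⟩
  have ht1 : a * 4 * t = S.D := by
    rw [ht, ← hu]
    have h1 : (u : ZMod (p ^ K)) * ((u⁻¹ : (ZMod (p ^ K))ˣ) : ZMod (p ^ K)) = 1 :=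
      Units.mul_inv u
    linear_combination (S.D : ZMod (p ^ K)) * h1
  have htM : t ^ M = 0 := by
    rw [ht, mul_pow, hDM, zero_mul]
  refine ⟨a, t, htM, ?_⟩
  set w := S.wd i0 (some p) with hw
  have key : ∀ m i, (S.D : ZMod (p ^ K)) ^ m ∣
      (S.X i : ZMod (p ^ K)) - a * AriC2_ph M t (Y (ow S.σ w i)) := by
    intro m
    induction m with
    | zero => intro i; rw [pow_zero]; exact one_dvd _
    | succ m ih =>
      intro i
      by_cases hM : 0 < M
      · have hXi : (S.X i : ZMod (p ^ K)) ^ 2 = S.A + S.D * S.X (S.σ i) := by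
          have h1 := congrArg (Int.cast : ℤ → ZMod (p ^ K)) (S.hX i)
          push_cast at h1
          exact h1
        have hz := AriC2_zeta htM S.σ w i
        have hprod : ((S.X i : ZMod (p ^ K)) - a * AriC2_ph M t (Y (ow S.σ w i))) *
            ((S.X i : ZMod (p ^ K)) + a * AriC2_ph M t (Y (ow S.σ w i))) =
            S.D * ((S.X (S.σ i) : ZMod (p ^ K)) - a * AriC2_ph M t (Y (ow S.σ w (S.σ i)))) := by
          linear_combination hXi - (a : ZMod (p ^ K)) ^ 2 * hz - haA +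
            -(a : ZMod (p ^ K)) * AriC2_ph M t (Y (ow S.σ w (S.σ i))) * ht1
        have hunit : IsUnit ((S.X i : ZMod (p ^ K)) + a * AriC2_ph M t (Y (ow S.σ w i))) := by
          obtain ⟨s, hs⟩ := AriC2_phY0 t hM (ow S.σ w i)
          obtain ⟨c, hc⟩ := AriC2_sign S i0 hp hp2 hpD i
          obtain ⟨b, hb⟩ := hax
          obtain ⟨D', hD'⟩ := hD
          have hc' : (S.X i : ZMod (p ^ K)) = sg (w i) * S.X i0 + p * c := by
            have h1 := congrArg (Int.cast : ℤ → ZMod (p ^ K)) hc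
            push_cast at h1
            linear_combination h1
          have hb' : (S.X i0 : ZMod (p ^ K)) = a - p * b := by
            have h1 := congrArg (Int.cast : ℤ → ZMod (p ^ K)) hb
            push_cast at h1
            linear_combination -h1
          have hD'' : (S.D : ZMod (p ^ K)) = p * D' := by
            have h1 := congrArg (Int.cast : ℤ → ZMod (p ^ K)) hD'
            push_cast at h1
            exact h1
          have hsgu : IsUnit (sg (w i) : ZMod (p ^ K)) := by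
            cases w i <;> simp [sg]
          have hmain : (S.X i : ZMod (p ^ K)) + a * AriC2_ph M t (Y (ow S.σ w i)) =
              2 * sg (w i) * a + p * (c - sg (w i) * b +
                a * D' * ((u⁻¹ : (ZMod (p ^ K))ˣ) : ZMod (p ^ K)) * s) := by
            rw [hs]
            have h0 : (ow S.σ w i) 0 = w i := rfl
            rw [h0, hc', hb', ht, hD'']
            ring
          rw [hmain]
          have hnil : IsNilpotent ((p : ZMod (p ^ K)) * (c - sg (w i) * b +
                a * D' * ((u⁻¹ : (ZMod (p ^ K))ˣ) : ZMod (p ^ K)) * s)) := by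
            refine ⟨K, ?_⟩
            rw [mul_pow, hpK, zero_mul]
          exact IsNilpotent.isUnit_add_left_of_commute hnil
            ((hu2.mul hsgu).mul hua) (Commute.all _ _)
        have h3 : (S.D : ZMod (p ^ K)) ^ (m + 1) ∣
            ((S.X i : ZMod (p ^ K)) - a * AriC2_ph M t (Y (ow S.σ w i))) *
            ((S.X i : ZMod (p ^ K)) + a * AriC2_ph M t (Y (ow S.σ w i))) := by
          rw [hprod, pow_succ, mul_comm]
          exact mul_dvd_mul_left _ (ih (S.σ i))
        exact (hunit.dvd_mul_right).1 h3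
      · have hM0 : M = 0 := by omega
        have hK0 : K = 0 := by rw [← hK, hM0, mul_zero]
        have h1 : (1 : ZMod (p ^ K)) = 0 := by
          have h2 := hpK
          rw [hK0, pow_zero] at h2
          rw [hK0]
          exact Subsingleton.elim (α := ZMod 1) _ _
        have h2 : ∀ x : ZMod (p ^ K), x = 0 := fun x => by rw [← one_mul x, h1, zero_mul]
        rw [h2 ((S.X i : ZMod (p ^ K)) - a * AriC2_ph M t (Y (ow S.σ w i)))]
        exact dvd_zero _
  intro i
  have h1 := key M i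
  rw [hDM, zero_dvd_iff, sub_eq_zero, AriC2_phY] at h1
  exact h1

/-- the expansion of the monomials of degree `d` -/
theorem expand {p : ℕ} (hp : p.Prime) (hp2 : p ≠ 2) (hpD : p ∣ S.D) (M d : ℕ) :
    ∃ lm : ℕ → ℤ, ∀ e : ι → ℕ, ∑ i, e i = d →
      (p : ℤ) ^ (S.D.factorization p * M) ∣
        S.ev e - ∑ j ∈ Finset.range M, lm j * tc S.σ (S.wd i0 (some p)) j e := by
  obtain ⟨a, t, ht, hX⟩ := expand_point S i0 hp hp2 hpD M
  have hlm : ∀ j : ℕ, ∃ l : ℤ, (l : ZMod (p ^ (S.D.factorization p * M))) = a ^ d * t ^ j :=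
    fun j => ZMod.intCast_surjective _
  choose lm hlm using hlm
  refine ⟨lm, ?_⟩
  intro e he
  have h1 : ((S.ev e - ∑ j ∈ Finset.range M, lm j * tc S.σ (S.wd i0 (some p)) j e : ℤ) :
      ZMod (p ^ (S.D.factorization p * M))) = 0 := by
    push_cast
    rw [sub_eq_zero, Sys.ev]
    push_cast
    have h2 : ∀ i, (S.X i : ZMod (p ^ (S.D.factorization p * M))) =
        a * AriC2_hom ht (Y (ow S.σ (S.wd i0 (some p)) i)) := by
      intro i
      rw [hX i]
      show _ = a * AriC2_ph M t (Y (ow S.σ (S.wd i0 (some p)) i))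
      rw [AriC2_phY]
    have h3 : (∏ i, (S.X i : ZMod (p ^ (S.D.factorization p * M))) ^ e i) =
        a ^ d * AriC2_hom ht (∏ i, Y (ow S.σ (S.wd i0 (some p)) i) ^ e i) := by
      rw [map_prod, ← he, ← Finset.prod_pow_eq_pow_sum, ← Finset.prod_mul_distrib]
      refine Finset.prod_congr rfl fun i _ => ?_
      rw [h2 i, mul_pow, map_pow]
    rw [h3]
    show a ^ d * AriC2_ph M t (∏ i, Y (ow S.σ (S.wd i0 (some p)) i) ^ e i) = _
    rw [AriC2_ph, Finset.mul_sum]
    refine Finset.sum_congr rfl fun j _ => ?_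
    rw [hlm j, tc]
    ring
  have h4 := (ZMod.intCast_zmod_eq_zero_iff_dvd _ _).1 h1
  push_cast at h4
  exact h4

end Pool.Agent.Ppr
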