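import Pool.Agent.Ppr.Nrm
import Pool.Agent.Ppr.Ser

/-!
# Bounds of the coefficients of `Y v` and the same facts over `ℝ`

Let `S_M = sup_v ∑_{1≤j<M} |Z j v| r^j`. From `Y_sq`:
`2 sg (Y - sg) = 4 X Y(sh v) - (Y - sg)^2`, so `S_(M+1) ≤ (4 r (1 + S_M) + S_M^2)/2`
(the square of a series without constant term sees only the coefficients below);
`r = 1/64`: `S ≤ 1/30`; `r = 1/8`: `S ≤ 1/2`, hence `|Z j v| ≤ 8^j`. Induction on `M`.
`YR_dvd_sub`: `Z_congr`. `YR_dvd_add`: `Y_neg` and `YR_dvd_sub`.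
-/

namespace Pool.Agent.Ppr

open PowerSeries

theorem YR_const (v : ℕ → Bool) : constantCoeff (YR v) = ((sg (v 0) : ℤ) : ℝ) := by
  rw [YR, ← coeff_zero_eq_constantCoeff_apply, coeff_map, coeff_zero_eq_constantCoeff_apply,
    Y_const]
  simp

theorem YR_sq (v : ℕ → Bool) : YR v ^ 2 = 1 + 4 * X * YR (sh v) := by
  have h := congrArg (PowerSeries.map (Int.castRingHom ℝ)) (Y_sq v)
  rw [map_pow, map_add, map_mul, map_mul, map_one, PowerSeries.map_X, map_ofNat] at h
  exact h

/-- agreement of `b` letters -/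
theorem YR_dvd_sub {b : ℕ} {v v' : ℕ → Bool} (h : ∀ k < b, v k = v' k) :
    X ^ b ∣ YR v - YR v' := by
  rw [X_pow_dvd_iff]
  intro m hm
  have h1 : Z m v = Z m v' := Z_congr fun k hk => h k (lt_of_le_of_lt hk hm)
  rw [map_sub, YR, YR, coeff_map, coeff_map, Y, Y, coeff_mk, coeff_mk, h1, sub_self]

/-- different first letters, agreement of the letters `1, …, b-1` -/
theorem YR_dvd_add {b : ℕ} {v v' : ℕ → Bool} (h0 : v 0 ≠ v' 0)
    (h : ∀ k, 0 < k → k < b → v k = v' k) : X ^ b ∣ YR v + YR v' := by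
  set v'' : ℕ → Bool := fun k => if k = 0 then !v' 0 else v' k with hv''
  have h1 : Y v'' = -Y v' := Y_neg (by simp [hv'']) (by funext k; simp [hv'', sh])
  have h2 : YR v'' = -YR v' := by rw [YR, h1, map_neg]; rfl
  have h3 : YR v + YR v' = YR v - YR v'' := by rw [h2, sub_neg_eq_add]
  rw [h3]
  refine YR_dvd_sub fun k hk => ?_
  rcases Nat.eq_zero_or_pos k with rfl | hk0
  · have : v 0 = !v' 0 := by
      revert h0
      cases v 0 <;> cases v' 0 <;> simp
    simp [hv'', this]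
  · simp [hv'', hk0.ne', h k hk0 hk]

theorem YR_cycle (n : ℕ) (hn : 0 < n) (u u' : ℕ → Bool) (hu : ∀ k, u (k + n) = u k)
    (hu' : ∀ k, u' (k + n) = u' k) (hne : u ≠ u') :
    ∏ k ∈ Finset.range n, (YR (sh^[k] u) + YR (sh^[k] u')) = (4 * X) ^ n := by
  have h := congrArg (PowerSeries.map (Int.castRingHom ℝ)) (Y_cycle n hn u u' hu hu' hne)
  rw [map_prod, map_pow, map_mul, PowerSeries.map_X, map_ofNat] at h
  simp only [map_add] at h
  exact h

/-- the fixed words: the sum of the two series is `4 X` -/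
theorem YR_fixed : YR (fun _ => true) + YR (fun _ => false) = 4 * X := by
  have h := YR_cycle 1 one_pos (fun _ => true) (fun _ => false) (fun _ => rfl) (fun _ => rfl)
    (fun h => by simpa using congrFun h 0)
  simpa using h

end Pool.Agent.Ppr
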