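import Pool.Agent.Ppr.Nrm
import Pool.Agent.Ppr.Ser

/-!
# Bounds of the coefficients of `Y v` and the same facts over `ℝ`

Let `S_M(v) = ∑_{1≤j≤M} |Z j v| r^j`. From the recursion
`2 Z (k+1) v = sg (4 Z k (sh v) - ∑_{a<k} Z (a+1) v Z (k-a) v)`:
`S_(M+1)(v) ≤ 2 r (1 + S_M(sh v)) + S_M(v)^2/2` (the square of a series without constant term
sees only the coefficients below); `r = 1/64`: `S ≤ 1/30`; `r = 1/8`: `S ≤ 1/2`, hence
`|Z j v| ≤ 8^j`. Induction on `M`.
-/

namespace Pool.Agent.Ppr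

open PowerSeries

private theorem two_Z_succ (k : ℕ) (v : ℕ → Bool) :
    2 * Z (k + 1) v = sg (v 0) * (4 * Z k (sh v) -
      ∑ a ∈ Finset.range k, Z (a + 1) v * Z (k - a) v) := by
  have h1 : Z (k + 1) v = 2 * W (k + 1) v := rfl
  have h2 : W (k + 1) v = sg (v 0) * ((if k = 0 then 1 else 2) * W k (sh v) -
      ∑ a : Fin k, W (a.1 + 1) v * W (k - a.1) v) := by rw [W]
  have h3 : (if k = 0 then 1 else 2) * W k (sh v) = Z k (sh v) := by
    unfold Z
    split_ifs with h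
    · subst h
      rw [one_mul]
      rw [W]
    · rfl
  have h4 : ∑ a ∈ Finset.range k, Z (a + 1) v * Z (k - a) v =
      4 * ∑ a : Fin k, W (a.1 + 1) v * W (k - a.1) v := by
    rw [Fin.sum_univ_eq_sum_range (fun a => W (a + 1) v * W (k - a) v), Finset.mul_sum]
    refine Finset.sum_congr rfl fun a ha => ?_
    rw [Finset.mem_range] at ha
    have e1 : Z (a + 1) v = 2 * W (a + 1) v := rfl
    have e2 : Z (k - a) v = 2 * W (k - a) v := by
      unfold Z
      rw [if_neg (by omega)]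
    rw [e1, e2]
    ring
  rw [h1, h2, h3, h4]
  ring

private theorem abs_sg (b : Bool) : |(sg b : ℝ)| = 1 := by
  cases b <;> simp [sg]

private theorem abs_Z_succ_le (k : ℕ) (v : ℕ → Bool) :
    |(Z (k + 1) v : ℝ)| ≤ 2 * |(Z k (sh v) : ℝ)| +
      (∑ a ∈ Finset.range k, |(Z (a + 1) v : ℝ)| * |(Z (k - a) v : ℝ)|) / 2 := by
  have h : (2 * Z (k + 1) v : ℝ) = sg (v 0) * (4 * Z k (sh v) -
      ∑ a ∈ Finset.range k, (Z (a + 1) v : ℝ) * Z (k - a) v) := by
    exact_mod_cast two_Z_succ k v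
  have h1 : 2 * |(Z (k + 1) v : ℝ)| = |(4 * Z k (sh v) -
      ∑ a ∈ Finset.range k, (Z (a + 1) v : ℝ) * Z (k - a) v)| := by
    rw [← one_mul |(4 * Z k (sh v) - _ : ℝ)|, ← abs_sg (v 0), ← abs_mul, ← h, abs_mul]
    simp
  have h2 := abs_sub (4 * Z k (sh v) : ℝ) (∑ a ∈ Finset.range k, (Z (a + 1) v : ℝ) * Z (k - a) v)
  have h3 : |∑ a ∈ Finset.range k, (Z (a + 1) v : ℝ) * Z (k - a) v| ≤
      ∑ a ∈ Finset.range k, |(Z (a + 1) v : ℝ)| * |(Z (k - a) v : ℝ)| := by
    refine (Finset.abs_sum_le_sum_abs _ _).trans (le_of_eq ?_)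
    exact Finset.sum_congr rfl fun a _ => abs_mul _ _
  have h4 : |(4 * Z k (sh v) : ℝ)| = 4 * |(Z k (sh v) : ℝ)| := by
    rw [abs_mul]; norm_num
  linarith

private theorem conv_le (A : ℕ → ℝ) (hA : ∀ i, 0 ≤ A i) (M : ℕ) :
    ∑ k ∈ Finset.range M, ∑ a ∈ Finset.range (k + 1), A a * A (k - a) ≤
      (∑ i ∈ Finset.range M, A i) ^ 2 := by
  classical
  have h0 : ∑ k ∈ Finset.range M, ∑ a ∈ Finset.range (k + 1), A a * A (k - a) =
      ∑ k ∈ Finset.range M, ∑ p ∈ Finset.HasAntidiagonal.antidiagonal k, A p.1 * A p.2 := by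
    refine Finset.sum_congr rfl fun k _ => ?_
    rw [Finset.Nat.sum_antidiagonal_eq_sum_range_succ (fun i j => A i * A j)]
  have h2 : ∑ j ∈ Finset.range M, ∑ p ∈ Finset.HasAntidiagonal.antidiagonal j, A p.1 * A p.2 =
      ∑ p ∈ (Finset.range M ×ˢ Finset.range M).filter (fun p => p.1 + p.2 < M),
        A p.1 * A p.2 := by
    rw [← Finset.sum_fiberwise_of_maps_to (t := Finset.range M)
      (g := fun p : ℕ × ℕ => p.1 + p.2)]
    · refine Finset.sum_congr rfl fun j hj => Finset.sum_congr ?_ fun _ _ => rfl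
      rw [Finset.mem_range] at hj
      ext p
      simp only [Finset.HasAntidiagonal.mem_antidiagonal, Finset.mem_filter, Finset.mem_product,
        Finset.mem_range]
      constructor
      · intro h; omega
      · intro h; exact h.2
    · intro p hp
      simp only [Finset.mem_filter] at hp
      exact Finset.mem_range.mpr hp.2
  rw [h0, h2, sq, Finset.sum_mul_sum, ← Finset.sum_product']
  exact Finset.sum_le_sum_of_subset_of_nonneg (Finset.filter_subset _ _)
    fun p _ _ => mul_nonneg (hA _) (hA _)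

private theorem partial_sum_le {r B : ℝ} (hr : 0 ≤ r) (hB : 0 ≤ B)
    (h : 2 * r * (1 + B) + B ^ 2 / 2 ≤ B) (M : ℕ) :
    ∀ v : ℕ → Bool, ∑ j ∈ Finset.range M, |(Z (j + 1) v : ℝ)| * r ^ (j + 1) ≤ B := by
  induction M with
  | zero => intro v; simpa using hB
  | succ M ih =>
    intro v
    have e1 : ∑ j ∈ Finset.range (M + 1), |(Z (j + 1) v : ℝ)| * r ^ (j + 1) ≤
        ∑ k ∈ Finset.range (M + 1), (2 * |(Z k (sh v) : ℝ)| +
          (∑ a ∈ Finset.range k, |(Z (a + 1) v : ℝ)| * |(Z (k - a) v : ℝ)|) / 2) * r ^ (k + 1) :=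
      Finset.sum_le_sum fun k _ => mul_le_mul_of_nonneg_right (abs_Z_succ_le k v) (by positivity)
    have e2 : ∑ k ∈ Finset.range (M + 1), (2 * |(Z k (sh v) : ℝ)| +
          (∑ a ∈ Finset.range k, |(Z (a + 1) v : ℝ)| * |(Z (k - a) v : ℝ)|) / 2) * r ^ (k + 1) =
        2 * r * ∑ k ∈ Finset.range (M + 1), |(Z k (sh v) : ℝ)| * r ^ k +
        (∑ k ∈ Finset.range (M + 1), ∑ a ∈ Finset.range k,
          (|(Z (a + 1) v : ℝ)| * r ^ (a + 1)) * (|(Z (k - a) v : ℝ)| * r ^ (k - a))) / 2 := by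
      rw [Finset.mul_sum, Finset.sum_div, ← Finset.sum_add_distrib]
      refine Finset.sum_congr rfl fun k _ => ?_
      rw [add_mul, Finset.sum_div, Finset.sum_div, Finset.sum_mul, pow_succ]
      congr 1
      · ring
      · refine Finset.sum_congr rfl fun a ha => ?_
        rw [Finset.mem_range] at ha
        have : r ^ k * r = r ^ (a + 1) * r ^ (k - a) := by
          rw [← pow_add, ← pow_succ]
          congr 1
          omega
        rw [this]
        ring
    have e3 : ∑ k ∈ Finset.range (M + 1), |(Z k (sh v) : ℝ)| * r ^ k ≤ 1 + B := by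
      rw [Finset.sum_range_succ']
      have h0 : |(Z 0 (sh v) : ℝ)| * r ^ 0 = 1 := by
        have : Z 0 (sh v) = sg ((sh v) 0) := rfl
        rw [this, abs_sg]; simp
      rw [h0]
      have := ih (sh v)
      linarith
    have e4 : ∑ k ∈ Finset.range (M + 1), ∑ a ∈ Finset.range k,
          (|(Z (a + 1) v : ℝ)| * r ^ (a + 1)) * (|(Z (k - a) v : ℝ)| * r ^ (k - a)) ≤ B ^ 2 := by
      rw [Finset.sum_range_succ']
      simp only [Finset.range_zero, Finset.sum_empty, add_zero]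
      have hc := conv_le (fun i => |(Z (i + 1) v : ℝ)| * r ^ (i + 1)) (fun i => by positivity) M
      have e5 : ∑ k ∈ Finset.range M, ∑ a ∈ Finset.range (k + 1),
          (|(Z (a + 1) v : ℝ)| * r ^ (a + 1)) *
            (|(Z (k + 1 - a) v : ℝ)| * r ^ (k + 1 - a)) =
          ∑ k ∈ Finset.range M, ∑ a ∈ Finset.range (k + 1),
          (|(Z (a + 1) v : ℝ)| * r ^ (a + 1)) *
            (|(Z (k - a + 1) v : ℝ)| * r ^ (k - a + 1)) := by
        refine Finset.sum_congr rfl fun k _ => Finset.sum_congr rfl fun a ha => ?_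
        rw [Finset.mem_range] at ha
        rw [show k + 1 - a = k - a + 1 by omega]
      rw [e5]
      refine hc.trans ?_
      exact pow_le_pow_left₀ (Finset.sum_nonneg fun _ _ => by positivity) (ih v) 2
    have e6 : 2 * r * ∑ k ∈ Finset.range (M + 1), |(Z k (sh v) : ℝ)| * r ^ k ≤
        2 * r * (1 + B) := mul_le_mul_of_nonneg_left e3 (by positivity)
    linarith

private theorem coeff_YR (v : ℕ → Bool) (j : ℕ) : coeff j (YR v) = (Z j v : ℝ) := by
  unfold YR Y
  rw [coeff_map, coeff_mk]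
  rfl

theorem nrm_YR_sub (M : ℕ) (v : ℕ → Bool) : nrm M (YR v - C ((sg (v 0) : ℤ) : ℝ)) ≤ 1 / 30 := by
  rcases M with _ | M
  · simp [nrm]
  · unfold nrm
    rw [Finset.sum_range_succ']
    have h0 : coeff 0 (YR v - C ((sg (v 0) : ℤ) : ℝ)) = 0 := by
      rw [map_sub, coeff_YR, coeff_zero_C, sub_eq_zero]
      rfl
    rw [h0, abs_zero, zero_mul, add_zero]
    refine le_trans (le_of_eq ?_) (partial_sum_le (r := 1 / 64) (B := 1 / 30) (by norm_num)
      (by norm_num) (by norm_num) M v)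
    refine Finset.sum_congr rfl fun j _ => ?_
    rw [map_sub, coeff_YR, coeff_C, if_neg (Nat.succ_ne_zero j), sub_zero]

theorem nrm_YR_le (M : ℕ) (v : ℕ → Bool) : nrm M (YR v) ≤ 31 / 30 := by
  have h1 : YR v = (YR v - C ((sg (v 0) : ℤ) : ℝ)) + C ((sg (v 0) : ℤ) : ℝ) := by ring
  rw [h1]
  refine (nrm_add_le M _ _).trans ?_
  have h2 := nrm_YR_sub M v
  have h3 := nrm_C_le M ((sg (v 0) : ℤ) : ℝ)
  rw [abs_sg] at h3
  linarith

theorem abs_Z_le (j : ℕ) (v : ℕ → Bool) : |Z j v| ≤ 8 ^ j := by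
  rcases j with _ | j
  · have : Z 0 v = sg (v 0) := rfl
    rw [this]
    cases v 0 <;> simp [sg]
  · have h := partial_sum_le (r := 1 / 8) (B := 1 / 2) (by norm_num) (by norm_num)
      (by norm_num) (j + 1) v
    have h1 : |(Z (j + 1) v : ℝ)| * (1 / 8 : ℝ) ^ (j + 1) ≤ 1 / 2 :=
      le_trans (Finset.single_le_sum
        (f := fun j => |(Z (j + 1) v : ℝ)| * (1 / 8 : ℝ) ^ (j + 1))
        (fun _ _ => by positivity) (Finset.mem_range.mpr (Nat.lt_succ_self j))) h
    have h2 : |(Z (j + 1) v : ℝ)| ≤ 8 ^ (j + 1) := by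
      have h3 : |(Z (j + 1) v : ℝ)| =
          8 ^ (j + 1) * (|(Z (j + 1) v : ℝ)| * (1 / 8 : ℝ) ^ (j + 1)) := by
        rw [one_div, inv_pow]
        field_simp
      rw [h3]
      have h4 : (0 : ℝ) < 8 ^ (j + 1) := by positivity
      nlinarith
    exact_mod_cast h2

end Pool.Agent.Ppr
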