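import Pool.Agent.Ppr.EnC
import Pool.Agent.Ppr.AriB
import Pool.Agent.Ppr.DetB
import Pool.Agent.Ppr.Onto

/-!
# The main inequality for a system

`Hs = ∑_{v ∈ pl} hh v`, `HH - log 2 ≤ Hs ≤ HH` (`sum_hh`). `en_sys`: `EN` with `P = S.pl`,
`a v = hh v / Hs`, `κ = 3 / Hs`, from `ari_energy` (`log 10 + log 2 ≤ 3`).
`core_sq`: `weight_le` for every place, `card pl = s + 1`.
`core`: `P'` = the places `some p`, `p ≠ 2`, `p ∣ D`; `good_words` gives `Ws`; every `w ∈ Ws` has
`w i0 = true` (the words of the odd primes), so `hneg` of `indep` holds; `det_ineq` with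
`Ps` = the odd primes `p ∣ D` with `wd (some p) ∈ Ws`, `d = M/3`. The weights: `a none`,
`a (some 2)` and the weight of `ws` are `≤ 4E/N^2` (`weight_le`), so
`∑_{p ∈ Ps, wd ≠ ws} hh ≥ Hs (1 - 1/20 - 12 E/N^2)`. If `Ws` is empty the left side of the claim
is `≤ 0`. `card Ws ≤ s` (the right side of `det_ineq` is monotone in `card Ws`).
-/

namespace Pool.Agent.Ppr

open Sys

variable {ι : Type} [Fintype ι] [DecidableEq ι] (S : Sys ι) (i0 : ι)

/-- the sum of the weights -/
noncomputable def Hs : ℝ := ∑ v ∈ S.pl, S.hh v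

/-- the energy bound of the system -/
noncomputable def Es : ℝ := EE ι (Nat.clog 2 (Fintype.card ι)) (3 / Hs S)

private theorem log_CoreA : Real.log 2 + Real.log 10 ≤ 3 := by
  rw [← Real.log_mul (by norm_num) (by norm_num), Real.log_le_iff_le_exp (by norm_num)]
  have h1 : Real.exp 3 = Real.exp 1 ^ 3 := by
    rw [← Real.exp_nat_mul]
    norm_num
  have h2 := Real.exp_one_gt_d9
  have h3 : (2.7182818283 : ℝ) ^ 3 ≤ Real.exp 1 ^ 3 :=
    pow_le_pow_left₀ (by norm_num) h2.le 3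
  rw [h1]
  refine le_trans ?_ h3
  norm_num

theorem en_sys (hH : 0 < Hs S) :
    EN S.σ S.pl (fun v => S.hh v / Hs S) (S.wd i0) (Nat.clog 2 (Fintype.card ι))
      (3 / Hs S) where
  nonneg v _ := div_nonneg (hh_nonneg S v) hH.le
  sum_eq := by
    rw [← Finset.sum_div]
    exact div_self hH.ne'
  en i j hij := by
    have h1 := ari_energy S i0 (Nat.clog 2 (Fintype.card ι)) hij
    have h2 : ∑ n ∈ Finset.Icc 1 (Nat.clog 2 (Fintype.card ι)), ∑ v ∈ S.pl,
        S.hh v / Hs S * ag S.σ (S.wd i0 v) n i j =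
        (∑ n ∈ Finset.Icc 1 (Nat.clog 2 (Fintype.card ι)), ∑ v ∈ S.pl,
          S.hh v * ag S.σ (S.wd i0 v) n i j) / Hs S := by
      rw [Finset.sum_div]
      refine Finset.sum_congr rfl fun n _ => ?_
      rw [Finset.sum_div]
      refine Finset.sum_congr rfl fun v _ => ?_
      ring
    have h3 : (1 : ℝ) + 3 / Hs S = (Hs S + 3) / Hs S := by
      rw [add_div, div_self hH.ne']
    rw [h2, h3]
    refine div_le_div_of_nonneg_right ?_ hH.le
    have h4 := sum_hh S
    have h5 := log_CoreA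
    have h6 : ∑ v ∈ S.pl, S.hh v = Hs S := rfl
    rw [h6] at h4
    unfold ag
    linarith
  kap := by positivity
  big := Nat.le_pow_clog (by norm_num) _

theorem core_sq (hH : 0 < Hs S) (hN : 2 ≤ Fintype.card ι) :
    (Fintype.card ι : ℝ) ^ 2 ≤ 4 * ((S.D.primeFactors.card : ℝ) + 1) * Es S := by
  classical
  have hpos : 0 < Fintype.card ι := by omega
  obtain ⟨i0⟩ := Fintype.card_pos_iff.1 hpos
  have hEN := en_sys S i0 hH
  have hn0 : 1 ≤ Nat.clog 2 (Fintype.card ι) := Nat.clog_pos (by norm_num) hN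
  have h1 : ∀ v ∈ S.pl, S.hh v / Hs S * (Fintype.card ι : ℝ) ^ 2 ≤ 4 * Es S := by
    intro v hv
    have h2 := weight_le hEN hn0 (S.wd i0 v)
    have h3 : S.hh v / Hs S ≤
        ∑ v' ∈ S.pl.filter (fun v' => S.wd i0 v' = S.wd i0 v), S.hh v' / Hs S := by
      refine Finset.single_le_sum (f := fun v' => S.hh v' / Hs S)
        (fun v' _ => div_nonneg (hh_nonneg S v') hH.le) ?_
      rw [Finset.mem_filter]
      exact ⟨hv, rfl⟩
    refine le_trans (mul_le_mul_of_nonneg_right h3 (by positivity)) ?_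
    unfold Es
    convert h2
  have h2 := Finset.sum_le_sum h1
  rw [← Finset.sum_mul, ← Finset.sum_div, Finset.sum_const, nsmul_eq_mul] at h2
  have h3 : ∑ v ∈ S.pl, S.hh v = Hs S := rfl
  have h4 : (S.pl.card : ℝ) = (S.D.primeFactors.card : ℝ) + 1 := by
    unfold Sys.pl
    rw [Finset.card_insertNone, Nat.cast_add, Nat.cast_one]
  rw [h3, div_self hH.ne', one_mul, h4] at h2
  linarith

end Pool.Agent.Ppr
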