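import Pool.Agent.Ppr.EnDef
import Pool.Agent.Ppr.Bnd

/-!
# The norm of the form `lf w0` at the cusp `w`

The coefficient of order `j` of `eps σ w (lf w0)` is `(1/N) ∑_i sg (w0 i) Z j (ow σ w i)`. `Z j v`
is a function of the first `j+1` letters (`Z_congr`), so the sum is
`∑_{u : Fin (j+1) → Bool} z u · sm u x` with `|z u| ≤ 8^j` (`abs_Z_le`), `x = sg ∘ w0`. By
Cauchy-Schwarz its square is at most `2^(j+1) 64^j ∑_u (sm u x)^2`.
`lam_sq_le`: `lam = ∑_{j<M} |coeff| 64^(-j)`; with `b_j^2 = 2^(j+1) ∑_u (sm u x)^2 / N^2`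
(`n = j+1`), `|coeff_j| 64^(-j) ≤ 8^(-j) b_j`, so (Cauchy with the weights `4^(-j)`)
`lam^2 ≤ (∑ 4^(-j)) ∑_j 4^j 64^(-j) b_j^2 ≤ (4/3) ∑_j 16^(-j) 2^(j+1) S_(j+1) / N^2
= (8/3) ∑_j 8^(-j) S_(j+1)/N^2`, `S_n = ∑_{u : Fin n → Bool} (sm u x)^2`.
-/

namespace Pool.Agent.Ppr

variable {ι : Type} [Fintype ι]

private noncomputable def ext_EnB {n : ℕ} (u : Fin n → Bool) (k : ℕ) : Bool :=
  if h : k < n then u ⟨k, h⟩ else false

omit [Fintype ι] in
private theorem Z_ext_EnB (σ : ι → ι) (w : ι → Bool) (j : ℕ) (i : ι) :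
    Z j (ow σ w i) = Z j (ext_EnB (win σ w (j + 1) i)) := by
  refine Z_congr fun k hk => ?_
  unfold ext_EnB
  rw [dif_pos (by omega)]
  rfl

private theorem coeff_EnB (σ : ι → ι) (w w0 : ι → Bool) (j : ℕ) :
    PowerSeries.coeff j (eps σ w (lf w0)) =
      (∑ i, ((sg (w0 i) : ℤ) : ℝ) * (Z j (ow σ w i) : ℝ)) / (Fintype.card ι : ℝ) := by
  unfold lf eps
  rw [map_sum, map_sum, Finset.sum_div]
  refine Finset.sum_congr rfl fun i _ => ?_
  rw [map_mul, MvPolynomial.aeval_C, MvPolynomial.aeval_X, PowerSeries.algebraMap_apply,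
    PowerSeries.coeff_C_mul, YR, Y, PowerSeries.coeff_map, PowerSeries.coeff_mk]
  simp only [Algebra.algebraMap_self, RingHom.id_apply, eq_intCast]
  ring

private theorem win_EnB (σ : ι → ι) (w : ι → Bool) {n : ℕ} (z : (Fin n → Bool) → ℝ)
    (x : ι → ℝ) : ∑ i, x i * z (win σ w n i) = ∑ u : Fin n → Bool, z u * sm σ w u x := by
  unfold sm
  simp only [Finset.mul_sum]
  rw [Finset.sum_comm]
  refine Finset.sum_congr rfl fun i _ => ?_
  rw [Finset.sum_eq_single (win σ w n i)]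
  · rw [if_pos rfl, mul_comm]
  · intro u _ hu
    rw [if_neg (Ne.symm hu), mul_zero]
  · intro h
    exact absurd (Finset.mem_univ _) h

private theorem coeff_sq_EnB (σ : ι → ι) (w w0 : ι → Bool) (j : ℕ) :
    (PowerSeries.coeff j (eps σ w (lf w0))) ^ 2 ≤ 2 * 128 ^ j *
      ((∑ u : Fin (j + 1) → Bool, (sm σ w u (fun i => ((sg (w0 i) : ℤ) : ℝ))) ^ 2) /
        (Fintype.card ι : ℝ) ^ 2) := by
  rw [coeff_EnB]
  simp only [Z_ext_EnB σ w j]
  rw [win_EnB σ w (fun u => (Z j (ext_EnB u) : ℝ)) (fun i => ((sg (w0 i) : ℤ) : ℝ)), div_pow,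
    ← mul_div_assoc]
  refine div_le_div_of_nonneg_right ?_ (sq_nonneg _)
  refine (Finset.sum_mul_sq_le_sq_mul_sq _ _ _).trans ?_
  refine mul_le_mul_of_nonneg_right ?_ (Finset.sum_nonneg fun _ _ => sq_nonneg _)
  have h1 : ∀ u ∈ (Finset.univ : Finset (Fin (j + 1) → Bool)),
      (Z j (ext_EnB u) : ℝ) ^ 2 ≤ 64 ^ j := by
    intro u _
    have h2 : |(Z j (ext_EnB u) : ℝ)| ≤ 8 ^ j := by exact_mod_cast abs_Z_le j (ext_EnB u)
    have h3 := pow_le_pow_left₀ (abs_nonneg _) h2 2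
    rw [sq_abs] at h3
    refine h3.trans (le_of_eq ?_)
    rw [← pow_mul, mul_comm j 2, pow_mul]
    norm_num
  refine (Finset.sum_le_sum h1).trans (le_of_eq ?_)
  rw [Finset.sum_const, Finset.card_univ, Fintype.card_fun, Fintype.card_bool, Fintype.card_fin,
    nsmul_eq_mul]
  push_cast
  rw [pow_succ, show (128 : ℝ) = 2 * 64 by norm_num, mul_pow]
  ring

private theorem geom_EnB (M : ℕ) : ∑ j ∈ Finset.range M, ((1 / 2 : ℝ) ^ j) ^ 2 ≤ 4 / 3 := by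
  have h : ∑ j ∈ Finset.range M, ((1 / 2 : ℝ) ^ j) ^ 2 = 4 / 3 * (1 - (1 / 4) ^ M) := by
    induction M with
    | zero => simp
    | succ M ih =>
      rw [Finset.sum_range_succ, ih]
      have e : ((1 / 2 : ℝ) ^ M) ^ 2 = (1 / 4) ^ M := by
        rw [← pow_mul, mul_comm M 2, pow_mul]
        norm_num
      rw [e, pow_succ]
      ring
  rw [h]
  have : (0 : ℝ) ≤ (1 / 4) ^ M := by positivity
  linarith

theorem lam_sq_le (σ : ι → ι) (w w0 : ι → Bool) (M : ℕ) :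
    (lam σ w M w0) ^ 2 ≤ 8 / 3 * ∑ j ∈ Finset.range M, (1 / 8) ^ j *
      (∑ u : Fin (j + 1) → Bool, (sm σ w u (fun i => ((sg (w0 i) : ℤ) : ℝ))) ^ 2) /
        (Fintype.card ι : ℝ) ^ 2 := by
  unfold lam nrm
  have h1 : ∑ j ∈ Finset.range M, |PowerSeries.coeff j (eps σ w (lf w0))| * (1 / 64) ^ j =
      ∑ j ∈ Finset.range M, (1 / 2) ^ j *
        (|PowerSeries.coeff j (eps σ w (lf w0))| * (1 / 32) ^ j) := by
    refine Finset.sum_congr rfl fun j _ => ?_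
    have e : (1 / 64 : ℝ) ^ j = (1 / 2) ^ j * (1 / 32) ^ j := by
      rw [← mul_pow]
      norm_num
    rw [e]
    ring
  rw [h1]
  refine (Finset.sum_mul_sq_le_sq_mul_sq _ _ _).trans ?_
  have h2 : ∑ j ∈ Finset.range M,
      (|PowerSeries.coeff j (eps σ w (lf w0))| * (1 / 32) ^ j) ^ 2 ≤
      2 * ∑ j ∈ Finset.range M, (1 / 8) ^ j *
        (∑ u : Fin (j + 1) → Bool, (sm σ w u (fun i => ((sg (w0 i) : ℤ) : ℝ))) ^ 2) /
          (Fintype.card ι : ℝ) ^ 2 := by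
    rw [Finset.mul_sum]
    refine Finset.sum_le_sum fun j _ => ?_
    rw [mul_pow, sq_abs]
    refine (mul_le_mul_of_nonneg_right (coeff_sq_EnB σ w w0 j) (sq_nonneg _)).trans
      (le_of_eq ?_)
    have e : (128 : ℝ) ^ j * ((1 / 32) ^ j) ^ 2 = (1 / 8) ^ j := by
      rw [← pow_mul, mul_comm j 2, pow_mul, ← mul_pow]
      norm_num
    rw [← e]
    ring
  have h3 : 0 ≤ ∑ j ∈ Finset.range M,
      (|PowerSeries.coeff j (eps σ w (lf w0))| * (1 / 32) ^ j) ^ 2 :=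
    Finset.sum_nonneg fun _ _ => sq_nonneg _
  have h4 := mul_le_mul_of_nonneg_right (geom_EnB M) h3
  linarith

end Pool.Agent.Ppr
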