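import Pool.Agent.Ppr.EnA
import Pool.Agent.Ppr.EnB

/-!
# Good words

`N = card ι`, `E = EE ι n0 κ`, `P' ⊆ P` (the odd primes), `s ≥ card P'`, `δ = 1/40`.
`Ws` = the words `w` of the places of `P'` with `∑_{v ∈ P', wd v = w} a v ≥ δ/s` and
`∑_{n=1}^{n0} disc σ w n ≤ E/δ = 40 E`. The places `v ∈ P'` with `wd v ∉ Ws`: total weight
`≤ s · δ/s = δ` (at most `s` words) plus `≤ δ` (Markov, `energy_disc`).
`full`: if a window `u` of length `M` does not occur then `disc ≥ (N/2^M)^2 > 40 E`.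
`sum lam^2`: for `w0 ∈ Ws`, `x = sg ∘ w0`: `(∑ x)^2 ≤ 2 disc σ w0 1 ≤ 80 E`
(`∑ x = N₊ - N₋ = (N₊ - N/2) - (N₋ - N/2)`). For `1 ≤ n ≤ n0`:
`∑_v a v S_n(wd v) = ∑_v a v (en (wd v) n x) + (∑ x)^2/2^n ≤ 2E + 40 E`
(`energy_vec`, each term `≥ 0`; `2^n ≥ 2`). So
`∑_{w ∈ Ws} S_n(w) ≤ (s/δ) ∑_{v ∈ P'} a v S_n(wd v) ≤ 40 s · 42 E`, and (`lam_sq_le`, `M ≤ n0`,
`∑ 8^(-j) ≤ 8/7`) `∑_{w ∈ Ws} lam^2 ≤ (8/3)(8/7) 1680 s E / N^2 ≤ 5200 s E / N^2`.
-/

namespace Pool.Agent.Ppr

variable {ι : Type} [Fintype ι] {V : Type} {σ : ι → ι} {P : Finset V} {a : V → ℝ}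
  {wd : V → ι → Bool} {n0 : ℕ} {κ : ℝ}

private theorem disc_nonneg_EnC (σ : ι → ι) (w : ι → Bool) (n : ℕ) : 0 ≤ disc σ w n :=
  Finset.sum_nonneg fun _ _ => sq_nonneg _

private theorem fib_EnC {V W : Type} [DecidableEq W] (P' : Finset V) (wd : V → W)
    (Ws : Finset W) (g : V → ℝ) :
    ∑ w ∈ Ws, ∑ v ∈ P'.filter (fun v => wd v = w), g v =
      ∑ v ∈ P'.filter (fun v => wd v ∈ Ws), g v := by
  simp_rw [Finset.sum_filter]
  rw [Finset.sum_comm]
  exact Finset.sum_congr rfl fun v _ => Finset.sum_ite_eq Ws (wd v) fun _ => g v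

/-- the windows of length `1` -/
private theorem one_EnC (σ : ι → ι) (w : ι → Bool) :
    (∑ i, ((sg (w i) : ℤ) : ℝ)) ^ 2 = 2 * disc σ w 1 := by
  classical
  have h1 : ∀ b : Bool, sm σ w (fun _ : Fin 1 => b) (fun _ => 1) =
      ∑ i, if w i = b then (1 : ℝ) else 0 := by
    intro b
    unfold sm
    refine Finset.sum_congr rfl fun i _ => ?_
    refine if_congr ⟨fun h => ?_, fun h => ?_⟩ rfl rfl
    · have h2 := congrFun h 0
      exact h2
    · ext k
      have hk : k = 0 := Subsingleton.elim _ _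
      rw [hk]
      exact h
  have h2 : disc σ w 1 = ∑ b : Bool, (sm σ w (fun _ : Fin 1 => b) (fun _ => 1) -
      Fintype.card ι / 2 ^ 1) ^ 2 := by
    unfold disc
    refine Fintype.sum_equiv (Equiv.funUnique (Fin 1) Bool) _ _ fun u => ?_
    have h3 : (fun _ : Fin 1 => (Equiv.funUnique (Fin 1) Bool) u) = u := by
      ext k
      have hk : k = default := Subsingleton.elim _ _
      rw [hk]
      rfl
    rw [h3]
  rw [h2, Fintype.sum_bool, h1, h1]
  have h3 : (∑ i, if w i = true then (1 : ℝ) else 0) + (∑ i, if w i = false then (1 : ℝ) else 0) =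
      Fintype.card ι := by
    rw [← Finset.sum_add_distrib, ← Finset.card_univ, Finset.card_eq_sum_ones]
    push_cast
    refine Finset.sum_congr rfl fun i _ => ?_
    cases w i <;> simp
  have h4 : ∑ i, ((sg (w i) : ℤ) : ℝ) = (∑ i, if w i = true then (1 : ℝ) else 0) -
      (∑ i, if w i = false then (1 : ℝ) else 0) := by
    rw [← Finset.sum_sub_distrib]
    refine Finset.sum_congr rfl fun i _ => ?_
    unfold sg
    cases w i <;> simp
  rw [h4, ← h3]
  ring

private theorem geom_EnC (M : ℕ) : ∑ j ∈ Finset.range M, ((1 : ℝ) / 8) ^ j ≤ 8 / 7 := by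
  have h : ∀ M : ℕ, ∑ j ∈ Finset.range M, ((1 : ℝ) / 8) ^ j = 8 / 7 * (1 - (1 / 8) ^ M) := by
    intro M
    induction M with
    | zero => simp
    | succ M ih =>
      rw [Finset.sum_range_succ, ih, pow_succ]
      ring
  rw [h]
  have h2 : (0 : ℝ) ≤ (1 / 8) ^ M := by positivity
  linarith

open Classical in
theorem good_words (h : EN σ P a wd n0 κ) (P' : Finset V) (hP' : P' ⊆ P) (s : ℕ)
    (hs : P'.card ≤ s) (hs0 : 0 < s) (M : ℕ) (hM : 1 ≤ M) (hMn : M ≤ n0)
    (hfull : 40 * EE ι n0 κ < ((Fintype.card ι : ℝ) / 2 ^ M) ^ 2) :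
    ∃ Ws : Finset (ι → Bool), (∀ w ∈ Ws, ∃ v ∈ P', wd v = w) ∧ Ws.card ≤ s ∧
      (∀ w ∈ Ws, full σ w M) ∧
      (∀ w0 ∈ Ws, ∑ w ∈ Ws, (lam σ w M w0) ^ 2 ≤
        5200 * s * EE ι n0 κ / (Fintype.card ι : ℝ) ^ 2) ∧
      ∑ v ∈ P', a v - 1 / 20 ≤ ∑ v ∈ P'.filter (fun v => wd v ∈ Ws), a v := by
  classical
  obtain ⟨N, hN⟩ : ∃ N : ℝ, N = Fintype.card ι := ⟨_, rfl⟩
  obtain ⟨E, hE⟩ : ∃ E : ℝ, E = EE ι n0 κ := ⟨_, rfl⟩
  rw [← hN, ← hE] at hfull
  rw [← hN, ← hE]
  have hN0 : 0 ≤ N := by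
    rw [hN]
    positivity
  have hE0 : 0 ≤ E := by
    rw [hE]
    unfold EE
    have := h.kap
    positivity
  have hEpos : 0 < E := by
    rcases hN0.eq_or_lt with h0 | h0
    · exfalso
      rw [← h0] at hfull
      have h1 : ((0 : ℝ) / 2 ^ M) ^ 2 = 0 := by simp
      rw [h1] at hfull
      linarith
    · rw [hE]
      unfold EE
      rw [← hN]
      have h1 := h.kap
      have h2 : 0 < N * ((n0 : ℝ) + 1) := by positivity
      have h3 : 0 ≤ κ * N ^ 2 := by positivity
      linarith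
  have hs' : (0 : ℝ) < s := by exact_mod_cast hs0
  -- the weight and the total discrepancy of a word
  obtain ⟨wt, hwt⟩ : ∃ wt : (ι → Bool) → ℝ, ∀ w, wt w =
      ∑ v ∈ P'.filter (fun v => wd v = w), a v := ⟨_, fun _ => rfl⟩
  obtain ⟨D, hD⟩ : ∃ D : (ι → Bool) → ℝ, ∀ w, D w = ∑ n ∈ Finset.Icc 1 n0, disc σ w n :=
    ⟨_, fun _ => rfl⟩
  have hDn : ∀ w n, n ∈ Finset.Icc 1 n0 → disc σ w n ≤ D w := by
    intro w n hn
    rw [hD]
    exact Finset.single_le_sum (f := fun n => disc σ w n)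
      (fun k _ => disc_nonneg_EnC σ w k) hn
  have hD0 : ∀ w, 0 ≤ D w := by
    intro w
    rw [hD]
    exact Finset.sum_nonneg fun k _ => disc_nonneg_EnC σ w k
  obtain ⟨Ws, hWs⟩ : ∃ Ws : Finset (ι → Bool), Ws = (P'.image wd).filter fun w =>
      1 / (40 * s) ≤ wt w ∧ D w ≤ 40 * E := ⟨_, rfl⟩
  have hmem : ∀ w, w ∈ Ws ↔ (∃ v ∈ P', wd v = w) ∧ 1 / (40 * (s : ℝ)) ≤ wt w ∧
      D w ≤ 40 * E := by
    intro w
    rw [hWs, Finset.mem_filter, Finset.mem_image]
  have hcard : (P'.image wd).card ≤ s := Finset.card_image_le.trans hs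
  refine ⟨Ws, fun w hw => ((hmem w).1 hw).1, ?_, ?_, ?_, ?_⟩
  · rw [hWs]
    exact (Finset.card_filter_le _ _).trans hcard
  · -- full
    intro w hw u
    by_contra hcon
    have h1 : sm σ w u (fun _ => 1) = 0 := by
      unfold sm
      refine Finset.sum_eq_zero fun i _ => ?_
      rw [if_neg fun h2 => hcon ⟨i, h2⟩]
    have h2 : (N / 2 ^ M) ^ 2 ≤ disc σ w M := by
      have h3 : (sm σ w u (fun _ => 1) - Fintype.card ι / 2 ^ M) ^ 2 ≤ disc σ w M :=
        Finset.single_le_sum (f := fun u : Fin M → Bool =>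
          (sm σ w u (fun _ => 1) - (Fintype.card ι : ℝ) / 2 ^ M) ^ 2)
          (fun _ _ => sq_nonneg _) (Finset.mem_univ u)
      rw [h1, ← hN, zero_sub, neg_sq] at h3
      exact h3
    have h3 := hDn w M (Finset.mem_Icc.2 ⟨hM, hMn⟩)
    have h4 := ((hmem w).1 hw).2.2
    linarith
  · -- the correlations
    intro w0 hw0
    obtain ⟨x, hx⟩ : ∃ x : ι → ℝ, x = fun i => ((sg (w0 i) : ℤ) : ℝ) := ⟨_, rfl⟩
    have hx1 : ∀ i, x i = 1 ∨ x i = -1 := by
      intro i
      have hb : ∀ b : Bool, ((sg b : ℤ) : ℝ) = 1 ∨ ((sg b : ℤ) : ℝ) = -1 := by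
        intro b
        cases b <;> simp [sg]
      rw [hx]
      exact hb _
    obtain ⟨Sn, hSn⟩ : ∃ Sn : ℕ → (ι → Bool) → ℝ, ∀ n w, Sn n w =
        ∑ u : Fin n → Bool, (sm σ w u x) ^ 2 := ⟨_, fun _ _ => rfl⟩
    have hSn0 : ∀ n w, 0 ≤ Sn n w := by
      intro n w
      rw [hSn]
      exact Finset.sum_nonneg fun _ _ => sq_nonneg _
    have hsq : (∑ i, x i) ^ 2 ≤ 80 * E := by
      rw [hx, one_EnC σ w0]
      have h1 := hDn w0 1 (Finset.mem_Icc.2 ⟨le_rfl, hM.trans hMn⟩)
      have h2 := ((hmem w0).1 hw0).2.2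
      linarith
    have hvec := energy_vec h hx1
    rw [← hE] at hvec
    have hS1 : ∀ n, 1 ≤ n → n ≤ n0 → ∑ v ∈ P, a v * Sn n (wd v) ≤ 42 * E := by
      intro n hn1 hn2
      have h1 : ∑ v ∈ P, a v * en σ (wd v) n x ≤ 2 * E := by
        refine le_trans ?_ hvec
        exact Finset.single_le_sum (f := fun n => ∑ v ∈ P, a v * en σ (wd v) n x)
          (fun k _ => Finset.sum_nonneg fun v hv =>
            mul_nonneg (h.nonneg v hv) (en_nonneg σ (wd v) k x))
          (Finset.mem_Icc.2 ⟨hn1, hn2⟩)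
      have h2 : ∀ v, a v * Sn n (wd v) = a v * en σ (wd v) n x +
          a v * ((∑ i, x i) ^ 2 / 2 ^ n) := by
        intro v
        rw [hSn]
        unfold en
        ring
      rw [Finset.sum_congr rfl fun v _ => h2 v, Finset.sum_add_distrib, ← Finset.sum_mul,
        h.sum_eq, one_mul]
      have h3 : (∑ i, x i) ^ 2 / 2 ^ n ≤ 40 * E := by
        have h4 : (2 : ℝ) ≤ 2 ^ n := by
          calc (2 : ℝ) = 2 ^ 1 := by norm_num
            _ ≤ 2 ^ n := pow_le_pow_right₀ (by norm_num) hn1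
        rw [div_le_iff₀ (by positivity)]
        nlinarith
      linarith
    have hS2 : ∀ n, 1 ≤ n → n ≤ n0 → ∑ w ∈ Ws, Sn n w ≤ 1680 * s * E := by
      intro n hn1 hn2
      have h1 : ∀ w ∈ Ws, Sn n w ≤ 40 * s *
          ∑ v ∈ P'.filter (fun v => wd v = w), a v * Sn n (wd v) := by
        intro w hw
        have h2 : ∑ v ∈ P'.filter (fun v => wd v = w), a v * Sn n (wd v) = wt w * Sn n w := by
          rw [hwt, Finset.sum_mul]
          refine Finset.sum_congr rfl fun v hv => ?_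
          rw [(Finset.mem_filter.1 hv).2]
        rw [h2]
        have h3 := ((hmem w).1 hw).2.1
        have h4 : 1 ≤ 40 * s * wt w := by
          rw [div_le_iff₀ (by positivity)] at h3
          linarith
        have h5 := mul_le_mul_of_nonneg_right h4 (hSn0 n w)
        linarith
      have h2 := Finset.sum_le_sum h1
      rw [← Finset.mul_sum, fib_EnC] at h2
      have h3 : ∑ v ∈ P'.filter (fun v => wd v ∈ Ws), a v * Sn n (wd v) ≤
          ∑ v ∈ P, a v * Sn n (wd v) :=
        Finset.sum_le_sum_of_subset_of_nonneg ((Finset.filter_subset _ _).trans hP')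
          fun v hv _ => mul_nonneg (h.nonneg v hv) (hSn0 _ _)
      have h4 := hS1 n hn1 hn2
      have h5 : 40 * (s : ℝ) * ∑ v ∈ P'.filter (fun v => wd v ∈ Ws), a v * Sn n (wd v) ≤
          40 * s * (42 * E) := mul_le_mul_of_nonneg_left (h3.trans h4) (by positivity)
      linarith
    have h1 : ∀ w ∈ Ws, (lam σ w M w0) ^ 2 ≤
        8 / 3 * ∑ j ∈ Finset.range M, (1 / 8) ^ j * Sn (j + 1) w / N ^ 2 := by
      intro w _
      have h2 := lam_sq_le σ w w0 M
      rw [← hN] at h2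
      refine h2.trans (le_of_eq ?_)
      congr 1
      refine Finset.sum_congr rfl fun j _ => ?_
      rw [hSn, hx]
    refine (Finset.sum_le_sum h1).trans ?_
    rw [← Finset.mul_sum, Finset.sum_comm]
    have h2 : ∀ j ∈ Finset.range M, ∑ w ∈ Ws, (1 / 8 : ℝ) ^ j * Sn (j + 1) w / N ^ 2 ≤
        (1 / 8) ^ j * (1680 * s * E / N ^ 2) := by
      intro j hj
      have hj' := Finset.mem_range.1 hj
      rw [← Finset.sum_div, ← Finset.mul_sum, mul_div_assoc]
      exact mul_le_mul_of_nonneg_left (div_le_div_of_nonneg_right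
        (hS2 (j + 1) (by omega) (by omega)) (by positivity)) (by positivity)
    have h3 := Finset.sum_le_sum h2
    rw [← Finset.sum_mul] at h3
    have h4 : 0 ≤ 1680 * s * E / N ^ 2 := by positivity
    have h5 := mul_le_mul_of_nonneg_right (geom_EnC M) h4
    have h6 : 5200 * s * E / N ^ 2 - 8 / 3 * (8 / 7 * (1680 * s * E / N ^ 2)) =
        80 * s * E / N ^ 2 := by ring
    have h7 : 0 ≤ 80 * s * E / N ^ 2 := by positivity
    linarith
  · -- the total weight
    have ha : ∀ v ∈ P', 0 ≤ a v := fun v hv => h.nonneg v (hP' hv)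
    -- the light words
    have hlight : ∑ v ∈ P'.filter (fun v => wt (wd v) < 1 / (40 * s)), a v ≤ 1 / 40 := by
      have h1 : P'.filter (fun v => wt (wd v) < 1 / (40 * (s : ℝ))) =
          P'.filter (fun v => wd v ∈ (P'.image wd).filter fun w => wt w < 1 / (40 * s)) := by
        refine Finset.filter_congr fun v hv => ?_
        rw [Finset.mem_filter]
        exact ⟨fun h => ⟨Finset.mem_image_of_mem wd hv, h⟩, fun h => h.2⟩
      rw [h1, ← fib_EnC]
      calc ∑ w ∈ (P'.image wd).filter fun w => wt w < 1 / (40 * (s : ℝ)),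
            ∑ v ∈ P'.filter (fun v => wd v = w), a v
          ≤ ∑ w ∈ (P'.image wd).filter fun w => wt w < 1 / (40 * (s : ℝ)),
            1 / (40 * (s : ℝ)) := by
            refine Finset.sum_le_sum fun w hw => ?_
            rw [← hwt]
            exact (Finset.mem_filter.1 hw).2.le
        _ = (((P'.image wd).filter fun w => wt w < 1 / (40 * (s : ℝ))).card : ℝ) *
            (1 / (40 * (s : ℝ))) := by rw [Finset.sum_const, nsmul_eq_mul]
        _ ≤ s * (1 / (40 * (s : ℝ))) := by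
            refine mul_le_mul_of_nonneg_right ?_ (by positivity)
            exact_mod_cast (Finset.card_filter_le _ _).trans hcard
        _ = 1 / 40 := by field_simp
    -- the words of large discrepancy
    have hlarge : ∑ v ∈ P'.filter (fun v => 40 * E < D (wd v)), a v ≤ 1 / 40 := by
      have h1 : (∑ v ∈ P'.filter (fun v => 40 * E < D (wd v)), a v) * (40 * E) ≤ E := by
        rw [Finset.sum_mul]
        calc ∑ v ∈ P'.filter (fun v => 40 * E < D (wd v)), a v * (40 * E)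
            ≤ ∑ v ∈ P'.filter (fun v => 40 * E < D (wd v)), a v * D (wd v) := by
              refine Finset.sum_le_sum fun v hv => ?_
              rw [Finset.mem_filter] at hv
              exact mul_le_mul_of_nonneg_left hv.2.le (ha v hv.1)
          _ ≤ ∑ v ∈ P, a v * D (wd v) :=
              Finset.sum_le_sum_of_subset_of_nonneg ((Finset.filter_subset _ _).trans hP')
                fun v hv _ => mul_nonneg (h.nonneg v hv) (hD0 _)
          _ = ∑ n ∈ Finset.Icc 1 n0, ∑ v ∈ P, a v * disc σ (wd v) n := by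
              rw [Finset.sum_comm]
              refine Finset.sum_congr rfl fun v _ => ?_
              rw [hD, Finset.mul_sum]
          _ ≤ E := by
              rw [hE]
              exact energy_disc h
      by_contra hcon
      have h2 := mul_lt_mul_of_pos_right (not_le.1 hcon)
        (show 0 < 40 * E by positivity)
      linarith
    have hsplit : ∀ v ∈ P', a v ≤ (if wd v ∈ Ws then a v else 0) +
        ((if wt (wd v) < 1 / (40 * (s : ℝ)) then a v else 0) +
          (if 40 * E < D (wd v) then a v else 0)) := by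
      intro v hv
      have h0 := ha v hv
      by_cases h1 : wd v ∈ Ws
      · rw [if_pos h1]
        split_ifs <;> linarith
      · rw [if_neg h1]
        by_cases h2 : wt (wd v) < 1 / (40 * (s : ℝ))
        · rw [if_pos h2]
          split_ifs <;> linarith
        · have h3 : 40 * E < D (wd v) := by
            by_contra h4
            exact h1 ((hmem _).2 ⟨⟨v, hv, rfl⟩, not_lt.1 h2, not_lt.1 h4⟩)
          rw [if_neg h2, if_pos h3]
          linarith
    have h1 := Finset.sum_le_sum hsplit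
    rw [Finset.sum_add_distrib, Finset.sum_add_distrib, ← Finset.sum_filter,
      ← Finset.sum_filter, ← Finset.sum_filter] at h1
    have h2 : ∑ v ∈ P'.filter (fun v => wd v ∈ Ws), a v ≥ ∑ v ∈ P', a v - 1 / 20 := by
      linarith
    convert h2

end Pool.Agent.Ppr
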