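import Pool.Agent.Ppr.CoreA
import Pool.Agent.Ppr.EnC
import Pool.Agent.Ppr.AriB
import Pool.Agent.Ppr.DetB
import Pool.Agent.Ppr.Onto

/-!
# The main inequality for a system

`Hs = ∑_{v ∈ pl} hh v`, `HH - log 2 ≤ Hs ≤ HH` (`sum_hh`). `en_sys`: `EN` with `P = S.pl`,
`a v = hh v / Hs`, `κ = 3 / Hs`, from `ari_energy` (`log 10 + log 2 ≤ 3`).
`core_sq`: `weight_le` for every place, `card pl = s + 1`.
`core`: `P'` = the places `some p`, `p ≠ 2`, `p ∣ D`; `good_words` gives `Ws`; every `w ∈ Ws` has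
`w i0 = true` (the words of the odd primes), so `hneg` of `indep` holds; `det_ineq` with
`Ps` = the odd primes `p ∣ D` with `wd (some p) ∈ Ws`, `d = M/3`. The weights: `a none`,
`a (some 2)` and the weight of `ws` are `≤ 4E/N^2` (`weight_le`), so
`∑_{p ∈ Ps, wd ≠ ws} hh ≥ Hs (1 - 1/20 - 12 E/N^2)`. If `Ws` is empty the left side of the claim
is `≤ 0`. `card Ws ≤ s` (the right side of `det_ineq` is monotone in `card Ws`).
-/

namespace Pool.Agent.Ppr

open Sys

variable {ι : Type} [Fintype ι] [DecidableEq ι] (S : Sys ι) (i0 : ι)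

omit [DecidableEq ι] in
private theorem coreB_wd {p : ℕ} (hp : p ≠ 2) : S.wd i0 (some p) i0 = true := by
  simp [Sys.wd, hp]

omit [DecidableEq ι] in
private theorem coreB_Es (hH : 0 < Hs S) : 0 ≤ Es S := by
  unfold Es EE
  have h1 : 0 ≤ 3 / Hs S := (div_pos (by norm_num) hH).le
  positivity

open Classical in
/-- places with the same word -/
private theorem coreB_wt (hH : 0 < Hs S) (hN : 2 ≤ Fintype.card ι)
    (hn0 : 1 ≤ Nat.clog 2 (Fintype.card ι)) (w : ι → Bool) (F : Finset (Option ℕ))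
    (hF : F ⊆ S.pl) (hw : ∀ v ∈ F, S.wd i0 v = w) :
    ∑ v ∈ F, S.hh v ≤ Hs S * (4 * Es S / (Fintype.card ι : ℝ) ^ 2) := by
  have hN0 : (0 : ℝ) < Fintype.card ι := by exact_mod_cast (by omega : 0 < Fintype.card ι)
  have h1 := weight_le (en_sys S i0 hH) hn0 w
  have h2 : ∑ v ∈ F, S.hh v / Hs S ≤
      ∑ v ∈ S.pl.filter (fun v => S.wd i0 v = w), S.hh v / Hs S := by
    refine Finset.sum_le_sum_of_subset_of_nonneg ?_ fun v _ _ =>
      div_nonneg (hh_nonneg S v) hH.le
    intro v hv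
    exact Finset.mem_filter.2 ⟨hF hv, hw v hv⟩
  have h3 : (∑ v ∈ F, S.hh v) / Hs S * (Fintype.card ι : ℝ) ^ 2 ≤ 4 * Es S := by
    rw [Finset.sum_div]
    exact (mul_le_mul_of_nonneg_right h2 (by positivity)).trans h1
  rw [← le_div_iff₀ (by positivity), div_le_iff₀ hH] at h3
  rw [mul_comm]
  exact h3

/-- the odd primes carry most of the weight -/
private theorem coreB_odd (i0 : ι) (hH : 0 < Hs S) (hN : 2 ≤ Fintype.card ι)
    (hn0 : 1 ≤ Nat.clog 2 (Fintype.card ι)) :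
    Hs S - 2 * (Hs S * (4 * Es S / (Fintype.card ι : ℝ) ^ 2)) ≤
      ∑ p ∈ S.D.primeFactors.erase 2, S.hh (some p) := by
  have hE := coreB_Es S hH
  have hnone : S.hh none ≤ Hs S * (4 * Es S / (Fintype.card ι : ℝ) ^ 2) := by
    have h := coreB_wt S i0 hH hN hn0 (S.wd i0 none) {none} (by
      intro v hv
      rw [Finset.mem_singleton.1 hv]
      exact Finset.none_mem_insertNone) (fun v hv => by rw [Finset.mem_singleton.1 hv])
    rwa [Finset.sum_singleton] at h
  have hsum : Hs S = S.hh none + ∑ p ∈ S.D.primeFactors, S.hh (some p) := sum_pl S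
  by_cases h2 : 2 ∈ S.D.primeFactors
  · have htwo : S.hh (some 2) ≤ Hs S * (4 * Es S / (Fintype.card ι : ℝ) ^ 2) := by
      have h := coreB_wt S i0 hH hN hn0 (S.wd i0 (some 2)) {some 2} (by
        intro v hv
        rw [Finset.mem_singleton.1 hv]
        exact Finset.some_mem_insertNone.2 h2) (fun v hv => by rw [Finset.mem_singleton.1 hv])
      rwa [Finset.sum_singleton] at h
    have h3 := Finset.add_sum_erase S.D.primeFactors (fun p => S.hh (some p)) h2
    linarith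
  · rw [Finset.erase_eq_of_notMem h2]
    have h4 : 0 ≤ Hs S * (4 * Es S / (Fintype.card ι : ℝ) ^ 2) :=
      mul_nonneg hH.le (by positivity)
    linarith

theorem core (hH : 0 < Hs S) (s : ℕ) (hs : s = S.D.primeFactors.card) (hs1 : 1 ≤ s)
    (M b : ℕ) (hb : 0 < b) (hbM : b ≤ M) (hM : 240 ≤ M)
    (hMn : M ≤ Nat.clog 2 (Fintype.card ι))
    (hfull : 40 * Es S < ((Fintype.card ι : ℝ) / 2 ^ M) ^ 2)
    (hq : 5200 * s * Es S / (Fintype.card ι : ℝ) ^ 2 / eta ^ 2 *
      ((M / b : ℕ) + 4 ^ b + 1) ≤ M / 12)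
    (hQM : 8 * (5200 * s * Es S / (Fintype.card ι : ℝ) ^ 2) ≤ 2 ^ M) :
    M * (1 - 1 / 20 - 12 * Es S / (Fintype.card ι : ℝ) ^ 2) * Hs S ≤
      ((M / 3 : ℕ) : ℝ) * (Hs S + Real.log 2 + Real.log 5) +
        ((M * s + 1 : ℕ) : ℝ) / 2 * Real.log ((M * s + 1 : ℕ) : ℝ) +
        ((M * s : ℕ) : ℝ) * (M * Real.log 67) := by
  classical
  have hN2 : 2 ≤ Fintype.card ι := by
    by_contra h
    have h1 : Nat.clog 2 (Fintype.card ι) = 0 := Nat.clog_of_right_le_one (by omega) 2
    omega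
  have hn0 : 1 ≤ Nat.clog 2 (Fintype.card ι) := by omega
  obtain ⟨i0⟩ : Nonempty ι := Fintype.card_pos_iff.1 (by omega)
  have hN0 : (0 : ℝ) < Fintype.card ι := by exact_mod_cast (by omega : 0 < Fintype.card ι)
  have hE := coreB_Es S hH
  have hEN := en_sys S i0 hH
  have hMr : (0 : ℝ) ≤ M := Nat.cast_nonneg _
  have hT0 : 0 ≤ 4 * Es S / (Fintype.card ι : ℝ) ^ 2 := by positivity
  have hpl : (S.D.primeFactors.erase 2).map Function.Embedding.some ⊆ S.pl := by
    intro v hv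
    obtain ⟨p, hp, rfl⟩ := Finset.mem_map.1 hv
    exact Finset.some_mem_insertNone.2 (Finset.mem_of_mem_erase hp)
  obtain ⟨Ws, hW1, hW2, hW3, hW4, hW5⟩ := good_words hEN
    ((S.D.primeFactors.erase 2).map Function.Embedding.some) hpl s (by
      rw [Finset.card_map, hs]
      exact Finset.card_le_card (Finset.erase_subset _ _)) (by omega) M (by omega) hMn hfull
  have hodd := coreB_odd S i0 hH hN2 hn0
  obtain ⟨Ps, hPsd⟩ : ∃ Ps : Finset ℕ, Ps =
      (S.D.primeFactors.erase 2).filter (fun p => S.wd i0 (some p) ∈ Ws) := ⟨_, rfl⟩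
  have hsumPs : Hs S - 2 * (Hs S * (4 * Es S / (Fintype.card ι : ℝ) ^ 2)) - Hs S / 20 ≤
      ∑ p ∈ Ps, S.hh (some p) := by
    have h1 : ∑ v ∈ (S.D.primeFactors.erase 2).map Function.Embedding.some, S.hh v / Hs S =
        (∑ p ∈ S.D.primeFactors.erase 2, S.hh (some p)) / Hs S := by
      rw [Finset.sum_map, Finset.sum_div]
      rfl
    have h2 : ∑ v ∈ ((S.D.primeFactors.erase 2).map Function.Embedding.some).filter
        (fun v => S.wd i0 v ∈ Ws), S.hh v / Hs S = (∑ p ∈ Ps, S.hh (some p)) / Hs S := by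
      rw [hPsd, Finset.filter_map, Finset.sum_map, Finset.sum_div]
      rfl
    have h3 : (∑ p ∈ S.D.primeFactors.erase 2, S.hh (some p)) / Hs S - 1 / 20 ≤
        (∑ p ∈ Ps, S.hh (some p)) / Hs S := by
      rw [← h1, ← h2]
      exact hW5
    have h4 := mul_le_mul_of_nonneg_right h3 hH.le
    rw [sub_mul, div_mul_cancel₀ _ hH.ne', div_mul_cancel₀ _ hH.ne'] at h4
    linarith
  have hl2 : 0 ≤ Real.log 2 := Real.log_nonneg (by norm_num)
  have hl5 : 0 ≤ Real.log 5 := Real.log_nonneg (by norm_num)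
  have hl67 : 0 ≤ Real.log 67 := Real.log_nonneg (by norm_num)
  have hd0 : (0 : ℝ) ≤ ((M / 3 : ℕ) : ℝ) := Nat.cast_nonneg _
  have h12 : 12 * Es S / (Fintype.card ι : ℝ) ^ 2 =
      3 * (4 * Es S / (Fintype.card ι : ℝ) ^ 2) := by ring
  have hlogs : 0 ≤ Real.log ((M * s + 1 : ℕ) : ℝ) := Real.log_natCast_nonneg _
  rcases Ws.eq_empty_or_nonempty with hWe | hWne
  · have h1 : Ps = ∅ := by
      rw [hPsd, hWe]
      simp
    rw [h1, Finset.sum_empty] at hsumPs
    have h2 : (1 - 1 / 20 - 12 * Es S / (Fintype.card ι : ℝ) ^ 2) * Hs S ≤ 0 := by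
      rw [h12]
      have h3 := mul_nonneg hH.le hT0
      linarith
    have h3 : M * (1 - 1 / 20 - 12 * Es S / (Fintype.card ι : ℝ) ^ 2) * Hs S ≤ 0 := by
      rw [mul_assoc]
      exact mul_nonpos_of_nonneg_of_nonpos hMr h2
    refine h3.trans ?_
    have h4 : 0 ≤ Hs S + Real.log 2 + Real.log 5 := by linarith
    positivity
  · have hind : Indep S.σ Ws M (M / 3) := by
      intro c hc
      refine indep S.σ Ws M b (5200 * s * Es S / (Fintype.card ι : ℝ) ^ 2) hb hbM hW3 ?_ hW4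
        hq hM hQM c hc
      intro w hw w' hw' heq
      obtain ⟨v, hv, hvw⟩ := hW1 w hw
      obtain ⟨p, hp, rfl⟩ := Finset.mem_map.1 hv
      obtain ⟨v', hv', hvw'⟩ := hW1 w' hw'
      obtain ⟨p', hp', rfl⟩ := Finset.mem_map.1 hv'
      have e1 : w i0 = true := by
        rw [← hvw]
        exact coreB_wd S i0 (Finset.ne_of_mem_erase hp)
      have e2 : w' i0 = true := by
        rw [← hvw']
        exact coreB_wd S i0 (Finset.ne_of_mem_erase hp')
      have e3 := congrFun heq i0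
      rw [e1, e2] at e3
      exact absurd e3 (by simp)
    obtain ⟨ws, hws, hdet⟩ := det_ineq S i0 (by omega : 0 < M) (Nat.div_le_self M 3) hind hWne
      Ps (by
        intro p hp
        rw [hPsd, Finset.mem_filter, Finset.mem_erase] at hp
        exact ⟨Nat.prime_of_mem_primeFactors hp.1.2, hp.1.1,
          Nat.dvd_of_mem_primeFactors hp.1.2, hp.2⟩)
    have hsplit := Finset.sum_filter_add_sum_filter_not Ps
      (fun p => S.wd i0 (some p) ≠ ws) (fun p => S.hh (some p))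
    have hdrop : ∑ p ∈ Ps.filter (fun p => ¬ S.wd i0 (some p) ≠ ws), S.hh (some p) ≤
        Hs S * (4 * Es S / (Fintype.card ι : ℝ) ^ 2) := by
      have h1 := coreB_wt S i0 hH hN2 hn0 ws
        ((Ps.filter (fun p => ¬ S.wd i0 (some p) ≠ ws)).map Function.Embedding.some) (by
          intro v hv
          obtain ⟨p, hp, rfl⟩ := Finset.mem_map.1 hv
          have h2 := (Finset.mem_filter.1 hp).1
          rw [hPsd, Finset.mem_filter, Finset.mem_erase] at h2
          exact Finset.some_mem_insertNone.2 h2.1.2) (by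
          intro v hv
          obtain ⟨p, hp, rfl⟩ := Finset.mem_map.1 hv
          exact not_not.1 (Finset.mem_filter.1 hp).2)
      rwa [Finset.sum_map] at h1
    have hmain : (1 - 1 / 20 - 12 * Es S / (Fintype.card ι : ℝ) ^ 2) * Hs S ≤
        ∑ p ∈ Ps.filter (fun p => S.wd i0 (some p) ≠ ws), S.hh (some p) := by
      rw [h12]
      linarith
    have hcard : (M * Ws.card : ℕ) ≤ M * s := Nat.mul_le_mul_left M hW2
    have hc1 : ((M * Ws.card : ℕ) : ℝ) ≤ ((M * s : ℕ) : ℝ) := by exact_mod_cast hcard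
    have hc2 : ((M * Ws.card + 1 : ℕ) : ℝ) ≤ ((M * s + 1 : ℕ) : ℝ) := by
      exact_mod_cast Nat.add_le_add_right hcard 1
    have hc3 : (0 : ℝ) < ((M * Ws.card + 1 : ℕ) : ℝ) := by positivity
    have hHH : S.HH ≤ Hs S + Real.log 2 := by
      have h1 := sum_hh S
      unfold Hs
      linarith
    have t1 : ((M / 3 : ℕ) : ℝ) * (S.HH + Real.log 5) ≤
        ((M / 3 : ℕ) : ℝ) * (Hs S + Real.log 2 + Real.log 5) :=
      mul_le_mul_of_nonneg_left (by linarith) hd0
    have t2 : ((M * Ws.card + 1 : ℕ) : ℝ) / 2 * Real.log ((M * Ws.card + 1 : ℕ) : ℝ) ≤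
        ((M * s + 1 : ℕ) : ℝ) / 2 * Real.log ((M * s + 1 : ℕ) : ℝ) :=
      mul_le_mul (by linarith) (Real.log_le_log hc3 hc2) (Real.log_natCast_nonneg _)
        (by positivity)
    have t3 : ((M * Ws.card : ℕ) : ℝ) * (M * Real.log 67) ≤
        ((M * s : ℕ) : ℝ) * (M * Real.log 67) :=
      mul_le_mul_of_nonneg_right hc1 (by positivity)
    rw [mul_assoc]
    refine (mul_le_mul_of_nonneg_left hmain hMr).trans (hdet.trans ?_)
    linarith

end Pool.Agent.Ppr
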