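import Mathlib

/-!
# Preperiodic points of `x^2 + c`: definitions

`sg`: sign of a Boolean. `Y v`: the power series over `ℤ` in `τ` with constant term `sg (v 0)`
and `(Y v)^2 = 1 + 4 τ Y (sh v)` (`sh` = shift). `eps σ w`: the evaluation of polynomials in the
variables `i : ι` at the series `YR (ow σ w i)`, `ow σ w i` the word of `i`. `nrm M`: the weighted
`ℓ¹` norm of the jets of order `< M`.
-/

namespace Pool.Agent.Ppr

open PowerSeries

/-- the sign of a Boolean -/
def sg (b : Bool) : ℤ := if b then 1 else -1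

/-- the shift -/
def sh (v : ℕ → Bool) : ℕ → Bool := fun k => v (k + 1)

/-- half of the coefficients of `Y` (the coefficient itself in degree `0`) -/
def W : ℕ → (ℕ → Bool) → ℤ
  | 0, v => sg (v 0)
  | (k + 1), v => sg (v 0) * ((if k = 0 then 1 else 2) * W k (sh v) -
      ∑ a : Fin k, W (a.1 + 1) v * W (k - a.1) v)
termination_by k => k
decreasing_by
  all_goals simp_wf

/-- the coefficients of `Y` -/
def Z (k : ℕ) (v : ℕ → Bool) : ℤ := if k = 0 then sg (v 0) else 2 * W k v

/-- the series of a word -/
noncomputable def Y (v : ℕ → Bool) : PowerSeries ℤ := PowerSeries.mk (fun k => Z k v)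

/-- the same series over `ℝ` -/
noncomputable def YR (v : ℕ → Bool) : PowerSeries ℝ := PowerSeries.map (Int.castRingHom ℝ) (Y v)

/-- weighted norm of the jets of order `< M` -/
noncomputable def nrm (M : ℕ) (f : PowerSeries ℝ) : ℝ :=
  ∑ j ∈ Finset.range M, |PowerSeries.coeff j f| * (1 / 64) ^ j

section words

variable {ι : Type} (σ : ι → ι) (w : ι → Bool)

/-- the word of the point `i` -/
def ow (i : ι) : ℕ → Bool := fun k => w (σ^[k] i)

/-- evaluation at the cusp `w` -/
noncomputable def eps : MvPolynomial ι ℝ →ₐ[ℝ] PowerSeries ℝ :=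
  MvPolynomial.aeval (fun i => YR (ow σ w i))

/-- the windows of length `n` at `i` and `j` agree -/
def agr (n : ℕ) (i j : ι) : Prop := ∀ k < n, w (σ^[k] i) = w (σ^[k] j)

/-- the window of length `n` at `i` -/
def win (n : ℕ) (i : ι) : Fin n → Bool := fun k => w (σ^[k.1] i)

/-- every window of length `n` occurs -/
def full (n : ℕ) : Prop := ∀ u : Fin n → Bool, ∃ i, win σ w n i = u

/-- the linear form `(1/N) ∑ w0(i) Y_i` at the cusp `w`, its norm -/
noncomputable def lf [Fintype ι] (w0 : ι → Bool) : MvPolynomial ι ℝ :=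
  ∑ i, MvPolynomial.C ((sg (w0 i) : ℝ) / (Fintype.card ι : ℝ)) * MvPolynomial.X i

/-- the correlation of `w0` with the jets of `w` -/
noncomputable def lam [Fintype ι] (M : ℕ) (w0 : ι → Bool) : ℝ := nrm M (eps σ w (lf w0))

end words

end Pool.Agent.Ppr
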