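import Mathlib

/-!
# Hadamard's inequality

`hadamard`: `|det A| ≤ ∏ ‖row‖₂`, from `Orientation.abs_volumeForm_apply_le` (the volume form of
`EuclideanSpace ℝ (Fin n)` in the standard basis is the determinant), reindex `ρ ≃ Fin n`.
`dvd_det`: `A.det` does not change when `∑_(a ≠ a0) lm a • row a` is subtracted from the row `a0`
(or: expand the determinant along the row `a0`; linearity `Matrix.det_updateRow_…`).
`minor_bound`: the rows are independent over `ℚ`, so the columns span `ρ → ℚ`, so there is
`f : ρ → E` with `det (r a (f b)) ≠ 0` (a basis among the columns). It is divisible by `q`, so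
`q ≤ |det|`; each row norm is at most `sqrt (card ρ) * B a`.
`exchange`: if `v` is not in the span of the family take everything, otherwise
`v = ∑ c_k T_k` with `c_k ≠ 0` for some `k`, drop it.
-/

namespace Pool.Agent.Ppr

theorem hadamard {n : ℕ} (A : Matrix (Fin n) (Fin n) ℝ) :
    |A.det| ≤ ∏ i, Real.sqrt (∑ j, A i j ^ 2) := by
  have : Fact (Module.finrank ℝ (EuclideanSpace ℝ (Fin n)) = n) := ⟨by simp⟩
  set b := EuclideanSpace.basisFun (Fin n) ℝ with hb
  set o := b.toBasis.orientation with ho
  let v : Fin n → EuclideanSpace ℝ (Fin n) := fun i => WithLp.toLp 2 (A i)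
  have h1 := o.abs_volumeForm_apply_le v
  have h2 : o.volumeForm v = A.det := by
    rw [o.volumeForm_robust b rfl, Module.Basis.det_apply, ← Matrix.det_transpose]
    congr 1
  have h3 : ∀ i, ‖v i‖ = Real.sqrt (∑ j, A i j ^ 2) := by
    intro i
    rw [EuclideanSpace.norm_eq]
    simp [v]
  rw [h2] at h1
  simpa only [h3] using h1

end Pool.Agent.Ppr
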