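import Mathlib

/-!
# A minor of independent integral rows: Hadamard and divisibility

`hadamard`: `|det A| ≤ ∏ ‖row‖₂`, from `Orientation.abs_volumeForm_apply_le` (the volume form of
`EuclideanSpace ℝ (Fin n)` in the standard basis is the determinant), reindex `ρ ≃ Fin n`.
`dvd_det`: `A.det` does not change when `∑_(a ≠ a0) lm a • row a` is subtracted from the row `a0`
(or: expand the determinant along the row `a0`; linearity `Matrix.det_updateRow_…`).
`minor_bound`: the rows are independent over `ℚ`, so the columns span `ρ → ℚ`, so there is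
`f : ρ → E` with `det (r a (f b)) ≠ 0` (a basis among the columns). It is divisible by `q`, so
`q ≤ |det|`; each row norm is at most `sqrt (card ρ) * B a`.
`exchange`: if `v` is not in the span of the family take everything, otherwise
`v = ∑ c_k T_k` with `c_k ≠ 0` for some `k`, drop it.
-/

namespace Pool.Agent.Ppr

theorem dvd_det {ρ : Type} [Fintype ρ] [DecidableEq ρ] (A : Matrix ρ ρ ℤ) (a0 : ρ)
    (lm : ρ → ℤ) (q : ℤ) (h : ∀ b, q ∣ A a0 b - ∑ a ∈ Finset.univ.erase a0, lm a * A a b) :
    q ∣ A.det := by
  choose c hc using h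
  have h1 := Matrix.det_updateRow_sum A a0 (fun a => if a = a0 then 1 else -lm a)
  rw [if_pos rfl, one_smul] at h1
  have h2 : (∑ k, (if k = a0 then (1 : ℤ) else -lm k) • A k) = q • c := by
    funext b
    rw [Finset.sum_apply, ← Finset.add_sum_erase _ _ (Finset.mem_univ a0)]
    have h3 : ∑ x ∈ Finset.univ.erase a0, ((if x = a0 then (1 : ℤ) else -lm x) • A x) b =
        -∑ a ∈ Finset.univ.erase a0, lm a * A a b := by
      rw [← Finset.sum_neg_distrib]
      refine Finset.sum_congr rfl fun x hx => ?_
      rw [if_neg (Finset.ne_of_mem_erase hx)]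
      simp
    rw [h3, if_pos rfl, one_smul, Pi.smul_apply, smul_eq_mul, ← hc b]
    ring
  rw [h2, Matrix.det_updateRow_smul] at h1
  exact ⟨_, h1.symm⟩

theorem exists_minor {ρ E : Type} [Fintype ρ] [DecidableEq ρ] [Fintype E] (r : ρ → E → ℤ)
    (hli : LinearIndependent ℚ (fun a => (fun e => (r a e : ℚ)))) :
    ∃ f : ρ → E, (Matrix.of fun a b => r a (f b)).det ≠ 0 := by
  classical
  let M : Matrix ρ E ℚ := Matrix.of fun a e => (r a e : ℚ)
  have hM : M.rank = Fintype.card ρ := LinearIndependent.rank_matrix hli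
  rw [Matrix.rank_eq_finrank_span_cols] at hM
  obtain ⟨g, hg1, -, hg2⟩ := Submodule.exists_fun_fin_finrank_span_eq ℚ (Set.range M.col)
  have hcard : Fintype.card ρ =
      Fintype.card (Fin (Module.finrank ℚ (Submodule.span ℚ (Set.range M.col)))) := by
    rw [Fintype.card_fin, hM]
  let e := Fintype.equivOfCardEq hcard
  choose f hf using fun b : ρ => hg1 (e b)
  refine ⟨f, fun h0 => ?_⟩
  have h1 : LinearIndependent ℚ (Matrix.of fun b a => (r a (f b) : ℚ)).row := by
    have h2 : (Matrix.of fun b a => (r a (f b) : ℚ)).row = g ∘ e := by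
      funext b
      rw [Function.comp_apply, ← hf b]
      rfl
    rw [h2]
    exact hg2.comp _ e.injective
  have h3 := Matrix.linearIndependent_rows_iff_isUnit.1 h1
  rw [Matrix.isUnit_iff_isUnit_det] at h3
  have h4 : (Matrix.of fun b a => (r a (f b) : ℚ)).det =
      (((Matrix.of fun a b => r a (f b)).det : ℤ) : ℚ) := by
    rw [← Matrix.det_transpose]
    have h5 : (((Matrix.of fun a b => r a (f b)).det : ℤ) : ℚ) =
        ((Int.castRingHom ℚ).mapMatrix (Matrix.of fun a b => r a (f b))).det :=
      RingHom.map_det (Int.castRingHom ℚ) (Matrix.of fun a b => r a (f b))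
    rw [h5]
    rfl
  rw [h4, h0] at h3
  simp at h3

theorem exchange {K V κ : Type} [Field K] [AddCommGroup V] [Module K V] [Fintype κ]
    [DecidableEq κ] (T : κ → V) (hT : LinearIndependent K T) (v : V) (hv : v ≠ 0) :
    ∃ s : Finset κ, (s = Finset.univ ∨ ∃ k, s = Finset.univ.erase k) ∧
      LinearIndependent K (fun o : Option {x // x ∈ s} => o.elim v (fun k => T k.1)) := by
  by_cases hin : v ∈ Submodule.span K (Set.range T)
  · obtain ⟨c, hc⟩ := (Submodule.mem_span_range_iff_exists_fun K).1 hin
    have hk : ∃ k, c k ≠ 0 := by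
      by_contra hcon
      push Not at hcon
      apply hv
      rw [← hc]
      exact Finset.sum_eq_zero fun k _ => by rw [hcon k, zero_smul]
    obtain ⟨k, hk⟩ := hk
    refine ⟨Finset.univ.erase k, Or.inr ⟨k, rfl⟩, ?_⟩
    rw [linearIndependent_option]
    refine ⟨hT.comp _ Subtype.val_injective, fun hmem => ?_⟩
    change v ∈ Submodule.span K (Set.range
      (fun j : {x // x ∈ (Finset.univ.erase k : Finset κ)} => T j.1)) at hmem
    obtain ⟨d, hd⟩ := (Submodule.mem_span_range_iff_exists_fun K).1 hmem
    let d' : κ → K := fun j => if h : j ∈ (Finset.univ.erase k : Finset κ) then d ⟨j, h⟩ else 0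
    have hd' : ∑ j, d' j • T j = v := by
      rw [← Finset.add_sum_erase _ _ (Finset.mem_univ k)]
      have h0 : d' k = 0 := dif_neg (Finset.notMem_erase k _)
      rw [h0, zero_smul, zero_add, ← hd, ← Finset.sum_coe_sort (Finset.univ.erase k)]
      refine Finset.sum_congr rfl fun j _ => ?_
      have h1 : d' j.1 = d j := dif_pos j.2
      rw [h1]
    have h2 : ∑ j, (c j - d' j) • T j = 0 := by
      simp only [sub_smul, Finset.sum_sub_distrib]
      rw [hc, hd', sub_self]
    have h3 := Fintype.linearIndependent_iff.1 hT _ h2 k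
    have h0 : d' k = 0 := dif_neg (Finset.notMem_erase k _)
    rw [h0, sub_zero] at h3
    exact hk h3
  · refine ⟨Finset.univ, Or.inl rfl, ?_⟩
    rw [linearIndependent_option]
    refine ⟨hT.comp _ Subtype.val_injective, fun hmem => hin ?_⟩
    refine Submodule.span_mono ?_ hmem
    rintro _ ⟨j, rfl⟩
    exact ⟨j.1, rfl⟩

end Pool.Agent.Ppr
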