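import Pool.Agent.Ppr.DetA1
import Pool.Agent.Ppr.DetA2

/-!
# A minor of independent integral rows: Hadamard and divisibility

`hadamard`: `|det A| ≤ ∏ ‖row‖₂`, from `Orientation.abs_volumeForm_apply_le` (the volume form of
`EuclideanSpace ℝ (Fin n)` in the standard basis is the determinant), reindex `ρ ≃ Fin n`.
`dvd_det`: `A.det` does not change when `∑_(a ≠ a0) lm a • row a` is subtracted from the row `a0`
(or: expand the determinant along the row `a0`; linearity `Matrix.det_updateRow_…`).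
`minor_bound`: the rows are independent over `ℚ`, so the columns span `ρ → ℚ`, so there is
`f : ρ → E` with `det (r a (f b)) ≠ 0` (a basis among the columns). It is divisible by `q`, so
`q ≤ |det|`; each row norm is at most `sqrt (card ρ) * B a`.
`exchange`: if `v` is not in the span of the family take everything, otherwise
`v = ∑ c_k T_k` with `c_k ≠ 0` for some `k`, drop it.
-/

namespace Pool.Agent.Ppr

theorem minor_bound {ρ E : Type} [Fintype ρ] [DecidableEq ρ] [Fintype E] (r : ρ → E → ℤ)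
    (hli : LinearIndependent ℚ (fun a => (fun e => (r a e : ℚ)))) (B : ρ → ℝ)
    (hB : ∀ a e, |(r a e : ℝ)| ≤ B a) (q : ℕ)
    (hq : ∀ f : ρ → E, (q : ℤ) ∣ (Matrix.of fun a b => r a (f b)).det) :
    (q : ℝ) ≤ Real.sqrt (Fintype.card ρ) ^ Fintype.card ρ * ∏ a, B a := by
  classical
  obtain ⟨f, hf⟩ := exists_minor r hli
  set M : Matrix ρ ρ ℤ := Matrix.of fun a b => r a (f b) with hM
  have h1 : (q : ℝ) ≤ |((M.det : ℤ) : ℝ)| := by
    have h := Int.le_of_dvd (abs_pos.2 hf) ((dvd_abs _ _).2 (hq f))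
    exact_mod_cast h
  let e : ρ ≃ Fin (Fintype.card ρ) := Fintype.equivFin ρ
  let A : Matrix (Fin (Fintype.card ρ)) (Fin (Fintype.card ρ)) ℝ :=
    fun i j => (r (e.symm i) (f (e.symm j)) : ℝ)
  have h2 : A.det = ((M.det : ℤ) : ℝ) := by
    have h : A = ((Int.castRingHom ℝ).mapMatrix M).submatrix e.symm e.symm := rfl
    rw [h, Matrix.det_submatrix_equiv_self, ← RingHom.map_det]
    rfl
  have h3 := hadamard A
  rw [h2] at h3
  refine h1.trans (h3.trans ?_)
  have h4 : ∀ i, Real.sqrt (∑ j, A i j ^ 2) ≤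
      Real.sqrt (Fintype.card ρ) * B (e.symm i) := by
    intro i
    have hB0 : 0 ≤ B (e.symm i) := (abs_nonneg _).trans (hB (e.symm i) (f (e.symm i)))
    have h5 : ∑ j, A i j ^ 2 ≤ (Fintype.card ρ : ℝ) * B (e.symm i) ^ 2 := by
      calc ∑ j, A i j ^ 2 ≤ ∑ _j : Fin (Fintype.card ρ), B (e.symm i) ^ 2 := by
            refine Finset.sum_le_sum fun j _ => ?_
            rw [← sq_abs (A i j)]
            exact pow_le_pow_left₀ (abs_nonneg _) (hB _ _) 2
        _ = (Fintype.card ρ : ℝ) * B (e.symm i) ^ 2 := by simp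
    refine (Real.sqrt_le_sqrt h5).trans (le_of_eq ?_)
    rw [Real.sqrt_mul (Nat.cast_nonneg _), Real.sqrt_sq hB0]
  calc ∏ i, Real.sqrt (∑ j, A i j ^ 2)
      ≤ ∏ i, (Real.sqrt (Fintype.card ρ) * B (e.symm i)) :=
        Finset.prod_le_prod (fun _ _ => Real.sqrt_nonneg _) (fun i _ => h4 i)
    _ = Real.sqrt (Fintype.card ρ) ^ Fintype.card ρ * ∏ i, B (e.symm i) := by
        rw [Finset.prod_mul_distrib]
        simp
    _ = Real.sqrt (Fintype.card ρ) ^ Fintype.card ρ * ∏ a, B a := by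
        rw [e.symm.prod_comp B]

end Pool.Agent.Ppr
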