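import Pool.Agent.Ppr.AriA
import Pool.Agent.Ppr.AriC
import Pool.Agent.Ppr.DetA
import Pool.Agent.Ppr.Bnd

/-!
# The determinant inequality

`tc_le`: `|coeff j (∏ Y^e)| ≤ 64^j ∏ nrm ≤ 64^j (31/30)^d` (`abs_coeff_le`, `nrm_prod_le`,
`nrm_YR_le`; the coefficients of the series over `ℝ` are the casts).
`indep_mon`: if `∑ c (w,j) tc w j e = 0` for all `e` of degree `d` then the same holds for all
homogeneous polynomials of degree `d` (`G = ∑ monomials`), so `hind` gives `c = 0`.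
`det_ineq`: `E` = the exponents of degree `d` (`Finset.piAntidiag Finset.univ d`),
`κ = Ws × Fin M`, `T (w,j) = tc w j` on `E`, independent over `ℚ` (`indep_mon`, clear from `ℝ`),
`v = S.ev ≠ 0` (all `X_i ≠ 0` because `p ∤ X_i` for some `p ∣ D`). `exchange` gives `s`; in the
second case let `ws` be the word of the dropped pair, in the first case take any word. For every
`p ∈ Ps` with `wd (some p) ≠ ws`, `wd (some p) ∈ Ws`: all pairs `(wd (some p), j)`, `j < M`, are
in `s`, so `expand` and `dvd_det` give `p^(k_p M) ∣ det` for every minor; the prime powers are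
coprime, `q` = their product. `minor_bound` with `B = (5 exp HH)^d` for `ev` (`ari_size`) and
`67^M` for the others (`64^j (31/30)^d ≤ 67^M` as `j < M`, `d ≤ M`), at most `M * card Ws + 1`
rows. Take logarithms.
-/

namespace Pool.Agent.Ppr

open Sys

variable {ι : Type} [Fintype ι] [DecidableEq ι] (S : Sys ι) (i0 : ι)

omit [DecidableEq ι] in
/-- the coefficients `tc` over the real numbers -/
private theorem detB1_tc_eq (σ : ι → ι) (w : ι → Bool) (j : ℕ) (e : ι → ℕ) :
    (tc σ w j e : ℝ) = PowerSeries.coeff j (∏ i, YR (ow σ w i) ^ e i) := by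
  have h1 : (∏ i, YR (ow σ w i) ^ e i)
      = PowerSeries.map (Int.castRingHom ℝ) (∏ i, Y (ow σ w i) ^ e i) := by
    rw [map_prod]
    refine Finset.prod_congr rfl fun i _ => ?_
    rw [map_pow]
    rfl
  rw [h1, PowerSeries.coeff_map]
  rfl

theorem tc_le (σ : ι → ι) (w : ι → Bool) {M d j : ℕ} (hj : j < M) (hd : d ≤ M) {e : ι → ℕ}
    (he : ∑ i, e i = d) : |(tc σ w j e : ℝ)| ≤ 67 ^ M := by
  rw [detB1_tc_eq]
  have h1 : nrm M (∏ i, YR (ow σ w i) ^ e i) ≤ (31 / 30) ^ M := by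
    calc nrm M (∏ i, YR (ow σ w i) ^ e i)
        ≤ ∏ i, nrm M (YR (ow σ w i) ^ e i) := nrm_prod_le M _ _
      _ ≤ ∏ i, (31 / 30 : ℝ) ^ e i := by
          refine Finset.prod_le_prod (fun i _ => nrm_nonneg M _) fun i _ => ?_
          refine (nrm_pow_le M _ _).trans ?_
          exact pow_le_pow_left₀ (nrm_nonneg M _) (nrm_YR_le M _) _
      _ = (31 / 30 : ℝ) ^ d := by rw [Finset.prod_pow_eq_pow_sum, he]
      _ ≤ (31 / 30 : ℝ) ^ M := pow_le_pow_right₀ (by norm_num) hd
  calc |PowerSeries.coeff j (∏ i, YR (ow σ w i) ^ e i)|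
      ≤ 64 ^ j * nrm M (∏ i, YR (ow σ w i) ^ e i) := abs_coeff_le hj _
    _ ≤ 64 ^ M * (31 / 30) ^ M := by
        refine mul_le_mul (pow_le_pow_right₀ (by norm_num) hj.le) h1 (nrm_nonneg M _)
          (by positivity)
    _ = (64 * (31 / 30)) ^ M := by rw [mul_pow]
    _ ≤ 67 ^ M := pow_le_pow_left₀ (by norm_num) (by norm_num) _

/-- the independence hypothesis -/
def Indep (σ : ι → ι) (Ws : Finset (ι → Bool)) (M d : ℕ) : Prop :=
  ∀ c : (ι → Bool) → ℕ → ℝ,
    (∀ G : MvPolynomial ι ℝ, G.IsHomogeneous d →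
      ∑ w ∈ Ws, ∑ j ∈ Finset.range M, c w j * PowerSeries.coeff j (eps σ w G) = 0) →
    ∀ w ∈ Ws, ∀ j < M, c w j = 0

theorem indep_mon {σ : ι → ι} {Ws : Finset (ι → Bool)} {M d : ℕ} (hind : Indep σ Ws M d)
    (c : (ι → Bool) → ℕ → ℝ)
    (hc : ∀ e : ι → ℕ, ∑ i, e i = d →
      ∑ w ∈ Ws, ∑ j ∈ Finset.range M, c w j * (tc σ w j e : ℝ) = 0) :
    ∀ w ∈ Ws, ∀ j < M, c w j = 0 := by
  refine hind c fun G hG => ?_
  have h1 : ∀ w : ι → Bool, ∀ j : ℕ, PowerSeries.coeff j (eps σ w G)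
      = ∑ m ∈ G.support, MvPolynomial.coeff m G * (tc σ w j m : ℝ) := by
    intro w j
    unfold eps
    rw [MvPolynomial.aeval_def, MvPolynomial.eval₂_eq', map_sum]
    refine Finset.sum_congr rfl fun m _ => ?_
    have h2 : (algebraMap ℝ (PowerSeries ℝ)) = PowerSeries.C := rfl
    rw [h2, PowerSeries.coeff_C_mul, detB1_tc_eq]
  have h3 : ∑ w ∈ Ws, ∑ j ∈ Finset.range M, c w j * PowerSeries.coeff j (eps σ w G)
      = ∑ m ∈ G.support, MvPolynomial.coeff m G *
        ∑ w ∈ Ws, ∑ j ∈ Finset.range M, c w j * (tc σ w j m : ℝ) := by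
    calc ∑ w ∈ Ws, ∑ j ∈ Finset.range M, c w j * PowerSeries.coeff j (eps σ w G)
        = ∑ w ∈ Ws, ∑ j ∈ Finset.range M, ∑ m ∈ G.support,
            MvPolynomial.coeff m G * (c w j * (tc σ w j m : ℝ)) := by
          refine Finset.sum_congr rfl fun w _ => Finset.sum_congr rfl fun j _ => ?_
          rw [h1, Finset.mul_sum]
          refine Finset.sum_congr rfl fun m _ => ?_
          ring
      _ = ∑ w ∈ Ws, ∑ m ∈ G.support, ∑ j ∈ Finset.range M,
            MvPolynomial.coeff m G * (c w j * (tc σ w j m : ℝ)) :=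
          Finset.sum_congr rfl fun w _ => Finset.sum_comm
      _ = ∑ m ∈ G.support, ∑ w ∈ Ws, ∑ j ∈ Finset.range M,
            MvPolynomial.coeff m G * (c w j * (tc σ w j m : ℝ)) := Finset.sum_comm
      _ = _ := by
          refine Finset.sum_congr rfl fun m _ => ?_
          rw [Finset.mul_sum]
          refine Finset.sum_congr rfl fun w _ => ?_
          rw [Finset.mul_sum]
  rw [h3]
  refine Finset.sum_eq_zero fun m hm => ?_
  have h4 : ∑ i, m i = d := by
    have h5 := hG (MvPolynomial.mem_support_iff.1 hm)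
    rw [← Finsupp.degree_eq_sum, Finsupp.degree_eq_weight_one]
    exact h5
  rw [hc m h4, mul_zero]

end Pool.Agent.Ppr
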