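import Pool.Agent.Ppr.DetB1

/-!
# The determinant inequality

`tc_le`: `|coeff j (∏ Y^e)| ≤ 64^j ∏ nrm ≤ 64^j (31/30)^d` (`abs_coeff_le`, `nrm_prod_le`,
`nrm_YR_le`; the coefficients of the series over `ℝ` are the casts).
`indep_mon`: if `∑ c (w,j) tc w j e = 0` for all `e` of degree `d` then the same holds for all
homogeneous polynomials of degree `d` (`G = ∑ monomials`), so `hind` gives `c = 0`.
`det_ineq`: `E` = the exponents of degree `d` (`Finset.piAntidiag Finset.univ d`),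
`κ = Ws × Fin M`, `T (w,j) = tc w j` on `E`, independent over `ℚ` (`indep_mon`, clear from `ℝ`),
`v = S.ev ≠ 0` (all `X_i ≠ 0` because `p ∤ X_i` for some `p ∣ D`). `exchange` gives `s`; in the
second case let `ws` be the word of the dropped pair, in the first case take any word. For every
`p ∈ Ps` with `wd (some p) ≠ ws`, `wd (some p) ∈ Ws`: all pairs `(wd (some p), j)`, `j < M`, are
in `s`, so `expand` and `dvd_det` give `p^(k_p M) ∣ det` for every minor; the prime powers are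
coprime, `q` = their product. `minor_bound` with `B = (5 exp HH)^d` for `ev` (`ari_size`) and
`67^M` for the others (`64^j (31/30)^d ≤ 67^M` as `j < M`, `d ≤ M`), at most `M * card Ws + 1`
rows. Take logarithms.
-/

namespace Pool.Agent.Ppr

open Sys

variable {ι : Type} [Fintype ι] [DecidableEq ι] (S : Sys ι) (i0 : ι)

omit [DecidableEq ι] in
private theorem detB2_ev_le {d : ℕ} {e : ι → ℕ} (he : ∑ i, e i = d) :
    |(S.ev e : ℝ)| ≤ (5 * Real.exp S.HH) ^ d := by
  unfold Sys.ev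
  push_cast
  rw [Finset.abs_prod]
  calc ∏ i, |(S.X i : ℝ) ^ e i| ≤ ∏ i, (5 * Real.exp S.HH) ^ e i := by
        refine Finset.prod_le_prod (fun i _ => abs_nonneg _) fun i _ => ?_
        rw [abs_pow]
        exact pow_le_pow_left₀ (abs_nonneg _) (ari_size S i) _
    _ = _ := by rw [Finset.prod_pow_eq_pow_sum, he]

omit [DecidableEq ι] in
private theorem detB2_HH_nonneg : 0 ≤ S.HH := by
  unfold Sys.HH Sys.hh
  have hD : (0 : ℝ) < S.D := Nat.cast_pos.mpr S.hD
  have h1 : 0 ≤ Real.log S.D := Real.log_natCast_nonneg _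
  have h2 : 0 ≤ (if 16 * (S.D : ℤ) ^ 2 < S.A then Real.log (Real.sqrt S.A / S.D) else 0) := by
    split_ifs with h
    · refine Real.log_nonneg ?_
      rw [le_div_iff₀ hD, one_mul]
      refine Real.le_sqrt_of_sq_le ?_
      have h3 : (S.D : ℤ) ^ 2 ≤ S.A := by nlinarith [sq_nonneg (S.D : ℤ)]
      exact_mod_cast h3
    · exact le_rfl
  exact add_nonneg h1 h2

/-- the exponents of degree `d` -/
private abbrev DetB2E (ι : Type) [Fintype ι] [DecidableEq ι] (d : ℕ) : Type :=
  {e : ι → ℕ // e ∈ Finset.piAntidiag (Finset.univ : Finset ι) d}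

private theorem detB2_sum {d : ℕ} (e : DetB2E ι d) : ∑ i, e.1 i = d :=
  (Finset.mem_piAntidiag.mp e.2).1

private theorem detB2_li {σ : ι → ι} {Ws : Finset (ι → Bool)} {M d : ℕ}
    (hind : Indep σ Ws M d) :
    LinearIndependent ℚ (fun k : {w // w ∈ Ws} × Fin M =>
      (fun e : DetB2E ι d => (tc σ k.1.1 k.2.1 e.1 : ℚ))) := by
  classical
  rw [Fintype.linearIndependent_iff]
  intro g hg
  set c : (ι → Bool) → ℕ → ℝ := fun w j =>
    if h : w ∈ Ws ∧ j < M then ((g (⟨w, h.1⟩, ⟨j, h.2⟩) : ℚ) : ℝ) else 0 with hc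
  have hcg : ∀ (w : {w // w ∈ Ws}) (j : Fin M), c w.1 j.1 = ((g (w, j) : ℚ) : ℝ) := by
    intro w j
    simp only [hc]
    rw [dif_pos ⟨w.2, j.2⟩]
  have h1 := indep_mon hind c (by
    intro e he
    have he' : e ∈ Finset.piAntidiag (Finset.univ : Finset ι) d :=
      Finset.mem_piAntidiag.mpr ⟨he, fun i _ => Finset.mem_univ i⟩
    have h2 := congrFun hg ⟨e, he'⟩
    rw [Finset.sum_apply] at h2
    simp only [Pi.smul_apply, smul_eq_mul, Pi.zero_apply] at h2
    have h3 : ∑ w ∈ Ws, ∑ j ∈ Finset.range M, c w j * (tc σ w j e : ℝ) =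
        ∑ k : {w // w ∈ Ws} × Fin M, ((g k : ℚ) : ℝ) * (tc σ k.1.1 k.2.1 e : ℝ) := by
      rw [Fintype.sum_prod_type, ← Finset.sum_coe_sort Ws]
      refine Finset.sum_congr rfl fun w _ => ?_
      rw [Finset.sum_range]
      refine Finset.sum_congr rfl fun j _ => ?_
      rw [hcg]
    rw [h3]
    exact_mod_cast h2)
  rintro ⟨w, j⟩
  have h4 := h1 w.1 w.2 j.1 j.2
  rw [hcg] at h4
  exact_mod_cast h4

/-- the rows -/
private noncomputable def detB2_r {Ws : Finset (ι → Bool)} {M d : ℕ} (s : Finset ({w // w ∈ Ws} × Fin M)) :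
    Option {x // x ∈ s} → DetB2E ι d → ℤ :=
  fun a e => a.elim (S.ev e.1) (fun k => tc S.σ k.1.1.1 k.1.2.1 e.1)

private theorem detB2_dvd {Ws : Finset (ι → Bool)} {M d : ℕ}
    (s : Finset ({w // w ∈ Ws} × Fin M)) {p : ℕ} (hp : p.Prime) (hp2 : p ≠ 2) (hpD : p ∣ S.D)
    (hw : S.wd i0 (some p) ∈ Ws) (hs : ∀ j : Fin M, (⟨S.wd i0 (some p), hw⟩, j) ∈ s)
    (f : Option {x // x ∈ s} → DetB2E ι d) :
    (p : ℤ) ^ (S.D.factorization p * M) ∣
      (Matrix.of fun a b => detB2_r S s a (f b)).det := by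
  classical
  obtain ⟨lm, hlm⟩ := expand S i0 hp hp2 hpD M d
  refine dvd_det _ none (fun a => a.elim 0
    (fun k => if k.1.1.1 = S.wd i0 (some p) then lm k.1.2.1 else 0)) _ ?_
  intro b
  have h1 := hlm (f b).1 (detB2_sum (f b))
  have h2 : ∑ a ∈ Finset.univ.erase (none : Option {x // x ∈ s}),
      (a.elim 0 (fun k => if k.1.1.1 = S.wd i0 (some p) then lm k.1.2.1 else 0) : ℤ) *
        (Matrix.of fun a b => detB2_r S s a (f b)) a b =
      ∑ j ∈ Finset.range M, lm j * tc S.σ (S.wd i0 (some p)) j (f b).1 := by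
    rw [Finset.sum_erase _ (by simp), Fintype.sum_option]
    simp only [Option.elim_none, zero_mul, zero_add, Option.elim_some, Matrix.of_apply, detB2_r]
    rw [Finset.sum_coe_sort s (fun k : {w // w ∈ Ws} × Fin M =>
      (if k.1.1 = S.wd i0 (some p) then lm k.2.1 else 0) * tc S.σ k.1.1 k.2.1 (f b).1),
      Finset.sum_subset (Finset.subset_univ s) (fun k _ hk => ?_), Fintype.sum_prod_type,
      Finset.sum_eq_single (⟨S.wd i0 (some p), hw⟩ : {w // w ∈ Ws}) (fun w _ hw' => ?_)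
        (fun h => absurd (Finset.mem_univ _) h), Finset.sum_range]
    · refine Finset.sum_congr rfl fun j _ => ?_
      rw [if_pos rfl]
    · refine Finset.sum_eq_zero fun j _ => ?_
      rw [if_neg (fun h => hw' (Subtype.ext h)), zero_mul]
    · rw [if_neg, zero_mul]
      intro h
      refine hk ?_
      have h3 : k = (⟨S.wd i0 (some p), hw⟩, k.2) := Prod.ext (Subtype.ext h) rfl
      rw [h3]
      exact hs k.2
  rw [h2]
  exact h1

theorem det_ineq {Ws : Finset (ι → Bool)} {M d : ℕ} (hM : 0 < M) (hdM : d ≤ M)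
    (hind : Indep S.σ Ws M d) (hne : Ws.Nonempty) (Ps : Finset ℕ)
    (hPs : ∀ p ∈ Ps, p.Prime ∧ p ≠ 2 ∧ p ∣ S.D ∧ S.wd i0 (some p) ∈ Ws) :
    ∃ ws ∈ Ws, M * ∑ p ∈ Ps.filter (fun p => S.wd i0 (some p) ≠ ws), S.hh (some p) ≤
      d * (S.HH + Real.log 5) +
        ((M * Ws.card + 1 : ℕ) : ℝ) / 2 * Real.log ((M * Ws.card + 1 : ℕ) : ℝ) +
        ((M * Ws.card : ℕ) : ℝ) * (M * Real.log 67) := by
  classical
  have hHH := detB2_HH_nonneg S
  have hlog5 : 0 < Real.log 5 := Real.log_pos (by norm_num)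
  have hlog67 : 0 < Real.log 67 := Real.log_pos (by norm_num)
  have hRHS : 0 ≤ d * (S.HH + Real.log 5) +
      ((M * Ws.card + 1 : ℕ) : ℝ) / 2 * Real.log ((M * Ws.card + 1 : ℕ) : ℝ) +
      ((M * Ws.card : ℕ) : ℝ) * (M * Real.log 67) := by
    have h1 : 0 ≤ Real.log ((M * Ws.card + 1 : ℕ) : ℝ) := Real.log_natCast_nonneg _
    positivity
  rcases Ps.eq_empty_or_nonempty with hPe | ⟨p0, hp0⟩
  · obtain ⟨ws, hws⟩ := hne
    refine ⟨ws, hws, ?_⟩
    rw [hPe]
    simpa using hRHS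
  have hXne : ∀ i, S.X i ≠ 0 := by
    intro i hi
    obtain ⟨h1, _, h3, _⟩ := hPs p0 hp0
    refine S.cop p0 h1 h3 i ?_
    rw [hi]
    exact dvd_zero _
  have hv : (fun e : DetB2E ι d => (S.ev e.1 : ℚ)) ≠ 0 := by
    intro h0
    have he : Pi.single i0 d ∈ Finset.piAntidiag (Finset.univ : Finset ι) d := by
      rw [Finset.mem_piAntidiag]
      refine ⟨?_, fun i _ => Finset.mem_univ i⟩
      rw [Finset.sum_pi_single']
      simp
    have h1 := congrFun h0 ⟨Pi.single i0 d, he⟩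
    simp only [Pi.zero_apply, Int.cast_eq_zero] at h1
    unfold Sys.ev at h1
    rw [Finset.prod_eq_zero_iff] at h1
    obtain ⟨i, _, hi⟩ := h1
    exact pow_ne_zero _ (hXne i) hi
  obtain ⟨s, hs, hli⟩ := exchange _ (detB2_li hind) _ hv
  -- the exceptional word
  obtain ⟨ws, hws, hin⟩ : ∃ ws ∈ Ws, ∀ (w : {w // w ∈ Ws}) (j : Fin M), w.1 ≠ ws →
      (w, j) ∈ s := by
    rcases hs with hs | ⟨k, hs⟩
    · obtain ⟨ws, hws⟩ := hne
      refine ⟨ws, hws, fun w j _ => ?_⟩
      rw [hs]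
      exact Finset.mem_univ _
    · refine ⟨k.1.1, k.1.2, fun w j hw => ?_⟩
      rw [hs]
      refine Finset.mem_erase.mpr ⟨?_, Finset.mem_univ _⟩
      intro h
      refine hw ?_
      rw [← h]
  refine ⟨ws, hws, ?_⟩
  set Q := Ps.filter (fun p => S.wd i0 (some p) ≠ ws) with hQ
  set q : ℕ := ∏ p ∈ Q, p ^ (S.D.factorization p * M) with hq
  -- the lower bound for the minors
  set B : Option {x // x ∈ s} → ℝ :=
    fun a => a.elim ((5 * Real.exp S.HH) ^ d) (fun _ => 67 ^ M) with hB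
  have hli' : LinearIndependent ℚ (fun a => (fun e => (detB2_r S (d := d) s a e : ℚ))) := by
    have h1 : (fun a => (fun e => (detB2_r S (d := d) s a e : ℚ))) =
        (fun o : Option {x // x ∈ s} => o.elim (fun e : DetB2E ι d => (S.ev e.1 : ℚ))
          (fun k => (fun e : DetB2E ι d => (tc S.σ k.1.1.1 k.1.2.1 e.1 : ℚ)))) := by
      funext a
      cases a with
      | none => rfl
      | some k => rfl
    rw [h1]
    exact hli
  have hBle : ∀ a e, |(detB2_r S (d := d) s a e : ℝ)| ≤ B a := by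
    intro a e
    cases a with
    | none => exact detB2_ev_le S (detB2_sum e)
    | some k => exact tc_le S.σ k.1.1.1 k.1.2.2 hdM (detB2_sum e)
  have hdvd : ∀ f : Option {x // x ∈ s} → DetB2E ι d,
      (q : ℤ) ∣ (Matrix.of fun a b => detB2_r S s a (f b)).det := by
    intro f
    rw [hq]
    push_cast
    refine Finset.prod_dvd_of_coprime ?_ ?_
    · intro a ha b hb hab
      have h1 := (hPs a (Finset.mem_filter.mp ha).1).1
      have h2 := (hPs b (Finset.mem_filter.mp hb).1).1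
      refine IsCoprime.pow ?_
      rw [Nat.isCoprime_iff_coprime]
      exact (Nat.coprime_primes h1 h2).mpr hab
    · intro p hp
      obtain ⟨hp1, hp2⟩ := Finset.mem_filter.mp hp
      obtain ⟨h1, h2, h3, h4⟩ := hPs p hp1
      exact detB2_dvd S i0 s h1 h2 h3 h4 (fun j => hin _ j hp2) f
  have hmb := minor_bound (detB2_r S (d := d) s) hli' B hBle q hdvd
  -- the cardinality
  have hcard : Fintype.card (Option {x // x ∈ s}) = s.card + 1 := by
    rw [Fintype.card_option, Fintype.card_coe]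
  have hscard : s.card ≤ M * Ws.card := by
    refine (Finset.card_le_univ s).trans ?_
    rw [Fintype.card_prod, Fintype.card_coe, Fintype.card_fin, mul_comm]
  have hprodB : ∏ a, B a = (5 * Real.exp S.HH) ^ d * (67 ^ M) ^ s.card := by
    rw [Fintype.prod_option]
    simp only [hB, Option.elim_none, Option.elim_some, Finset.prod_const, Finset.card_univ,
      Fintype.card_coe]
  have hq0 : (0 : ℝ) < q := by
    rw [hq]
    push_cast
    refine Finset.prod_pos fun p hp => ?_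
    have h1 := (hPs p (Finset.mem_filter.mp hp).1).1.pos
    positivity
  have hlogq : Real.log q = M * ∑ p ∈ Q, S.hh (some p) := by
    rw [hq]
    push_cast
    rw [Real.log_prod (fun p hp => ?_), Finset.mul_sum]
    · refine Finset.sum_congr rfl fun p hp => ?_
      have h2 := (hPs p (Finset.mem_filter.mp hp).1).2.1
      rw [Real.log_pow]
      simp only [Sys.hh, if_neg h2]
      push_cast
      ring
    · have h1 := (hPs p (Finset.mem_filter.mp hp).1).1.pos
      positivity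
  rw [← hlogq]
  have h5 : Real.log q ≤ Real.log (Real.sqrt (Fintype.card (Option {x // x ∈ s})) ^
      Fintype.card (Option {x // x ∈ s}) * ∏ a, B a) := Real.log_le_log hq0 hmb
  refine h5.trans ?_
  rw [hprodB, hcard]
  have hs1 : (0 : ℝ) < ((s.card + 1 : ℕ) : ℝ) := by positivity
  have hsq : (0 : ℝ) < Real.sqrt ((s.card + 1 : ℕ) : ℝ) := Real.sqrt_pos.mpr hs1
  rw [Real.log_mul (by positivity) (by positivity), Real.log_mul (by positivity) (by positivity),
    Real.log_pow, Real.log_pow, Real.log_pow, Real.log_pow, Real.log_sqrt hs1.le,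
    Real.log_mul (by norm_num) (Real.exp_ne_zero _), Real.log_exp]
  have h6 : ((s.card + 1 : ℕ) : ℝ) ≤ ((M * Ws.card + 1 : ℕ) : ℝ) := by
    exact_mod_cast Nat.succ_le_succ hscard
  have h7 : Real.log ((s.card + 1 : ℕ) : ℝ) ≤ Real.log ((M * Ws.card + 1 : ℕ) : ℝ) :=
    Real.log_le_log hs1 h6
  have h8 : 0 ≤ Real.log ((s.card + 1 : ℕ) : ℝ) := Real.log_natCast_nonneg _
  have h9 : ((s.card + 1 : ℕ) : ℝ) * (Real.log ((s.card + 1 : ℕ) : ℝ) / 2) ≤
      ((M * Ws.card + 1 : ℕ) : ℝ) / 2 * Real.log ((M * Ws.card + 1 : ℕ) : ℝ) := by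
    have := mul_le_mul h6 h7 h8 (Nat.cast_nonneg _)
    linarith
  have h10 : (s.card : ℝ) ≤ ((M * Ws.card : ℕ) : ℝ) := by exact_mod_cast hscard
  have h11 : (s.card : ℝ) * (M * Real.log 67) ≤
      ((M * Ws.card : ℕ) : ℝ) * (M * Real.log 67) :=
    mul_le_mul_of_nonneg_right h10 (by positivity)
  linarith

end Pool.Agent.Ppr
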