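import Pool.Agent.Ppr.EnDef

/-!
# The two energy inequalities

`sum_sq`: `∑_u (sm u x)^2 = ∑_{i,j} x_i x_j ag n i j` (two points have equal windows iff `agr`).
`en_nonneg`: Cauchy-Schwarz, `∑_u sm u x = ∑ x`, there are `2^n` windows. `disc_eq`:
`disc n = en n 1` (`∑_u sm u 1 = N`).
`energy_disc`: with `c i j = ∑_{n=1}^{n0} (∑_v a v ag v n i j - 2^(-n))`:
`∑_{n} ∑_v a v disc (wd v) n = ∑_{i,j} c i j`; `c i j ≤ κ + 2^(-n0) ≤ κ + 1/N` for `i ≠ j`,
`c i i ≤ n0`. So it is `≤ N n0 + N^2 (κ + 1/N) = EE`.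
`energy_vec`: for `x i = ±1`: `∑ x_i x_j c i j ≤ N n0 + ∑_{i≠j} |c i j|`,
`∑_{i≠j} |c| = 2 ∑_{i≠j} c⁺ - ∑_{i≠j} c ≤ 2 N^2 (κ + 1/N) + N n0` because
`∑_{i,j} c i j ≥ 0` (`disc ≥ 0`). Total `≤ 2 EE`.
`weight_le`: `x = sg (w i)`, `n = 1`: for a place with the word `w`, `en (wd v) 1 x = N^2/2`
(the two windows have sums `N₊` and `-N₋`: `N₊^2 + N₋^2 - (N₊-N₋)^2/2 = (N₊+N₋)^2/2`), all
terms are `≥ 0`.
-/

namespace Pool.Agent.Ppr

variable {ι : Type} [Fintype ι] {V : Type} {σ : ι → ι} {P : Finset V} {a : V → ℝ}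
  {wd : V → ι → Bool} {n0 : ℕ} {κ : ℝ}

private theorem win_eq_iff_EnA1 (σ : ι → ι) (w : ι → Bool) (n : ℕ) (i j : ι) :
    win σ w n i = win σ w n j ↔ agr σ w n i j := by
  constructor
  · intro h k hk
    exact congrFun h ⟨k, hk⟩
  · intro h
    funext k
    exact h k.1 k.2

private theorem ag_eq_EnA1 (σ : ι → ι) (w : ι → Bool) (n : ℕ) (i j : ι) [DecidableEq (Fin n → Bool)] :
    ag σ w n i j = if win σ w n i = win σ w n j then 1 else 0 := by
  unfold ag
  by_cases h : agr σ w n i j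
  · rw [if_pos h, if_pos ((win_eq_iff_EnA1 σ w n i j).2 h)]
  · rw [if_neg h, if_neg (fun h' => h ((win_eq_iff_EnA1 σ w n i j).1 h'))]

private theorem ag_self_EnA1 (σ : ι → ι) (w : ι → Bool) (n : ℕ) (i : ι) :
    ag σ w n i i = 1 := by
  unfold ag
  rw [if_pos]
  intro k _
  rfl

private theorem sm_eq_EnA1 (σ : ι → ι) (w : ι → Bool) {n : ℕ} [DecidableEq (Fin n → Bool)]
    (u : Fin n → Bool) (x : ι → ℝ) :
    sm σ w u x = ∑ i, if win σ w n i = u then x i else 0 := by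
  unfold sm
  refine Finset.sum_congr rfl fun i _ => ?_
  by_cases h : win σ w n i = u
  · rw [if_pos h, if_pos h]
  · rw [if_neg h, if_neg h]

private theorem sum_sm_EnA1 (σ : ι → ι) (w : ι → Bool) (n : ℕ) (x : ι → ℝ) :
    ∑ u : Fin n → Bool, sm σ w u x = ∑ i, x i := by
  classical
  rw [Finset.sum_congr rfl fun u _ => sm_eq_EnA1 σ w u x, Finset.sum_comm]
  refine Finset.sum_congr rfl fun i _ => ?_
  rw [Finset.sum_ite_eq, if_pos (Finset.mem_univ _)]

theorem sum_sq (σ : ι → ι) (w : ι → Bool) (n : ℕ) (x : ι → ℝ) :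
    ∑ u : Fin n → Bool, (sm σ w u x) ^ 2 = ∑ i, ∑ j, x i * x j * ag σ w n i j := by
  classical
  have h1 : ∀ u : Fin n → Bool, (sm σ w u x) ^ 2 =
      ∑ i, ∑ j, (if win σ w n i = u then x i else 0) * (if win σ w n j = u then x j else 0) := by
    intro u
    rw [sm_eq_EnA1, sq, Finset.sum_mul_sum]
  rw [Finset.sum_congr rfl fun u _ => h1 u, Finset.sum_comm]
  refine Finset.sum_congr rfl fun i _ => ?_
  rw [Finset.sum_comm]
  refine Finset.sum_congr rfl fun j _ => ?_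
  rw [Finset.sum_eq_single (win σ w n i)]
  · rw [if_pos rfl, ag_eq_EnA1]
    by_cases h : win σ w n i = win σ w n j
    · rw [if_pos h, if_pos h.symm, mul_one]
    · rw [if_neg h, if_neg (fun h' => h h'.symm), mul_zero, mul_zero]
  · intro u _ hu
    rw [if_neg (fun h => hu h.symm), zero_mul]
  · exact fun h => absurd (Finset.mem_univ _) h

private theorem card_EnA1 (n : ℕ) :
    ((Finset.univ : Finset (Fin n → Bool)).card : ℝ) = 2 ^ n := by
  rw [Finset.card_univ, Fintype.card_fun, Fintype.card_fin, Fintype.card_bool]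
  push_cast
  rfl

theorem en_nonneg (σ : ι → ι) (w : ι → Bool) (n : ℕ) (x : ι → ℝ) : 0 ≤ en σ w n x := by
  unfold en
  have h1 := sq_sum_le_card_mul_sum_sq (s := (Finset.univ : Finset (Fin n → Bool)))
    (f := fun u => sm σ w u x)
  rw [sum_sm_EnA1, card_EnA1] at h1
  rw [sub_nonneg, div_le_iff₀ (by positivity), mul_comm]
  exact h1

theorem disc_eq (σ : ι → ι) (w : ι → Bool) (n : ℕ) : disc σ w n = en σ w n (fun _ => 1) := by
  have h1 := sum_sm_EnA1 σ w n (fun _ => 1)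
  have h2 : ∑ _i : ι, (1 : ℝ) = Fintype.card ι := by simp
  unfold disc en
  rw [h2] at h1 ⊢
  have h3 : ∀ u : Fin n → Bool, (sm σ w u (fun _ => 1) - (Fintype.card ι : ℝ) / 2 ^ n) ^ 2 =
      (sm σ w u (fun _ => 1)) ^ 2 - 2 * ((Fintype.card ι : ℝ) / 2 ^ n) * sm σ w u (fun _ => 1) +
        ((Fintype.card ι : ℝ) / 2 ^ n) ^ 2 := by
    intro u
    ring
  rw [Finset.sum_congr rfl fun u _ => h3 u, Finset.sum_add_distrib, Finset.sum_sub_distrib,
    ← Finset.mul_sum, h1, Finset.sum_const, nsmul_eq_mul, card_EnA1]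
  field_simp
  ring

private theorem geom_EnA1 (n0 : ℕ) :
    ∑ n ∈ Finset.Icc 1 n0, (1 : ℝ) / 2 ^ n = 1 - 1 / 2 ^ n0 := by
  induction n0 with
  | zero => simp
  | succ n ih =>
    rw [Finset.sum_Icc_succ_top (by omega), ih, pow_succ]
    field_simp
    ring

theorem energy_disc (h : EN σ P a wd n0 κ) :
    ∑ n ∈ Finset.Icc 1 n0, ∑ v ∈ P, a v * disc σ (wd v) n ≤ EE ι n0 κ := by
  classical
  have h1 : ∀ n, ∀ v, disc σ (wd v) n =
      (∑ i : ι, ∑ j : ι, ag σ (wd v) n i j) - (Fintype.card ι : ℝ) ^ 2 * (1 / 2 ^ n) := by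
    intro n v
    rw [disc_eq]
    unfold en
    rw [sum_sq]
    simp only [one_mul, Finset.sum_const, Finset.card_univ, nsmul_eq_mul, mul_one]
    ring
  have h2 : ∑ n ∈ Finset.Icc 1 n0, ∑ v ∈ P, a v * disc σ (wd v) n =
      (∑ i : ι, ∑ j : ι, ∑ n ∈ Finset.Icc 1 n0, ∑ v ∈ P, a v * ag σ (wd v) n i j) -
        (Fintype.card ι : ℝ) ^ 2 * (1 - 1 / 2 ^ n0) := by
    have e1 : ∀ n ∈ Finset.Icc 1 n0, ∑ v ∈ P, a v * disc σ (wd v) n =
        (∑ i : ι, ∑ j : ι, ∑ v ∈ P, a v * ag σ (wd v) n i j) -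
          (Fintype.card ι : ℝ) ^ 2 * (1 / 2 ^ n) := by
      intro n _
      have e2 : ∀ v ∈ P, a v * disc σ (wd v) n =
          (∑ i : ι, ∑ j : ι, a v * ag σ (wd v) n i j) -
            a v * ((Fintype.card ι : ℝ) ^ 2 * (1 / 2 ^ n)) := by
        intro v _
        rw [h1, mul_sub, Finset.mul_sum]
        congr 1
        exact Finset.sum_congr rfl fun i _ => by rw [Finset.mul_sum]
      rw [Finset.sum_congr rfl e2, Finset.sum_sub_distrib, ← Finset.sum_mul, h.sum_eq, one_mul,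
        Finset.sum_comm]
      congr 1
      exact Finset.sum_congr rfl fun i _ => Finset.sum_comm
    rw [Finset.sum_congr rfl e1, Finset.sum_sub_distrib, ← Finset.mul_sum, geom_EnA1,
      Finset.sum_comm]
    congr 1
    exact Finset.sum_congr rfl fun i _ => Finset.sum_comm
  rw [h2]
  have h3 : ∀ i j : ι, ∑ n ∈ Finset.Icc 1 n0, ∑ v ∈ P, a v * ag σ (wd v) n i j ≤
      (1 + κ) + if i = j then ((n0 : ℝ) - (1 + κ)) else 0 := by
    intro i j
    by_cases hij : i = j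
    · subst hij
      rw [if_pos rfl]
      have e1 : ∀ n ∈ Finset.Icc 1 n0, ∑ v ∈ P, a v * ag σ (wd v) n i i = 1 := by
        intro n _
        rw [Finset.sum_congr rfl fun v _ => by rw [ag_self_EnA1, mul_one], h.sum_eq]
      rw [Finset.sum_congr rfl e1, Finset.sum_const, Nat.card_Icc, nsmul_eq_mul, mul_one]
      have e2 : ((n0 + 1 - 1 : ℕ) : ℝ) = n0 := by
        rw [Nat.add_sub_cancel]
      rw [e2]
      linarith
    · rw [if_neg hij, add_zero]
      exact h.en i j hij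
  have h4 : ∑ i : ι, ∑ j : ι, ∑ n ∈ Finset.Icc 1 n0, ∑ v ∈ P, a v * ag σ (wd v) n i j ≤
      (Fintype.card ι : ℝ) ^ 2 * (1 + κ) + (Fintype.card ι : ℝ) * ((n0 : ℝ) - (1 + κ)) := by
    refine (Finset.sum_le_sum fun i _ => Finset.sum_le_sum fun j _ => h3 i j).trans
      (le_of_eq ?_)
    simp only [Finset.sum_add_distrib, Finset.sum_const, Finset.card_univ, nsmul_eq_mul,
      Finset.sum_ite_eq, Finset.mem_univ, if_true]
    ring
  have hN0 : (0 : ℝ) ≤ Fintype.card ι := Nat.cast_nonneg _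
  have hbig : (Fintype.card ι : ℝ) ≤ 2 ^ n0 := by exact_mod_cast h.big
  have h5 : (Fintype.card ι : ℝ) ^ 2 * (1 / 2 ^ n0) ≤ Fintype.card ι := by
    rw [mul_one_div, div_le_iff₀ (by positivity), sq]
    exact mul_le_mul_of_nonneg_left hbig hN0
  have hk := h.kap
  have h6 : 0 ≤ κ * (Fintype.card ι : ℝ) := mul_nonneg hk hN0
  unfold EE
  nlinarith

end Pool.Agent.Ppr
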