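import Pool.Agent.Ppr.EnA1

/-!
# The two energy inequalities

`sum_sq`: `∑_u (sm u x)^2 = ∑_{i,j} x_i x_j ag n i j` (two points have equal windows iff `agr`).
`en_nonneg`: Cauchy-Schwarz, `∑_u sm u x = ∑ x`, there are `2^n` windows. `disc_eq`:
`disc n = en n 1` (`∑_u sm u 1 = N`).
`energy_disc`: with `c i j = ∑_{n=1}^{n0} (∑_v a v ag v n i j - 2^(-n))`:
`∑_{n} ∑_v a v disc (wd v) n = ∑_{i,j} c i j`; `c i j ≤ κ + 2^(-n0) ≤ κ + 1/N` for `i ≠ j`,
`c i i ≤ n0`. So it is `≤ N n0 + N^2 (κ + 1/N) = EE`.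
`energy_vec`: for `x i = ±1`: `∑ x_i x_j c i j ≤ N n0 + ∑_{i≠j} |c i j|`,
`∑_{i≠j} |c| = 2 ∑_{i≠j} c⁺ - ∑_{i≠j} c ≤ 2 N^2 (κ + 1/N) + N n0` because
`∑_{i,j} c i j ≥ 0` (`disc ≥ 0`). Total `≤ 2 EE`.
`weight_le`: `x = sg (w i)`, `n = 1`: for a place with the word `w`, `en (wd v) 1 x = N^2/2`
(the two windows have sums `N₊` and `-N₋`: `N₊^2 + N₋^2 - (N₊-N₋)^2/2 = (N₊+N₋)^2/2`), all
terms are `≥ 0`.
-/

namespace Pool.Agent.Ppr

variable {ι : Type} [Fintype ι] {V : Type} {σ : ι → ι} {P : Finset V} {a : V → ℝ}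
  {wd : V → ι → Bool} {n0 : ℕ} {κ : ℝ}

private noncomputable def cEnA2 (σ : ι → ι) (P : Finset V) (a : V → ℝ) (wd : V → ι → Bool)
    (n0 : ℕ) (i j : ι) : ℝ :=
  ∑ n ∈ Finset.Icc 1 n0, (∑ v ∈ P, a v * ag σ (wd v) n i j - 1 / 2 ^ n)

private theorem sum_x_EnA2 (x : ι → ℝ) : (∑ i, x i) ^ 2 = ∑ i, ∑ j, x i * x j := by
  rw [sq, Finset.sum_mul_sum]

private theorem sum_en_EnA2 (h : EN σ P a wd n0 κ) (x : ι → ℝ) :
    ∑ n ∈ Finset.Icc 1 n0, ∑ v ∈ P, a v * en σ (wd v) n x =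
      ∑ i, ∑ j, x i * x j * cEnA2 σ P a wd n0 i j := by
  have h1 : ∀ n : ℕ, ∑ v ∈ P, a v * en σ (wd v) n x =
      ∑ i, ∑ j, x i * x j * (∑ v ∈ P, a v * ag σ (wd v) n i j - 1 / 2 ^ n) := by
    intro n
    have h2 : ∑ v ∈ P, a v * en σ (wd v) n x =
        ∑ v ∈ P, a v * (∑ i, ∑ j, x i * x j * ag σ (wd v) n i j) -
          (∑ i, x i) ^ 2 / 2 ^ n := by
      calc ∑ v ∈ P, a v * en σ (wd v) n x
          = ∑ v ∈ P, (a v * (∑ i, ∑ j, x i * x j * ag σ (wd v) n i j) -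
              a v * ((∑ i, x i) ^ 2 / 2 ^ n)) := by
            refine Finset.sum_congr rfl fun v _ => ?_
            rw [en, sum_sq, mul_sub]
        _ = _ := by
            rw [Finset.sum_sub_distrib, ← Finset.sum_mul, h.sum_eq, one_mul]
    rw [h2, sum_x_EnA2]
    simp only [Finset.mul_sum, Finset.sum_div, mul_sub, Finset.sum_sub_distrib]
    congr 1
    · rw [Finset.sum_comm]
      refine Finset.sum_congr rfl fun i _ => ?_
      rw [Finset.sum_comm]
      refine Finset.sum_congr rfl fun j _ => Finset.sum_congr rfl fun v _ => ?_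
      ring
    · refine Finset.sum_congr rfl fun i _ => Finset.sum_congr rfl fun j _ => ?_
      ring
  simp only [h1, cEnA2, Finset.mul_sum]
  rw [Finset.sum_comm]
  refine Finset.sum_congr rfl fun i _ => ?_
  rw [Finset.sum_comm]

private theorem geo_EnA2 (n0 : ℕ) : ∑ n ∈ Finset.Icc 1 n0, (1 : ℝ) / 2 ^ n = 1 - 1 / 2 ^ n0 := by
  induction n0 with
  | zero => simp
  | succ n ih =>
    rw [Finset.sum_Icc_succ_top (by omega), ih, pow_succ]
    field_simp
    ring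

open Classical in
private theorem c_le_EnA2 (h : EN σ P a wd n0 κ) (i j : ι) :
    cEnA2 σ P a wd n0 i j ≤ (if i = j then (n0 : ℝ) else 0) + (κ + 1 / 2 ^ n0) := by
  have hk := h.kap
  have hp : (0 : ℝ) ≤ 1 / 2 ^ n0 := by positivity
  rw [cEnA2, Finset.sum_sub_distrib, geo_EnA2]
  by_cases hij : i = j
  · rw [if_pos hij]
    have h1 : ∀ n ∈ Finset.Icc 1 n0, ∑ v ∈ P, a v * ag σ (wd v) n i j ≤ 1 := by
      intro n _
      rw [← h.sum_eq]
      refine Finset.sum_le_sum fun v hv => ?_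
      have h2 : ag σ (wd v) n i j ≤ 1 := by
        unfold ag
        split_ifs <;> norm_num
      nlinarith [h.nonneg v hv]
    have h3 := Finset.sum_le_sum h1
    rw [Finset.sum_const, Nat.card_Icc, Nat.add_sub_cancel, nsmul_eq_mul, mul_one] at h3
    have h4 : (1 : ℝ) / 2 ^ n0 ≤ 1 := by
      rw [div_le_one (by positivity)]
      exact one_le_pow₀ (by norm_num)
    linarith
  · rw [if_neg hij]
    have := h.en i j hij
    linarith

theorem energy_vec (h : EN σ P a wd n0 κ) {x : ι → ℝ} (hx : ∀ i, x i = 1 ∨ x i = -1) :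
    ∑ n ∈ Finset.Icc 1 n0, ∑ v ∈ P, a v * en σ (wd v) n x ≤ 2 * EE ι n0 κ := by
  classical
  have hk := h.kap
  have hp : (0 : ℝ) ≤ 1 / 2 ^ n0 := by positivity
  have h0 : 0 ≤ ∑ i, ∑ j, cEnA2 σ P a wd n0 i j := by
    have h1 := sum_en_EnA2 h (fun _ => 1)
    simp only [one_mul] at h1
    rw [← h1]
    exact Finset.sum_nonneg fun n _ => Finset.sum_nonneg fun v hv =>
      mul_nonneg (h.nonneg v hv) (en_nonneg _ _ _ _)
  rw [sum_en_EnA2 h]
  have h2 : ∑ i, ∑ j, x i * x j * cEnA2 σ P a wd n0 i j ≤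
      ∑ i, ∑ j, (2 * ((if i = j then (n0 : ℝ) else 0) + (κ + 1 / 2 ^ n0)) -
        cEnA2 σ P a wd n0 i j) := by
    refine Finset.sum_le_sum fun i _ => Finset.sum_le_sum fun j _ => ?_
    have h3 := c_le_EnA2 h i j
    have h4 : (0 : ℝ) ≤ (if i = j then (n0 : ℝ) else 0) := by
      split_ifs
      · positivity
      · exact le_rfl
    rcases hx i with hi | hi <;> rcases hx j with hj | hj <;> rw [hi, hj] <;> linarith
  refine h2.trans ?_
  have h5 : ∑ i : ι, ∑ j : ι, (2 * ((if i = j then (n0 : ℝ) else 0) + (κ + 1 / 2 ^ n0)) -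
        cEnA2 σ P a wd n0 i j) =
      2 * ((Fintype.card ι : ℝ) * n0 + (Fintype.card ι : ℝ) ^ 2 * (κ + 1 / 2 ^ n0)) -
        ∑ i, ∑ j, cEnA2 σ P a wd n0 i j := by
    simp only [Finset.sum_sub_distrib, ← Finset.mul_sum, Finset.sum_add_distrib,
      Finset.sum_ite_eq, Finset.mem_univ, if_true, Finset.sum_const, Finset.card_univ,
      nsmul_eq_mul]
    ring
  rw [h5, EE]
  have h6 : (Fintype.card ι : ℝ) * (1 / 2 ^ n0) ≤ 1 := by
    rw [mul_one_div, div_le_one (by positivity)]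
    exact_mod_cast h.big
  have h7 : (0 : ℝ) ≤ Fintype.card ι := Nat.cast_nonneg _
  nlinarith

private theorem en_one_EnA2 (σ : ι → ι) (w : ι → Bool) :
    en σ w 1 (fun i => (sg (w i) : ℝ)) = (Fintype.card ι : ℝ) ^ 2 / 2 := by
  rw [en, sum_sq, sum_x_EnA2]
  have h1 : ∀ i j, (sg (w i) : ℝ) * (sg (w j) : ℝ) * ag σ w 1 i j =
      (1 + (sg (w i) : ℝ) * (sg (w j) : ℝ)) / 2 := by
    intro i j
    have h2 : agr σ w 1 i j ↔ w i = w j := by
      unfold agr
      constructor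
      · intro hh
        exact hh 0 (by norm_num)
      · intro hh k hk
        obtain rfl : k = 0 := by omega
        exact hh
    have h3 : ag σ w 1 i j = if w i = w j then 1 else 0 := by
      unfold ag
      by_cases hij : w i = w j
      · rw [if_pos (h2.2 hij), if_pos hij]
      · rw [if_neg (fun hh => hij (h2.1 hh)), if_neg hij]
    rw [h3]
    cases hi : w i <;> cases hj : w j <;> norm_num [sg]
  simp only [h1, add_div, Finset.sum_add_distrib, Finset.sum_const, Finset.card_univ,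
    nsmul_eq_mul, Finset.sum_div, pow_one]
  ring

open Classical in
theorem weight_le (h : EN σ P a wd n0 κ) (hn0 : 1 ≤ n0) (w : ι → Bool) :
    (∑ v ∈ P.filter (fun v => wd v = w), a v) * (Fintype.card ι : ℝ) ^ 2 ≤
      4 * EE ι n0 κ := by
  have h1 := energy_vec h (x := fun i => (sg (w i) : ℝ)) (by
    intro i
    cases w i <;> simp [sg])
  have h2 : ∑ v ∈ P, a v * en σ (wd v) 1 (fun i => (sg (w i) : ℝ)) ≤
      ∑ n ∈ Finset.Icc 1 n0, ∑ v ∈ P, a v * en σ (wd v) n (fun i => (sg (w i) : ℝ)) :=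
    Finset.single_le_sum (f := fun n => ∑ v ∈ P, a v * en σ (wd v) n
      (fun i => (sg (w i) : ℝ))) (fun n _ => Finset.sum_nonneg fun v hv =>
      mul_nonneg (h.nonneg v hv) (en_nonneg _ _ _ _)) (Finset.mem_Icc.2 ⟨le_rfl, hn0⟩)
  have h3 : ∑ v ∈ P.filter (fun v => wd v = w), a v * en σ (wd v) 1 (fun i => (sg (w i) : ℝ)) ≤
      ∑ v ∈ P, a v * en σ (wd v) 1 (fun i => (sg (w i) : ℝ)) :=
    Finset.sum_le_sum_of_subset_of_nonneg (Finset.filter_subset _ _) fun v hv _ =>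
      mul_nonneg (h.nonneg v hv) (en_nonneg _ _ _ _)
  have h4 : ∑ v ∈ P.filter (fun v => wd v = w), a v * en σ (wd v) 1 (fun i => (sg (w i) : ℝ)) =
      (∑ v ∈ P.filter (fun v => wd v = w), a v) * ((Fintype.card ι : ℝ) ^ 2 / 2) := by
    rw [Finset.sum_mul]
    refine Finset.sum_congr rfl fun v hv => ?_
    rw [(Finset.mem_filter.1 hv).2, en_one_EnA2]
  rw [h4] at h3
  linarith

end Pool.Agent.Ppr
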