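import Pool.Agent.Ppr.Defs

/-!
# The energy: definitions

Abstract setting: a finite set `P` of places with weights `a ≥ 0` of sum `1` and words `wd v`, such
that for `i ≠ j` the mean number of `n ∈ [1, n0]` with equal windows of length `n` is
`≤ 1 + κ` (`EN`). `cl σ w n u` = the set of the points with the window `u`, `sm` = the sum of a
sign vector `x` over it. `disc` = the discrepancy of the windows of length `n`.
-/

namespace Pool.Agent.Ppr

variable {ι : Type} [Fintype ι]

/-- the indicator of equal windows -/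
noncomputable def ag (σ : ι → ι) (w : ι → Bool) (n : ℕ) (i j : ι) : ℝ :=
  open Classical in if agr σ w n i j then 1 else 0

/-- the sum of `x` over the points with the window `u` -/
noncomputable def sm (σ : ι → ι) (w : ι → Bool) {n : ℕ} (u : Fin n → Bool) (x : ι → ℝ) : ℝ :=
  ∑ i, open Classical in if win σ w n i = u then x i else 0

/-- the discrepancy of the windows of length `n` -/
noncomputable def disc (σ : ι → ι) (w : ι → Bool) (n : ℕ) : ℝ :=
  ∑ u : Fin n → Bool, (sm σ w u (fun _ => 1) - Fintype.card ι / 2 ^ n) ^ 2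

/-- the energy of the sign vector `x` at the length `n` -/
noncomputable def en (σ : ι → ι) (w : ι → Bool) (n : ℕ) (x : ι → ℝ) : ℝ :=
  (∑ u : Fin n → Bool, (sm σ w u x) ^ 2) - (∑ i, x i) ^ 2 / 2 ^ n

/-- the hypothesis -/
structure EN {V : Type} (σ : ι → ι) (P : Finset V) (a : V → ℝ) (wd : V → ι → Bool) (n0 : ℕ)
    (κ : ℝ) : Prop where
  nonneg : ∀ v ∈ P, 0 ≤ a v
  sum_eq : ∑ v ∈ P, a v = 1
  en : ∀ i j : ι, i ≠ j → ∑ n ∈ Finset.Icc 1 n0, ∑ v ∈ P, a v * ag σ (wd v) n i j ≤ 1 + κ
  kap : 0 ≤ κ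
  big : Fintype.card ι ≤ 2 ^ n0

/-- the bound -/
noncomputable def EE (ι : Type) [Fintype ι] (n0 : ℕ) (κ : ℝ) : ℝ :=
  (Fintype.card ι : ℝ) * (n0 + 1) + κ * (Fintype.card ι : ℝ) ^ 2

end Pool.Agent.Ppr
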