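import Pool.Agent.Ppr.HedDef

/-!
# A left permutive block code that is not `± id` is not injective on periodic words

`img ψ v k = xor (v k) (ψ (v (k+1), …, v (k+m)))`. LEMMA `collision`: if `ψ` is not constant
there are two different periodic words of a common period `n ≤ 4^m` with the same image.

Proof. (1) If two words have the same image letters at the places `< 4^m` and different first
windows, then all windows at the places `≤ 4^m` are different, two of these pairs of windows
coincide (pigeonhole), and periodic words arise (`collision_of_pair`).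
(2) Let `L` be the least number such that the first `L` image letters determine `ψ (v 0, …)`
(`L ≤ 4^m` exists by (1)); `L = l + 1` because `ψ` is not constant. Let `d` be the last
coordinate on which `ψ` depends. Put `l` letters in front of a word `τ`, such that `ψ` at the place
`1` of `τ` is sensitive to the coordinate `d`, so that the first `l` image letters are a context
where the image letter number `l` matters. Flipping `τ (d + 1)` changes this letter, but neither
the earlier ones nor `ψ (v 0, …)`.
-/

namespace Pool.Agent.Ppr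

namespace Hed

variable {m : ℕ} (ψ : (Fin m → Bool) → Bool)

/-- the value of `ψ` on the first window -/
def key (v : ℕ → Bool) : Bool := ψ (fun i => v i.1)

/-- put a letter in front, such that the image letter is `b` -/
def pre (b : Bool) (v : ℕ → Bool) : ℕ → Bool
  | 0 => xor b (key ψ v)
  | (k + 1) => v k

theorem img_pre_zero (b : Bool) (v : ℕ → Bool) : img ψ (pre ψ b v) 0 = b := by
  have h : (fun i : Fin m => pre ψ b v (0 + 1 + i.1)) = fun i => v i.1 := by
    funext i
    rw [show 0 + 1 + i.1 = i.1 + 1 by omega]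
    rfl
  unfold img
  rw [h]
  show xor (xor b (key ψ v)) (key ψ v) = b
  cases b <;> cases key ψ v <;> rfl

theorem img_pre_succ (b : Bool) (v : ℕ → Bool) (k : ℕ) :
    img ψ (pre ψ b v) (k + 1) = img ψ v k := by
  have h : (fun i : Fin m => pre ψ b v (k + 1 + 1 + i.1)) = fun i => v (k + 1 + i.1) := by
    funext i
    rw [show k + 1 + 1 + i.1 = (k + 1 + i.1) + 1 by omega]
    rfl
  unfold img
  rw [h]
  rfl

/-- put `l` letters in front, with prescribed image letters -/
def build (c : ℕ → Bool) : ℕ → (ℕ → Bool) → ℕ → Bool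
  | 0, v => v
  | (l + 1), v => build c l (pre ψ (c l) v)

theorem img_build (c : ℕ → Bool) (l : ℕ) : ∀ (v : ℕ → Bool) (k : ℕ),
    img ψ (build ψ c l v) (l + k) = img ψ v k := by
  induction l with
  | zero => intro v k; simp [build]
  | succ l ih =>
    intro v k
    rw [show l + 1 + k = l + (k + 1) by omega]
    show img ψ (build ψ c l (pre ψ (c l) v)) (l + (k + 1)) = _
    rw [ih, img_pre_succ]

theorem img_build_lt (c : ℕ → Bool) (l : ℕ) : ∀ (v : ℕ → Bool) (k : ℕ), k < l →
    img ψ (build ψ c l v) k = c k := by
  induction l with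
  | zero => intro v k hk; omega
  | succ l ih =>
    intro v k hk
    show img ψ (build ψ c l (pre ψ (c l) v)) k = _
    rcases Nat.lt_succ_iff_lt_or_eq.mp hk with h | h
    · exact ih _ k h
    · subst h
      have := img_build ψ c k (pre ψ (c k) v) 0
      rw [Nat.add_zero] at this
      rw [this, img_pre_zero]

theorem build_agree {d : ℕ}
    (hd : ∀ x y : Fin m → Bool, (∀ i : Fin m, i.1 ≤ d → x i = y i) → ψ x = ψ y)
    (c : ℕ → Bool) (l : ℕ) : ∀ (e : ℕ) (v v' : ℕ → Bool), d ≤ e → (∀ k ≤ e, v k = v' k) →
      ∀ k ≤ e + l, build ψ c l v k = build ψ c l v' k := by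
  induction l with
  | zero => intro e v v' _ h k hk; exact h k hk
  | succ l ih =>
    intro e v v' hde h k hk
    have hkey : key ψ v = key ψ v' := hd _ _ fun i hi => h i.1 (hi.trans hde)
    have h' : ∀ k ≤ e + 1, pre ψ (c l) v k = pre ψ (c l) v' k := by
      intro k hk
      cases k with
      | zero => show xor _ (key ψ v) = xor _ (key ψ v'); rw [hkey]
      | succ k => exact h k (by omega)
    exact ih (e + 1) _ _ (by omega) h' k (by omega)

/-- windows that differ produce a collision -/
theorem collision_of_pair {v v' : ℕ → Bool} (himg : ∀ k < 4 ^ m, img ψ v k = img ψ v' k)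
    (hne : key ψ v ≠ key ψ v') :
    ∃ n, 0 < n ∧ n ≤ 4 ^ m ∧ ∃ u u' : ℕ → Bool, (∀ k, u (k + n) = u k) ∧
      (∀ k, u' (k + n) = u' k) ∧ u ≠ u' ∧ ∀ k, img ψ u k = img ψ u' k := by
  classical
  let X : ℕ → (Fin m → Bool) := fun k i => v (k + i.1)
  let X' : ℕ → (Fin m → Bool) := fun k i => v' (k + i.1)
  have hX0 : X 0 ≠ X' 0 := by
    intro h
    apply hne
    have h1 : (fun i : Fin m => v i.1) = fun i => v' i.1 := by
      funext i
      have := congrFun h i
      simpa [X, X'] using this
    unfold key
    rw [h1]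
  have hstep : ∀ k < 4 ^ m, X k ≠ X' k → X (k + 1) ≠ X' (k + 1) := by
    intro k hk h1 h2
    apply h1
    have h3 : v k = v' k := by
      have e := himg k hk
      unfold img at e
      have e2 : (fun i : Fin m => v (k + 1 + i.1)) = fun i => v' (k + 1 + i.1) := h2
      rw [e2] at e
      exact Bool.xor_left_inj.mp e
    funext i
    show v (k + i.1) = v' (k + i.1)
    rcases Nat.eq_zero_or_pos i.1 with hi | hi
    · rw [hi]; exact h3
    · have := congrFun h2 ⟨i.1 - 1, by omega⟩
      simp only [X, X'] at this
      rw [show k + 1 + (i.1 - 1) = k + i.1 by omega] at this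
      exact this
  have hall : ∀ k ≤ 4 ^ m, X k ≠ X' k := by
    intro k
    induction k with
    | zero => intro _; exact hX0
    | succ k ih => intro hk; exact hstep k (by omega) (ih (by omega))
  -- pigeonhole
  let f : Fin (4 ^ m + 1) → (Fin m → Bool) × (Fin m → Bool) := fun k => (X k.1, X' k.1)
  have hcard : Fintype.card ((Fin m → Bool) × (Fin m → Bool)) < Fintype.card (Fin (4 ^ m + 1)) := by
    rw [Fintype.card_prod, Fintype.card_fin]
    simp only [Fintype.card_fun, Fintype.card_bool, Fintype.card_fin]
    rw [← Nat.mul_pow]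
    norm_num
  obtain ⟨a0, b0, hab0, hfab⟩ := Fintype.exists_ne_map_eq_of_card_lt f hcard
  obtain ⟨a, b, hab, hb, hXab, hXab'⟩ : ∃ a b : ℕ, a < b ∧ b ≤ 4 ^ m ∧ X a = X b ∧
      X' a = X' b := by
    have e1 : X a0.1 = X b0.1 := congrArg Prod.fst hfab
    have e2 : X' a0.1 = X' b0.1 := congrArg Prod.snd hfab
    rcases lt_trichotomy a0.1 b0.1 with h | h | h
    · exact ⟨a0.1, b0.1, h, by have := b0.2; omega, e1, e2⟩
    · exact absurd (Fin.ext h) hab0
    · exact ⟨b0.1, a0.1, h, by have := a0.2; omega, e1.symm, e2.symm⟩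
  set n := b - a with hn
  have hn0 : 0 < n := by omega
  -- periodicity inside the range
  have per : ∀ (z : ℕ → Bool), (∀ i : Fin m, z (a + i.1) = z (b + i.1)) →
      ∀ j, j < n + m → z (a + j) = z (a + j % n) := by
    intro z hz j
    induction j using Nat.strong_induction_on with
    | _ j ih =>
      intro hj
      rcases Nat.lt_or_ge j n with h | h
      · rw [Nat.mod_eq_of_lt h]
      · have h1 := hz ⟨j - n, by omega⟩
        simp only at h1
        rw [show b + (j - n) = a + j by omega] at h1
        rw [← h1, ih (j - n) (by omega) (by omega), Nat.mod_eq_sub_mod h]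
  have perv := per v (fun i => congrFun hXab i)
  have perv' := per v' (fun i => congrFun hXab' i)
  have him : ∀ (z : ℕ → Bool), (∀ j, j < n + m → z (a + j) = z (a + j % n)) → ∀ k,
      img ψ (fun k => z (a + k % n)) k = img ψ z (a + k % n) := by
    intro z hz k
    unfold img
    have hk : k % n < n := Nat.mod_lt _ hn0
    have : (fun i : Fin m => z (a + (k + 1 + i.1) % n)) =
        fun i : Fin m => z (a + k % n + 1 + i.1) := by
      funext i
      have h1 := hz (k % n + 1 + i.1) (by have := i.2; omega)
      rw [show a + k % n + 1 + i.1 = a + (k % n + 1 + i.1) by omega, h1]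
      congr 2
      rw [Nat.add_assoc, Nat.add_assoc, Nat.mod_add_mod]
    simp only [this]
  refine ⟨n, hn0, by omega, fun k => v (a + k % n), fun k => v' (a + k % n), ?_, ?_, ?_, ?_⟩
  · intro k; simp
  · intro k; simp
  · intro h
    apply hall a (by omega)
    funext i
    have h1 : v (a + i.1 % n) = v' (a + i.1 % n) := congrFun h i.1
    show v (a + i.1) = v' (a + i.1)
    rw [perv i.1 (by have := i.2; omega), perv' i.1 (by have := i.2; omega)]
    exact h1
  · intro k
    rw [him v perv, him v' perv']
    exact himg _ (by have := Nat.mod_lt k hn0; omega)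

theorem bool_aux : ∀ {a b c e : Bool}, a ≠ b → c ≠ e → a = c → b = e := by
  decide

theorem bool_aux' : ∀ {a b c e : Bool}, a ≠ b → c ≠ e → a = !c → a = e ∧ b = c := by
  decide

/-- `ψ` depends on its essential coordinates only -/
theorem eq_of_essential {x y : Fin m → Bool}
    (h : ∀ i, (∃ z, ψ z ≠ ψ (Function.update z i (!z i))) → x i = y i) : ψ x = ψ y := by
  classical
  have key : ∀ s : Finset (Fin m), ψ (s.piecewise y x) = ψ x := by
    intro s
    induction s using Finset.induction_on with
    | empty => simp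
    | insert a s ha ih =>
      rw [Finset.piecewise_insert]
      by_cases he : ∃ z, ψ z ≠ ψ (Function.update z a (!z a))
      · have h1 : (s.piecewise y x) a = y a := by
          rw [Finset.piecewise_eq_of_notMem _ _ _ ha]
          exact h a he
        rw [← h1, Function.update_eq_self]
        exact ih
      · push Not at he
        rcases Bool.eq_or_eq_not (y a) ((s.piecewise y x) a) with h1 | h1
        · rw [h1, Function.update_eq_self]
          exact ih
        · rw [h1, ← he, ih]
  have := key Finset.univ
  rw [Finset.piecewise_univ] at this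
  exact this.symm

end Hed

open Hed in
theorem collision {m : ℕ} (ψ : (Fin m → Bool) → Bool) (hψ : ∃ x y, ψ x ≠ ψ y) :
    ∃ n, 0 < n ∧ n ≤ 4 ^ m ∧ ∃ u u' : ℕ → Bool, (∀ k, u (k + n) = u k) ∧
      (∀ k, u' (k + n) = u' k) ∧ u ≠ u' ∧ ∀ k, img ψ u k = img ψ u' k := by
  classical
  by_contra hcon
  let P : ℕ → Prop := fun L => ∃ v v' : ℕ → Bool, (∀ k < L, img ψ v k = img ψ v' k) ∧
    key ψ v ≠ key ψ v'
  have hPK : ¬ P (4 ^ m) := by
    rintro ⟨v, v', h1, h2⟩
    exact hcon (collision_of_pair ψ h1 h2)
  have hP0 : P 0 := by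
    obtain ⟨x, y, hxy⟩ := hψ
    refine ⟨fun k => if h : k < m then x ⟨k, h⟩ else false,
      fun k => if h : k < m then y ⟨k, h⟩ else false, fun k hk => by omega, ?_⟩
    have e : ∀ x : Fin m → Bool,
        key ψ (fun k => if h : k < m then x ⟨k, h⟩ else false) = ψ x := by
      intro x
      unfold key
      congr 1
      funext i
      simp
    rw [e, e]
    exact hxy
  have hex : ∃ L, ¬ P L := ⟨_, hPK⟩
  obtain ⟨l, hl⟩ : ∃ l, Nat.find hex = l + 1 := by
    rcases Nat.eq_zero_or_pos (Nat.find hex) with h | h
    · exact absurd hP0 (h ▸ Nat.find_spec hex)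
    · exact ⟨Nat.find hex - 1, by omega⟩
  have hnot : ¬ P (l + 1) := hl ▸ Nat.find_spec hex
  have hPl : P l := by
    by_contra h
    have := Nat.find_min' hex h
    omega
  obtain ⟨v, v', h1, h2⟩ := hPl
  -- the last essential coordinate
  let E : Finset (Fin m) := Finset.univ.filter
    fun i => ∃ z, ψ z ≠ ψ (Function.update z i (!z i))
  have hE : E.Nonempty := by
    by_contra h
    rw [Finset.not_nonempty_iff_eq_empty] at h
    obtain ⟨x, y, hxy⟩ := hψ
    apply hxy
    apply eq_of_essential ψ
    intro i hi
    have : i ∈ E := by simp only [E, Finset.mem_filter, Finset.mem_univ, true_and]; exact hi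
    rw [h] at this
    simp at this
  let d := E.max' hE
  have hdE : d ∈ E := E.max'_mem hE
  obtain ⟨z, hz⟩ : ∃ z, ψ z ≠ ψ (Function.update z d (!z d)) := by
    simpa only [E, Finset.mem_filter, Finset.mem_univ, true_and] using hdE
  have hdep : ∀ x y : Fin m → Bool, (∀ i : Fin m, i.1 ≤ d.1 → x i = y i) → ψ x = ψ y := by
    intro x y h
    apply eq_of_essential ψ
    intro i hi
    apply h
    have : i ∈ E := by simp only [E, Finset.mem_filter, Finset.mem_univ, true_and]; exact hi
    exact E.le_max' i this
  -- the two tails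
  let τ : ℕ → Bool := fun k => if k = 0 then false else
    if h : k - 1 < m then z ⟨k - 1, h⟩ else false
  let τ' : ℕ → Bool := fun k => if k = d.1 + 1 then !τ k else τ k
  have ha : ∀ k ≤ d.1, τ k = τ' k := by
    intro k hk
    show τ k = if k = d.1 + 1 then !τ k else τ k
    rw [if_neg (by omega)]
  have hwin : (fun i : Fin m => τ (0 + 1 + i.1)) = z := by
    funext i
    have hi : (0 + 1 + i.1) - 1 < m := by have := i.2; omega
    show (if 0 + 1 + i.1 = 0 then false else
      if h : (0 + 1 + i.1) - 1 < m then z ⟨(0 + 1 + i.1) - 1, h⟩ else false) = z i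
    rw [if_neg (by omega), dif_pos hi]
    congr 1
    ext
    simp
  have hwin' : (fun i : Fin m => τ' (0 + 1 + i.1)) = Function.update z d (!z d) := by
    funext i
    have hi : τ (0 + 1 + i.1) = z i := congrFun hwin i
    by_cases h : i = d
    · show (if 0 + 1 + i.1 = d.1 + 1 then !τ (0 + 1 + i.1) else τ (0 + 1 + i.1)) = _
      have h' : i.1 = d.1 := congrArg Fin.val h
      rw [if_pos (by omega), hi, h, Function.update_self]
    · rw [Function.update_of_ne h]
      show (if 0 + 1 + i.1 = d.1 + 1 then !τ (0 + 1 + i.1) else τ (0 + 1 + i.1)) = _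
      rw [if_neg (fun e => h (Fin.ext (by omega)))]
      exact hi
  have himg0 : img ψ τ 0 ≠ img ψ τ' 0 := by
    unfold img
    rw [hwin, hwin']
    have e : τ' 0 = τ 0 := (ha 0 (Nat.zero_le _)).symm
    rw [e]
    intro h
    exact hz (Bool.xor_right_inj.mp h)
  let c : ℕ → Bool := fun k => img ψ v k
  let B := build ψ c l τ
  let B' := build ψ c l τ'
  have hkey : key ψ B = key ψ B' := by
    apply hdep
    intro i hi
    exact build_agree ψ hdep c l d.1 τ τ' le_rfl ha i.1 (by omega)
  have hBl : ∀ k < l, img ψ B k = c k := fun k hk => img_build_lt ψ c l τ k hk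
  have hBl' : ∀ k < l, img ψ B' k = c k := fun k hk => img_build_lt ψ c l τ' k hk
  have hBe : img ψ B l = img ψ τ 0 := by simpa using img_build ψ c l τ 0
  have hBe' : img ψ B' l = img ψ τ' 0 := by simpa using img_build ψ c l τ' 0
  -- image letter number `l` decides
  have hdet : ∀ a a' : ℕ → Bool, (∀ k < l, img ψ a k = img ψ a' k) → img ψ a l = img ψ a' l →
      key ψ a = key ψ a' := by
    intro a a' h3 h4
    by_contra h5
    apply hnot
    refine ⟨a, a', fun k hk => ?_, h5⟩
    rcases Nat.lt_succ_iff_lt_or_eq.mp hk with h6 | h6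
    · exact h3 k h6
    · rw [h6]; exact h4
  have hvl : img ψ v l ≠ img ψ v' l := fun h => h2 (hdet v v' h1 h)
  have hBB : img ψ B l ≠ img ψ B' l := by rw [hBe, hBe']; exact himg0
  have e1 : ∀ k < l, img ψ B k = img ψ v k := hBl
  have e2 : ∀ k < l, img ψ B' k = img ψ v k := hBl'
  have e3 : ∀ k < l, img ψ B k = img ψ v' k := fun k hk => (hBl k hk).trans (h1 k hk)
  have e4 : ∀ k < l, img ψ B' k = img ψ v' k := fun k hk => (hBl' k hk).trans (h1 k hk)
  rcases Bool.eq_or_eq_not (img ψ v l) (img ψ B l) with h | h
  · have h6 : img ψ v' l = img ψ B' l := bool_aux hvl hBB h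
    exact h2 (((hdet B v e1 h.symm).symm.trans hkey).trans (hdet B' v' e4 h6.symm))
  · obtain ⟨h5, h6⟩ := bool_aux' hvl hBB h
    exact h2 (((hdet B' v e2 h5.symm).symm.trans hkey.symm).trans (hdet B v' e3 h6.symm))

end Pool.Agent.Ppr
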