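import Mathlib

/-!
# Block codes `v ↦ img ψ v`: definitions

`img ψ v k = xor (v k) (ψ (v (k+1), …, v (k+m)))`. On windows `X : Fin m → Bool`,
`st ψ b X = (xor b (ψ X), X 0, …, X (m-2))`: the letter in front is the one whose image letter is
`b`. `stl ψ l X`: apply `st` with the letters of the list `l`, the head first.
-/

namespace Pool.Agent.Ppr

/-- the image letter at the place `k` -/
def img {m : ℕ} (ψ : (Fin m → Bool) → Bool) (v : ℕ → Bool) (k : ℕ) : Bool :=
  xor (v k) (ψ (fun i => v (k + 1 + i.1)))

/-- one step to the left with the image letter `b` -/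
def st {m : ℕ} (ψ : (Fin m → Bool) → Bool) (b : Bool) (X : Fin m → Bool) : Fin m → Bool :=
  fun i => if i.1 = 0 then xor b (ψ X) else X ⟨i.1 - 1, lt_of_le_of_lt (Nat.sub_le _ _) i.2⟩

/-- several steps, the head of the list first -/
def stl {m : ℕ} (ψ : (Fin m → Bool) → Bool) : List Bool → (Fin m → Bool) → (Fin m → Bool)
  | [], X => X
  | b :: l, X => stl ψ l (st ψ b X)

end Pool.Agent.Ppr
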