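import Pool.Agent.Ppr.Bnd

/-!
# Linear forms with a prescribed jet

`p k` = the word `+^k - + + + …`, `β = YR (+ + + …)`, `aa k = β - YR (p k)`; `aa 0 = 2 β`
(`p 0 = - + + …`, `Y_neg`). `(p (k+1))` starts with `+` and `sh (p (k+1)) = p k`, so
`aa (k+1) (β + YR (p (k+1))) = 4 X aa k`. Let `βi` be the inverse of `β` (norm `≤ 30/29`),
`x = 2 X βi` (norm `≤ 15/464`), `al k = aa k · βi / 2`: `al 0 = 1`,
`al (k+1) (1 - al (k+1)) = x al k`. `al (k+1) = x al k (1 - al (k+1))⁻¹` and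
`1 - al (k+1) = (β + YR (p (k+1))) βi / 2`.
Bound: `nrm (β - YR (p (k+1))) ≤ 1/15` (both have constant term `1`), so
`nrm (al (k+1)) ≤ 1/29`, `(1 - al (k+1))⁻¹` has norm `≤ 29/28`, so
`nrm (al (k+1)) ≤ (15/464)(29/28) nrm (al k) ≤ (1/29) nrm (al k)`: `nrm (al k) ≤ 29^(-k)`.
`A 0 = 1`, `A (k+1) = A k (1 - al (k+1))⁻¹`, `aa k = 2 β x^k A k`, the constant term of `A k`
is `1`, `nrm (A k) ≤ ∏ 1/(1 - 29^(-j)) ≤ 2` (e.g. `≤ 2 - 28^(-k)` by induction).
Division: `h 0 = f βi / 2`, `c k = constantCoeff (h k)`,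
`h (k+1) = (h k - c k A k)/x` (the numerator has constant term `0`): with
`nrm_of_X_mul`: `nrm (M-k-1) (h (k+1)) ≤ 64 · (1/2) nrm β · 3 nrm (M-k) (h k)`, i.e. at most
`100 nrm (M-k) (h k)`. `f = 2β ∑_{k<M} c k x^k A k + 2β x^M h M = ∑ c k aa k + X^M (…)` and
`∑_{k<M} |c k| ≤ ∑ 100^k (15/29) nrm f ≤ 100^M nrm f`.
-/

namespace Pool.Agent.Ppr

open PowerSeries

/-- the word `+^k - + + + …` -/
def pw (k : ℕ) : ℕ → Bool := fun l => decide (l ≠ k)

/-- `β - Y (+^k - + + …)` -/
noncomputable def aa (k : ℕ) : PowerSeries ℝ := YR (fun _ => true) - YR (pw k)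

/-- the series of the constant word -/
private noncomputable def linA_b : PowerSeries ℝ := YR (fun _ => true)

private theorem linA_b_const : constantCoeff linA_b = 1 := by
  unfold linA_b
  rw [YR_const]
  simp [sg]

private theorem linA_b_sq : linA_b ^ 2 = 1 + 4 * X * linA_b := by
  unfold linA_b
  exact YR_sq _

private theorem linA_sh (k : ℕ) : sh (pw (k + 1)) = pw k := by
  funext l
  simp [sh, pw]

private theorem linA_pw_sq (k : ℕ) : YR (pw (k + 1)) ^ 2 = 1 + 4 * X * YR (pw k) := by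
  rw [YR_sq, linA_sh]

private theorem linA_aa0 : aa 0 = 2 * linA_b := by
  have h : Y (pw 0) = -Y (fun _ => true) := by
    refine Y_neg ?_ ?_
    · simp [pw]
    · funext l
      simp [sh, pw]
  have h2 : YR (pw 0) = -linA_b := by
    unfold linA_b YR
    rw [h, map_neg]
  unfold aa
  rw [h2]
  change linA_b - -linA_b = _
  ring

private theorem linA_aa (k : ℕ) : aa (k + 1) * (2 * linA_b - aa (k + 1)) = 4 * X * aa k := by
  have h1 := linA_b_sq
  have h2 := linA_pw_sq k
  have e1 : aa (k + 1) = linA_b - YR (pw (k + 1)) := rfl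
  have e2 : aa k = linA_b - YR (pw k) := rfl
  rw [e1, e2]
  linear_combination h1 - h2

private theorem linA_aa_const (k : ℕ) : constantCoeff (aa (k + 1)) = 0 := by
  have e1 : aa (k + 1) = linA_b - YR (pw (k + 1)) := rfl
  rw [e1, map_sub, linA_b_const, YR_const]
  simp [sg, pw]

private theorem linA_aa_nrm (M k : ℕ) : nrm M (aa (k + 1)) ≤ 1 / 15 := by
  have h1 := nrm_YR_sub M (fun _ => true)
  have h2 := nrm_YR_sub M (pw (k + 1))
  have e3 : pw (k + 1) 0 = true := by simp [pw]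
  rw [e3] at h2
  have e1 : aa (k + 1) = (YR (fun _ => true) - C ((sg true : ℤ) : ℝ)) -
      (YR (pw (k + 1)) - C ((sg true : ℤ) : ℝ)) := by
    unfold aa
    ring
  rw [e1]
  refine (nrm_sub_le _ _ _).trans ?_
  linarith

private theorem linA_b_nrm (M : ℕ) : nrm M (linA_b - C 1) ≤ 1 / 30 := by
  have h1 := nrm_YR_sub M (fun _ => true)
  have e : ((sg true : ℤ) : ℝ) = 1 := by simp [sg]
  rw [e] at h1
  exact h1

/-- the data of the division -/
private theorem linA_data : ∃ (βi x : PowerSeries ℝ) (A : ℕ → PowerSeries ℝ),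
    linA_b * βi = 1 ∧ x = 2 * X * βi ∧ (∀ M, nrm M βi ≤ 30 / 29) ∧
    (∀ k, aa k = 2 * linA_b * (x ^ k * A k)) ∧ (∀ k, constantCoeff (A k) = 1) ∧
    ∀ M k, nrm M (A k) ≤ 2 := by
  obtain ⟨βi, hβ⟩ := exists_inv (f := linA_b) (by rw [linA_b_const]; exact one_ne_zero)
  have hβn : ∀ M, nrm M βi ≤ 30 / 29 := by
    intro M
    have h1 := nrm_inv_le (linA_b_nrm M) (by rw [abs_one]; norm_num) hβ
    rw [abs_one] at h1
    refine h1.trans (le_of_eq ?_)
    norm_num
  set κ : PowerSeries ℝ := C (1 / 2 : ℝ) with hκ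
  have hκ2 : 2 * κ = 1 := by
    have h2 : (2 : PowerSeries ℝ) = C (2 : ℝ) := (map_ofNat (C (R := ℝ)) 2).symm
    rw [hκ, h2, ← map_mul]
    norm_num
  set x : PowerSeries ℝ := 2 * X * βi with hx
  set al : ℕ → PowerSeries ℝ := fun k => κ * (aa k * βi) with hal
  have hal' : ∀ k, al k = κ * (aa k * βi) := fun k => rfl
  have hal0 : al 0 = 1 := by
    rw [hal', linA_aa0]
    linear_combination (2 * κ) * hβ + hκ2
  have hrel : ∀ k, al (k + 1) * (1 - al (k + 1)) = x * al k := by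
    intro k
    rw [hal', hal', hx]
    have h1 := linA_aa k
    linear_combination (κ ^ 2 * βi ^ 2) * h1 +
      (-2 * κ ^ 2 * aa (k + 1) * βi) * hβ -
      (κ * aa (k + 1) * βi) * hκ2 + (2 * κ * X * aa k * βi ^ 2) * hκ2
  have hcst : ∀ k, constantCoeff (al (k + 1)) = 0 := by
    intro k
    rw [hal', map_mul, map_mul, linA_aa_const]
    ring
  have hinv : ∀ k, ∃ v, (1 - al (k + 1)) * v = 1 := fun k =>
    exists_inv (by rw [map_sub, hcst, map_one, sub_zero]; exact one_ne_zero)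
  choose v hv using hinv
  have haln : ∀ M k, nrm M (al (k + 1)) ≤ 1 / 29 := by
    intro M k
    rw [hal', nrm_C_mul]
    have h1 := nrm_mul_le M (aa (k + 1)) βi
    have h2 := mul_le_mul (linA_aa_nrm M k) (hβn M) (nrm_nonneg _ _) (by norm_num)
    rw [abs_of_pos (by norm_num : (0 : ℝ) < 1 / 2)]
    linarith
  have hstep : ∀ k, al (k + 1) = x * al k * v k := by
    intro k
    linear_combination v k * hrel k - al (k + 1) * hv k
  have hnv : ∀ (M k : ℕ) (δ : ℝ), nrm M (al (k + 1)) ≤ δ → δ < 1 →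
      nrm M (v k) ≤ 1 / (1 - δ) := by
    intro M k δ h1 h2
    have e1 : (1 - al (k + 1)) - C (1 : ℝ) = -al (k + 1) := by
      rw [map_one]
      ring
    have h3 : nrm M ((1 - al (k + 1)) - C (1 : ℝ)) ≤ δ := by
      rw [e1, nrm_neg]
      exact h1
    have h4 := nrm_inv_le h3 (by rw [abs_one]; exact h2) (hv k)
    rwa [abs_one] at h4
  have hxn : ∀ M, nrm M x ≤ 15 / 464 := by
    intro M
    have e1 : x = C (2 : ℝ) * (X ^ 1 * βi) := by
      have h2 : (2 : PowerSeries ℝ) = C (2 : ℝ) := (map_ofNat (C (R := ℝ)) 2).symm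
      rw [hx, ← h2]
      ring
    rw [e1, nrm_C_mul, abs_of_pos (by norm_num : (0 : ℝ) < 2)]
    have h1 := nrm_mul_le M (X ^ 1) βi
    have h2 := mul_le_mul (nrm_X_pow_le M 1) (hβn M) (nrm_nonneg _ _) (by norm_num)
    have h3 : (1 / 64 : ℝ) ^ 1 * (30 / 29) = 15 / 928 := by norm_num
    rw [h3] at h2
    linarith
  have hgeo : ∀ M k, nrm M (al k) ≤ (1 / 29) ^ k := by
    intro M k
    induction k with
    | zero =>
      rw [hal0, pow_zero]
      exact nrm_one_le M
    | succ k ih =>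
      rw [hstep]
      have h1 := nrm_mul_le M (x * al k) (v k)
      have h2 := nrm_mul_le M x (al k)
      have h3 := hnv M k _ (haln M k) (by norm_num)
      have h4 := mul_le_mul (hxn M) ih (nrm_nonneg _ _) (by norm_num)
      have h5 : (0 : ℝ) ≤ (1 / 29) ^ k := by positivity
      have h6 := mul_le_mul (h2.trans h4) h3 (nrm_nonneg _ _) (by positivity)
      refine (h1.trans h6).trans ?_
      have e : (15 / 464 * (1 / 29 : ℝ) ^ k) * (1 / (1 - 1 / 29)) =
          (15 / 448) * (1 / 29 : ℝ) ^ k := by ring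
      rw [e, pow_succ]
      nlinarith
  set A : ℕ → PowerSeries ℝ := fun k => ∏ i ∈ Finset.range k, v i with hA
  have hA0 : A 0 = 1 := by simp [hA]
  have hA1 : ∀ k, A (k + 1) = A k * v k := fun k => Finset.prod_range_succ _ _
  have halA : ∀ k, al k = x ^ k * A k := by
    intro k
    induction k with
    | zero => rw [hal0, hA0, pow_zero, one_mul]
    | succ k ih =>
      rw [hstep, hA1, pow_succ, ih]
      ring
  have hAc : ∀ k, constantCoeff (A k) = 1 := by
    intro k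
    induction k with
    | zero => rw [hA0, map_one]
    | succ k ih =>
      have h1 := congrArg constantCoeff (hv k)
      rw [map_mul, map_sub, hcst, map_one, sub_zero, one_mul] at h1
      rw [hA1, map_mul, ih, h1, one_mul]
  have hAn : ∀ M k, nrm M (A k) ≤ 2 - (1 / 28) ^ k := by
    intro M k
    induction k with
    | zero =>
      rw [hA0, pow_zero]
      have := nrm_one_le M
      linarith
    | succ k ih =>
      rw [hA1]
      have h1 := nrm_mul_le M (A k) (v k)
      have hz0 : (0 : ℝ) < (1 / 29) ^ (k + 1) := by positivity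
      have hz1 : (1 / 29 : ℝ) ^ (k + 1) < 1 :=
        pow_lt_one₀ (by norm_num) (by norm_num) (Nat.succ_ne_zero k)
      have h2 := hnv M k _ (hgeo M (k + 1)) hz1
      have hy0 : (0 : ℝ) < (1 / 28) ^ (k + 1) := by positivity
      have hzy : (1 / 29 : ℝ) ^ (k + 1) ≤ (1 / 28) ^ (k + 1) :=
        pow_le_pow_left₀ (by norm_num) (by norm_num) _
      have hyk : (1 / 28 : ℝ) ^ k = 28 * (1 / 28) ^ (k + 1) := by
        rw [pow_succ]
        ring
      have h3 : (0 : ℝ) ≤ 2 - (1 / 28) ^ k := (nrm_nonneg _ _).trans ih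
      have h4 := mul_le_mul ih h2 (nrm_nonneg _ _) h3
      refine (h1.trans h4).trans ?_
      rw [mul_one_div, div_le_iff₀ (by linarith), hyk]
      nlinarith [mul_pos hy0 hz0]
  refine ⟨βi, x, A, hβ, hx, hβn, fun k => ?_, hAc, fun M k => ?_⟩
  · rw [← halA, hal']
    linear_combination (-(2 * κ) * aa k) * hβ - aa k * hκ2
  · have h1 : (0 : ℝ) ≤ (1 / 28) ^ k := by positivity
    linarith [hAn M k]

/-- division with geometric cost -/
private theorem linA_div {βi x : PowerSeries ℝ} {A : ℕ → PowerSeries ℝ}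
    (hβ : linA_b * βi = 1) (hx : x = 2 * X * βi) (hAc : ∀ k, constantCoeff (A k) = 1)
    (hAn : ∀ M k, nrm M (A k) ≤ 2) (N : ℕ) : ∀ (k : ℕ) (h : PowerSeries ℝ),
    ∃ (c : ℕ → ℝ) (h' : PowerSeries ℝ),
      h = ∑ i ∈ Finset.range N, C (c i) * (x ^ i * A (k + i)) + x ^ N * h' ∧
      ∑ i ∈ Finset.range N, |c i| ≤ (100 ^ N - 1) * nrm N h := by
  induction N with
  | zero =>
    intro k h
    exact ⟨0, h, by simp, by simp⟩
  | succ N ih =>
    intro k h
    set c₀ : ℝ := constantCoeff h with hc₀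
    obtain ⟨g, hg⟩ : X ∣ h - C c₀ * A k := by
      rw [X_dvd_iff, map_sub, map_mul, hAc, constantCoeff_C, mul_one, ← hc₀, sub_self]
    set h1 : PowerSeries ℝ := C (1 / 2 : ℝ) * (linA_b * g) with hh1
    have hκ2 : 2 * (C (1 / 2 : ℝ) : PowerSeries ℝ) = 1 := by
      have h2 : (2 : PowerSeries ℝ) = C (2 : ℝ) := (map_ofNat (C (R := ℝ)) 2).symm
      rw [h2, ← map_mul]
      norm_num
    have hxh : h = C c₀ * A k + x * h1 := by
      rw [hx, hh1]
      linear_combination hg - (2 * C (1 / 2 : ℝ) * X * g) * hβ - (X * g) * hκ2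
    obtain ⟨c, h', hc, hcn⟩ := ih (k + 1) h1
    have hh : 0 ≤ nrm (N + 1) h := nrm_nonneg _ _
    have hc₀n : |c₀| ≤ nrm (N + 1) h := abs_const_le (Nat.succ_pos N) h
    have hgn : nrm N g ≤ 64 * (3 * nrm (N + 1) h) := by
      refine (nrm_of_X_mul N g).trans ?_
      rw [← hg]
      have h2 := nrm_sub_le (N + 1) h (C c₀ * A k)
      rw [nrm_C_mul] at h2
      have h3 := mul_le_mul hc₀n (hAn (N + 1) k) (nrm_nonneg _ _) hh
      linarith
    have hh1n : nrm N h1 ≤ 100 * nrm (N + 1) h := by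
      rw [hh1, nrm_C_mul, abs_of_pos (by norm_num : (0 : ℝ) < 1 / 2)]
      have h2 := nrm_mul_le N linA_b g
      have h3 : nrm N linA_b ≤ 31 / 30 := nrm_YR_le N _
      have h4 := mul_le_mul h3 hgn (nrm_nonneg _ _) (by norm_num)
      linarith
    refine ⟨fun i => if i = 0 then c₀ else c (i - 1), h', ?_, ?_⟩
    · rw [Finset.sum_range_succ', hxh, hc]
      simp only [Nat.succ_ne_zero, if_false, Nat.add_sub_cancel, if_true, pow_zero, one_mul,
        add_zero]
      rw [mul_add, Finset.mul_sum]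
      have e1 : ∑ i ∈ Finset.range N, x * (C (c i) * (x ^ i * A (k + 1 + i))) =
          ∑ i ∈ Finset.range N, C (c i) * (x ^ (i + 1) * A (k + (i + 1))) := by
        refine Finset.sum_congr rfl fun i _ => ?_
        rw [show k + 1 + i = k + (i + 1) by ring, pow_succ]
        ring
      rw [e1, pow_succ]
      ring
    · rw [Finset.sum_range_succ']
      simp only [Nat.succ_ne_zero, if_false, Nat.add_sub_cancel, if_true]
      have h2 : (1 : ℝ) ≤ 100 ^ N := one_le_pow₀ (by norm_num)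
      have h3 := mul_le_mul_of_nonneg_left hh1n (by linarith : (0 : ℝ) ≤ 100 ^ N - 1)
      rw [pow_succ]
      nlinarith

/-- every jet is a combination of the `aa k`, with geometric cost -/
theorem jets_aa (M : ℕ) (f : PowerSeries ℝ) :
    ∃ c : ℕ → ℝ, X ^ M ∣ (∑ k ∈ Finset.range M, C (c k) * aa k) - f ∧
      ∑ k ∈ Finset.range M, |c k| ≤ 100 ^ M * nrm M f := by
  obtain ⟨βi, x, A, hβ, hx, hβn, haa, hAc, hAn⟩ := linA_data
  obtain ⟨c, h', hc, hcn⟩ := linA_div hβ hx hAc hAn M 0 (C (1 / 2 : ℝ) * (f * βi))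
  have hκ2 : 2 * (C (1 / 2 : ℝ) : PowerSeries ℝ) = 1 := by
    have h2 : (2 : PowerSeries ℝ) = C (2 : ℝ) := (map_ofNat (C (R := ℝ)) 2).symm
    rw [h2, ← map_mul]
    norm_num
  refine ⟨c, ?_, ?_⟩
  · have e1 : ∑ k ∈ Finset.range M, C (c k) * aa k =
        2 * linA_b * ∑ i ∈ Finset.range M, C (c i) * (x ^ i * A (0 + i)) := by
      rw [Finset.mul_sum]
      refine Finset.sum_congr rfl fun i _ => ?_
      rw [haa, zero_add]
      ring
    have e2 : ∑ k ∈ Finset.range M, C (c k) * aa k - f =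
        X ^ M * (-(2 * linA_b) * (2 * βi) ^ M * h') := by
      rw [e1, hx, show (2 * X * βi : PowerSeries ℝ) = X * (2 * βi) by ring] at *
      rw [mul_pow X (2 * βi) M] at hc
      linear_combination (-(2 * linA_b)) * hc + (2 * C (1 / 2 : ℝ) * f) * hβ + f * hκ2
    rw [e2]
    exact dvd_mul_right _ _
  · refine hcn.trans ?_
    have h1 : nrm M (C (1 / 2 : ℝ) * (f * βi)) ≤ nrm M f := by
      rw [nrm_C_mul, abs_of_pos (by norm_num : (0 : ℝ) < 1 / 2)]
      have h2 := nrm_mul_le M f βi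
      have h3 := mul_le_mul_of_nonneg_left (hβn M) (nrm_nonneg M f)
      have h4 := nrm_nonneg M f
      linarith
    have h2 : (1 : ℝ) ≤ 100 ^ M := one_le_pow₀ (by norm_num)
    have h3 := mul_le_mul_of_nonneg_left h1 (by linarith : (0 : ℝ) ≤ 100 ^ M - 1)
    have h4 := nrm_nonneg M f
    nlinarith

end Pool.Agent.Ppr
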