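import Pool.Agent.Ppr.LinA

/-!
# Linear forms with a prescribed jet

`p k` = the word `+^k - + + + …`, `β = YR (+ + + …)`, `aa k = β - YR (p k)`; `aa 0 = 2 β`
(`p 0 = - + + …`, `Y_neg`). `(p (k+1))` starts with `+` and `sh (p (k+1)) = p k`, so
`aa (k+1) (β + YR (p (k+1))) = 4 X aa k`. Let `βi` be the inverse of `β` (norm `≤ 30/29`),
`x = 2 X βi` (norm `≤ 15/464`), `al k = aa k · βi / 2`: `al 0 = 1`,
`al (k+1) (1 - al (k+1)) = x al k`. `al (k+1) = x al k (1 - al (k+1))⁻¹` and
`1 - al (k+1) = (β + YR (p (k+1))) βi / 2`.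
Bound: `nrm (β - YR (p (k+1))) ≤ 1/15` (both have constant term `1`), so
`nrm (al (k+1)) ≤ 1/29`, `(1 - al (k+1))⁻¹` has norm `≤ 29/28`, so
`nrm (al (k+1)) ≤ (15/464)(29/28) nrm (al k) ≤ (1/29) nrm (al k)`: `nrm (al k) ≤ 29^(-k)`.
`A 0 = 1`, `A (k+1) = A k (1 - al (k+1))⁻¹`, `aa k = 2 β x^k A k`, the constant term of `A k`
is `1`, `nrm (A k) ≤ ∏ 1/(1 - 29^(-j)) ≤ 2` (e.g. `≤ 2 - 28^(-k)` by induction).
Division: `h 0 = f βi / 2`, `c k = constantCoeff (h k)`,
`h (k+1) = (h k - c k A k)/x` (the numerator has constant term `0`): with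
`nrm_of_X_mul`: `nrm (M-k-1) (h (k+1)) ≤ 64 · (1/2) nrm β · 3 nrm (M-k) (h k)`, i.e. at most
`100 nrm (M-k) (h k)`. `f = 2β ∑_{k<M} c k x^k A k + 2β x^M h M = ∑ c k aa k + X^M (…)` and
`∑_{k<M} |c k| ≤ ∑ 100^k (15/29) nrm f ≤ 100^M nrm f`.
-/

namespace Pool.Agent.Ppr

open PowerSeries

/-- two words which agree on the first `M` letters have the same jet of order `< M` -/
private theorem linB_YR_congr {M : ℕ} {v v' : ℕ → Bool} (h : ∀ k < M, v k = v' k) :
    X ^ M ∣ YR v - YR v' := by
  rw [X_pow_dvd_iff]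
  intro j hj
  have h1 : Z j v = Z j v' := Z_congr (fun k hk => h k (lt_of_le_of_lt hk hj))
  simp [YR, Y, h1]

/-- every jet is the jet of a linear form at a cusp where all windows occur -/
theorem linform {ι : Type} [Fintype ι] [DecidableEq ι] {σ : ι → ι} {M : ℕ} {w : ι → Bool}
    (hfull : full σ w M) (f : PowerSeries ℝ) :
    ∃ μ : ι → ℝ, X ^ M ∣ eps σ w (∑ i, MvPolynomial.C (μ i) * MvPolynomial.X i) - f ∧
      ∑ i, |μ i| ≤ 2 * 100 ^ M * nrm M f := by
  obtain ⟨c, hc, hcs⟩ := jets_aa M f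
  obtain ⟨i0, hi0⟩ := hfull (fun _ => true)
  choose I hI using fun k : ℕ => hfull (fun l : Fin M => pw k l.1)
  have hI0 : X ^ M ∣ YR (ow σ w i0) - YR (fun _ => true) := by
    apply linB_YR_congr
    intro l hl
    exact congrFun hi0 ⟨l, hl⟩
  have hIk : ∀ k, X ^ M ∣ YR (ow σ w (I k)) - YR (pw k) := by
    intro k
    apply linB_YR_congr
    intro l hl
    exact congrFun (hI k) ⟨l, hl⟩
  refine ⟨fun i => ∑ k ∈ Finset.range M,
    c k * ((if i = i0 then (1 : ℝ) else 0) - (if i = I k then (1 : ℝ) else 0)), ?_, ?_⟩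
  · have heps : eps σ w (∑ i, MvPolynomial.C (∑ k ∈ Finset.range M,
        c k * ((if i = i0 then (1 : ℝ) else 0) - (if i = I k then (1 : ℝ) else 0))) *
        MvPolynomial.X i)
        = ∑ k ∈ Finset.range M, C (c k) * (YR (ow σ w i0) - YR (ow σ w (I k))) := by
      have h1 : ∀ i : ι, eps σ w (MvPolynomial.C (∑ k ∈ Finset.range M,
          c k * ((if i = i0 then (1 : ℝ) else 0) - (if i = I k then (1 : ℝ) else 0))) *
          MvPolynomial.X i)
          = ∑ k ∈ Finset.range M, C (c k) *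
            ((if i = i0 then YR (ow σ w i) else 0) -
              (if i = I k then YR (ow σ w i) else 0)) := by
        intro i
        unfold eps
        rw [map_mul, MvPolynomial.aeval_C, MvPolynomial.aeval_X]
        have h2 : (algebraMap ℝ (PowerSeries ℝ)) = C := rfl
        rw [h2, map_sum, Finset.sum_mul]
        refine Finset.sum_congr rfl fun k _ => ?_
        rw [map_mul, map_sub]
        split_ifs <;> simp
      rw [map_sum, Finset.sum_congr rfl (fun i _ => h1 i), Finset.sum_comm]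
      refine Finset.sum_congr rfl fun k _ => ?_
      rw [← Finset.mul_sum, Finset.sum_sub_distrib, Finset.sum_ite_eq' , Finset.sum_ite_eq']
      simp
    rw [heps]
    have h3 : (∑ k ∈ Finset.range M, C (c k) * (YR (ow σ w i0) - YR (ow σ w (I k)))) - f
        = (∑ k ∈ Finset.range M, C (c k) * ((YR (ow σ w i0) - YR (fun _ => true)) -
            (YR (ow σ w (I k)) - YR (pw k)))) +
          ((∑ k ∈ Finset.range M, C (c k) * aa k) - f) := by
      rw [← add_sub_assoc, ← Finset.sum_add_distrib]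
      congr 1
      refine Finset.sum_congr rfl fun k _ => ?_
      unfold aa
      ring
    rw [h3]
    refine dvd_add (Finset.dvd_sum fun k _ => ?_) hc
    exact (dvd_sub hI0 (hIk k)).mul_left _
  · calc ∑ i, |∑ k ∈ Finset.range M,
          c k * ((if i = i0 then (1 : ℝ) else 0) - (if i = I k then (1 : ℝ) else 0))|
        ≤ ∑ i, ∑ k ∈ Finset.range M,
          |c k| * ((if i = i0 then (1 : ℝ) else 0) + (if i = I k then (1 : ℝ) else 0)) := by
          refine Finset.sum_le_sum fun i _ => ?_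
          refine (Finset.abs_sum_le_sum_abs _ _).trans (Finset.sum_le_sum fun k _ => ?_)
          rw [abs_mul]
          refine mul_le_mul_of_nonneg_left ?_ (abs_nonneg _)
          split_ifs <;> norm_num
      _ = ∑ k ∈ Finset.range M, |c k| * 2 := by
          rw [Finset.sum_comm]
          refine Finset.sum_congr rfl fun k _ => ?_
          rw [← Finset.mul_sum, Finset.sum_add_distrib, Finset.sum_ite_eq',
            Finset.sum_ite_eq']
          simp
          norm_num
      _ = 2 * ∑ k ∈ Finset.range M, |c k| := by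
          rw [← Finset.sum_mul, mul_comm]
      _ ≤ 2 * (100 ^ M * nrm M f) := by linarith
      _ = 2 * 100 ^ M * nrm M f := by ring

end Pool.Agent.Ppr
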