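import Pool.Agent.Ppr.Sys

/-!
# From rational preperiodic points to a system

Let `T` be a finite non-empty set of rational preperiodic points of `f = x^2 + c`. The union `U`
of the forward orbits is finite and closed under `f`. For every prime `p` and `x ∈ U`: if
`|c|_p ≤ 1` then `|x|_p ≤ 1` (an element with the largest `|x|_p > 1` would have
`|f x|_p = |x|_p^2 > |x|_p`); if `|c|_p > 1` then `|x|_p^2 = |c|_p` (the largest `|x|_p^2 ≤ |c|_p`
by the same argument, and `|x|_p^2 < |c|_p` gives `|f x|_p = |c|_p`, `|f x|_p^2 > |c|_p`). Hence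
`x.den ^ 2 = c.den` for all `x ∈ U`: all denominators are equal to one number `D`, `X = num`,
`A = - c.num`. `x^2 + c = x'` gives `X^2 = A + D X'`.
-/

namespace Pool.Agent.Ppr

/-- the rational preperiodic points of `y ↦ y^2 + c` -/
def PrePer (c : ℚ) : Set ℚ :=
  {x : ℚ | ∃ m n : ℕ, m < n ∧ (fun y : ℚ => y ^ 2 + c)^[m] x = (fun y : ℚ => y ^ 2 + c)^[n] x}

private theorem den_add_Rat (q r : ℚ) (p : ℕ) :
    (q + r).den.factorization p ≤ max (q.den.factorization p) (r.den.factorization p) := by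
  have h1 : (q + r).den ∣ q.den.lcm r.den := Rat.add_den_dvd_lcm q r
  have h2 : q.den.lcm r.den ≠ 0 := Nat.lcm_ne_zero q.den_nz r.den_nz
  have h3 := (Nat.factorization_le_iff_dvd (q + r).den_nz h2).2 h1 p
  rw [Nat.factorization_lcm q.den_nz r.den_nz] at h3
  exact h3

private theorem den_add_eq_Rat {q r : ℚ} {p : ℕ}
    (h : q.den.factorization p < r.den.factorization p) :
    (q + r).den.factorization p = r.den.factorization p := by
  have h1 := den_add_Rat q r p
  have h2 := den_add_Rat (q + r) (-q) p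
  rw [show q + r + -q = r by ring, Rat.neg_den] at h2
  rcases le_max_iff.1 h2 with h3 | h3
  · rw [max_eq_right h.le] at h1
    omega
  · omega

private theorem den_sq_Rat {c : ℚ} {U : Finset ℚ} (hU : ∀ x ∈ U, x ^ 2 + c ∈ U) {x : ℚ}
    (hx : x ∈ U) : x.den ^ 2 = c.den := by
  have hsq : ∀ (y : ℚ) (p : ℕ), (y ^ 2).den.factorization p = 2 * y.den.factorization p := by
    intro y p
    rw [Rat.den_pow, Nat.factorization_pow]
    simp
  have key : ∀ p : ℕ, ∀ y ∈ U, 2 * y.den.factorization p = c.den.factorization p := by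
    intro p
    have hle : ∀ y ∈ U, 2 * y.den.factorization p ≤ c.den.factorization p := by
      obtain ⟨z, hz, hmax⟩ := U.exists_max_image (fun y => y.den.factorization p) ⟨x, hx⟩
      intro y hy
      refine (Nat.mul_le_mul_left 2 (hmax y hy)).trans ?_
      by_contra hcon
      have h1 : c.den.factorization p < (z ^ 2).den.factorization p := by
        rw [hsq]
        omega
      have h2 := den_add_eq_Rat h1
      rw [add_comm, hsq] at h2
      have h3 : (z ^ 2 + c).den.factorization p ≤ z.den.factorization p := hmax _ (hU z hz)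
      omega
    intro y hy
    refine le_antisymm (hle y hy) ?_
    by_contra hcon
    have h1 : (y ^ 2).den.factorization p < c.den.factorization p := by
      rw [hsq]
      omega
    have h2 := den_add_eq_Rat h1
    have h3 := hle _ (hU y hy)
    omega
  refine Nat.eq_of_factorization_eq (pow_ne_zero 2 x.den_nz) c.den_nz fun p => ?_
  rw [Nat.factorization_pow]
  simpa using key p x hx

private theorem orbit_finite_Rat {f : ℚ → ℚ} {x : ℚ} {m n : ℕ} (hmn : m < n)
    (h : f^[m] x = f^[n] x) : (Set.range fun k => f^[k] x).Finite := by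
  have key : ∀ k, ∃ j < n, f^[j] x = f^[k] x := by
    intro k
    induction k using Nat.strong_induction_on with
    | _ k ih =>
      by_cases hk : k < n
      · exact ⟨k, hk, rfl⟩
      · obtain ⟨j, hj, hj'⟩ := ih (k - n + m) (by omega)
        refine ⟨j, hj, ?_⟩
        rw [hj', Function.iterate_add_apply, h, ← Function.iterate_add_apply,
          Nat.sub_add_cancel (not_lt.1 hk)]
  refine ((Finset.range n).image fun j => f^[j] x).finite_toSet.subset ?_
  rintro _ ⟨k, rfl⟩
  obtain ⟨j, hj, hj'⟩ := key k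
  simp only [Finset.coe_image, Set.mem_image]
  exact ⟨j, by simpa using hj, hj'⟩

theorem exists_sys (c : ℚ) (T : Finset ℚ) (hT : (T : Set ℚ) ⊆ PrePer c) (hne : T.Nonempty) :
    ∃ (ι : Type) (_ : Fintype ι) (_ : DecidableEq ι) (S : Sys ι),
      T.card ≤ Fintype.card ι ∧ S.D.primeFactors = c.den.primeFactors := by
  set f : ℚ → ℚ := fun y => y ^ 2 + c with hf
  have hfin : (⋃ x ∈ (T : Set ℚ), Set.range fun k => f^[k] x).Finite := by
    refine Set.Finite.biUnion T.finite_toSet fun x hx => ?_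
    obtain ⟨m, n, hmn, h⟩ := hT hx
    exact orbit_finite_Rat hmn h
  set U : Finset ℚ := hfin.toFinset with hUdef
  have hmem : ∀ y, y ∈ U ↔ ∃ x ∈ T, ∃ k, f^[k] x = y := by
    intro y
    simp [hUdef]
  have hU : ∀ x ∈ U, x ^ 2 + c ∈ U := by
    intro y hy
    obtain ⟨x, hx, k, hk⟩ := (hmem y).1 hy
    refine (hmem _).2 ⟨x, hx, k + 1, ?_⟩
    rw [Function.iterate_succ_apply', hk]
  have hTU : T ⊆ U := fun x hx => (hmem x).2 ⟨x, hx, 0, rfl⟩
  obtain ⟨x0, hx0⟩ := hne
  have hden0 : x0.den ^ 2 = c.den := den_sq_Rat hU (hTU hx0)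
  have hden : ∀ x ∈ U, x.den = x0.den := by
    intro x hx
    have h1 : x.den ^ 2 = x0.den ^ 2 := (den_sq_Rat hU hx).trans hden0.symm
    exact Nat.pow_left_injective two_ne_zero h1
  have hD0 : (x0.den : ℚ) ≠ 0 := by exact_mod_cast x0.den_nz
  refine ⟨{x // x ∈ U}, inferInstance, inferInstance,
    { σ := fun i => ⟨i.1 ^ 2 + c, hU _ i.2⟩
      X := fun i => i.1.num
      A := -c.num
      D := x0.den
      hD := x0.den_pos
      hX := ?_
      inj := ?_
      cop := ?_ }, ?_, ?_⟩
  · rintro ⟨x, hx⟩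
    have h1 : (x.num : ℚ) = x * x0.den := by
      rw [← hden x hx, Rat.mul_den_eq_num]
    have h2 : ((x ^ 2 + c).num : ℚ) = (x ^ 2 + c) * x0.den := by
      rw [← hden _ (hU x hx), Rat.mul_den_eq_num]
    have h3 : (c.num : ℚ) = c * (x0.den : ℚ) ^ 2 := by
      have h4 : ((x0.den : ℚ)) ^ 2 = (c.den : ℚ) := by exact_mod_cast hden0
      rw [h4, Rat.mul_den_eq_num]
    have h5 : ((x.num ^ 2 : ℤ) : ℚ) = ((-c.num + x0.den * (x ^ 2 + c).num : ℤ) : ℚ) := by
      push_cast
      rw [h1, h2, h3]
      ring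
    exact_mod_cast h5
  · rintro ⟨x, hx⟩ ⟨y, hy⟩ hxy
    exact Subtype.ext (Rat.ext hxy ((hden x hx).trans (hden y hy).symm))
  · rintro p hp hpD ⟨x, hx⟩ hdvd
    rw [← hden x hx] at hpD
    have h1 : p ∣ x.num.natAbs := Int.natCast_dvd.1 hdvd
    have h2 := Nat.dvd_gcd h1 hpD
    rw [x.reduced] at h2
    exact hp.one_lt.ne' (Nat.dvd_one.1 h2)
  · rw [Fintype.card_coe]
    exact Finset.card_le_card hTU
  · change x0.den.primeFactors = c.den.primeFactors
    rw [← hden0, Nat.primeFactors_pow _ two_ne_zero]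

end Pool.Agent.Ppr
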