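import Pool.Agent.Ppr.Core
import Pool.Agent.Ppr.Num
import Pool.Agent.Ppr.Rat

/-!
# The theorem
-/

namespace Pool.Agent.Ppr

open Sys

theorem Es_eq {ι : Type} [Fintype ι] (S : Sys ι) :
    Es S = En (Fintype.card ι) (Hs S) := by
  unfold Es EE En
  ring

theorem Hs_ge {ι : Type} [Fintype ι] (S : Sys ι) (s : ℕ) (hs : s = S.D.primeFactors.card)
    (h1 : 3 ≤ s) : s * Real.log s - 2 * s ≤ Hs S := by
  have h2 := log_D_ge S s hs (by omega)
  have h3 := sum_hh S
  have h4 := hh_nonneg S none
  have h5 : Real.log 2 ≤ 1 := by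
    have := Real.log_two_lt_d9
    linarith
  have h6 : (3 : ℝ) ≤ s := by exact_mod_cast h1
  unfold HH at h3
  unfold Hs
  linarith

theorem Hs_pos {ι : Type} [Fintype ι] (S : Sys ι) (h1 : 3 ≤ S.D.primeFactors.card) :
    0 < Hs S := by
  obtain ⟨p, hp, hp2⟩ : ∃ p ∈ S.D.primeFactors, p ≠ 2 := by
    by_contra hcon
    push Not at hcon
    have : S.D.primeFactors ⊆ {2} := fun p hp => Finset.mem_singleton.2 (hcon p hp)
    have := Finset.card_le_card this
    simp at this
    omega
  have hmem : some p ∈ S.pl := by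
    unfold Sys.pl
    exact Finset.some_mem_insertNone.2 hp
  have hpos : 0 < S.hh (some p) := by
    unfold Sys.hh
    simp only [if_neg hp2]
    have hpp := Nat.prime_of_mem_primeFactors hp
    have h1 : 0 < S.D.factorization p :=
      (Nat.Prime.dvd_iff_one_le_factorization hpp S.hD.ne').1 (Nat.dvd_of_mem_primeFactors hp)
    have h2 : 0 < Real.log p := Real.log_pos (by exact_mod_cast hpp.one_lt)
    positivity
  exact lt_of_lt_of_le hpos (Finset.single_le_sum (f := fun v => S.hh v)
    (fun v _ => hh_nonneg S v) hmem)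

/-- the bound for systems -/
theorem sys_bound : ∃ C : ℝ, 0 < C ∧ ∀ (ι : Type) [Fintype ι] [DecidableEq ι] (S : Sys ι),
    3 ≤ S.D.primeFactors.card → (Fintype.card ι : ℝ) ≤
      C * (S.D.primeFactors.card * Real.log S.D.primeFactors.card /
        Real.log (Real.log S.D.primeFactors.card)) := by
  obtain ⟨C, hC, s0, hmain⟩ := num_main
  obtain ⟨B, hB⟩ := num_small s0
  have hpos : ∀ s : ℕ, 3 ≤ s → 0 < (s : ℝ) * Real.log s / Real.log (Real.log s) := by
    intro s hs
    have h3 : (3 : ℝ) ≤ s := by exact_mod_cast hs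
    have he : Real.exp 1 < 3 := by
      have := Real.exp_one_lt_d9
      linarith
    have h1 : 1 < Real.log s := by
      rw [Real.lt_log_iff_exp_lt (by linarith)]
      linarith
    have h2 : 0 < Real.log (Real.log s) := Real.log_pos h1
    positivity
  -- the minimum over the small values
  obtain ⟨m, hm, hmin⟩ : ∃ m : ℝ, 0 < m ∧ ∀ s : ℕ, 3 ≤ s → s ≤ s0 →
      m ≤ (s : ℝ) * Real.log s / Real.log (Real.log s) := by
    by_cases hne : (Finset.Icc 3 s0).Nonempty
    · obtain ⟨t, ht, hmin⟩ := Finset.exists_min_image (Finset.Icc 3 s0)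
        (fun s : ℕ => (s : ℝ) * Real.log s / Real.log (Real.log s)) hne
      refine ⟨_, hpos t (Finset.mem_Icc.1 ht).1, fun s h1 h2 => hmin s (Finset.mem_Icc.2 ⟨h1, h2⟩)⟩
    · refine ⟨1, one_pos, fun s h1 h2 => ?_⟩
      exact absurd ⟨s, Finset.mem_Icc.2 ⟨h1, h2⟩⟩ hne
  refine ⟨max C (|B| / m), lt_max_of_lt_left hC, fun ι _ _ S hs => ?_⟩
  set s := S.D.primeFactors.card with hsdef
  have hps := hpos s hs
  by_cases hN : 2 ≤ Fintype.card ι
  swap
  · -- at most one point
    have h1 : (Fintype.card ι : ℝ) ≤ 1 := by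
      have : Fintype.card ι ≤ 1 := by omega
      exact_mod_cast this
    by_cases hs0 : s0 ≤ s
    · by_contra hcon
      push Not at hcon
      have hlt : C * (s * Real.log s / Real.log (Real.log s)) < (Fintype.card ι : ℝ) :=
        lt_of_le_of_lt (mul_le_mul_of_nonneg_right (le_max_left _ _) hps.le) hcon
      have hsq : ((Fintype.card ι : ℕ) : ℝ) ^ 2 ≤
          4 * ((s : ℝ) + 1) * En (Fintype.card ι) (Hs S) := by
        unfold En
        have hH := Hs_pos S (by rw [← hsdef]; exact hs)
        have h3 : (0 : ℝ) ≤ (Fintype.card ι : ℝ) := Nat.cast_nonneg _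
        have h4 : (0 : ℝ) ≤ (Nat.clog 2 (Fintype.card ι) : ℝ) := Nat.cast_nonneg _
        have h5 : (0 : ℝ) ≤ 3 / Hs S * (Fintype.card ι : ℝ) ^ 2 := by positivity
        have h6 : (3 : ℝ) ≤ s := by exact_mod_cast hs
        nlinarith [mul_nonneg h3 h4]
      obtain ⟨M, b, -, -, hM, hMn, -⟩ := hmain s (Fintype.card ι) (Hs S) hs0
        (Hs_ge S s hsdef hs) hlt hsq
      have : Nat.clog 2 (Fintype.card ι) ≤ 0 := by
        have h7 : Fintype.card ι ≤ 1 := by omega
        rw [Nat.clog_of_right_le_one h7]
      omega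
    · have h2 := hmin s hs (by omega)
      have h3 : (Fintype.card ι : ℝ) ≤ |B| := by
        refine le_trans (hB s (Fintype.card ι) (Hs S) (by omega)
          (Hs_pos S (by rw [← hsdef]; exact hs)) ?_ ?_) (le_abs_self B)
        · unfold En
          have hH := Hs_pos S (by rw [← hsdef]; exact hs)
          have h3 : (0 : ℝ) ≤ (Fintype.card ι : ℝ) := Nat.cast_nonneg _
          have h4 : (0 : ℝ) ≤ (Nat.clog 2 (Fintype.card ι) : ℝ) := Nat.cast_nonneg _
          have h5 : (0 : ℝ) ≤ 3 / Hs S * (Fintype.card ι : ℝ) ^ 2 := by positivity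
          have h6 : (3 : ℝ) ≤ s := by exact_mod_cast hs
          nlinarith [mul_nonneg h3 h4]
        · have hH := Hs_pos S (by rw [← hsdef]; exact hs)
          have := Real.one_le_exp hH.le
          linarith
      calc (Fintype.card ι : ℝ) ≤ |B| := h3
        _ = |B| / m * m := by field_simp
        _ ≤ |B| / m * (s * Real.log s / Real.log (Real.log s)) :=
            mul_le_mul_of_nonneg_left h2 (by positivity)
        _ ≤ _ := mul_le_mul_of_nonneg_right (le_max_right _ _) hps.le
  · have hH := Hs_pos S (by rw [← hsdef]; exact hs)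
    have hsq := core_sq S hH hN
    rw [Es_eq, ← hsdef] at hsq
    by_cases hs0 : s0 ≤ s
    · by_contra hcon
      push Not at hcon
      have hlt : C * (s * Real.log s / Real.log (Real.log s)) < (Fintype.card ι : ℝ) :=
        lt_of_le_of_lt (mul_le_mul_of_nonneg_right (le_max_left _ _) hps.le) hcon
      obtain ⟨M, b, hb, hbM, hM, hMn, hfull, hq, hQM, hfin⟩ := hmain s (Fintype.card ι) (Hs S)
        hs0 (Hs_ge S s hsdef hs) hlt hsq
      have := core S hH s hsdef (by omega) M b hb hbM hM hMn (by rw [Es_eq]; exact hfull)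
        (by rw [Es_eq]; exact hq) (by rw [Es_eq]; exact hQM)
      rw [Es_eq] at this
      exact absurd hfin (not_lt.2 this)
    · have h2 := hmin s hs (by omega)
      have h3 : (Fintype.card ι : ℝ) ≤ |B| := by
        refine le_trans (hB s (Fintype.card ι) (Hs S) (by omega) hH hsq ?_) (le_abs_self B)
        refine le_trans (card_le S) ?_
        have h4 : S.HH ≤ Hs S + Real.log 2 := by
          have := sum_hh S
          unfold Hs
          linarith
        have h5 : Real.exp S.HH ≤ 2 * Real.exp (Hs S) := by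
          refine le_trans (Real.exp_le_exp.2 h4) ?_
          rw [Real.exp_add, Real.exp_log (by norm_num)]
          linarith [Real.exp_pos (Hs S)]
        linarith
      calc (Fintype.card ι : ℝ) ≤ |B| := h3
        _ = |B| / m * m := by field_simp
        _ ≤ |B| / m * (s * Real.log s / Real.log (Real.log s)) :=
            mul_le_mul_of_nonneg_left h2 (by positivity)
        _ ≤ _ := mul_le_mul_of_nonneg_right (le_max_right _ _) hps.le

/-- the theorem -/
theorem main_bound : ∃ C : ℝ, 0 < C ∧ ∀ c : ℚ, 3 ≤ c.den.primeFactors.card →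
    (PrePer c).Finite ∧ ((PrePer c).ncard : ℝ) ≤
      C * (c.den.primeFactors.card * Real.log c.den.primeFactors.card /
        Real.log (Real.log c.den.primeFactors.card)) := by
  obtain ⟨C, hC, h⟩ := sys_bound
  refine ⟨C, hC, fun c hc => ?_⟩
  have key : ∀ T : Finset ℚ, (T : Set ℚ) ⊆ PrePer c → (T.card : ℝ) ≤
      C * (c.den.primeFactors.card * Real.log c.den.primeFactors.card /
        Real.log (Real.log c.den.primeFactors.card)) := by
    intro T hT
    by_cases hne : T.Nonempty
    · obtain ⟨ι, _, _, S, h1, h2⟩ := exists_sys c T hT hne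
      have h3 := h ι S (by rw [h2]; exact hc)
      rw [h2] at h3
      exact le_trans (by exact_mod_cast h1) h3
    · rw [Finset.not_nonempty_iff_eq_empty.1 hne]
      have h3 : (3 : ℝ) ≤ (c.den.primeFactors.card : ℝ) := by exact_mod_cast hc
      have he : Real.exp 1 < 3 := by
        have := Real.exp_one_lt_d9
        linarith
      have h1 : 1 < Real.log (c.den.primeFactors.card : ℝ) := by
        rw [Real.lt_log_iff_exp_lt (by linarith)]
        linarith
      have h2 : 0 < Real.log (Real.log (c.den.primeFactors.card : ℝ)) := Real.log_pos h1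
      simp only [Finset.card_empty, Nat.cast_zero]
      positivity
  have hfin : (PrePer c).Finite := by
    by_contra hinf
    obtain ⟨T, hT, hcard⟩ := Set.Infinite.exists_subset_card_eq hinf
      (⌊C * (c.den.primeFactors.card * Real.log c.den.primeFactors.card /
        Real.log (Real.log c.den.primeFactors.card))⌋₊ + 1)
    have h1 := key T hT
    rw [hcard] at h1
    push_cast at h1
    have h2 := Nat.lt_floor_add_one (C * (c.den.primeFactors.card *
      Real.log c.den.primeFactors.card / Real.log (Real.log c.den.primeFactors.card)))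
    linarith
  refine ⟨hfin, ?_⟩
  rw [Set.ncard_eq_toFinset_card _ hfin]
  exact key _ (by simp)

end Pool.Agent.Ppr
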