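import Pool.Agent.Ppr.Defs

/-!
# The norm `nrm M f = ∑_{j<M} |f_j| 64^(-j)` on power series, part A

All statements are immediate from the definition: `nrm_mul_le` (submultiplicative) because
`coeff j (f*g) = ∑ over the antidiagonal` and the antidiagonals of `j < M` inject into
`range M ×ˢ range M`.
-/

namespace Pool.Agent.Ppr

open PowerSeries

theorem nrm_nonneg (M : ℕ) (f : PowerSeries ℝ) : 0 ≤ nrm M f :=
  Finset.sum_nonneg fun _ _ => by positivity

theorem nrm_zero (M : ℕ) : nrm M 0 = 0 := by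
  simp [nrm]

theorem nrm_neg (M : ℕ) (f : PowerSeries ℝ) : nrm M (-f) = nrm M f := by
  simp [nrm]

theorem nrm_add_le (M : ℕ) (f g : PowerSeries ℝ) : nrm M (f + g) ≤ nrm M f + nrm M g := by
  unfold nrm
  rw [← Finset.sum_add_distrib]
  refine Finset.sum_le_sum fun j _ => ?_
  rw [map_add, ← add_mul]
  exact mul_le_mul_of_nonneg_right (abs_add_le _ _) (by positivity)

theorem nrm_sub_le (M : ℕ) (f g : PowerSeries ℝ) : nrm M (f - g) ≤ nrm M f + nrm M g := by
  rw [sub_eq_add_neg, ← nrm_neg M g]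
  exact nrm_add_le M f (-g)

theorem nrm_sum_le {α : Type} (M : ℕ) (s : Finset α) (f : α → PowerSeries ℝ) :
    nrm M (∑ a ∈ s, f a) ≤ ∑ a ∈ s, nrm M (f a) := by
  classical
  induction s using Finset.induction_on with
  | empty => simp [nrm_zero]
  | insert a s ha ih =>
    rw [Finset.sum_insert ha, Finset.sum_insert ha]
    exact (nrm_add_le M _ _).trans (add_le_add le_rfl ih)

theorem nrm_mul_le (M : ℕ) (f g : PowerSeries ℝ) : nrm M (f * g) ≤ nrm M f * nrm M g := by
  classical
  let F : ℕ × ℕ → ℝ := fun p =>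
    (|coeff p.1 f| * (1 / 64) ^ p.1) * (|coeff p.2 g| * (1 / 64) ^ p.2)
  have hF : ∀ p, 0 ≤ F p := fun p => by positivity
  have h1 : nrm M (f * g) ≤ ∑ j ∈ Finset.range M, ∑ p ∈ Finset.HasAntidiagonal.antidiagonal j, F p := by
    refine Finset.sum_le_sum fun j _ => ?_
    rw [coeff_mul]
    calc |∑ p ∈ Finset.HasAntidiagonal.antidiagonal j, coeff p.1 f * coeff p.2 g| * (1 / 64) ^ j
        ≤ (∑ p ∈ Finset.HasAntidiagonal.antidiagonal j, |coeff p.1 f * coeff p.2 g|) * (1 / 64) ^ j :=
          mul_le_mul_of_nonneg_right (Finset.abs_sum_le_sum_abs _ _) (by positivity)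
      _ = ∑ p ∈ Finset.HasAntidiagonal.antidiagonal j, F p := by
          rw [Finset.sum_mul]
          refine Finset.sum_congr rfl fun p hp => ?_
          rw [Finset.HasAntidiagonal.mem_antidiagonal] at hp
          rw [← hp, pow_add, abs_mul]
          ring
  have h2 : ∑ j ∈ Finset.range M, ∑ p ∈ Finset.HasAntidiagonal.antidiagonal j, F p =
      ∑ p ∈ (Finset.range M ×ˢ Finset.range M).filter (fun p => p.1 + p.2 < M), F p := by
    rw [← Finset.sum_fiberwise_of_maps_to (t := Finset.range M)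
      (g := fun p : ℕ × ℕ => p.1 + p.2)]
    · refine Finset.sum_congr rfl fun j hj => Finset.sum_congr ?_ fun _ _ => rfl
      rw [Finset.mem_range] at hj
      ext p
      simp only [Finset.HasAntidiagonal.mem_antidiagonal, Finset.mem_filter, Finset.mem_product,
        Finset.mem_range]
      constructor
      · intro h; omega
      · intro h; exact h.2
    · intro p hp
      simp only [Finset.mem_filter] at hp
      exact Finset.mem_range.mpr hp.2
  calc nrm M (f * g) ≤ _ := h1
    _ = _ := h2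
    _ ≤ ∑ p ∈ Finset.range M ×ˢ Finset.range M, F p :=
        Finset.sum_le_sum_of_subset_of_nonneg (Finset.filter_subset _ _) fun p _ _ => hF p
    _ = nrm M f * nrm M g := by
        unfold nrm
        rw [Finset.sum_mul_sum, Finset.sum_product]

theorem nrm_C_le (M : ℕ) (a : ℝ) : nrm M (C a) ≤ |a| := by
  unfold nrm
  have h : ∀ j ∈ Finset.range M, |coeff j (C a : PowerSeries ℝ)| * (1 / 64 : ℝ) ^ j =
      if j = 0 then |a| else 0 := by
    intro j _
    rw [coeff_C]
    split_ifs with h
    · rw [h]; simp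
    · simp
  rw [Finset.sum_congr rfl h, Finset.sum_ite_eq']
  split_ifs
  · exact le_rfl
  · exact abs_nonneg a

theorem nrm_C_mul (M : ℕ) (a : ℝ) (f : PowerSeries ℝ) : nrm M (C a * f) = |a| * nrm M f := by
  unfold nrm
  rw [Finset.mul_sum]
  refine Finset.sum_congr rfl fun j _ => ?_
  rw [coeff_C_mul, abs_mul, mul_assoc]

theorem nrm_one_le (M : ℕ) : nrm M 1 ≤ 1 := by
  have := nrm_C_le M 1
  rwa [map_one, abs_one] at this

theorem nrm_X_pow_le (M j : ℕ) : nrm M (X ^ j : PowerSeries ℝ) ≤ (1 / 64) ^ j := by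
  unfold nrm
  have h : ∀ k ∈ Finset.range M, |coeff k (X ^ j : PowerSeries ℝ)| * (1 / 64 : ℝ) ^ k =
      if k = j then (1 / 64 : ℝ) ^ j else 0 := by
    intro k _
    rw [coeff_X_pow]
    split_ifs with h
    · rw [h]; simp
    · simp
  rw [Finset.sum_congr rfl h, Finset.sum_ite_eq']
  split_ifs
  · exact le_rfl
  · positivity

theorem nrm_pow_le (M n : ℕ) (f : PowerSeries ℝ) : nrm M (f ^ n) ≤ nrm M f ^ n := by
  induction n with
  | zero => simpa using nrm_one_le M
  | succ n ih =>
    rw [pow_succ, pow_succ]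
    exact (nrm_mul_le M _ _).trans (mul_le_mul_of_nonneg_right ih (nrm_nonneg M f))

theorem nrm_prod_le {α : Type} (M : ℕ) (s : Finset α) (f : α → PowerSeries ℝ) :
    nrm M (∏ a ∈ s, f a) ≤ ∏ a ∈ s, nrm M (f a) := by
  classical
  induction s using Finset.induction_on with
  | empty => simpa using nrm_one_le M
  | insert a s ha ih =>
    rw [Finset.prod_insert ha, Finset.prod_insert ha]
    exact (nrm_mul_le M _ _).trans (mul_le_mul_of_nonneg_left ih (nrm_nonneg M _))

end Pool.Agent.Ppr
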