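import Pool.Agent.Ppr.NrmA

/-!
# The norm `nrm M f = ∑_{j<M} |f_j| 64^(-j)` on power series, part B

`nrm_inv_le`: `C a * g = 1 - (f - C a) g`, hence `|a| nrm g ≤ 1 + δ nrm g`. `exists_inv`:
`PowerSeries.mul_inv_cancel`.
-/

namespace Pool.Agent.Ppr

open PowerSeries

theorem abs_coeff_le {M j : ℕ} (hj : j < M) (f : PowerSeries ℝ) :
    |coeff j f| ≤ 64 ^ j * nrm M f := by
  have h : |coeff j f| * (1 / 64 : ℝ) ^ j ≤ nrm M f :=
    Finset.single_le_sum (f := fun j => |coeff j f| * (1 / 64 : ℝ) ^ j)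
      (fun _ _ => by positivity) (Finset.mem_range.mpr hj)
  have h2 : |coeff j f| = 64 ^ j * (|coeff j f| * (1 / 64 : ℝ) ^ j) := by
    rw [one_div, inv_pow]
    field_simp
  rw [h2]
  exact mul_le_mul_of_nonneg_left h (by positivity)

theorem abs_const_le {M : ℕ} (hM : 0 < M) (f : PowerSeries ℝ) :
    |constantCoeff f| ≤ nrm M f := by
  have := abs_coeff_le hM f
  rwa [pow_zero, one_mul, coeff_zero_eq_constantCoeff_apply] at this

theorem nrm_congr {M : ℕ} {f g : PowerSeries ℝ} (h : X ^ M ∣ f - g) : nrm M f = nrm M g := by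
  rw [X_pow_dvd_iff] at h
  refine Finset.sum_congr rfl fun j hj => ?_
  have := h j (Finset.mem_range.mp hj)
  rw [map_sub, sub_eq_zero] at this
  rw [this]

theorem nrm_eq_zero {M : ℕ} {f : PowerSeries ℝ} (h : X ^ M ∣ f) : nrm M f = 0 := by
  rw [nrm_congr (g := 0) (by simpa using h), nrm_zero]

theorem nrm_mono {M M' : ℕ} (h : M ≤ M') (f : PowerSeries ℝ) : nrm M f ≤ nrm M' f :=
  Finset.sum_le_sum_of_subset_of_nonneg (Finset.range_subset_range.mpr h)
    fun _ _ _ => by positivity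

/-- division by `X` -/
theorem nrm_of_X_mul (M : ℕ) (f : PowerSeries ℝ) : nrm M f ≤ 64 * nrm (M + 1) (X * f) := by
  unfold nrm
  rw [Finset.sum_range_succ', mul_add, Finset.mul_sum]
  have h : ∀ j ∈ Finset.range M, |coeff j f| * (1 / 64 : ℝ) ^ j =
      64 * (|coeff (j + 1) (X * f)| * (1 / 64 : ℝ) ^ (j + 1)) := by
    intro j _
    rw [coeff_succ_X_mul, pow_succ]
    ring
  rw [Finset.sum_congr rfl h]
  have : 0 ≤ 64 * (|coeff 0 (X * f)| * (1 / 64 : ℝ) ^ 0) := by positivity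
  linarith

theorem exists_inv {f : PowerSeries ℝ} (h : constantCoeff f ≠ 0) : ∃ g, f * g = 1 :=
  ⟨f⁻¹, PowerSeries.mul_inv_cancel f h⟩

/-- the norm of an inverse -/
theorem nrm_inv_le {M : ℕ} {f g : PowerSeries ℝ} {a δ : ℝ} (hδ : nrm M (f - C a) ≤ δ)
    (ha : δ < |a|) (hfg : f * g = 1) : nrm M g ≤ 1 / (|a| - δ) := by
  have h1 : C a * g = 1 - (f - C a) * g := by
    rw [sub_mul, hfg]; ring
  have h2 : |a| * nrm M g ≤ 1 + δ * nrm M g := by
    rw [← nrm_C_mul, h1]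
    refine (nrm_sub_le M _ _).trans (add_le_add (nrm_one_le M) ?_)
    exact (nrm_mul_le M _ _).trans (mul_le_mul_of_nonneg_right hδ (nrm_nonneg M g))
  rw [le_div_iff₀ (by linarith)]
  linarith

theorem const_ne_zero {M : ℕ} (hM : 0 < M) {f : PowerSeries ℝ} {a δ : ℝ}
    (hδ : nrm M (f - C a) ≤ δ) (ha : δ < |a|) : constantCoeff f ≠ 0 := by
  intro h
  have h1 := (abs_const_le hM (f - C a)).trans hδ
  rw [map_sub, h, constantCoeff_C, zero_sub, abs_neg] at h1
  linarith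

end Pool.Agent.Ppr
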