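import Pool.Agent.Ppr.Sep
import Pool.Agent.Ppr.Lin

/-!
# Independence of the jets

`test_form`: `w0 ∈ Ws`, `j < M`. `Str = {w ∈ Ws : w ≠ w0, lam σ w M w0 > η}` has at most `Q/η^2`
elements. `sep w` for `w ∈ Str` from `exists_sep`, degree `≤ dd = M/b + 4^b + 1`,
`Gs = ∏_{w ∈ Str} sep w` of degree `D1 ≤ q dd ≤ M/12`, `e = d - 1 - D1`, `d = M / 3`,
`g = (lf w0)^e * Gs`. `eps σ w0 (lf w0) = 1 + (norm ≤ 1/30)` (`sg * sg = 1`), so its inverse has
norm `≤ 30/29`; `eps σ w0 g` has an inverse `gi` of norm `≤ (30/29)^e`. `F` linear with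
`eps σ w0 F = X^j gi mod X^M`, `∑ |μ| ≤ 2 * 100^M (1/64)^j (30/29)^M` (`linform`). `G = F g`:
homogeneous of degree `d`; `eps σ w0 G = X^j mod X^M`; `X^M ∣ eps σ w G` for `w ∈ Str`; for the
other `w ∈ Ws`, `w ≠ w0`: `nrm (eps σ w F) ≤ (31/30) ∑ |μ|` and
`nrm (eps σ w G) ≤ (31/30) · 2 · 100^M (1/64)^j (30/29)^M · lam^e · 5^(M/12)`, and
`∑ lam^e ≤ η^(e-2) Q` (`lam ≤ η`), `e - 2 ≥ M/4 - 4`, `(30/29) 5^(1/12) ≤ 6/5`: total
`≤ (1/64)^j · (31/15) · 120^M · η^(e-2) · Q ≤ (1/64)^j / 2` with `η = 240^(-8)`.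
`indep`: let `(w0, j0)` maximise `|c w j| 64^j`; apply the hypothesis to `test_form`.
-/

namespace Pool.Agent.Ppr

open PowerSeries

set_option linter.unusedSectionVars false

/-- the threshold of the correlations -/
noncomputable def eta : ℝ := 1 / 240 ^ 8

variable {ι : Type} [Fintype ι] [DecidableEq ι]

private theorem abs_sg_OA (b : Bool) : |((sg b : ℤ) : ℝ)| = 1 := by
  cases b <;> simp [sg]

private theorem eps_X_OA (σ : ι → ι) (w : ι → Bool) (i : ι) :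
    eps σ w (MvPolynomial.X i) = YR (ow σ w i) := by
  simp [eps]

private theorem eps_C_OA (σ : ι → ι) (w : ι → Bool) (a : ℝ) :
    eps σ w (MvPolynomial.C a) = C a := by
  rw [eps, MvPolynomial.aeval_C]
  rfl

private theorem lf_hom_OA (w0 : ι → Bool) : (lf w0).IsHomogeneous 1 := by
  unfold lf
  refine MvPolynomial.IsHomogeneous.sum _ _ _ fun i _ => ?_
  simpa using (MvPolynomial.isHomogeneous_C ι _).mul (MvPolynomial.isHomogeneous_X ℝ i)

private theorem lin_hom_OA (μ : ι → ℝ) :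
    (∑ i, MvPolynomial.C (μ i) * MvPolynomial.X i : MvPolynomial ι ℝ).IsHomogeneous 1 := by
  refine MvPolynomial.IsHomogeneous.sum _ _ _ fun i _ => ?_
  simpa using (MvPolynomial.isHomogeneous_C ι _).mul (MvPolynomial.isHomogeneous_X ℝ i)

private theorem lf_self_OA [Nonempty ι] (σ : ι → ι) (w0 : ι → Bool) (M : ℕ) :
    nrm M (eps σ w0 (lf w0) - C 1) ≤ 1 / 30 := by
  have hN : (0 : ℝ) < Fintype.card ι := by exact_mod_cast Fintype.card_pos
  have h1 : eps σ w0 (lf w0) - C 1 = ∑ i, C ((sg (w0 i) : ℝ) / (Fintype.card ι : ℝ)) *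
      (YR (ow σ w0 i) - C ((sg (w0 i) : ℤ) : ℝ)) := by
    have h2 : (C (1 : ℝ) : PowerSeries ℝ) = ∑ i : ι, C ((sg (w0 i) : ℝ) / (Fintype.card ι : ℝ)) *
        C ((sg (w0 i) : ℤ) : ℝ) := by
      have h3 : ∀ i : ι, C ((sg (w0 i) : ℝ) / (Fintype.card ι : ℝ)) *
          C ((sg (w0 i) : ℤ) : ℝ) = (C (1 / (Fintype.card ι : ℝ)) : PowerSeries ℝ) := by
        intro i
        rw [← map_mul]
        congr 1
        have : ((sg (w0 i) : ℤ) : ℝ) * ((sg (w0 i) : ℤ) : ℝ) = 1 := by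
          cases w0 i <;> simp [sg]
        rw [div_mul_eq_mul_div, this]
      rw [Finset.sum_congr rfl fun i _ => h3 i, Finset.sum_const, Finset.card_univ,
        nsmul_eq_mul, ← map_natCast (C (R := ℝ)), ← map_mul]
      congr 1
      field_simp
    rw [h2, lf, map_sum, ← Finset.sum_sub_distrib]
    refine Finset.sum_congr rfl fun i _ => ?_
    rw [map_mul, eps_X_OA, eps_C_OA, mul_sub]
  rw [h1]
  refine (nrm_sum_le M _ _).trans ?_
  have h4 : ∀ i ∈ (Finset.univ : Finset ι), nrm M (C ((sg (w0 i) : ℝ) / (Fintype.card ι : ℝ)) *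
      (YR (ow σ w0 i) - C ((sg (w0 i) : ℤ) : ℝ))) ≤ 1 / (Fintype.card ι : ℝ) * (1 / 30) := by
    intro i _
    rw [nrm_C_mul, abs_div, abs_sg_OA, abs_of_pos hN]
    refine mul_le_mul_of_nonneg_left ?_ (by positivity)
    have := nrm_YR_sub M (ow σ w0 i)
    exact this
  refine (Finset.sum_le_sum h4).trans (le_of_eq ?_)
  rw [Finset.sum_const, Finset.card_univ, nsmul_eq_mul]
  field_simp

private theorem nrm_lin_OA (σ : ι → ι) (w : ι → Bool) (M : ℕ) (μ : ι → ℝ) :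
    nrm M (eps σ w (∑ i, MvPolynomial.C (μ i) * MvPolynomial.X i)) ≤
      31 / 30 * ∑ i, |μ i| := by
  rw [map_sum, Finset.mul_sum]
  refine (nrm_sum_le M _ _).trans (Finset.sum_le_sum fun i _ => ?_)
  rw [map_mul, eps_X_OA, eps_C_OA, nrm_C_mul, mul_comm]
  exact mul_le_mul_of_nonneg_right (nrm_YR_le M _) (abs_nonneg _)

private theorem num_OA {M e D : ℕ} {Q : ℝ} (hM : 240 ≤ M) (he : e ≤ M) (hD : D ≤ M)
    (he2 : 2 * M ≤ 8 * (e - 2) + 30) (hQ0 : 0 ≤ Q) (hQM : 8 * Q ≤ 2 ^ M) :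
    31 / 30 * (2 * 100 ^ M * (30 / 29) ^ e) * 5 ^ D * (eta ^ (e - 2) * Q) ≤ 1 / 2 := by
  have h1 : ((30 : ℝ) / 29) ^ e ≤ 2 ^ M :=
    (pow_le_pow_right₀ (by norm_num) he).trans
      (pow_le_pow_left₀ (by norm_num) (by norm_num) M)
  have h2 : (5 : ℝ) ^ D ≤ 5 ^ M := pow_le_pow_right₀ (by norm_num) hD
  have h3 : Q ≤ 2 ^ M / 8 := by linarith
  have h4 : eta ^ (e - 2) ≤ 240 ^ 30 / 57600 ^ M := by
    have h5 : eta ^ (e - 2) = 1 / 240 ^ (8 * (e - 2)) := by
      rw [eta, one_div, inv_pow, ← pow_mul, one_div]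
    rw [h5, div_le_div_iff₀ (by positivity) (by positivity), one_mul, ← pow_add]
    have h6 : (57600 : ℝ) ^ M = 240 ^ (2 * M) := by
      rw [pow_mul]; norm_num
    rw [h6]
    exact pow_le_pow_right₀ (by norm_num) (by omega)
  have h7 : (240 : ℝ) ^ 30 * 2000 ^ M ≤ 57600 ^ M := by
    have h8 : (57600 : ℝ) ^ M = 28.8 ^ M * 2000 ^ M := by
      rw [← mul_pow]; norm_num
    rw [h8]
    refine mul_le_mul_of_nonneg_right ?_ (by positivity)
    calc (240 : ℝ) ^ 30 ≤ (28.8 ^ 2) ^ 30 := pow_le_pow_left₀ (by norm_num) (by norm_num) 30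
      _ = 28.8 ^ 60 := by rw [← pow_mul]
      _ ≤ 28.8 ^ M := pow_le_pow_right₀ (by norm_num) (by omega)
  have he0 : 0 ≤ eta ^ (e - 2) := by
    unfold eta; positivity
  calc 31 / 30 * (2 * 100 ^ M * (30 / 29) ^ e) * 5 ^ D * (eta ^ (e - 2) * Q)
      ≤ 31 / 30 * (2 * 100 ^ M * 2 ^ M) * 5 ^ M *
        ((240 ^ 30 / 57600 ^ M) * (2 ^ M / 8)) := by
        gcongr
    _ = 31 / 120 * ((240 ^ 30 * 2000 ^ M) / 57600 ^ M) := by
        have : (2000 : ℝ) ^ M = 100 ^ M * 2 ^ M * 5 ^ M * 2 ^ M := by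
          rw [← mul_pow, ← mul_pow, ← mul_pow]; norm_num
        rw [this]; ring
    _ ≤ 31 / 120 * 1 := by
        refine mul_le_mul_of_nonneg_left ?_ (by norm_num)
        rw [div_le_one (by positivity)]
        exact h7
    _ ≤ 1 / 2 := by norm_num

theorem test_form (σ : ι → ι) (Ws : Finset (ι → Bool)) (M b : ℕ) (Q : ℝ)
    (hb : 0 < b) (hbM : b ≤ M) (hfull : ∀ w ∈ Ws, full σ w M)
    (hneg : ∀ w ∈ Ws, ∀ w' ∈ Ws, w ≠ fun i => !(w' i))
    (hQ : ∀ w0 ∈ Ws, ∑ w ∈ Ws, (lam σ w M w0) ^ 2 ≤ Q)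
    (hq : Q / eta ^ 2 * ((M / b : ℕ) + 4 ^ b + 1) ≤ M / 12) (hM : 240 ≤ M)
    (hQM : 8 * Q ≤ 2 ^ M) (w0 : ι → Bool) (hw0 : w0 ∈ Ws) (j : ℕ) (hj : j < M) :
    ∃ G : MvPolynomial ι ℝ, G.IsHomogeneous (M / 3) ∧ X ^ M ∣ eps σ w0 G - X ^ j ∧
      ∑ w ∈ Ws.erase w0, nrm M (eps σ w G) ≤ (1 / 64) ^ j / 2 := by
  classical
  have heta : 0 < eta := by unfold eta; positivity
  obtain ⟨i0, _⟩ := hfull w0 hw0 (fun _ => true)
  have : Nonempty ι := ⟨i0⟩
  have hQ0 : 0 ≤ Q := le_trans (Finset.sum_nonneg fun w _ => sq_nonneg _) (hQ w0 hw0)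
  set Str : Finset (ι → Bool) := Ws.filter (fun w => w ≠ w0 ∧ eta < lam σ w M w0) with hStr
  have hcard : (Str.card : ℝ) ≤ Q / eta ^ 2 := by
    rw [le_div_iff₀ (by positivity)]
    calc (Str.card : ℝ) * eta ^ 2 = ∑ w ∈ Str, eta ^ 2 := by
          rw [Finset.sum_const, nsmul_eq_mul]
      _ ≤ ∑ w ∈ Str, (lam σ w M w0) ^ 2 := by
          refine Finset.sum_le_sum fun w hw => ?_
          rw [hStr, Finset.mem_filter] at hw
          exact pow_le_pow_left₀ heta.le hw.2.2.le 2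
      _ ≤ ∑ w ∈ Ws, (lam σ w M w0) ^ 2 :=
          Finset.sum_le_sum_of_subset_of_nonneg (Finset.filter_subset _ _)
            fun _ _ _ => sq_nonneg _
      _ ≤ Q := hQ w0 hw0
  have hsep : ∀ w : ι → Bool, ∃ g G, w ∈ Str → g ≤ M / b + 4 ^ b + 1 ∧ IsSep σ M w0 w g G := by
    intro w
    by_cases hw : w ∈ Str
    · have hw' := hw
      rw [hStr, Finset.mem_filter] at hw'
      obtain ⟨g, G, h⟩ := exists_sep (σ := σ) (M := M) (w0 := w0) (w' := w) hb hbM
        (hfull w hw'.1) (hfull w0 hw0) (by omega) (Ne.symm hw'.2.1) (hneg w0 hw0 w hw'.1)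
      exact ⟨g, G, fun _ => h⟩
    · exact ⟨0, 0, fun h => absurd h hw⟩
  choose g G hgG using hsep
  set D : ℕ := ∑ w ∈ Str, g w with hD
  have hD12 : D ≤ M / 12 := by
    have h1 : (D : ℝ) ≤ Str.card * ((M / b : ℕ) + 4 ^ b + 1) := by
      rw [hD]
      push_cast
      calc ∑ w ∈ Str, (g w : ℝ) ≤ ∑ w ∈ Str, (((M / b : ℕ) : ℝ) + 4 ^ b + 1) := by
            refine Finset.sum_le_sum fun w hw => ?_
            have := (hgG w hw).1
            exact_mod_cast this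
        _ = Str.card * ((M / b : ℕ) + 4 ^ b + 1) := by
            rw [Finset.sum_const, nsmul_eq_mul]
    have h2 : (D : ℝ) ≤ M / 12 := by
      refine h1.trans (le_trans ?_ hq)
      exact mul_le_mul_of_nonneg_right hcard (by positivity)
    rw [Nat.le_div_iff_mul_le (by norm_num)]
    have h3 : (D : ℝ) * 12 ≤ M := by linarith
    exact_mod_cast h3
  set e : ℕ := M / 3 - 1 - D with he
  have heM : e ≤ M := by omega
  have he2 : 2 * M ≤ 8 * (e - 2) + 30 := by omega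
  have he3 : 2 ≤ e := by omega
  set gf : MvPolynomial ι ℝ := (lf w0) ^ e * ∏ w ∈ Str, G w with hgf
  have hgfhom : gf.IsHomogeneous (M / 3 - 1) := by
    have h1 := ((lf_hom_OA w0).pow e).mul
      (MvPolynomial.IsHomogeneous.prod Str G g fun w hw => (hgG w hw).2.1)
    have h2 : 1 * e + ∑ w ∈ Str, g w = M / 3 - 1 := by
      rw [← hD]; omega
    rwa [h2] at h1
  obtain ⟨li, hli⟩ := exists_inv (f := eps σ w0 (lf w0))
    (const_ne_zero (M := M) (by omega) (lf_self_OA σ w0 M) (by norm_num))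
  have hlin : nrm M li ≤ 30 / 29 := by
    refine (nrm_inv_le (lf_self_OA σ w0 M) (by norm_num) hli).trans ?_
    norm_num
  have hinv : ∀ w : ι → Bool, ∃ v : PowerSeries ℝ, w ∈ Str → eps σ w0 (G w) * v = 1 ∧
      nrm M v ≤ 1 := by
    intro w
    by_cases hw : w ∈ Str
    · obtain ⟨v, hv⟩ := (hgG w hw).2.2.2.1
      exact ⟨v, fun _ => hv⟩
    · exact ⟨0, fun h => absurd h hw⟩
  choose v hv using hinv
  set gi : PowerSeries ℝ := li ^ e * ∏ w ∈ Str, v w with hgi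
  have hgigf : eps σ w0 gf * gi = 1 := by
    rw [hgf, hgi, map_mul, map_pow, map_prod]
    have h1 : (∏ w ∈ Str, eps σ w0 (G w)) * ∏ w ∈ Str, v w = 1 := by
      rw [← Finset.prod_mul_distrib]
      exact Finset.prod_eq_one fun w hw => (hv w hw).1
    calc eps σ w0 (lf w0) ^ e * (∏ w ∈ Str, eps σ w0 (G w)) * (li ^ e * ∏ w ∈ Str, v w)
        = (eps σ w0 (lf w0) * li) ^ e * ((∏ w ∈ Str, eps σ w0 (G w)) * ∏ w ∈ Str, v w) := by
          rw [mul_pow]; ring
      _ = 1 := by rw [hli, h1, one_pow, one_mul]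
  have hgin : nrm M gi ≤ (30 / 29) ^ e := by
    rw [hgi]
    refine (nrm_mul_le M _ _).trans ?_
    have h1 : nrm M (li ^ e) ≤ (30 / 29) ^ e :=
      (nrm_pow_le M e li).trans (pow_le_pow_left₀ (nrm_nonneg M li) hlin e)
    have h2 : nrm M (∏ w ∈ Str, v w) ≤ 1 := by
      refine (nrm_prod_le M Str v).trans ?_
      exact Finset.prod_le_one (fun w _ => nrm_nonneg M _) fun w hw => (hv w hw).2
    calc nrm M (li ^ e) * nrm M (∏ w ∈ Str, v w) ≤ (30 / 29) ^ e * 1 :=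
          mul_le_mul h1 h2 (nrm_nonneg M _) (by positivity)
      _ = _ := mul_one _
  obtain ⟨μ, hμ, hμs⟩ := linform (σ := σ) (M := M) (w := w0) (hfull w0 hw0) (X ^ j * gi)
  set F : MvPolynomial ι ℝ := ∑ i, MvPolynomial.C (μ i) * MvPolynomial.X i with hF
  have hμs2 : ∑ i, |μ i| ≤ 2 * 100 ^ M * ((1 / 64) ^ j * (30 / 29) ^ e) := by
    refine hμs.trans (mul_le_mul_of_nonneg_left ?_ (by positivity))
    refine (nrm_mul_le M _ _).trans ?_
    exact mul_le_mul (nrm_X_pow_le M j) hgin (nrm_nonneg M _) (by positivity)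
  refine ⟨F * gf, ?_, ?_, ?_⟩
  · have h1 := (lin_hom_OA μ).mul hgfhom
    have h2 : 1 + (M / 3 - 1) = M / 3 := by omega
    rwa [h2] at h1
  · rw [map_mul]
    have h1 : eps σ w0 F * eps σ w0 gf - X ^ j =
        (eps σ w0 F - X ^ j * gi) * eps σ w0 gf + X ^ j * (eps σ w0 gf * gi - 1) := by ring
    rw [h1, hgigf, sub_self, mul_zero, add_zero]
    exact Dvd.dvd.mul_right hμ _
  · have hbound : ∀ w ∈ Ws.erase w0, nrm M (eps σ w (F * gf)) ≤
        31 / 30 * (2 * 100 ^ M * ((1 / 64) ^ j * (30 / 29) ^ e)) * 5 ^ D *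
          (eta ^ (e - 2) * (lam σ w M w0) ^ 2) := by
      intro w hw
      rw [Finset.mem_erase] at hw
      by_cases hs : w ∈ Str
      · have h0 : nrm M (eps σ w (F * gf)) = 0 := by
          apply nrm_eq_zero
          rw [map_mul, hgf, map_mul, map_prod]
          refine Dvd.dvd.mul_left (Dvd.dvd.mul_left ?_ _) _
          exact (hgG w hs).2.2.1.trans (Finset.dvd_prod_of_mem _ hs)
        rw [h0]
        positivity
      · have hle : lam σ w M w0 ≤ eta := by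
          by_contra hcon
          exact hs (by rw [hStr, Finset.mem_filter]; exact ⟨hw.2, hw.1, not_le.1 hcon⟩)
        have hl0 : 0 ≤ lam σ w M w0 := nrm_nonneg M _
        have h1 : nrm M (eps σ w F) ≤
            31 / 30 * (2 * 100 ^ M * ((1 / 64) ^ j * (30 / 29) ^ e)) :=
          (nrm_lin_OA σ w M μ).trans (mul_le_mul_of_nonneg_left hμs2 (by norm_num))
        have h2 : nrm M (∏ x ∈ Str, eps σ w (G x)) ≤ 5 ^ D := by
          refine (nrm_prod_le M Str _).trans ?_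
          rw [hD, ← Finset.prod_pow_eq_pow_sum]
          exact Finset.prod_le_prod (fun x _ => nrm_nonneg M _)
            fun x hx => (hgG x hx).2.2.2.2 w
        have h3 : nrm M ((eps σ w (lf w0)) ^ e) ≤ eta ^ (e - 2) * (lam σ w M w0) ^ 2 := by
          refine (nrm_pow_le M e _).trans ?_
          have h4 : nrm M (eps σ w (lf w0)) ^ e =
              (lam σ w M w0) ^ (e - 2) * (lam σ w M w0) ^ 2 := by
            rw [← pow_add, Nat.sub_add_cancel he3]
            rfl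
          rw [h4]
          exact mul_le_mul_of_nonneg_right (pow_le_pow_left₀ hl0 hle _) (sq_nonneg _)
        rw [map_mul, hgf, map_mul, map_pow, map_prod]
        calc nrm M (eps σ w F * (eps σ w (lf w0) ^ e * ∏ x ∈ Str, eps σ w (G x)))
            ≤ nrm M (eps σ w F) * (nrm M (eps σ w (lf w0) ^ e) *
                nrm M (∏ x ∈ Str, eps σ w (G x))) :=
              (nrm_mul_le M _ _).trans (mul_le_mul_of_nonneg_left (nrm_mul_le M _ _)
                (nrm_nonneg M _))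
          _ ≤ (31 / 30 * (2 * 100 ^ M * ((1 / 64) ^ j * (30 / 29) ^ e))) *
                ((eta ^ (e - 2) * (lam σ w M w0) ^ 2) * 5 ^ D) := by
              refine mul_le_mul h1 (mul_le_mul h3 h2 (nrm_nonneg M _) (by positivity))
                (mul_nonneg (nrm_nonneg M _) (nrm_nonneg M _)) (by positivity)
          _ = _ := by ring
    refine (Finset.sum_le_sum hbound).trans ?_
    rw [← Finset.mul_sum, ← Finset.mul_sum]
    have hsum : ∑ w ∈ Ws.erase w0, (lam σ w M w0) ^ 2 ≤ Q :=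
      (Finset.sum_le_sum_of_subset_of_nonneg (Finset.erase_subset _ _)
        fun _ _ _ => sq_nonneg _).trans (hQ w0 hw0)
    calc 31 / 30 * (2 * 100 ^ M * ((1 / 64) ^ j * (30 / 29) ^ e)) * 5 ^ D *
          (eta ^ (e - 2) * ∑ w ∈ Ws.erase w0, (lam σ w M w0) ^ 2)
        ≤ 31 / 30 * (2 * 100 ^ M * ((1 / 64) ^ j * (30 / 29) ^ e)) * 5 ^ D *
          (eta ^ (e - 2) * Q) := by
          refine mul_le_mul_of_nonneg_left ?_ (by positivity)
          exact mul_le_mul_of_nonneg_left hsum (by positivity)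
      _ = (1 / 64) ^ j * (31 / 30 * (2 * 100 ^ M * (30 / 29) ^ e) * 5 ^ D *
          (eta ^ (e - 2) * Q)) := by ring
      _ ≤ (1 / 64) ^ j * (1 / 2) := by
          refine mul_le_mul_of_nonneg_left ?_ (by positivity)
          exact num_OA hM heM (by omega) he2 hQ0 hQM
      _ = (1 / 64) ^ j / 2 := by ring

end Pool.Agent.Ppr
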