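import Mathlib
import Pool.Agent.Ppr.OntoA

/-!
# The numerical end

`En N H = N (clog2 N + 1) + 3 N^2 / H`.
`num_main`. Let `C` be large and `s` large. From `hsq`: `N^2 ≤ 4(s+1)(N(clog2 N+1) + 3N^2/H)` and
`H ≥ s log s - 2s ≥ 24 (s+1)` we get `N ≤ 8 (s+1)(clog2 N + 1)`, hence `N ≤ s^2`, and
`N ≤ 100 s log s`. Then `3 N^2/H ≤ 1000 N` (as `H ≥ (1/2) s log s`), so with
`clog2 N ≤ 4 log s`: `En ≤ 1010 N log s`. Since `N ≥ C s log s / log log s ≥ s` we have
`Q := 5200 s En / N^2 ≤ 6·10^6 s log s/N ≤ (6·10^6/C) log log s`. Put `q = Q/eta^2` and choose `C`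
such that `q ≤ (1/200) log log s`. `M = ⌊c log s⌋` with a small absolute constant `c`
(`c = 1/1000`), `b = ⌈24 q⌉ + 1`. Then `M ≤ clog2 N` (`N ≥ s`); `40 En < (N/2^M)^2` because
`4^M ≤ s^(1/500)` and `N ≥ s`, `En ≤ 1010 N log s`; `q (M/b) ≤ M/24`; `4^b ≤ 4^2 4^(24 q)
≤ 16 (log s)^(24 · 1.4/200) ≤ 16 (log s)^(1/4)`, so `q (4^b + 1) ≤ log log s · 17 (log s)^(1/4)
≤ M/24`; `8Q ≤ 2^M`. The last inequality: `En/N^2 ≤ 1010 log s/N → 0`; `M/3 ≤ M·(1/3)`,
`(Ms+1)/2 · log(Ms+1) ≤ (Ms/2)(log s + log M + 1) + …`, `M s · M log 67 ≤ 4.21 c M s log s`, and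
`H ≥ s log s - 2 s`: it is enough that `(19/20 - 1/3 - o(1)) > 1/2 + 4.21 c + o(1)`:
`0.6166 > 0.5043`.
`num_small`: for `3 ≤ s ≤ s0`: if `H ≥ 24 (s+1)` then `N ≤ 8(s+1)(clog2 N + 1)` bounds `N`;
otherwise `N ≤ 11 · 2 · exp(24 (s0+1))`.
-/

namespace Pool.Agent.Ppr

/-- the energy bound as a function of the numbers -/
noncomputable def En (N : ℕ) (H : ℝ) : ℝ :=
  (N : ℝ) * ((Nat.clog 2 N : ℝ) + 1) + 3 / H * (N : ℝ) ^ 2

/-- the energy is at most `5 N log s` -/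
private theorem NumA_en (s N : ℕ) (H : ℝ) (hx0 : 10 ^ 8 ≤ Real.log s)
    (hH : s * Real.log s - 2 * s ≤ H) (hNs : s ≤ N)
    (hsq : (N : ℝ) ^ 2 ≤ 4 * ((s : ℝ) + 1) * En N H) :
    En N H ≤ 5 * N * Real.log s := by
  set x : ℝ := Real.log s with hx
  have hs1 : 100 < s := by
    by_contra hcon
    rw [not_lt] at hcon
    rcases Nat.eq_zero_or_pos s with h0 | h0
    · rw [hx, h0] at hx0
      norm_num at hx0
    · have h1 : x ≤ Real.log 100 :=
        Real.log_le_log (by exact_mod_cast h0) (by exact_mod_cast hcon)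
      have h2 : Real.log 100 ≤ 100 - 1 := Real.log_le_sub_one_of_pos (by norm_num)
      linarith
  have hsr : (100 : ℝ) < s := by exact_mod_cast hs1
  have hNr : (s : ℝ) ≤ N := by exact_mod_cast hNs
  have hN0 : (0 : ℝ) < N := by linarith
  have hsx : 0 < (s : ℝ) * x := by positivity
  have hH2 : s * x / 2 ≤ H := by nlinarith
  have hH0 : 0 < H := by linarith
  have hH24 : 24 * ((s : ℝ) + 1) ≤ H := by nlinarith
  set k : ℕ := Nat.clog 2 N with hk
  have hEn : En N H = N * ((k : ℝ) + 1) + 3 / H * (N : ℝ) ^ 2 := rfl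
  -- `N ≤ 8 (s + 1) (k + 1)`
  have h1 : 4 * ((s : ℝ) + 1) * (3 / H * (N : ℝ) ^ 2) ≤ (N : ℝ) ^ 2 / 2 := by
    have h2 : 12 * ((s : ℝ) + 1) / H ≤ 1 / 2 := by
      rw [div_le_iff₀ hH0]
      linarith
    calc 4 * ((s : ℝ) + 1) * (3 / H * (N : ℝ) ^ 2)
        = (12 * ((s : ℝ) + 1) / H) * (N : ℝ) ^ 2 := by ring
      _ ≤ 1 / 2 * (N : ℝ) ^ 2 := mul_le_mul_of_nonneg_right h2 (by positivity)
      _ = _ := by ring
  have h3 : (N : ℝ) ≤ 8 * ((s : ℝ) + 1) * ((k : ℝ) + 1) := by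
    rw [hEn, mul_add] at hsq
    have h4 : (N : ℝ) * N ≤ (8 * ((s : ℝ) + 1) * ((k : ℝ) + 1)) * N := by nlinarith
    exact le_of_mul_le_mul_right h4 hN0
  -- `k`
  have hlog2 : (0.6931471803 : ℝ) < Real.log 2 := Real.log_two_gt_d9
  have hkN : ((k : ℝ) - 1) * Real.log 2 ≤ Real.log N := by
    have h4 : 2 ^ (k - 1) < N := Nat.pow_pred_clog_lt_self one_lt_two (by omega)
    have h5 : ((k - 1 : ℕ) : ℝ) * Real.log 2 ≤ Real.log N := by
      rw [← Real.log_pow]
      refine Real.log_le_log (by positivity) ?_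
      exact_mod_cast h4.le
    refine le_trans ?_ h5
    refine mul_le_mul_of_nonneg_right ?_ (by linarith)
    rcases Nat.eq_zero_or_pos k with h | h
    · rw [h]
      norm_num
    · rw [Nat.cast_sub h]
      norm_num
  have hlogN0 : 0 ≤ Real.log N := Real.log_nonneg (by linarith)
  have hk1 : (k : ℝ) + 1 ≤ 2 + 3 / 2 * Real.log N := by
    by_contra hcon
    rw [not_le] at hcon
    have h4 : 3 / 2 * Real.log N < (k : ℝ) - 1 := by linarith
    nlinarith
  set r : ℝ := √(N : ℝ) with hr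
  have hrr : r * r = N := Real.mul_self_sqrt hN0.le
  have hr1 : 1 ≤ r := by
    by_contra hcon
    rw [not_le] at hcon
    have : 0 ≤ r := Real.sqrt_nonneg _
    nlinarith
  have hr0 : 0 < r := by linarith
  have hlogr : Real.log N = 2 * Real.log r := by
    rw [← hrr, Real.log_mul hr0.ne' hr0.ne']
    ring
  have hlogr2 : Real.log r ≤ r - 1 := Real.log_le_sub_one_of_pos hr0
  have hr40 : r ≤ 80 * s := by
    have h4 : (k : ℝ) + 1 ≤ 5 * r := by linarith
    have h5 : r * r ≤ (40 * ((s : ℝ) + 1)) * r := by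
      rw [hrr]
      refine h3.trans ?_
      calc 8 * ((s : ℝ) + 1) * ((k : ℝ) + 1) ≤ 8 * ((s : ℝ) + 1) * (5 * r) :=
            mul_le_mul_of_nonneg_left h4 (by positivity)
        _ = _ := by ring
    have h6 := le_of_mul_le_mul_right h5 hr0
    linarith
  have hlogr3 : Real.log r ≤ 5 / 4 * x := by
    have h4 : Real.log r ≤ Real.log (80 * s) := Real.log_le_log hr0 hr40
    rw [Real.log_mul (by norm_num) (by linarith)] at h4
    have h5 : Real.log 80 ≤ 80 - 1 := Real.log_le_sub_one_of_pos (by norm_num)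
    linarith
  have hk4 : (k : ℝ) + 1 ≤ 4 * x := by linarith
  have hN33 : (N : ℝ) ≤ 33 * (s * x) := by
    refine h3.trans ?_
    calc 8 * ((s : ℝ) + 1) * ((k : ℝ) + 1) ≤ 8 * ((s : ℝ) + 1) * (4 * x) :=
          mul_le_mul_of_nonneg_left hk4 (by positivity)
      _ ≤ 33 * (s * x) := by nlinarith
  have hNH : 3 / H * (N : ℝ) ^ 2 ≤ N * x := by
    have h4 : 3 / H * (N : ℝ) ^ 2 = (3 * N / H) * N := by ring
    have h5 : 3 * (N : ℝ) / H ≤ 198 := by
      rw [div_le_iff₀ hH0]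
      linarith
    rw [h4, mul_comm (N : ℝ) x]
    exact mul_le_mul_of_nonneg_right (by linarith) hN0.le
  rw [hEn]
  have h6 : (N : ℝ) * ((k : ℝ) + 1) ≤ N * (4 * x) := mul_le_mul_of_nonneg_left hk4 hN0.le
  linarith

private theorem NumA_last (s M : ℕ) (H E x y : ℝ) (hxs : Real.log s = x) (hs : 100 < (s : ℝ))
    (hsx : x ≤ s) (hy : 100 ≤ y) (hyx : y ^ 4 = x) (hlogx : Real.log x ≤ 4 * y)
    (hM1 : 240 ≤ M) (hM2 : (M : ℝ) ≤ x / 1000) (hH : s * x - 2 * s ≤ H)
    (hE : 12 * E ≤ 1 / 100) :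
    ((M / 3 : ℕ) : ℝ) * (H + Real.log 2 + Real.log 5) +
        ((M * s + 1 : ℕ) : ℝ) / 2 * Real.log ((M * s + 1 : ℕ) : ℝ) +
        ((M * s : ℕ) : ℝ) * (M * Real.log 67) <
      M * (1 - 1 / 20 - 12 * E) * H := by
  have hy4 : 1000000 * y ≤ x := by
    have h1 : (100 : ℝ) ^ 3 ≤ y ^ 3 := pow_le_pow_left₀ (by norm_num) hy 3
    have h2 : (100 : ℝ) ^ 3 * y ≤ y ^ 3 * y := mul_le_mul_of_nonneg_right h1 (by linarith)
    rw [← pow_succ, hyx] at h2
    norm_num at h2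
    exact h2
  have hx : 100000000 ≤ x := by linarith
  have hM0 : (240 : ℝ) ≤ M := by exact_mod_cast hM1
  have hLx : Real.log x ≤ x / 1000 := by linarith
  have hsx0 : 0 < (s : ℝ) * x := by positivity
  have hHs : 0 < H := by nlinarith
  have h2 : Real.log 2 ≤ 1 := by
    have := Real.log_le_sub_one_of_pos (show (0 : ℝ) < 2 by norm_num)
    linarith
  have h5 : Real.log 5 ≤ 4 := by
    have := Real.log_le_sub_one_of_pos (show (0 : ℝ) < 5 by norm_num)
    linarith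
  have h20 : 0 ≤ Real.log 2 := Real.log_nonneg (by norm_num)
  have h50 : 0 ≤ Real.log 5 := Real.log_nonneg (by norm_num)
  have h67 : Real.log 67 ≤ 5 := by
    rw [Real.log_le_iff_le_exp (by norm_num)]
    have h1 : (2.7182818283 : ℝ) < Real.exp 1 := Real.exp_one_gt_d9
    have h3 : Real.exp 5 = Real.exp 1 ^ 5 := by
      rw [← Real.exp_nat_mul]
      norm_num
    rw [h3]
    have h4 : (2.7 : ℝ) ^ 5 ≤ Real.exp 1 ^ 5 := by
      refine pow_le_pow_left₀ (by norm_num) (by linarith) 5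
    refine le_trans ?_ h4
    norm_num
  -- first term
  have t1 : ((M / 3 : ℕ) : ℝ) * (H + Real.log 2 + Real.log 5) ≤ (M : ℝ) * ((H + 5) / 3) := by
    have h6 : ((M / 3 : ℕ) : ℝ) ≤ (M : ℝ) / 3 := Nat.cast_div_le
    calc ((M / 3 : ℕ) : ℝ) * (H + Real.log 2 + Real.log 5) ≤ (M : ℝ) / 3 * (H + 5) :=
          mul_le_mul h6 (by linarith) (by linarith) (by positivity)
      _ = _ := by ring
  -- second term
  have hMs : ((M * s + 1 : ℕ) : ℝ) = M * s + 1 := by push_cast; ring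
  have hMs0 : (0 : ℝ) < M * s := by positivity
  have hlogMs : Real.log ((M * s + 1 : ℕ) : ℝ) ≤ x + x / 1000 := by
    have h6 : ((M * s + 1 : ℕ) : ℝ) ≤ x * s := by
      rw [hMs]
      nlinarith
    have h7 : Real.log ((M * s + 1 : ℕ) : ℝ) ≤ Real.log (x * s) :=
      Real.log_le_log (by rw [hMs]; linarith) h6
    rw [Real.log_mul (by linarith) (by linarith), hxs] at h7
    linarith
  have t2 : ((M * s + 1 : ℕ) : ℝ) / 2 * Real.log ((M * s + 1 : ℕ) : ℝ) ≤
      (M : ℝ) * (((s : ℝ) + 1) / 2 * (x + x / 1000)) := by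
    have h6 : ((M * s + 1 : ℕ) : ℝ) / 2 ≤ (M : ℝ) * (((s : ℝ) + 1) / 2) := by
      rw [hMs]
      nlinarith
    have h7 : 0 ≤ Real.log ((M * s + 1 : ℕ) : ℝ) := Real.log_nonneg (by rw [hMs]; linarith)
    calc ((M * s + 1 : ℕ) : ℝ) / 2 * Real.log ((M * s + 1 : ℕ) : ℝ)
        ≤ (M : ℝ) * (((s : ℝ) + 1) / 2) * (x + x / 1000) :=
          mul_le_mul h6 hlogMs h7 (by positivity)
      _ = _ := by ring
  -- third term
  have t3 : ((M * s : ℕ) : ℝ) * (M * Real.log 67) ≤ (M : ℝ) * (s * (x / 1000 * 5)) := by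
    have h670 : 0 ≤ Real.log 67 := Real.log_nonneg (by norm_num)
    have h6 : (M : ℝ) * Real.log 67 ≤ x / 1000 * 5 :=
      mul_le_mul hM2 h67 h670 (by positivity)
    push_cast
    calc (M : ℝ) * s * (M * Real.log 67) ≤ (M : ℝ) * s * (x / 1000 * 5) :=
          mul_le_mul_of_nonneg_left h6 (by positivity)
      _ = _ := by ring
  have t4 : (M : ℝ) * (94 / 100 * H) ≤ M * (1 - 1 / 20 - 12 * E) * H := by
    have h6 : (94 : ℝ) / 100 ≤ 1 - 1 / 20 - 12 * E := by linarith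
    calc (M : ℝ) * (94 / 100 * H) = (94 / 100) * (M * H) := by ring
      _ ≤ (1 - 1 / 20 - 12 * E) * (M * H) := mul_le_mul_of_nonneg_right h6 (by positivity)
      _ = _ := by ring
  have t5 : (H + 5) / 3 + ((s : ℝ) + 1) / 2 * (x + x / 1000) + s * (x / 1000 * 5) <
      94 / 100 * H := by
    have h6 : (100 : ℝ) * x ≤ s * x := by nlinarith
    have h7 : (100000000 : ℝ) * s ≤ s * x := by nlinarith
    nlinarith
  have t6 : (M : ℝ) * ((H + 5) / 3 + ((s : ℝ) + 1) / 2 * (x + x / 1000) +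
      s * (x / 1000 * 5)) < M * (94 / 100 * H) :=
    mul_lt_mul_of_pos_left t5 (by linarith)
  rw [mul_add, mul_add] at t6
  linarith

theorem num_main : ∃ C : ℝ, 0 < C ∧ ∃ s0 : ℕ, ∀ (s N : ℕ) (H : ℝ), s0 ≤ s →
    s * Real.log s - 2 * s ≤ H → C * (s * Real.log s / Real.log (Real.log s)) < N →
    (N : ℝ) ^ 2 ≤ 4 * ((s : ℝ) + 1) * En N H →
    ∃ M b : ℕ, 0 < b ∧ b ≤ M ∧ 240 ≤ M ∧ M ≤ Nat.clog 2 N ∧
      40 * En N H < ((N : ℝ) / 2 ^ M) ^ 2 ∧
      5200 * s * En N H / (N : ℝ) ^ 2 / eta ^ 2 * ((M / b : ℕ) + 4 ^ b + 1) ≤ M / 12 ∧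
      8 * (5200 * s * En N H / (N : ℝ) ^ 2) ≤ 2 ^ M ∧
      ((M / 3 : ℕ) : ℝ) * (H + Real.log 2 + Real.log 5) +
        ((M * s + 1 : ℕ) : ℝ) / 2 * Real.log ((M * s + 1 : ℕ) : ℝ) +
        ((M * s : ℕ) : ℝ) * (M * Real.log 67) <
      M * (1 - 1 / 20 - 12 * En N H / (N : ℝ) ^ 2) * H := by
  refine ⟨26000 * 240 ^ 16 * 2400, by positivity, ⌈Real.exp (10 ^ 8)⌉₊, ?_⟩
  intro s N H hs0 hH hCN hsq
  have hs1 : Real.exp (10 ^ 8) ≤ s := (Nat.le_ceil _).trans (by exact_mod_cast hs0)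
  have hs0' : (0 : ℝ) < s := lt_of_lt_of_le (Real.exp_pos _) hs1
  have hx0 : 10 ^ 8 ≤ Real.log s := (Real.le_log_iff_exp_le hs0').2 hs1
  set x : ℝ := Real.log s with hx
  have hx1 : (100000000 : ℝ) ≤ x := by
    have : ((10 : ℝ) ^ 8) = 100000000 := by norm_num
    linarith
  have hxpos : 0 < x := by linarith
  have hexpx : Real.exp x = s := Real.exp_log hs0'
  -- `y`
  set l : ℝ := Real.log x with hl
  set y : ℝ := Real.exp (l / 4) with hy
  have hy0 : 0 < y := Real.exp_pos _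
  have hyx : y ^ 4 = x := by
    rw [hy, ← Real.exp_nat_mul]
    have : ((4 : ℕ) : ℝ) * (l / 4) = l := by push_cast; ring
    rw [this, hl, Real.exp_log hxpos]
  have hy1 : 100 ≤ y := by
    by_contra hcon
    rw [not_le] at hcon
    have h1 : y ^ 4 < 100 ^ 4 := pow_lt_pow_left₀ hcon hy0.le (by norm_num)
    rw [hyx] at h1
    norm_num at h1
    linarith
  have hly : l ≤ 4 * y := by
    have h1 : l / 4 + 1 ≤ y := Real.add_one_le_exp _
    linarith
  have hl1 : 1 ≤ l := by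
    rw [hl, Real.le_log_iff_exp_le hxpos]
    have := Real.exp_one_lt_d9
    linarith
  have hy2 : 10000 ≤ y ^ 2 := by nlinarith
  have hy4 : 10000 * y ^ 2 ≤ x := by
    have h1 : 10000 * y ^ 2 ≤ y ^ 2 * y ^ 2 := mul_le_mul_of_nonneg_right hy2 (by positivity)
    rw [← pow_add, hyx] at h1
    exact h1
  have hyy : 100 * y ≤ y ^ 2 := by nlinarith
  have hsx : x ^ 2 / 2 ≤ s := by
    rw [← hexpx]
    have := Real.quadratic_le_exp_of_nonneg hxpos.le
    linarith
  have hsx' : 50000000 * x ≤ s := by nlinarith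
  -- `N`
  have hlx : l ≤ x := by linarith
  have hNlow : 26000 * 240 ^ 16 * 2400 * (s * x) < N * l := by
    have h1 := hCN
    rw [← mul_div_assoc, div_lt_iff₀ (by linarith)] at h1
    linarith
  have hNs : (s : ℝ) ≤ N := by
    by_contra hcon
    rw [not_le] at hcon
    have h1 : (N : ℝ) * l ≤ s * x := mul_le_mul hcon.le hlx (by linarith) hs0'.le
    have h2 : (0 : ℝ) < s * x := by positivity
    norm_num at hNlow
    linarith
  have hNs' : s ≤ N := by exact_mod_cast hNs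
  have hN0 : (0 : ℝ) < N := by linarith
  have hEn := NumA_en s N H hx0 hH hNs' hsq
  rw [← hx] at hEn
  have hEn0 : 0 ≤ En N H := by
    have h1 : 0 ≤ 4 * ((s : ℝ) + 1) * En N H := (sq_nonneg _).trans hsq
    by_contra hcon
    rw [not_le] at hcon
    have h2 : (4 * ((s : ℝ) + 1)) * En N H < 0 := mul_neg_of_pos_of_neg (by positivity) hcon
    linarith
  have hENN : En N H / (N : ℝ) ^ 2 ≤ 5 * x / N := by
    rw [div_le_div_iff₀ (by positivity) hN0]
    calc En N H * N ≤ (5 * N * x) * N := mul_le_mul_of_nonneg_right hEn hN0.le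
      _ = _ := by ring
  -- `Q`
  set Q : ℝ := 5200 * s * En N H / (N : ℝ) ^ 2 with hQ
  have hQ0 : 0 ≤ Q := by positivity
  have hQl : Q ≤ l / (240 ^ 16 * 2400) := by
    have h1 : Q ≤ 26000 * (s * x) / N := by
      have h2 : Q = 5200 * s * (En N H / (N : ℝ) ^ 2) := by rw [hQ]; ring
      rw [h2]
      calc 5200 * s * (En N H / (N : ℝ) ^ 2) ≤ 5200 * s * (5 * x / N) :=
            mul_le_mul_of_nonneg_left hENN (by positivity)
        _ = _ := by ring
    refine h1.trans ?_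
    rw [div_le_div_iff₀ hN0 (by positivity)]
    linarith
  have hq : Q / eta ^ 2 ≤ l / 2400 := by
    have h1 : Q / eta ^ 2 = Q * 240 ^ 16 := by
      unfold eta
      field_simp
    rw [h1]
    calc Q * 240 ^ 16 ≤ l / (240 ^ 16 * 2400) * 240 ^ 16 :=
          mul_le_mul_of_nonneg_right hQl (by positivity)
      _ = l / 2400 := by field_simp
  have hQl' : Q ≤ l / 2400 := by
    refine hQl.trans ?_
    rw [div_le_div_iff₀ (by positivity) (by norm_num)]
    have : (2400 : ℝ) ≤ 240 ^ 16 * 2400 := by norm_num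
    exact mul_le_mul_of_nonneg_left this (by linarith)
  -- `M` and `b`
  set M : ℕ := ⌊x / 1000⌋₊ with hM
  set b : ℕ := ⌈l / 100⌉₊ with hb
  have hM1 : (M : ℝ) ≤ x / 1000 := Nat.floor_le (by positivity)
  have hM2 : x / 1000 < M + 1 := Nat.lt_floor_add_one _
  have hb1 : l / 100 ≤ b := Nat.le_ceil _
  have hb2 : (b : ℝ) < l / 100 + 1 := Nat.ceil_lt_add_one (by positivity)
  have hb0 : 0 < b := Nat.ceil_pos.2 (by positivity)
  have hbr : (0 : ℝ) < b := by exact_mod_cast hb0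
  have hM240 : 240 ≤ M := by
    have : (240 : ℝ) ≤ M := by linarith
    exact_mod_cast this
  have hMr : (240 : ℝ) ≤ M := by exact_mod_cast hM240
  refine ⟨M, b, hb0, ?_, hM240, ?_, ?_, ?_, ?_, ?_⟩
  · have : (b : ℝ) ≤ M := by linarith
    exact_mod_cast this
  · -- `M ≤ clog2 N`
    have h1 : N ≤ 2 ^ Nat.clog 2 N := Nat.le_pow_clog one_lt_two N
    have h2 : Real.log N ≤ (Nat.clog 2 N : ℝ) * Real.log 2 := by
      rw [← Real.log_pow]
      refine Real.log_le_log hN0 ?_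
      exact_mod_cast h1
    have h3 : x ≤ Real.log N := Real.log_le_log hs0' hNs
    have h4 : Real.log 2 ≤ 1 := by
      have := Real.log_le_sub_one_of_pos (show (0 : ℝ) < 2 by norm_num)
      linarith
    have h5 : (Nat.clog 2 N : ℝ) * Real.log 2 ≤ (Nat.clog 2 N : ℝ) * 1 :=
      mul_le_mul_of_nonneg_left h4 (Nat.cast_nonneg _)
    have h6 : (M : ℝ) ≤ (Nat.clog 2 N : ℝ) := by linarith
    exact_mod_cast h6
  · -- `40 En < (N / 2 ^ M) ^ 2`
    have h1 : ((2 : ℝ) ^ M) ^ 2 ≤ Real.exp (x / 500) := by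
      have h2 : ((2 : ℝ) ^ M) ^ 2 = 4 ^ M := by
        rw [← pow_mul, mul_comm, pow_mul]
        norm_num
      have h3 : (4 : ℝ) ≤ Real.exp 2 := by
        have := Real.quadratic_le_exp_of_nonneg (show (0 : ℝ) ≤ 2 by norm_num)
        linarith
      rw [h2]
      calc (4 : ℝ) ^ M ≤ Real.exp 2 ^ M := pow_le_pow_left₀ (by norm_num) h3 M
        _ = Real.exp (M * 2) := by rw [← Real.exp_nat_mul]
        _ ≤ Real.exp (x / 500) := Real.exp_le_exp.2 (by linarith)
    have h2 : 200 * x * Real.exp (x / 500) < s := by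
      have h3 : Real.exp (x / 500) ≤ Real.exp (x / 2) := Real.exp_le_exp.2 (by linarith)
      have h4 : 200 * x < Real.exp (x / 2) := by
        have := Real.quadratic_le_exp_of_nonneg (show 0 ≤ x / 2 by positivity)
        nlinarith
      have h5 : Real.exp (x / 2) * Real.exp (x / 2) = s := by
        rw [← Real.exp_add, add_halves, hexpx]
      rw [← h5]
      have h6 : 0 < Real.exp (x / 500) := Real.exp_pos _
      calc 200 * x * Real.exp (x / 500) < Real.exp (x / 2) * Real.exp (x / 500) :=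
            mul_lt_mul_of_pos_right h4 h6
        _ ≤ _ := mul_le_mul_of_nonneg_left h3 (Real.exp_pos _).le
    rw [div_pow, lt_div_iff₀ (by positivity)]
    calc 40 * En N H * ((2 : ℝ) ^ M) ^ 2 ≤ 40 * (5 * N * x) * Real.exp (x / 500) :=
          mul_le_mul (by linarith) h1 (by positivity) (by positivity)
      _ = (200 * x * Real.exp (x / 500)) * N := by ring
      _ < s * N := mul_lt_mul_of_pos_right h2 hN0
      _ ≤ N * N := mul_le_mul_of_nonneg_right hNs hN0.le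
      _ = (N : ℝ) ^ 2 := by ring
  · -- the degree
    have h1 : ((M / b : ℕ) : ℝ) ≤ (M : ℝ) / b := Nat.cast_div_le
    have h2 : (4 : ℝ) ^ b ≤ 8 * y := by
      have h3 : (4 : ℝ) ≤ Real.exp 2 := by
        have := Real.quadratic_le_exp_of_nonneg (show (0 : ℝ) ≤ 2 by norm_num)
        linarith
      have h4 : Real.exp 2 ≤ 8 := by
        have h5 : Real.exp 2 = Real.exp 1 ^ 2 := by
          rw [← Real.exp_nat_mul]
          norm_num
        have h6 := Real.exp_one_lt_d9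
        rw [h5]
        nlinarith [Real.exp_pos 1]
      calc (4 : ℝ) ^ b ≤ Real.exp 2 ^ b := pow_le_pow_left₀ (by norm_num) h3 b
        _ = Real.exp (b * 2) := by rw [← Real.exp_nat_mul]
        _ ≤ Real.exp (2 + l / 4) := Real.exp_le_exp.2 (by linarith)
        _ = Real.exp 2 * y := by rw [Real.exp_add]
        _ ≤ 8 * y := mul_le_mul_of_nonneg_right h4 hy0.le
    have h3 : Q / eta ^ 2 * ((M / b : ℕ) : ℝ) ≤ M / 24 := by
      have h4 : Q / eta ^ 2 ≤ b / 24 := by linarith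
      calc Q / eta ^ 2 * ((M / b : ℕ) : ℝ) ≤ (b : ℝ) / 24 * ((M : ℝ) / b) :=
            mul_le_mul h4 h1 (Nat.cast_nonneg _) (by positivity)
        _ = M / 24 := by field_simp
    have h4 : Q / eta ^ 2 * ((4 : ℝ) ^ b + 1) ≤ M / 24 := by
      have h5 : Q / eta ^ 2 ≤ 4 * y / 2400 := by linarith
      calc Q / eta ^ 2 * ((4 : ℝ) ^ b + 1) ≤ (4 * y / 2400) * (9 * y) :=
            mul_le_mul h5 (by linarith) (by positivity) (by positivity)
        _ = 3 / 200 * y ^ 2 := by ring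
        _ ≤ M / 24 := by linarith
    have h5 : Q / eta ^ 2 * (((M / b : ℕ) : ℝ) + 4 ^ b + 1) =
        Q / eta ^ 2 * ((M / b : ℕ) : ℝ) + Q / eta ^ 2 * ((4 : ℝ) ^ b + 1) := by ring
    rw [h5]
    linarith
  · -- `8 Q ≤ 2 ^ M`
    have h1 : (M : ℝ) < 2 ^ M := by exact_mod_cast Nat.lt_two_pow_self
    linarith
  · have h1 : 12 * En N H / (N : ℝ) ^ 2 = 12 * (En N H / (N : ℝ) ^ 2) := by ring
    rw [h1]
    refine NumA_last s M H (En N H / (N : ℝ) ^ 2) x y rfl (by linarith) (by linarith) hy1 hyx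
      hly hM240 hM1 hH ?_
    have h2 : 5 * x / N ≤ 1 / 1200 := by
      rw [div_le_div_iff₀ hN0 (by norm_num)]
      linarith
    linarith

end Pool.Agent.Ppr
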