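import Pool.Agent.Ppr.NumA

/-!
# The numerical end

`En N H = N (clog2 N + 1) + 3 N^2 / H`.
`num_main`. Let `C` be large and `s` large. From `hsq`: `N^2 ≤ 4(s+1)(N(clog2 N+1) + 3N^2/H)` and
`H ≥ s log s - 2s ≥ 24 (s+1)` we get `N ≤ 8 (s+1)(clog2 N + 1)`, hence `N ≤ s^2`, and
`N ≤ 100 s log s`. Then `3 N^2/H ≤ 1000 N` (as `H ≥ (1/2) s log s`), so with
`clog2 N ≤ 4 log s`: `En ≤ 1010 N log s`. Since `N ≥ C s log s / log log s ≥ s` we have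
`Q := 5200 s En / N^2 ≤ 6·10^6 s log s/N ≤ (6·10^6/C) log log s`. Put `q = Q/eta^2` and choose `C`
such that `q ≤ (1/200) log log s`. `M = ⌊c log s⌋` with a small absolute constant `c`
(`c = 1/1000`), `b = ⌈24 q⌉ + 1`. Then `M ≤ clog2 N` (`N ≥ s`); `40 En < (N/2^M)^2` because
`4^M ≤ s^(1/500)` and `N ≥ s`, `En ≤ 1010 N log s`; `q (M/b) ≤ M/24`; `4^b ≤ 4^2 4^(24 q)
≤ 16 (log s)^(24 · 1.4/200) ≤ 16 (log s)^(1/4)`, so `q (4^b + 1) ≤ log log s · 17 (log s)^(1/4)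
≤ M/24`; `8Q ≤ 2^M`. The last inequality: `En/N^2 ≤ 1010 log s/N → 0`; `M/3 ≤ M·(1/3)`,
`(Ms+1)/2 · log(Ms+1) ≤ (Ms/2)(log s + log M + 1) + …`, `M s · M log 67 ≤ 4.21 c M s log s`, and
`H ≥ s log s - 2 s`: it is enough that `(19/20 - 1/3 - o(1)) > 1/2 + 4.21 c + o(1)`:
`0.6166 > 0.5043`.
`num_small`: for `3 ≤ s ≤ s0`: if `H ≥ 24 (s+1)` then `N ≤ 8(s+1)(clog2 N + 1)` bounds `N`;
otherwise `N ≤ 11 · 2 · exp(24 (s0+1))`.
-/

namespace Pool.Agent.Ppr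

theorem num_small (s0 : ℕ) : ∃ B : ℝ, ∀ (s N : ℕ) (H : ℝ), s ≤ s0 → 0 < H →
    (N : ℝ) ^ 2 ≤ 4 * ((s : ℝ) + 1) * En N H → (N : ℝ) ≤ 11 * (2 * Real.exp H) →
    (N : ℝ) ≤ B := by
  refine ⟨(40 * ((s0 : ℝ) + 1)) ^ 2 + 11 * (2 * Real.exp (24 * ((s0 : ℝ) + 1))), ?_⟩
  intro s N H hs hH hsq hN
  have hB1 : 0 ≤ (40 * ((s0 : ℝ) + 1)) ^ 2 := sq_nonneg _
  have hB2 : 0 ≤ 11 * (2 * Real.exp (24 * ((s0 : ℝ) + 1))) := by positivity
  have hsr : (s : ℝ) ≤ s0 := by exact_mod_cast hs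
  have hs0 : (0 : ℝ) ≤ s := Nat.cast_nonneg _
  rcases lt_or_ge H (24 * ((s0 : ℝ) + 1)) with h | h
  · have h1 : Real.exp H ≤ Real.exp (24 * ((s0 : ℝ) + 1)) := Real.exp_le_exp.2 h.le
    linarith
  suffices hmain : (N : ℝ) ≤ (40 * ((s0 : ℝ) + 1)) ^ 2 by linarith
  rcases Nat.eq_zero_or_pos N with h0 | h0
  · rw [h0, Nat.cast_zero]
    exact hB1
  have hN1 : (1 : ℝ) ≤ N := by exact_mod_cast h0
  have hN0 : (0 : ℝ) < N := by linarith
  set k : ℕ := Nat.clog 2 N with hk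
  have hEn : En N H = N * ((k : ℝ) + 1) + 3 / H * (N : ℝ) ^ 2 := rfl
  have h1 : 4 * ((s : ℝ) + 1) * (3 / H * (N : ℝ) ^ 2) ≤ (N : ℝ) ^ 2 / 2 := by
    have h2 : 12 * ((s : ℝ) + 1) / H ≤ 1 / 2 := by
      rw [div_le_iff₀ hH]
      linarith
    calc 4 * ((s : ℝ) + 1) * (3 / H * (N : ℝ) ^ 2)
        = (12 * ((s : ℝ) + 1) / H) * (N : ℝ) ^ 2 := by ring
      _ ≤ 1 / 2 * (N : ℝ) ^ 2 := mul_le_mul_of_nonneg_right h2 (by positivity)
      _ = _ := by ring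
  have h3 : (N : ℝ) ≤ 8 * ((s : ℝ) + 1) * ((k : ℝ) + 1) := by
    rw [hEn, mul_add] at hsq
    have h4 : (N : ℝ) * N ≤ (8 * ((s : ℝ) + 1) * ((k : ℝ) + 1)) * N := by nlinarith
    exact le_of_mul_le_mul_right h4 hN0
  have hlog2 : (0.6931471803 : ℝ) < Real.log 2 := Real.log_two_gt_d9
  have hkN : ((k : ℝ) - 1) * Real.log 2 ≤ Real.log N := by
    rcases Nat.eq_zero_or_pos k with h5 | h5
    · rw [h5, Nat.cast_zero]
      have : 0 ≤ Real.log N := Real.log_nonneg hN1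
      linarith
    · have hN2 : 1 < N := by
        by_contra hcon
        have h6 : N = 1 := by omega
        rw [hk, h6, Nat.clog_one_right] at h5
        exact lt_irrefl _ h5
      have h4 : 2 ^ (k - 1) < N := Nat.pow_pred_clog_lt_self one_lt_two hN2
      have h6 : ((k - 1 : ℕ) : ℝ) * Real.log 2 ≤ Real.log N := by
        rw [← Real.log_pow]
        refine Real.log_le_log (by positivity) ?_
        exact_mod_cast h4.le
      rw [Nat.cast_sub h5, Nat.cast_one] at h6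
      exact h6
  have hlogN0 : 0 ≤ Real.log N := Real.log_nonneg hN1
  have hk1 : (k : ℝ) + 1 ≤ 2 + 3 / 2 * Real.log N := by
    by_contra hcon
    rw [not_le] at hcon
    have h4 : 3 / 2 * Real.log N < (k : ℝ) - 1 := by linarith
    nlinarith
  set r : ℝ := √(N : ℝ) with hr
  have hrr : r * r = N := Real.mul_self_sqrt hN0.le
  have hr1 : 1 ≤ r := by
    by_contra hcon
    rw [not_le] at hcon
    have : 0 ≤ r := Real.sqrt_nonneg _
    nlinarith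
  have hr0 : 0 < r := by linarith
  have hlogr : Real.log N = 2 * Real.log r := by
    rw [← hrr, Real.log_mul hr0.ne' hr0.ne']
    ring
  have hlogr2 : Real.log r ≤ r - 1 := Real.log_le_sub_one_of_pos hr0
  have h4 : (k : ℝ) + 1 ≤ 5 * r := by linarith
  have h5 : r * r ≤ (40 * ((s : ℝ) + 1)) * r := by
    rw [hrr]
    refine h3.trans ?_
    calc 8 * ((s : ℝ) + 1) * ((k : ℝ) + 1) ≤ 8 * ((s : ℝ) + 1) * (5 * r) :=
          mul_le_mul_of_nonneg_left h4 (by positivity)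
      _ = _ := by ring
  have h6 : r ≤ 40 * ((s0 : ℝ) + 1) := by
    have := le_of_mul_le_mul_right h5 hr0
    linarith
  calc (N : ℝ) = r ^ 2 := by rw [← hrr]; ring
    _ ≤ (40 * ((s0 : ℝ) + 1)) ^ 2 := pow_le_pow_left₀ hr0.le h6 2

end Pool.Agent.Ppr
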