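import Pool.Agent.Ppr.SepDef
import Pool.Agent.Ppr.Bnd

/-!
# Separators: a form that vanishes at the cusp `w'` and is a unit at the cusp `w0`

`Good`: the conclusion. Four cases:
`sep_sub`: `G = (Y_i - Y_j)^k`, `w0 i ≠ w0 j`, the `b` first letters of `i`, `j` in `w'` agree,
`M ≤ k b`. On `w0`: `Y_i - Y_j = ±2 + (norm ≤ 1/15)`, inverse of norm `≤ 1/(2 - 1/15) ≤ 1`.
`sep_add`: `G = (Y_i + Y_j)^k`, `w0 i = w0 j`, `w' i ≠ w' j`, the letters `1..b-1` agree.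
`sep_quad`: `a`, `b` with the `w'`-windows `+^M`, `-^M` and `w0 a = w0 b`; `i`, `j` with
`w0 (σ i) ≠ w0 (σ j)`; `G = Y_i^2 - Y_j^2 - (Y_a + Y_b)(Y_(σ i) - Y_(σ j))`. On `w'`:
`Y_a + Y_b = 4X mod X^M` (`YR_fixed`, `YR_dvd_sub`) and `Y_i^2 - Y_j^2 = 4X (Y_(σi) - Y_(σj))`.
On `w0`: constant term `∓4`; `Y_i^2 - Y_j^2 = 4X(..)` has norm `≤ (1/16)(31/15)`, the product
differs from `±4` by at most `4 (1/30 + 1/30 + 1/900)`; total `< 1`; inverse of norm `≤ 1/3`.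
`sep_cycle`: the periodic words `u ≠ u'` of period `n`, `a`, `b` with `w'`-windows `+^M`, `-^M`
and `w0 a ≠ w0 b`; `i_k`, `i'_k` with `w'`-windows the first `M` letters of `sh^k u`, `sh^k u'`,
`w0 (i_k) = w0 (i'_k)`. `G = ∏ (Y_(i_k) + Y_(i'_k)) - (Y_a + Y_b)^n`. On `w'`: `YR_cycle`,
`YR_fixed`. On `w0`: `P = ∏(..)` has an inverse of norm `≤ (1/(2-1/15))^n`, `Y_a + Y_b` has norm
`≤ 1/15`, so `R = (Y_a+Y_b)^n P⁻¹` has norm `≤ 1/29`, the inverse is `P⁻¹ (1 - R)⁻¹`.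
`eps σ w G` has norm `≤ 5^deg` at every word: `31/15 ≤ 5`; `1/16 · 31/15 + (31/15)^2 ≤ 25`;
`2 (31/15)^n ≤ 5^n`.
-/

namespace Pool.Agent.Ppr

open PowerSeries

variable {ι : Type} {σ : ι → ι} {M : ℕ} {w0 w' : ι → Bool}

/-- a power of a form of degree `1` that is close to `±2` at the cusp `w0` -/
private theorem sepA_core {L : MvPolynomial ι ℝ} {b k : ℕ} {a : ℝ} (hL : L.IsHomogeneous 1)
    (h1 : X ^ b ∣ eps σ w' L) (hM : M ≤ k * b) (ha : |a| = 2)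
    (h2 : ∀ M : ℕ, nrm M (eps σ w0 L - C a) ≤ 1 / 15)
    (h3 : ∀ w : ι → Bool, nrm M (eps σ w L) ≤ 5) : IsSep σ M w0 w' k (L ^ k) := by
  refine ⟨?_, ?_, ?_, ?_⟩
  · have h := hL.pow k
    rwa [one_mul] at h
  · rw [map_pow]
    have h4 : (X : PowerSeries ℝ) ^ (b * k) ∣ (eps σ w' L) ^ k := by
      rw [pow_mul]
      exact pow_dvd_pow_of_dvd h1 k
    exact (pow_dvd_pow X (by rw [mul_comm b k]; exact hM)).trans h4
  · have hne : constantCoeff (eps σ w0 L) ≠ 0 :=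
      const_ne_zero one_pos (h2 1) (by rw [ha]; norm_num)
    obtain ⟨g, hg⟩ := exists_inv hne
    refine ⟨g ^ k, ?_, ?_⟩
    · rw [map_pow, ← mul_pow, hg, one_pow]
    · have h5 : nrm M g ≤ 1 := by
        refine (nrm_inv_le (h2 M) (by rw [ha]; norm_num) hg).trans ?_
        rw [ha]
        norm_num
      exact (nrm_pow_le M k g).trans (pow_le_one₀ (nrm_nonneg M g) h5)
  · intro w
    rw [map_pow]
    exact (nrm_pow_le M k _).trans (pow_le_pow_left₀ (nrm_nonneg M _) (h3 w) k)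

private theorem sepA_eps_X (w : ι → Bool) (i : ι) :
    eps σ w (MvPolynomial.X i) = YR (ow σ w i) := by
  rw [eps, MvPolynomial.aeval_X]

theorem sep_sub {b k : ℕ} {i j : ι} (h0 : w0 i ≠ w0 j) (h : agr σ w' b i j) (hM : M ≤ k * b) :
    IsSep σ M w0 w' k ((MvPolynomial.X i - MvPolynomial.X j) ^ k) := by
  refine sepA_core (b := b) (a := ((sg (w0 i) : ℤ) : ℝ) - ((sg (w0 j) : ℤ) : ℝ)) ?_ ?_ hM ?_ ?_ ?_
  · exact (MvPolynomial.isHomogeneous_X ℝ i).sub (MvPolynomial.isHomogeneous_X ℝ j)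
  · rw [map_sub, sepA_eps_X, sepA_eps_X]
    exact YR_dvd_sub h
  · revert h0
    cases w0 i <;> cases w0 j <;> norm_num [sg]
  · intro N
    have h1 := nrm_YR_sub N (ow σ w0 i)
    have h2 := nrm_YR_sub N (ow σ w0 j)
    have h3 : eps σ w0 (MvPolynomial.X i - MvPolynomial.X j) -
        C (((sg (w0 i) : ℤ) : ℝ) - ((sg (w0 j) : ℤ) : ℝ)) =
        (YR (ow σ w0 i) - C ((sg (ow σ w0 i 0) : ℤ) : ℝ)) -
        (YR (ow σ w0 j) - C ((sg (ow σ w0 j 0) : ℤ) : ℝ)) := by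
      rw [map_sub, sepA_eps_X, sepA_eps_X, map_sub]
      simp only [ow, Function.iterate_zero, id_eq]
      ring
    rw [h3]
    refine (nrm_sub_le N _ _).trans ?_
    linarith
  · intro w
    rw [map_sub, sepA_eps_X, sepA_eps_X]
    have h1 := nrm_YR_le M (ow σ w i)
    have h2 := nrm_YR_le M (ow σ w j)
    refine (nrm_sub_le M _ _).trans ?_
    linarith

theorem sep_add {b k : ℕ} {i j : ι} (h0 : w0 i = w0 j) (h1 : w' i ≠ w' j)
    (h : ∀ l, 0 < l → l < b → w' (σ^[l] i) = w' (σ^[l] j)) (hM : M ≤ k * b) :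
    IsSep σ M w0 w' k ((MvPolynomial.X i + MvPolynomial.X j) ^ k) := by
  refine sepA_core (b := b) (a := ((sg (w0 i) : ℤ) : ℝ) + ((sg (w0 j) : ℤ) : ℝ)) ?_ ?_ hM ?_ ?_ ?_
  · exact (MvPolynomial.isHomogeneous_X ℝ i).add (MvPolynomial.isHomogeneous_X ℝ j)
  · rw [map_add, sepA_eps_X, sepA_eps_X]
    exact YR_dvd_add h1 h
  · rw [h0]
    cases w0 j <;> norm_num [sg]
  · intro N
    have h1 := nrm_YR_sub N (ow σ w0 i)
    have h2 := nrm_YR_sub N (ow σ w0 j)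
    have h3 : eps σ w0 (MvPolynomial.X i + MvPolynomial.X j) -
        C (((sg (w0 i) : ℤ) : ℝ) + ((sg (w0 j) : ℤ) : ℝ)) =
        (YR (ow σ w0 i) - C ((sg (ow σ w0 i 0) : ℤ) : ℝ)) +
        (YR (ow σ w0 j) - C ((sg (ow σ w0 j 0) : ℤ) : ℝ)) := by
      rw [map_add, sepA_eps_X, sepA_eps_X, map_add]
      simp only [ow, Function.iterate_zero, id_eq]
      ring
    rw [h3]
    refine (nrm_add_le N _ _).trans ?_
    linarith
  · intro w
    rw [map_add, sepA_eps_X, sepA_eps_X]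
    have h1 := nrm_YR_le M (ow σ w i)
    have h2 := nrm_YR_le M (ow σ w j)
    refine (nrm_add_le M _ _).trans ?_
    linarith

end Pool.Agent.Ppr
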