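import Pool.Agent.Ppr.SepDef
import Pool.Agent.Ppr.Bnd

/-!
# Separators: a form that vanishes at the cusp `w'` and is a unit at the cusp `w0`

`Good`: the conclusion. Four cases:
`sep_sub`: `G = (Y_i - Y_j)^k`, `w0 i ≠ w0 j`, the `b` first letters of `i`, `j` in `w'` agree,
`M ≤ k b`. On `w0`: `Y_i - Y_j = ±2 + (norm ≤ 1/15)`, inverse of norm `≤ 1/(2 - 1/15) ≤ 1`.
`sep_add`: `G = (Y_i + Y_j)^k`, `w0 i = w0 j`, `w' i ≠ w' j`, the letters `1..b-1` agree.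
`sep_quad`: `a`, `b` with the `w'`-windows `+^M`, `-^M` and `w0 a = w0 b`; `i`, `j` with
`w0 (σ i) ≠ w0 (σ j)`; `G = Y_i^2 - Y_j^2 - (Y_a + Y_b)(Y_(σ i) - Y_(σ j))`. On `w'`:
`Y_a + Y_b = 4X mod X^M` (`YR_fixed`, `YR_dvd_sub`) and `Y_i^2 - Y_j^2 = 4X (Y_(σi) - Y_(σj))`.
On `w0`: constant term `∓4`; `Y_i^2 - Y_j^2 = 4X(..)` has norm `≤ (1/16)(31/15)`, the product
differs from `±4` by at most `4 (1/30 + 1/30 + 1/900)`; total `< 1`; inverse of norm `≤ 1/3`.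
`sep_cycle`: the periodic words `u ≠ u'` of period `n`, `a`, `b` with `w'`-windows `+^M`, `-^M`
and `w0 a ≠ w0 b`; `i_k`, `i'_k` with `w'`-windows the first `M` letters of `sh^k u`, `sh^k u'`,
`w0 (i_k) = w0 (i'_k)`. `G = ∏ (Y_(i_k) + Y_(i'_k)) - (Y_a + Y_b)^n`. On `w'`: `YR_cycle`,
`YR_fixed`. On `w0`: `P = ∏(..)` has an inverse of norm `≤ (1/(2-1/15))^n`, `Y_a + Y_b` has norm
`≤ 1/15`, so `R = (Y_a+Y_b)^n P⁻¹` has norm `≤ 1/29`, the inverse is `P⁻¹ (1 - R)⁻¹`.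
`eps σ w G` has norm `≤ 5^deg` at every word: `31/15 ≤ 5`; `1/16 · 31/15 + (31/15)^2 ≤ 25`;
`2 (31/15)^n ≤ 5^n`.
-/

namespace Pool.Agent.Ppr

open PowerSeries

variable {ι : Type} {σ : ι → ι} {M : ℕ} {w0 w' : ι → Bool}

private theorem sh_ow_SepB (w : ι → Bool) (i : ι) : sh (ow σ w i) = ow σ w (σ i) := by
  funext k
  simp only [sh, ow, Function.iterate_succ_apply]

private theorem eps_X_SepB (w : ι → Bool) (i : ι) :
    eps σ w (MvPolynomial.X i) = YR (ow σ w i) := by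
  simp [eps]

private theorem eps_quad_SepB (w : ι → Bool) (a b i j : ι) :
    eps σ w (MvPolynomial.X i ^ 2 - MvPolynomial.X j ^ 2 -
      (MvPolynomial.X a + MvPolynomial.X b) *
        (MvPolynomial.X (σ i) - MvPolynomial.X (σ j))) =
    (4 * X - (YR (ow σ w a) + YR (ow σ w b))) *
      (YR (ow σ w (σ i)) - YR (ow σ w (σ j))) := by
  simp only [map_sub, map_mul, map_add, map_pow, eps_X_SepB]
  rw [YR_sq, YR_sq, sh_ow_SepB, sh_ow_SepB]
  ring

private theorem nrm_four_X_SepB (M : ℕ) : nrm M (4 * X : PowerSeries ℝ) ≤ 1 / 16 := by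
  have h : (4 * X : PowerSeries ℝ) = C 4 * X ^ 1 := by
    rw [pow_one, map_ofNat]
  have h2 := nrm_X_pow_le M 1
  rw [h, nrm_C_mul]
  rw [abs_of_nonneg (by norm_num : (0 : ℝ) ≤ 4)]
  rw [pow_one] at h2 ⊢
  linarith

private theorem nrm_add_SepB (M : ℕ) (w : ι → Bool) (a b : ι) :
    nrm M (YR (ow σ w a) + YR (ow σ w b)) ≤ 31 / 15 := by
  have h1 := nrm_add_le M (YR (ow σ w a)) (YR (ow σ w b))
  have h2 := nrm_YR_le M (ow σ w a)
  have h3 := nrm_YR_le M (ow σ w b)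
  linarith

private theorem nrm_sub_SepB (M : ℕ) (w : ι → Bool) (a b : ι) :
    nrm M (YR (ow σ w a) - YR (ow σ w b)) ≤ 31 / 15 := by
  have h1 := nrm_sub_le M (YR (ow σ w a)) (YR (ow σ w b))
  have h2 := nrm_YR_le M (ow σ w a)
  have h3 := nrm_YR_le M (ow σ w b)
  linarith

private theorem dvd_SepB {M : ℕ} {w' : ι → Bool} {a b : ι} (ha : ∀ k < M, w' (σ^[k] a) = true)
    (hb : ∀ k < M, w' (σ^[k] b) = false) :
    X ^ M ∣ (4 * X - (YR (ow σ w' a) + YR (ow σ w' b)) : PowerSeries ℝ) := by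
  have h1 : X ^ M ∣ YR (ow σ w' a) - YR (fun _ => true) :=
    YR_dvd_sub fun k hk => ha k hk
  have h2 : X ^ M ∣ YR (ow σ w' b) - YR (fun _ => false) :=
    YR_dvd_sub fun k hk => hb k hk
  have h3 : (4 * X - (YR (ow σ w' a) + YR (ow σ w' b)) : PowerSeries ℝ) =
      -((YR (ow σ w' a) - YR (fun _ => true)) + (YR (ow σ w' b) - YR (fun _ => false))) := by
    rw [← YR_fixed]
    ring
  rw [h3]
  exact (dvd_add h1 h2).neg_right

private theorem abs_sg_SepB (b : Bool) : |((sg b : ℤ) : ℝ)| = 1 := by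
  cases b <;> simp [sg]

private theorem sg_ne_SepB {b c : Bool} (h : b ≠ c) : ((sg c : ℤ) : ℝ) = -((sg b : ℤ) : ℝ) := by
  cases b <;> cases c <;> simp_all [sg]

private theorem close_SepB {w0 : ι → Bool} {a b i j : ι} (hab : w0 a = w0 b)
    (hij : w0 (σ i) ≠ w0 (σ j)) (M : ℕ) :
    nrm M ((4 * X - (YR (ow σ w0 a) + YR (ow σ w0 b))) *
      (YR (ow σ w0 (σ i)) - YR (ow σ w0 (σ j))) -
        C (-(2 * ((sg (w0 a) : ℤ) : ℝ) * (2 * ((sg (w0 (σ i)) : ℤ) : ℝ))))) ≤ 1 := by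
  have ha := nrm_YR_sub M (ow σ w0 a)
  have hb := nrm_YR_sub M (ow σ w0 b)
  have hi := nrm_YR_sub M (ow σ w0 (σ i))
  have hj := nrm_YR_sub M (ow σ w0 (σ j))
  have ea : ow σ w0 a 0 = w0 a := rfl
  have eb : ow σ w0 b 0 = w0 a := hab.symm
  have ei : ow σ w0 (σ i) 0 = w0 (σ i) := rfl
  have ej : ow σ w0 (σ j) 0 = w0 (σ j) := rfl
  rw [ea] at ha
  rw [eb] at hb
  rw [ei] at hi
  rw [ej, sg_ne_SepB hij] at hj
  have hs := abs_sg_SepB (w0 a)
  have ht := abs_sg_SepB (w0 (σ i))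
  have hB := nrm_sub_SepB (σ := σ) M w0 (σ i) (σ j)
  generalize ((sg (w0 a) : ℤ) : ℝ) = s at *
  generalize ((sg (w0 (σ i)) : ℤ) : ℝ) = t at *
  generalize YR (ow σ w0 a) = A at *
  generalize YR (ow σ w0 b) = B at *
  generalize YR (ow σ w0 (σ i)) = I at *
  generalize YR (ow σ w0 (σ j)) = J at *
  have h1 : nrm M (A + B - C (2 * s)) ≤ 1 / 15 := by
    have h : A + B - C (2 * s) = (A - C s) + (B - C s) := by
      rw [two_mul, map_add]
      ring
    rw [h]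
    have := nrm_add_le M (A - C s) (B - C s)
    linarith
  have h2 : nrm M (I - J - C (2 * t)) ≤ 1 / 15 := by
    have h : I - J - C (2 * t) = (I - C t) - (J - C (-t)) := by
      rw [two_mul, map_add, map_neg]
      ring
    rw [h]
    have := nrm_sub_le M (I - C t) (J - C (-t))
    linarith
  have h3 : (4 * X - (A + B)) * (I - J) - C (-(2 * s * (2 * t))) =
      4 * X * (I - J) - ((A + B - C (2 * s)) * (I - J - C (2 * t)) +
        (C (2 * s) * (I - J - C (2 * t)) + C (2 * t) * (A + B - C (2 * s)))) := by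
    rw [map_neg, map_mul C (2 * s) (2 * t)]
    ring
  rw [h3]
  have n1 := nrm_sub_le M (4 * X * (I - J)) ((A + B - C (2 * s)) * (I - J - C (2 * t)) +
        (C (2 * s) * (I - J - C (2 * t)) + C (2 * t) * (A + B - C (2 * s))))
  have n2 := nrm_add_le M ((A + B - C (2 * s)) * (I - J - C (2 * t)))
        (C (2 * s) * (I - J - C (2 * t)) + C (2 * t) * (A + B - C (2 * s)))
  have n3 := nrm_add_le M (C (2 * s) * (I - J - C (2 * t))) (C (2 * t) * (A + B - C (2 * s)))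
  rw [nrm_C_mul, nrm_C_mul, abs_mul, abs_mul, hs, ht,
    abs_of_nonneg (by norm_num : (0 : ℝ) ≤ 2)] at n3
  have n4 := nrm_mul_le M (4 * X) (I - J)
  have n5 := nrm_mul_le M (A + B - C (2 * s)) (I - J - C (2 * t))
  have n6 : nrm M (4 * X : PowerSeries ℝ) * nrm M (I - J) ≤ 1 / 16 * (31 / 15) :=
    mul_le_mul (nrm_four_X_SepB M) hB (nrm_nonneg _ _) (by norm_num)
  have n7 : nrm M (A + B - C (2 * s)) * nrm M (I - J - C (2 * t)) ≤ 1 / 15 * (1 / 15) :=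
    mul_le_mul h1 h2 (nrm_nonneg _ _) (by norm_num)
  linarith

theorem sep_quad {a b i j : ι} (ha : ∀ k < M, w' (σ^[k] a) = true)
    (hb : ∀ k < M, w' (σ^[k] b) = false) (hab : w0 a = w0 b) (hij : w0 (σ i) ≠ w0 (σ j)) :
    IsSep σ M w0 w' 2 (MvPolynomial.X i ^ 2 - MvPolynomial.X j ^ 2 -
      (MvPolynomial.X a + MvPolynomial.X b) *
        (MvPolynomial.X (σ i) - MvPolynomial.X (σ j))) := by
  refine ⟨?_, ?_, ?_, ?_⟩
  · have hX : ∀ l : ι, (MvPolynomial.X l : MvPolynomial ι ℝ).IsHomogeneous 1 :=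
      fun l => MvPolynomial.isHomogeneous_X ℝ l
    have h1 : ∀ l : ι, (MvPolynomial.X l ^ 2 : MvPolynomial ι ℝ).IsHomogeneous 2 := by
      intro l
      have := (hX l).pow 2
      simpa using this
    have h2 : ((MvPolynomial.X a + MvPolynomial.X b) *
        (MvPolynomial.X (σ i) - MvPolynomial.X (σ j)) : MvPolynomial ι ℝ).IsHomogeneous 2 :=
      ((hX a).add (hX b)).mul ((hX (σ i)).sub (hX (σ j)))
    exact ((h1 i).sub (h1 j)).sub h2
  · rw [eps_quad_SepB]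
    exact (dvd_SepB ha hb).mul_right _
  · rw [eps_quad_SepB]
    have hc : |-(2 * ((sg (w0 a) : ℤ) : ℝ) * (2 * ((sg (w0 (σ i)) : ℤ) : ℝ)))| = 4 := by
      rw [abs_neg, abs_mul, abs_mul, abs_mul, abs_sg_SepB, abs_sg_SepB,
        abs_of_nonneg (by norm_num : (0 : ℝ) ≤ 2)]
      norm_num
    have h1 := close_SepB (σ := σ) hab hij
    obtain ⟨g, hg⟩ := exists_inv (const_ne_zero one_pos (h1 1) (by rw [hc]; norm_num))
    refine ⟨g, hg, ?_⟩
    have h2 := nrm_inv_le (h1 M) (by rw [hc]; norm_num) hg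
    rw [hc] at h2
    linarith
  · intro w
    rw [eps_quad_SepB]
    have h1 := nrm_mul_le M (4 * X - (YR (ow σ w a) + YR (ow σ w b)))
      (YR (ow σ w (σ i)) - YR (ow σ w (σ j)))
    have h2 := nrm_sub_le M (4 * X) (YR (ow σ w a) + YR (ow σ w b))
    have h3 := nrm_four_X_SepB M
    have h4 := nrm_add_SepB (σ := σ) M w a b
    have h5 := nrm_sub_SepB (σ := σ) M w (σ i) (σ j)
    have h6 : nrm M (4 * X - (YR (ow σ w a) + YR (ow σ w b))) *
        nrm M (YR (ow σ w (σ i)) - YR (ow σ w (σ j))) ≤ 5 * 5 :=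
      mul_le_mul (by linarith) (by linarith) (nrm_nonneg _ _) (by norm_num)
    linarith

end Pool.Agent.Ppr
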