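import Pool.Agent.Ppr.SepDef
import Pool.Agent.Ppr.Bnd

/-!
# Separators: a form that vanishes at the cusp `w'` and is a unit at the cusp `w0`

`Good`: the conclusion. Four cases:
`sep_sub`: `G = (Y_i - Y_j)^k`, `w0 i ≠ w0 j`, the `b` first letters of `i`, `j` in `w'` agree,
`M ≤ k b`. On `w0`: `Y_i - Y_j = ±2 + (norm ≤ 1/15)`, inverse of norm `≤ 1/(2 - 1/15) ≤ 1`.
`sep_add`: `G = (Y_i + Y_j)^k`, `w0 i = w0 j`, `w' i ≠ w' j`, the letters `1..b-1` agree.
`sep_quad`: `a`, `b` with the `w'`-windows `+^M`, `-^M` and `w0 a = w0 b`; `i`, `j` with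
`w0 (σ i) ≠ w0 (σ j)`; `G = Y_i^2 - Y_j^2 - (Y_a + Y_b)(Y_(σ i) - Y_(σ j))`. On `w'`:
`Y_a + Y_b = 4X mod X^M` (`YR_fixed`, `YR_dvd_sub`) and `Y_i^2 - Y_j^2 = 4X (Y_(σi) - Y_(σj))`.
On `w0`: constant term `∓4`; `Y_i^2 - Y_j^2 = 4X(..)` has norm `≤ (1/16)(31/15)`, the product
differs from `±4` by at most `4 (1/30 + 1/30 + 1/900)`; total `< 1`; inverse of norm `≤ 1/3`.
`sep_cycle`: the periodic words `u ≠ u'` of period `n`, `a`, `b` with `w'`-windows `+^M`, `-^M`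
and `w0 a ≠ w0 b`; `i_k`, `i'_k` with `w'`-windows the first `M` letters of `sh^k u`, `sh^k u'`,
`w0 (i_k) = w0 (i'_k)`. `G = ∏ (Y_(i_k) + Y_(i'_k)) - (Y_a + Y_b)^n`. On `w'`: `YR_cycle`,
`YR_fixed`. On `w0`: `P = ∏(..)` has an inverse of norm `≤ (1/(2-1/15))^n`, `Y_a + Y_b` has norm
`≤ 1/15`, so `R = (Y_a+Y_b)^n P⁻¹` has norm `≤ 1/29`, the inverse is `P⁻¹ (1 - R)⁻¹`.
`eps σ w G` has norm `≤ 5^deg` at every word: `31/15 ≤ 5`; `1/16 · 31/15 + (31/15)^2 ≤ 25`;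
`2 (31/15)^n ≤ 5^n`.
-/

namespace Pool.Agent.Ppr

open PowerSeries

variable {ι : Type} {σ : ι → ι} {M : ℕ} {w0 w' : ι → Bool}

private theorem eps_X_SepC (w : ι → Bool) (i : ι) :
    eps σ w (MvPolynomial.X i) = YR (ow σ w i) := by
  simp [eps]

private theorem eps_SepC (w : ι → Bool) (a b : ι) (n : ℕ) (p p' : ℕ → ι) :
    eps σ w (∏ k ∈ Finset.range n, (MvPolynomial.X (p k) + MvPolynomial.X (p' k)) -
      (MvPolynomial.X a + MvPolynomial.X b) ^ n) =
    ∏ k ∈ Finset.range n, (YR (ow σ w (p k)) + YR (ow σ w (p' k))) -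
      (YR (ow σ w a) + YR (ow σ w b)) ^ n := by
  simp only [map_sub, map_prod, map_add, map_pow, eps_X_SepC]

private theorem nrm_add_SepC (M : ℕ) (w : ι → Bool) (a b : ι) :
    nrm M (YR (ow σ w a) + YR (ow σ w b)) ≤ 31 / 15 := by
  have h1 := nrm_add_le M (YR (ow σ w a)) (YR (ow σ w b))
  have h2 := nrm_YR_le M (ow σ w a)
  have h3 := nrm_YR_le M (ow σ w b)
  linarith

private theorem abs_sg_SepC (b : Bool) : |((sg b : ℤ) : ℝ)| = 1 := by
  cases b <;> simp [sg]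

private theorem sg_ne_SepC {b c : Bool} (h : b ≠ c) :
    ((sg c : ℤ) : ℝ) = -((sg b : ℤ) : ℝ) := by
  cases b <;> cases c <;> simp_all [sg]

/-- two points with the same sign -/
private theorem same_SepC {w0 : ι → Bool} {i j : ι} (h : w0 i = w0 j) (M : ℕ) :
    nrm M (YR (ow σ w0 i) + YR (ow σ w0 j) - C (2 * ((sg (w0 i) : ℤ) : ℝ))) ≤ 1 / 15 := by
  have ha := nrm_YR_sub M (ow σ w0 i)
  have hb := nrm_YR_sub M (ow σ w0 j)
  have ea : ow σ w0 i 0 = w0 i := rfl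
  have eb : ow σ w0 j 0 = w0 i := h.symm
  rw [ea] at ha
  rw [eb] at hb
  generalize ((sg (w0 i) : ℤ) : ℝ) = s at *
  have e : YR (ow σ w0 i) + YR (ow σ w0 j) - C (2 * s) =
      (YR (ow σ w0 i) - C s) + (YR (ow σ w0 j) - C s) := by
    rw [two_mul, map_add]
    ring
  rw [e]
  have := nrm_add_le M (YR (ow σ w0 i) - C s) (YR (ow σ w0 j) - C s)
  linarith

/-- two points with different signs -/
private theorem diff_SepC {w0 : ι → Bool} {i j : ι} (h : w0 i ≠ w0 j) (M : ℕ) :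
    nrm M (YR (ow σ w0 i) + YR (ow σ w0 j)) ≤ 1 / 15 := by
  have ha := nrm_YR_sub M (ow σ w0 i)
  have hb := nrm_YR_sub M (ow σ w0 j)
  have ea : ow σ w0 i 0 = w0 i := rfl
  have eb : ow σ w0 j 0 = w0 j := rfl
  rw [ea] at ha
  rw [eb, sg_ne_SepC h] at hb
  generalize ((sg (w0 i) : ℤ) : ℝ) = s at *
  have e : YR (ow σ w0 i) + YR (ow σ w0 j) =
      (YR (ow σ w0 i) - C s) + (YR (ow σ w0 j) - C (-s)) := by
    rw [map_neg]
    ring
  rw [e]
  have := nrm_add_le M (YR (ow σ w0 i) - C s) (YR (ow σ w0 j) - C (-s))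
  linarith

private theorem inv_SepC {w0 : ι → Bool} {i j : ι} (h : w0 i = w0 j) (M : ℕ) :
    ∃ g, (YR (ow σ w0 i) + YR (ow σ w0 j)) * g = 1 ∧ nrm M g ≤ 15 / 29 := by
  have hc : |2 * ((sg (w0 i) : ℤ) : ℝ)| = 2 := by
    rw [abs_mul, abs_sg_SepC, abs_of_nonneg (by norm_num : (0 : ℝ) ≤ 2), mul_one]
  obtain ⟨g, hg⟩ := exists_inv (const_ne_zero one_pos (same_SepC (σ := σ) h 1)
    (by rw [hc]; norm_num))
  refine ⟨g, hg, ?_⟩
  have h2 := nrm_inv_le (same_SepC (σ := σ) h M) (by rw [hc]; norm_num) hg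
  rw [hc] at h2
  refine h2.trans (le_of_eq ?_)
  norm_num

private theorem prod_dvd_SepC {d : PowerSeries ℝ} (f g : ℕ → PowerSeries ℝ) (n : ℕ)
    (h : ∀ k, d ∣ f k - g k) :
    d ∣ ∏ k ∈ Finset.range n, f k - ∏ k ∈ Finset.range n, g k := by
  induction n with
  | zero => simp
  | succ n ih =>
    rw [Finset.prod_range_succ, Finset.prod_range_succ]
    have e : (∏ k ∈ Finset.range n, f k) * f n - (∏ k ∈ Finset.range n, g k) * g n =
        (∏ k ∈ Finset.range n, f k - ∏ k ∈ Finset.range n, g k) * f n +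
          (∏ k ∈ Finset.range n, g k) * (f n - g n) := by ring
    rw [e]
    exact dvd_add (ih.mul_right _) ((h n).mul_left _)

private theorem sh_iter_SepC (u : ℕ → Bool) (k l : ℕ) : (sh^[k] u) l = u (k + l) := by
  induction k generalizing u with
  | zero => rw [Function.iterate_zero_apply, zero_add]
  | succ k ih =>
    rw [Function.iterate_succ_apply, ih]
    show u (k + l + 1) = u (k + 1 + l)
    congr 1
    omega

private theorem hom_SepC (a b : ι) (n : ℕ) (p p' : ℕ → ι) :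
    (∏ k ∈ Finset.range n, (MvPolynomial.X (p k) + MvPolynomial.X (p' k)) -
      (MvPolynomial.X a + MvPolynomial.X b) ^ n : MvPolynomial ι ℝ).IsHomogeneous n := by
  have hX : ∀ l : ι, (MvPolynomial.X l : MvPolynomial ι ℝ).IsHomogeneous 1 :=
    fun l => MvPolynomial.isHomogeneous_X ℝ l
  have h1 := MvPolynomial.IsHomogeneous.prod (Finset.range n)
    (fun k => (MvPolynomial.X (p k) + MvPolynomial.X (p' k) : MvPolynomial ι ℝ)) (fun _ => 1)
    (fun k _ => (hX (p k)).add (hX (p' k)))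
  have h2 := ((hX a).add (hX b)).pow n
  simp only [Finset.sum_const, Finset.card_range, smul_eq_mul, mul_one, one_mul] at h1 h2
  exact h1.sub h2

private theorem cusp_SepC {a b : ι} (ha : ∀ k < M, w' (σ^[k] a) = true)
    (hb : ∀ k < M, w' (σ^[k] b) = false) {n : ℕ} (hn : 0 < n)
    {u u' : ℕ → Bool} (hu : ∀ k, u (k + n) = u k) (hu' : ∀ k, u' (k + n) = u' k)
    (hne : u ≠ u') (p p' : ℕ → ι) (hp : ∀ k, ∀ l < M, w' (σ^[l] (p k)) = u (k + l))
    (hp' : ∀ k, ∀ l < M, w' (σ^[l] (p' k)) = u' (k + l)) :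
    X ^ M ∣ ∏ k ∈ Finset.range n, (YR (ow σ w' (p k)) + YR (ow σ w' (p' k))) -
      (YR (ow σ w' a) + YR (ow σ w' b)) ^ n := by
  have h1 : X ^ M ∣ YR (ow σ w' a) - YR (fun _ => true) :=
    YR_dvd_sub fun k hk => ha k hk
  have h2 : X ^ M ∣ YR (ow σ w' b) - YR (fun _ => false) :=
    YR_dvd_sub fun k hk => hb k hk
  have h3 : X ^ M ∣ (YR (ow σ w' a) + YR (ow σ w' b)) - 4 * X := by
    have e : (YR (ow σ w' a) + YR (ow σ w' b)) - 4 * X =
        (YR (ow σ w' a) - YR (fun _ => true)) + (YR (ow σ w' b) - YR (fun _ => false)) := by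
      rw [← YR_fixed]
      ring
    rw [e]
    exact dvd_add h1 h2
  have h4 : X ^ M ∣ (YR (ow σ w' a) + YR (ow σ w' b)) ^ n - (4 * X) ^ n :=
    h3.trans (sub_dvd_pow_sub_pow _ _ n)
  have h5 := prod_dvd_SepC (d := X ^ M)
    (fun k => YR (ow σ w' (p k)) + YR (ow σ w' (p' k)))
    (fun k => YR (sh^[k] u) + YR (sh^[k] u')) n (fun k => by
      have g1 : X ^ M ∣ YR (ow σ w' (p k)) - YR (sh^[k] u) :=
        YR_dvd_sub fun l hl => by
          rw [sh_iter_SepC]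
          exact hp k l hl
      have g2 : X ^ M ∣ YR (ow σ w' (p' k)) - YR (sh^[k] u') :=
        YR_dvd_sub fun l hl => by
          rw [sh_iter_SepC]
          exact hp' k l hl
      have e : (YR (ow σ w' (p k)) + YR (ow σ w' (p' k))) - (YR (sh^[k] u) + YR (sh^[k] u')) =
          (YR (ow σ w' (p k)) - YR (sh^[k] u)) + (YR (ow σ w' (p' k)) - YR (sh^[k] u')) := by
        ring
      rw [e]
      exact dvd_add g1 g2)
  rw [YR_cycle n hn u u' hu hu' hne] at h5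
  have e : ∏ k ∈ Finset.range n, (YR (ow σ w' (p k)) + YR (ow σ w' (p' k))) -
      (YR (ow σ w' a) + YR (ow σ w' b)) ^ n =
      (∏ k ∈ Finset.range n, (YR (ow σ w' (p k)) + YR (ow σ w' (p' k))) - (4 * X) ^ n) -
        ((YR (ow σ w' a) + YR (ow σ w' b)) ^ n - (4 * X) ^ n) := by ring
  rw [e]
  exact dvd_sub h5 h4

private theorem unit_SepC {w0 : ι → Bool} {a b : ι} (hab : w0 a ≠ w0 b) {n : ℕ} (hn : 0 < n)
    (p p' : ℕ → ι) (h0 : ∀ k, w0 (p k) = w0 (p' k)) (M : ℕ) :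
    ∃ inv : PowerSeries ℝ,
      (∏ k ∈ Finset.range n, (YR (ow σ w0 (p k)) + YR (ow σ w0 (p' k))) -
        (YR (ow σ w0 a) + YR (ow σ w0 b)) ^ n) * inv = 1 ∧ nrm M inv ≤ 1 := by
  choose g hg hgn using fun (K k : ℕ) => inv_SepC (σ := σ) (h0 k) K
  set R := YR (ow σ w0 a) + YR (ow σ w0 b) with hR
  have key : ∀ K, nrm K (R ^ n * ∏ k ∈ Finset.range n, g K k) ≤ 1 / 29 := by
    intro K
    have k1 := nrm_mul_le K (R ^ n) (∏ k ∈ Finset.range n, g K k)
    have k2 := nrm_pow_le K n R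
    have k3 := nrm_prod_le K (Finset.range n) (g K)
    have k4 : ∏ k ∈ Finset.range n, nrm K (g K k) ≤ (15 / 29) ^ n := by
      have := Finset.prod_le_prod (s := Finset.range n) (f := fun k => nrm K (g K k))
        (g := fun _ => (15 / 29 : ℝ)) (fun k _ => nrm_nonneg K _) (fun k _ => hgn K k)
      rwa [Finset.prod_const, Finset.card_range] at this
    have k5 : nrm K R ^ n ≤ (1 / 15) ^ n :=
      pow_le_pow_left₀ (nrm_nonneg K R) (diff_SepC hab K) n
    have k6 : nrm K (R ^ n) * nrm K (∏ k ∈ Finset.range n, g K k) ≤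
        (1 / 15) ^ n * (15 / 29) ^ n :=
      mul_le_mul (k2.trans k5) (k3.trans k4) (nrm_nonneg _ _) (by positivity)
    have k7 : (1 / 15 : ℝ) ^ n * (15 / 29) ^ n = (1 / 29) ^ n := by
      rw [← mul_pow]
      norm_num
    have k8 : (1 / 29 : ℝ) ^ n ≤ (1 / 29) ^ 1 :=
      pow_le_pow_of_le_one (by norm_num) (by norm_num) hn
    rw [pow_one] at k8
    linarith
  have hprod : ∀ K, (∏ k ∈ Finset.range n, (YR (ow σ w0 (p k)) + YR (ow σ w0 (p' k)))) *
      ∏ k ∈ Finset.range n, g K k = 1 := by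
    intro K
    rw [← Finset.prod_mul_distrib]
    exact Finset.prod_eq_one fun k _ => hg K k
  have hsame : ∏ k ∈ Finset.range n, g M k = ∏ k ∈ Finset.range n, g 1 k := by
    have e1 := hprod M
    have e2 := hprod 1
    calc ∏ k ∈ Finset.range n, g M k = (∏ k ∈ Finset.range n, g M k) *
          ((∏ k ∈ Finset.range n, (YR (ow σ w0 (p k)) + YR (ow σ w0 (p' k)))) *
            ∏ k ∈ Finset.range n, g 1 k) := by rw [e2, mul_one]
      _ = ((∏ k ∈ Finset.range n, (YR (ow σ w0 (p k)) + YR (ow σ w0 (p' k)))) *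
            ∏ k ∈ Finset.range n, g M k) * ∏ k ∈ Finset.range n, g 1 k := by ring
      _ = ∏ k ∈ Finset.range n, g 1 k := by rw [e1, one_mul]
  set G := ∏ k ∈ Finset.range n, g M k with hG
  set P := ∏ k ∈ Finset.range n, (YR (ow σ w0 (p k)) + YR (ow σ w0 (p' k))) with hP
  have hδ : ∀ K, nrm K (R ^ n * G) ≤ 1 / 29 → nrm K ((1 - R ^ n * G) - C 1) ≤ 1 / 29 := by
    intro K hK
    have e : (1 - R ^ n * G) - C 1 = -(R ^ n * G) := by
      rw [map_one]
      ring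
    rw [e, nrm_neg]
    exact hK
  have hk1 : nrm 1 (R ^ n * G) ≤ 1 / 29 := by
    rw [hsame]
    exact key 1
  obtain ⟨h, hh⟩ := exists_inv (const_ne_zero one_pos (hδ 1 hk1) (by norm_num))
  have hhn := nrm_inv_le (hδ M (key M)) (by norm_num) hh
  refine ⟨G * h, ?_, ?_⟩
  · calc (P - R ^ n) * (G * h) = (P * G - R ^ n * G) * h := by ring
      _ = (1 - R ^ n * G) * h := by rw [hprod M]
      _ = 1 := hh
  · have m1 := nrm_mul_le M G h
    have m2 : nrm M G ≤ 15 / 29 := by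
      have m3 := nrm_prod_le M (Finset.range n) (g M)
      have m4 := Finset.prod_le_prod (s := Finset.range n) (f := fun k => nrm M (g M k))
        (g := fun _ => (15 / 29 : ℝ)) (fun k _ => nrm_nonneg M _) (fun k _ => hgn M k)
      have m5 : ∏ k ∈ Finset.range n, nrm M (g M k) ≤ (15 / 29) ^ n := by
        rwa [Finset.prod_const, Finset.card_range] at m4
      have m6 : (15 / 29 : ℝ) ^ n ≤ (15 / 29) ^ 1 :=
        pow_le_pow_of_le_one (by norm_num) (by norm_num) hn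
      rw [pow_one] at m6
      linarith
    have m7 : nrm M h ≤ 29 / 28 := by
      refine hhn.trans (le_of_eq ?_)
      norm_num
    have m8 : nrm M G * nrm M h ≤ 15 / 29 * (29 / 28) :=
      mul_le_mul m2 m7 (nrm_nonneg _ _) (by norm_num)
    have m9 : (15 / 29 * (29 / 28) : ℝ) ≤ 1 := by norm_num
    linarith

private theorem bound_SepC (w : ι → Bool) (a b : ι) {n : ℕ} (hn : 0 < n) (p p' : ℕ → ι)
    (M : ℕ) :
    nrm M (∏ k ∈ Finset.range n, (YR (ow σ w (p k)) + YR (ow σ w (p' k))) -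
      (YR (ow σ w a) + YR (ow σ w b)) ^ n) ≤ 5 ^ n := by
  have h1 := nrm_sub_le M (∏ k ∈ Finset.range n, (YR (ow σ w (p k)) + YR (ow σ w (p' k))))
    ((YR (ow σ w a) + YR (ow σ w b)) ^ n)
  have h2 := nrm_pow_le M n (YR (ow σ w a) + YR (ow σ w b))
  have h3 := nrm_prod_le M (Finset.range n)
    (fun k => YR (ow σ w (p k)) + YR (ow σ w (p' k)))
  have h4 : ∏ k ∈ Finset.range n, nrm M (YR (ow σ w (p k)) + YR (ow σ w (p' k))) ≤
      (5 / 2) ^ n := by
    have := Finset.prod_le_prod (s := Finset.range n)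
      (f := fun k => nrm M (YR (ow σ w (p k)) + YR (ow σ w (p' k))))
      (g := fun _ => (5 / 2 : ℝ)) (fun k _ => nrm_nonneg M _)
      (fun k _ => (nrm_add_SepC M w _ _).trans (by norm_num))
    rwa [Finset.prod_const, Finset.card_range] at this
  have h5 : nrm M (YR (ow σ w a) + YR (ow σ w b)) ^ n ≤ (5 / 2) ^ n :=
    pow_le_pow_left₀ (nrm_nonneg _ _) ((nrm_add_SepC M w a b).trans (by norm_num)) n
  have h6 : (5 : ℝ) ^ n = 2 ^ n * (5 / 2) ^ n := by
    rw [← mul_pow]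
    norm_num
  have h7 : (2 : ℝ) ^ 1 ≤ 2 ^ n := pow_le_pow_right₀ (by norm_num) hn
  have h8 : (0 : ℝ) < (5 / 2) ^ n := by positivity
  rw [pow_one] at h7
  have h9 : 2 * (5 / 2 : ℝ) ^ n ≤ 2 ^ n * (5 / 2) ^ n :=
    mul_le_mul_of_nonneg_right h7 h8.le
  linarith

theorem sep_cycle {a b : ι} (ha : ∀ k < M, w' (σ^[k] a) = true)
    (hb : ∀ k < M, w' (σ^[k] b) = false) (hab : w0 a ≠ w0 b) {n : ℕ} (hn : 0 < n)
    {u u' : ℕ → Bool} (hu : ∀ k, u (k + n) = u k) (hu' : ∀ k, u' (k + n) = u' k)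
    (hne : u ≠ u') (p p' : ℕ → ι) (hp : ∀ k, ∀ l < M, w' (σ^[l] (p k)) = u (k + l))
    (hp' : ∀ k, ∀ l < M, w' (σ^[l] (p' k)) = u' (k + l)) (h0 : ∀ k, w0 (p k) = w0 (p' k)) :
    IsSep σ M w0 w' n (∏ k ∈ Finset.range n, (MvPolynomial.X (p k) + MvPolynomial.X (p' k)) -
      (MvPolynomial.X a + MvPolynomial.X b) ^ n) := by
  refine ⟨hom_SepC a b n p p', ?_, ?_, ?_⟩
  · rw [eps_SepC]
    exact cusp_SepC ha hb hn hu hu' hne p p' hp hp'
  · rw [eps_SepC]
    exact unit_SepC hab hn p p' h0 M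
  · intro w
    rw [eps_SepC]
    exact bound_SepC w a b hn p p' M

end Pool.Agent.Ppr
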