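import Pool.Agent.Ppr.SepA
import Pool.Agent.Ppr.SepB
import Pool.Agent.Ppr.SepC
import Pool.Agent.Ppr.Hed

/-!
# Separators: a form that vanishes at the cusp `w'` and is a unit at the cusp `w0`

`Good`: the conclusion. Four cases:
`sep_sub`: `G = (Y_i - Y_j)^k`, `w0 i ≠ w0 j`, the `b` first letters of `i`, `j` in `w'` agree,
`M ≤ k b`. On `w0`: `Y_i - Y_j = ±2 + (norm ≤ 1/15)`, inverse of norm `≤ 1/(2 - 1/15) ≤ 1`.
`sep_add`: `G = (Y_i + Y_j)^k`, `w0 i = w0 j`, `w' i ≠ w' j`, the letters `1..b-1` agree.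
`sep_quad`: `a`, `b` with the `w'`-windows `+^M`, `-^M` and `w0 a = w0 b`; `i`, `j` with
`w0 (σ i) ≠ w0 (σ j)`; `G = Y_i^2 - Y_j^2 - (Y_a + Y_b)(Y_(σ i) - Y_(σ j))`. On `w'`:
`Y_a + Y_b = 4X mod X^M` (`YR_fixed`, `YR_dvd_sub`) and `Y_i^2 - Y_j^2 = 4X (Y_(σi) - Y_(σj))`.
On `w0`: constant term `∓4`; `Y_i^2 - Y_j^2 = 4X(..)` has norm `≤ (1/16)(31/15)`, the product
differs from `±4` by at most `4 (1/30 + 1/30 + 1/900)`; total `< 1`; inverse of norm `≤ 1/3`.
`sep_cycle`: the periodic words `u ≠ u'` of period `n`, `a`, `b` with `w'`-windows `+^M`, `-^M`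
and `w0 a ≠ w0 b`; `i_k`, `i'_k` with `w'`-windows the first `M` letters of `sh^k u`, `sh^k u'`,
`w0 (i_k) = w0 (i'_k)`. `G = ∏ (Y_(i_k) + Y_(i'_k)) - (Y_a + Y_b)^n`. On `w'`: `YR_cycle`,
`YR_fixed`. On `w0`: `P = ∏(..)` has an inverse of norm `≤ (1/(2-1/15))^n`, `Y_a + Y_b` has norm
`≤ 1/15`, so `R = (Y_a+Y_b)^n P⁻¹` has norm `≤ 1/29`, the inverse is `P⁻¹ (1 - R)⁻¹`.
`eps σ w G` has norm `≤ 5^deg` at every word: `31/15 ≤ 5`; `1/16 · 31/15 + (31/15)^2 ≤ 25`;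
`2 (31/15)^n ≤ 5^n`.
-/

namespace Pool.Agent.Ppr

open PowerSeries

variable {ι : Type} {σ : ι → ι} {M : ℕ} {w0 w' : ι → Bool}

/-- prescribed letters -/
private theorem win_SepD {b : ℕ} (hbM : b + 1 ≤ M) (hfull : full σ w' M) (x : Fin b → Bool)
    (c : Bool) : ∃ i, w' i = c ∧ ∀ l : Fin b, w' (σ^[l.1 + 1] i) = x l := by
  obtain ⟨i, hi⟩ := hfull (fun k => if h : 0 < k.1 ∧ k.1 - 1 < b then x ⟨k.1 - 1, h.2⟩ else c)
  refine ⟨i, ?_, fun l => ?_⟩
  · have h1 := congrFun hi ⟨0, by omega⟩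
    have h2 : w' (σ^[0] i) = c := by
      refine h1.trans (dif_neg ?_)
      intro h
      exact absurd h.1 (lt_irrefl _)
    exact h2
  · have h1 := congrFun hi ⟨l.1 + 1, by omega⟩
    have h3 : 0 < l.1 + 1 ∧ l.1 + 1 - 1 < b := ⟨Nat.succ_pos _, by simp⟩
    have h2 : w' (σ^[l.1 + 1] i) = x ⟨l.1 + 1 - 1, h3.2⟩ := h1.trans (dif_pos h3)
    rw [h2]
    congr 1

/-- every pair of different cusps has a separator -/
theorem exists_sep {b : ℕ} (hb : 0 < b) (hbM : b ≤ M) (hfull : full σ w' M)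
    (hfull0 : full σ w0 M) (hM : 2 ≤ M) (hne : w0 ≠ w') (hne' : w0 ≠ fun i => !(w' i)) :
    ∃ g G, g ≤ M / b + 4 ^ b + 1 ∧ IsSep σ M w0 w' g G := by
  classical
  have hk : M ≤ (M / b + 1) * b := by
    have h1 := Nat.div_add_mod M b
    have h2 := Nat.mod_lt M hb
    rw [add_mul, one_mul, mul_comm (M / b) b]
    omega
  have h4 : 4 ≤ 4 ^ b := Nat.le_self_pow hb.ne' 4
  have hk2 : M / b + 1 ≤ M / b + 4 ^ b + 1 := by omega
  by_cases c1 : ∃ i j, w0 i ≠ w0 j ∧ agr σ w' b i j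
  · obtain ⟨i, j, h0, h⟩ := c1
    exact ⟨_, _, hk2, sep_sub h0 h hk⟩
  by_cases c2 : ∃ i j, w0 i = w0 j ∧ w' i ≠ w' j ∧
      ∀ l, 0 < l → l < b → w' (σ^[l] i) = w' (σ^[l] j)
  · obtain ⟨i, j, h0, h1, h⟩ := c2
    exact ⟨_, _, hk2, sep_add h0 h1 h hk⟩
  push Not at c1 c2
  obtain ⟨a, ha⟩ := hfull (fun _ => true)
  obtain ⟨a', ha'⟩ := hfull (fun _ => false)
  have ha1 : ∀ k < M, w' (σ^[k] a) = true := fun k hk => congrFun ha ⟨k, hk⟩
  have ha1' : ∀ k < M, w' (σ^[k] a') = false := fun k hk => congrFun ha' ⟨k, hk⟩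
  by_cases hab : w0 a = w0 a'
  · obtain ⟨i, hi⟩ := hfull0 (fun _ => true)
    obtain ⟨j, hj⟩ := hfull0 (fun _ => false)
    have hi1 : w0 (σ i) = true := congrFun hi ⟨1, hM⟩
    have hj1 : w0 (σ j) = false := congrFun hj ⟨1, hM⟩
    refine ⟨_, _, ?_, sep_quad ha1 ha1' hab (i := i) (j := j) ?_⟩
    · have := Nat.zero_le (M / b)
      omega
    · rw [hi1, hj1]
      exact Bool.true_eq_false_eq_False
  obtain ⟨m, rfl⟩ : ∃ m, b = m + 1 := ⟨b - 1, by omega⟩
  have hwin := win_SepD (σ := σ) hbM hfull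
  choose J hJ1 hJ2 using fun x => hwin x true
  let ψ : (Fin m → Bool) → Bool := fun x => xor (w' (J x)) (w0 (J x))
  have hψ : ∀ i, w0 i = xor (w' i) (ψ fun l : Fin m => w' (σ^[l.1 + 1] i)) := by
    intro i
    have e1 := hJ2 (fun l : Fin m => w' (σ^[l.1 + 1] i))
    generalize hj : J (fun l : Fin m => w' (σ^[l.1 + 1] i)) = j at e1
    show w0 i = xor (w' i) (xor (w' (J _)) (w0 (J _)))
    rw [hj]
    have e2 : ∀ l, 0 < l → l < m + 1 → w' (σ^[l] i) = w' (σ^[l] j) := by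
      intro l hl0 hl
      have e3 := e1 ⟨l - 1, by omega⟩
      have e4 : l - 1 + 1 = l := by omega
      simp only [e4] at e3
      exact e3.symm
    by_cases e5 : w' i = w' j
    · have e6 : w0 i = w0 j := by
        by_contra hcon
        refine c1 i j hcon ?_
        intro l hl
        rcases Nat.eq_zero_or_pos l with hl0 | hl0
        · rw [hl0]
          exact e5
        · exact e2 l hl0 hl
      rw [e5, e6]
      cases w' j <;> cases w0 j <;> rfl
    · have e6 : w0 i ≠ w0 j := by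
        intro hcon
        obtain ⟨l, hl0, hl, hl'⟩ := c2 i j hcon e5
        exact hl' (e2 l hl0 hl)
      revert e5 e6
      cases w' i <;> cases w' j <;> cases w0 i <;> cases w0 j <;> simp
  have hnc : ∃ x y, ψ x ≠ ψ y := by
    by_contra hcon
    push Not at hcon
    have h1 : ∀ i, w0 i = xor (w' i) (ψ fun _ => true) := by
      intro i
      rw [hψ i, hcon _ fun _ => true]
    cases hc : ψ (fun _ => true)
    · refine hne (funext fun i => ?_)
      rw [h1 i, hc]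
      cases w' i <;> rfl
    · refine hne' (funext fun i => ?_)
      rw [h1 i, hc]
      cases w' i <;> rfl
  obtain ⟨n, hn, hn4, u, u', hu, hu', huu, himg⟩ := collision ψ hnc
  choose p hp using fun k : ℕ => hfull (fun l => u (k + l.1))
  choose p' hp' using fun k : ℕ => hfull (fun l => u' (k + l.1))
  have q1 : ∀ k, ∀ l < M, w' (σ^[l] (p k)) = u (k + l) := fun k l hl => congrFun (hp k) ⟨l, hl⟩
  have q1' : ∀ k, ∀ l < M, w' (σ^[l] (p' k)) = u' (k + l) :=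
    fun k l hl => congrFun (hp' k) ⟨l, hl⟩
  have q2 : ∀ k, w0 (p k) = img ψ u k := by
    intro k
    rw [hψ (p k)]
    unfold img
    have e1 : w' (p k) = u k := q1 k 0 (by omega)
    have e2 : (fun l : Fin m => w' (σ^[l.1 + 1] (p k))) = fun i : Fin m => u (k + 1 + i.1) := by
      funext l
      rw [q1 k (l.1 + 1) (by omega)]
      congr 1
      omega
    rw [e1, e2]
  have q2' : ∀ k, w0 (p' k) = img ψ u' k := by
    intro k
    rw [hψ (p' k)]
    unfold img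
    have e1 : w' (p' k) = u' k := q1' k 0 (by omega)
    have e2 : (fun l : Fin m => w' (σ^[l.1 + 1] (p' k))) = fun i : Fin m => u' (k + 1 + i.1) := by
      funext l
      rw [q1' k (l.1 + 1) (by omega)]
      congr 1
      omega
    rw [e1, e2]
  refine ⟨n, _, ?_, sep_cycle ha1 ha1' hab hn hu hu' huu p p' q1 q1' fun k => ?_⟩
  · have h5 : 4 ^ m ≤ 4 ^ (m + 1) := Nat.pow_le_pow_right (by norm_num) (Nat.le_succ m)
    have := Nat.zero_le (M / (m + 1))
    omega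
  · rw [q2, q2', himg]

end Pool.Agent.Ppr
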