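import Pool.Agent.Ppr.Defs

/-!
# Separators: the definition
-/

namespace Pool.Agent.Ppr

open PowerSeries

/-- `G` is a separator of degree `g` of `w0` from `w'` -/
def IsSep {ι : Type} (σ : ι → ι) (M : ℕ) (w0 w' : ι → Bool) (g : ℕ)
    (G : MvPolynomial ι ℝ) : Prop :=
  G.IsHomogeneous g ∧ X ^ M ∣ eps σ w' G ∧
    (∃ inv : PowerSeries ℝ, eps σ w0 G * inv = 1 ∧ nrm M inv ≤ 1) ∧
    ∀ w : ι → Bool, nrm M (eps σ w G) ≤ 5 ^ g

end Pool.Agent.Ppr
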