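import Pool.Agent.Ppr.Defs

/-!
# Algebraic facts on the series `Y v`

`Y_sq`: compare coefficients: in degree `0` `sg^2 = 1`; in degree `1`
`2 sg · 2 W 1 = 4 Z 0 (sh v)`; in degree `k+1 ≥ 2`, with `Z a = 2 W a` (`a ≥ 1`):
`2 sg · 2 W (k+1) + 4 ∑ W (a+1) W (k-a) = 4 Z k (sh v)`, which is the recursion times `4 sg`.
`Y_neg`: `W k` changes sign with the first letter (induction), or uniqueness.
`Y_inj`: constant terms and `Y_sq` (cancel `4 X`), induction.
`Y_cycle`: `Y_k^2 - Y'_k^2 = 4 X (Y_(k+1) - Y'_(k+1))`; the product over a period of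
`Y_k - Y'_k` is not zero (`u`, `u'` periodic and different, so all shifts are different) and
cancels (`PowerSeries ℤ` is a domain).
-/

namespace Pool.Agent.Ppr

open PowerSeries

theorem sg_sq (b : Bool) : sg b * sg b = 1 := by
  cases b <;> rfl

theorem sg_not (b : Bool) : sg (!b) = -sg b := by
  cases b <;> rfl

private theorem W_zero_SerA (v : ℕ → Bool) : W 0 v = sg (v 0) := by
  rw [W]

private theorem W_succ_SerA (k : ℕ) (v : ℕ → Bool) :
    W (k + 1) v = sg (v 0) * ((if k = 0 then 1 else 2) * W k (sh v) -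
      ∑ a : Fin k, W (a.1 + 1) v * W (k - a.1) v) := by
  rw [W]

private theorem W_congr_SerA (j : ℕ) : ∀ v v' : ℕ → Bool, (∀ k ≤ j, v k = v' k) →
    W j v = W j v' := by
  induction j using Nat.strong_induction_on with
  | _ j ih =>
    intro v v' h
    rcases j with _ | k
    · rw [W_zero_SerA, W_zero_SerA, h 0 le_rfl]
    · rw [W_succ_SerA, W_succ_SerA, h 0 (Nat.zero_le _),
        ih k (Nat.lt_succ_self k) (sh v) (sh v') (fun i hi => h (i + 1) (by omega))]
      congr 2
      refine Finset.sum_congr rfl fun a _ => ?_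
      have ha := a.2
      rw [ih (a.1 + 1) (by omega) v v' (fun i hi => h i (by omega)),
        ih (k - a.1) (by omega) v v' (fun i hi => h i (by omega))]

/-- the coefficient of order `j` depends on the first `j+1` letters only -/
theorem Z_congr {j : ℕ} {v v' : ℕ → Bool} (h : ∀ k ≤ j, v k = v' k) : Z j v = Z j v' := by
  unfold Z
  rw [W_congr_SerA j v v' h, h 0 (Nat.zero_le _)]

theorem Y_const (v : ℕ → Bool) : constantCoeff (Y v) = sg (v 0) := by
  rw [← coeff_zero_eq_constantCoeff_apply, Y, coeff_mk]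
  rfl

theorem Y_sq (v : ℕ → Bool) : Y v ^ 2 = 1 + 4 * X * Y (sh v) := by
  have hsq := sg_sq (v 0)
  have hr : (1 : PowerSeries ℤ) + 4 * X * Y (sh v) =
      1 + X * (Y (sh v) + Y (sh v) + Y (sh v) + Y (sh v)) := by
    ring
  rw [hr]
  ext n
  rw [pow_two, coeff_mul,
    Finset.Nat.sum_antidiagonal_eq_sum_range_succ (fun i j => coeff i (Y v) * coeff j (Y v))]
  have hc : ∀ (i : ℕ) (u : ℕ → Bool), coeff i (Y u) = Z i u := fun i u => by
    rw [Y, coeff_mk]
  simp only [hc]
  rcases n with _ | k
  · rw [map_add, coeff_zero_X_mul, coeff_zero_one, Finset.sum_range_one, add_zero]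
    exact hsq
  · rw [map_add, coeff_succ_X_mul, map_add, map_add, map_add, hc, coeff_one,
      if_neg (Nat.succ_ne_zero k), zero_add, Finset.sum_range_succ, Finset.sum_range_succ']
    have h0 : Z 0 v = sg (v 0) := rfl
    have hk : Z (k + 1) v = 2 * W (k + 1) v := rfl
    have hs : ∑ i ∈ Finset.range k, Z (i + 1) v * Z (k + 1 - (i + 1)) v =
        4 * ∑ a : Fin k, W (a.1 + 1) v * W (k - a.1) v := by
      rw [Fin.sum_univ_eq_sum_range (fun a => W (a + 1) v * W (k - a) v), Finset.mul_sum]
      refine Finset.sum_congr rfl fun i hi => ?_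
      rw [Finset.mem_range] at hi
      have e1 : Z (i + 1) v = 2 * W (i + 1) v := rfl
      have e2 : Z (k + 1 - (i + 1)) v = 2 * W (k - i) v := by
        rw [Nat.add_sub_add_right]
        unfold Z
        rw [if_neg (by omega)]
      rw [e1, e2]
      ring
    have hz : Z k (sh v) = (if k = 0 then 1 else 2) * W k (sh v) := by
      unfold Z
      by_cases h : k = 0
      · subst h
        rw [if_pos rfl, if_pos rfl, W_zero_SerA, one_mul]
      · rw [if_neg h, if_neg h]
    rw [hs, Nat.sub_zero, Nat.sub_self, h0, hk, hz, W_succ_SerA]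
    generalize (∑ a : Fin k, W (a.1 + 1) v * W (k - a.1) v) = T
    generalize ((if k = 0 then 1 else 2) * W k (sh v)) = U
    linear_combination (4 * U - 4 * T) * hsq

end Pool.Agent.Ppr
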