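import Pool.Agent.Ppr.SerA

/-!
# Algebraic facts on the series `Y v`

`Y_sq`: compare coefficients: in degree `0` `sg^2 = 1`; in degree `1`
`2 sg · 2 W 1 = 4 Z 0 (sh v)`; in degree `k+1 ≥ 2`, with `Z a = 2 W a` (`a ≥ 1`):
`2 sg · 2 W (k+1) + 4 ∑ W (a+1) W (k-a) = 4 Z k (sh v)`, which is the recursion times `4 sg`.
`Y_neg`: `W k` changes sign with the first letter (induction), or uniqueness.
`Y_inj`: constant terms and `Y_sq` (cancel `4 X`), induction.
`Y_cycle`: `Y_k^2 - Y'_k^2 = 4 X (Y_(k+1) - Y'_(k+1))`; the product over a period of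
`Y_k - Y'_k` is not zero (`u`, `u'` periodic and different, so all shifts are different) and
cancels (`PowerSeries ℤ` is a domain).
-/

namespace Pool.Agent.Ppr

open PowerSeries

private theorem SerB_sg_inj {a b : Bool} (h : sg a = sg b) : a = b := by
  revert h
  cases a <;> cases b <;> simp [sg]

private theorem SerB_iter (v : ℕ → Bool) (k j : ℕ) : (sh^[k] v) j = v (j + k) := by
  induction k generalizing v j with
  | zero => rfl
  | succ k ih =>
    rw [Function.iterate_succ_apply, ih]
    show v (j + k + 1) = v (j + (k + 1))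
    rfl

private theorem SerB_four : (4 * X : PowerSeries ℤ) ≠ 0 := by
  refine mul_ne_zero ?_ X_ne_zero
  intro h
  have h1 := congrArg constantCoeff h
  rw [map_zero, map_ofNat] at h1
  norm_num at h1

theorem Y_neg {v v' : ℕ → Bool} (h0 : v' 0 = !v 0) (h : sh v' = sh v) : Y v' = -Y v := by
  have h1 : Y v' ^ 2 = Y v ^ 2 := by rw [Y_sq, Y_sq, h]
  rcases sq_eq_sq_iff_eq_or_eq_neg.1 h1 with h2 | h2
  · exfalso
    have h3 := congrArg constantCoeff h2
    rw [Y_const, Y_const, h0, sg_not] at h3
    have h4 := sg_sq (v 0)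
    have h5 : sg (v 0) = 0 := by linarith
    rw [h5] at h4
    norm_num at h4
  · exact h2

theorem Y_inj {v v' : ℕ → Bool} (h : Y v = Y v') : v = v' := by
  funext k
  induction k generalizing v v' with
  | zero =>
    have h1 := congrArg constantCoeff h
    rw [Y_const, Y_const] at h1
    exact SerB_sg_inj h1
  | succ k ih =>
    have h1 : 4 * X * Y (sh v) = 4 * X * Y (sh v') := by
      have h2 := Y_sq v
      have h3 := Y_sq v'
      rw [h] at h2
      exact add_left_cancel (h2.symm.trans h3)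
    exact ih (mul_left_cancel₀ SerB_four h1)

theorem Y_cycle (n : ℕ) (hn : 0 < n) (u u' : ℕ → Bool) (hu : ∀ k, u (k + n) = u k)
    (hu' : ∀ k, u' (k + n) = u' k) (hne : u ≠ u') :
    ∏ k ∈ Finset.range n, (Y (sh^[k] u) + Y (sh^[k] u')) = (4 * X) ^ n := by
  have hper : ∀ v : ℕ → Bool, (∀ k, v (k + n) = v k) → ∀ m j, v (j + m * n) = v j := by
    intro v hv m
    induction m with
    | zero => intro j; rw [Nat.zero_mul, Nat.add_zero]
    | succ m ih =>
      intro j
      have h1 : j + (m + 1) * n = j + m * n + n := by ring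
      rw [h1, hv, ih]
  have hfix : ∀ v : ℕ → Bool, (∀ k, v (k + n) = v k) → sh^[n] v = v := by
    intro v hv
    funext j
    rw [SerB_iter, hv]
  have hne' : ∀ k, Y (sh^[k] u) - Y (sh^[k] u') ≠ 0 := by
    intro k h
    apply hne
    have h1 := Y_inj (sub_eq_zero.1 h)
    funext j
    have h2 : j + k * n = j + k * n - k + k := by
      have : k ≤ k * n := Nat.le_mul_of_pos_right k hn
      omega
    have h3 := congrFun h1 (j + k * n - k)
    rw [SerB_iter, SerB_iter, ← h2, hper u hu, hper u' hu'] at h3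
    exact h3
  have hstep : ∀ k, (Y (sh^[k] u) - Y (sh^[k] u')) * (Y (sh^[k] u) + Y (sh^[k] u')) =
      4 * X * (Y (sh^[k + 1] u) - Y (sh^[k + 1] u')) := by
    intro k
    have h1 := Y_sq (sh^[k] u)
    have h2 := Y_sq (sh^[k] u')
    rw [Function.iterate_succ_apply', Function.iterate_succ_apply']
    linear_combination h1 - h2
  have hprod : (∏ k ∈ Finset.range n, (Y (sh^[k] u) - Y (sh^[k] u'))) *
      ∏ k ∈ Finset.range n, (Y (sh^[k] u) + Y (sh^[k] u')) =
      (∏ k ∈ Finset.range n, (Y (sh^[k] u) - Y (sh^[k] u'))) * (4 * X) ^ n := by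
    rw [← Finset.prod_mul_distrib, Finset.prod_congr rfl fun k _ => hstep k,
      Finset.prod_mul_distrib, Finset.prod_const, Finset.card_range, mul_comm]
    congr 1
    have h1 := Finset.prod_range_succ (fun k => Y (sh^[k] u) - Y (sh^[k] u')) n
    have h2 := Finset.prod_range_succ' (fun k => Y (sh^[k] u) - Y (sh^[k] u')) n
    have h3 : Y (sh^[n] u) - Y (sh^[n] u') = Y (sh^[0] u) - Y (sh^[0] u') := by
      rw [hfix u hu, hfix u' hu']
      rfl
    rw [h1, h3] at h2
    exact (mul_right_cancel₀ (hne' 0) h2).symm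
  exact mul_left_cancel₀ (Finset.prod_ne_zero_iff.2 fun k _ => hne' k) hprod

end Pool.Agent.Ppr
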